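import Mathlib

/-!
# MP_b0e20b_ag, formats (n,1,1): an orthonormal basis of the vectors with sum zero
-/

set_option autoImplicit false

open scoped BigOperators

namespace Pool.Agent.MPb0eP

/-- Proof. The vectors of sum zero in `EuclideanSpace ℝ (Fin (n + 1))` are the orthogonal complement
of the vector `(1, ..., 1)`, of dimension `n`; take an orthonormal basis of it
(`stdOrthonormalBasis` with `Submodule.finrank_orthogonal_span_singleton` or the like). -/
theorem exists_frame (n : ℕ) : ∃ e : Fin n → Fin (n + 1) → ℝ, (∀ i, ∑ j, e i j = 0) ∧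
    ∀ i i', ∑ j, e i j * e i' j = if i = i' then 1 else 0 := by
  classical
  have : Fact (Module.finrank ℝ (EuclideanSpace ℝ (Fin (n + 1))) = n + 1) :=
    ⟨by simp⟩
  obtain ⟨v, hv⟩ : ∃ v : EuclideanSpace ℝ (Fin (n + 1)), v = WithLp.toLp 2 (fun _ => (1 : ℝ)) :=
    ⟨_, rfl⟩
  have hv1 : ∀ j, v j = 1 := fun j => by rw [hv]
  have hv0 : v ≠ 0 := by
    intro h
    have h1 := hv1 0
    rw [h] at h1
    exact zero_ne_one h1
  have hfr := Submodule.finrank_orthogonal_span_singleton (𝕜 := ℝ) (n := n) hv0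
  obtain ⟨b, -⟩ : ∃ b : OrthonormalBasis (Fin n) ℝ (Submodule.span ℝ {v})ᗮ, True :=
    ⟨(stdOrthonormalBasis ℝ _).reindex (finCongr hfr), trivial⟩
  have hin : ∀ x y : EuclideanSpace ℝ (Fin (n + 1)), inner ℝ x y = ∑ j, x j * y j := by
    intro x y
    rw [PiLp.inner_apply]
    refine Finset.sum_congr rfl fun j _ => ?_
    simp [mul_comm]
  refine ⟨fun i j => (b i : EuclideanSpace ℝ (Fin (n + 1))) j, ?_, ?_⟩
  · intro i
    have h1 := Submodule.mem_orthogonal_singleton_iff_inner_right.1 (b i).2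
    rw [hin] at h1
    simpa [hv1] using h1
  · intro i i'
    have h1 := b.inner_eq_ite i i'
    rw [← hin]
    exact h1

/-- The basis. -/
noncomputable def fr (n : ℕ) : Fin n → Fin (n + 1) → ℝ := Classical.choose (exists_frame n)

theorem fr_sum (n : ℕ) (i : Fin n) : ∑ j, (fr n i j : ℂ) = 0 := by
  have h := (Classical.choose_spec (exists_frame n)).1 i
  have h1 : ∑ j, fr n i j = 0 := h
  exact_mod_cast congrArg (fun x : ℝ => (x : ℂ)) h1

theorem fr_orth (n : ℕ) (i i' : Fin n) :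
    ∑ j, (fr n i j : ℂ) * (fr n i' j : ℂ) = if i = i' then 1 else 0 := by
  have h1 : ∑ j, fr n i j * fr n i' j = if i = i' then 1 else 0 :=
    (Classical.choose_spec (exists_frame n)).2 i i'
  have h2 := congrArg (fun x : ℝ => (x : ℂ)) h1
  simp only [Complex.ofReal_sum, Complex.ofReal_mul] at h2
  rw [h2]
  split_ifs <;> simp

/-- Completeness.

Proof. The `n + 1` vectors `(n+1)^(-1/2) (1,...,1)`, `fr n i` are orthonormal, so the square matrix
with these rows is orthogonal; its columns are orthonormal too. -/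
theorem fr_complete (n : ℕ) (j j' : Fin (n + 1)) :
    1 / ((n : ℂ) + 1) + ∑ i, (fr n i j : ℂ) * (fr n i j' : ℂ) = if j = j' then 1 else 0 := by
  classical
  have hn : ((n : ℂ) + 1) ≠ 0 := by exact_mod_cast Nat.succ_ne_zero n
  obtain ⟨M, hM⟩ : ∃ M : Matrix (Fin (n + 1)) (Fin (n + 1)) ℂ,
      M = Matrix.of (Fin.cons (fun _ => 1) (fun i j => (fr n i j : ℂ))) := ⟨_, rfl⟩
  obtain ⟨N, hN⟩ : ∃ N : Matrix (Fin (n + 1)) (Fin (n + 1)) ℂ,
      N = Matrix.of (fun j => Fin.cons (1 / ((n : ℂ) + 1)) (fun i => (fr n i j : ℂ))) := ⟨_, rfl⟩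
  have hM0 : ∀ j, M 0 j = 1 := fun j => by rw [hM]; rfl
  have hMs : ∀ i j, M (Fin.succ i) j = (fr n i j : ℂ) := fun i j => by rw [hM]; rfl
  have hN0 : ∀ j, N j 0 = 1 / ((n : ℂ) + 1) := fun j => by rw [hN]; rfl
  have hNs : ∀ j i, N j (Fin.succ i) = (fr n i j : ℂ) := fun j i => by rw [hN]; rfl
  have hMN : M * N = 1 := by
    ext k k'
    rw [Matrix.mul_apply]
    refine Fin.cases ?_ (fun i => ?_) k
    · refine Fin.cases ?_ (fun i' => ?_) k'
      · simp only [hM0, hN0, one_mul, Finset.sum_const, Finset.card_univ, Fintype.card_fin,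
          nsmul_eq_mul, Matrix.one_apply_eq]
        push_cast
        field_simp
      · simp only [hM0, hNs, one_mul]
        rw [fr_sum, Matrix.one_apply_ne (Fin.succ_ne_zero i').symm]
    · refine Fin.cases ?_ (fun i' => ?_) k'
      · simp only [hMs, hN0]
        rw [← Finset.sum_mul, fr_sum, zero_mul, Matrix.one_apply_ne (Fin.succ_ne_zero i)]
      · simp only [hMs, hNs]
        rw [fr_orth, Matrix.one_apply]
        simp only [Fin.succ_inj]
  have hNM : N * M = 1 := mul_eq_one_comm.1 hMN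
  have h1 := congrFun (congrFun hNM j) j'
  rw [Matrix.mul_apply, Fin.sum_univ_succ, Matrix.one_apply] at h1
  simpa only [hM0, hN0, hMs, hNs, mul_one] using h1

/-- Expansion of a vector. -/
theorem fr_expand (n : ℕ) (u : Fin (n + 1) → ℂ) (j : Fin (n + 1)) :
    u j = (∑ k, u k) / ((n : ℂ) + 1) + ∑ i, (∑ k, u k * (fr n i k : ℂ)) * (fr n i j : ℂ) := by
  classical
  have h1 : ∀ k, u k * (1 / ((n : ℂ) + 1) + ∑ i, (fr n i k : ℂ) * (fr n i j : ℂ)) =
      u k * if k = j then 1 else 0 := fun k => by rw [fr_complete]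
  have h2 : ∑ k, u k * (1 / ((n : ℂ) + 1) + ∑ i, (fr n i k : ℂ) * (fr n i j : ℂ)) = u j := by
    rw [Finset.sum_congr rfl fun k _ => h1 k]
    simp
  rw [← h2]
  simp only [mul_add, Finset.sum_add_distrib, Finset.mul_sum, Finset.sum_mul, Finset.sum_div]
  congr 1
  · refine Finset.sum_congr rfl fun k _ => ?_
    ring
  · rw [Finset.sum_comm]
    refine Finset.sum_congr rfl fun i _ => Finset.sum_congr rfl fun k _ => ?_
    ring

end Pool.Agent.MPb0eP
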