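import Mathlib

/-!
# MP_b0e20b_ag, formats (n,1,1): persistence of nondegenerate solutions, local constancy
-/

set_option autoImplicit false

open scoped Topology

namespace Pool.Agent.MPb0eP

/-- Implicit function theorem. A nondegenerate solution persists and is locally unique.

Proof. Inverse function theorem for `(p, u) ↦ (p, G p u)` at `(p0, u0)`: it is `C¹` with the
derivative `(p', u') ↦ (p', ∂₁ p' + ∂₂ u')`, bijective as `∂₂ = fderiv (G p0) u0` is. So it is an
local homeomorphism `Φ` with an open source which may be shrunk to a product `W0 ×ˢ U`, `U ⊆ V`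
open. As the image of `W0 ×ˢ U` is a neighbourhood of `(p0, 0)`, every `p` near `p0` has
`(p, 0) = Φ (p, u)` with `u ∈ U`; injectivity gives uniqueness. (Alternatively use
`HasStrictFDerivAt.implicitToOpenPartialHomeomorph` or the implicit function theorem for curried
functions of Mathlib.) -/
theorem persist {𝕜 P E : Type} [RCLike 𝕜] [NormedAddCommGroup P] [NormedSpace 𝕜 P]
    [CompleteSpace P] [NormedAddCommGroup E] [NormedSpace 𝕜 E] [FiniteDimensional 𝕜 E]
    (G : P → E → E) (hG : ContDiff 𝕜 1 (fun w : P × E => G w.1 w.2)) (p0 : P) (u0 : E)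
    (h0 : G p0 u0 = 0) (hn : Function.Bijective (fderiv 𝕜 (G p0) u0)) (V : Set E)
    (hV : V ∈ 𝓝 u0) :
    ∃ U ∈ 𝓝 u0, U ⊆ V ∧ ∀ᶠ p in 𝓝 p0, ∃! u, u ∈ U ∧ G p u = 0 := by
  classical
  have hcE : CompleteSpace E := FiniteDimensional.complete 𝕜 E
  have hd : HasStrictFDerivAt (fun w : P × E => G w.1 w.2)
      (fderiv 𝕜 (fun w : P × E => G w.1 w.2) (p0, u0)) (p0, u0) :=
    hG.contDiffAt.hasStrictFDerivAt one_ne_zero
  have hcomp : (fderiv 𝕜 (fun w : P × E => G w.1 w.2) (p0, u0)) ∘L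
      (ContinuousLinearMap.inr 𝕜 P E) = fderiv 𝕜 (G p0) u0 := by
    have h1 : HasFDerivAt (fun u : E => ((p0, u) : P × E)) (ContinuousLinearMap.inr 𝕜 P E) u0 :=
      hasFDerivAt_prodMk_right p0 u0
    have h2 : HasFDerivAt (G p0) ((fderiv 𝕜 (fun w : P × E => G w.1 w.2) (p0, u0)) ∘L
        (ContinuousLinearMap.inr 𝕜 P E)) u0 :=
      HasFDerivAt.comp (g := fun w : P × E => G w.1 w.2) u0 hd.hasFDerivAt h1
    exact h2.fderiv.symm
  have hinv : ((fderiv 𝕜 (fun w : P × E => G w.1 w.2) (p0, u0)) ∘L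
      (ContinuousLinearMap.inr 𝕜 P E)).IsInvertible := by
    rw [hcomp]
    refine ⟨(LinearEquiv.ofBijective (fderiv 𝕜 (G p0) u0 : E →ₗ[𝕜] E)
      hn).toContinuousLinearEquiv, ?_⟩
    ext x
    rfl
  have h1 := hd.eventually_apply_eq_iff_implicitFunctionOfProdDomain hinv
  have h2 := hd.tendsto_implicitFunctionOfProdDomain hinv
  set ψ := hd.implicitFunctionOfProdDomain hinv
  rw [nhds_prod_eq, Filter.eventually_prod_iff] at h1
  obtain ⟨pa, hpa, pb, hpb, hab⟩ := h1
  refine ⟨{u | pb u} ∩ V, Filter.inter_mem hpb hV, Set.inter_subset_right, ?_⟩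
  have h3 : ∀ᶠ p in 𝓝 p0, ψ p ∈ {u | pb u} ∩ V := h2 (Filter.inter_mem hpb hV)
  filter_upwards [hpa, h3] with p hp hp3
  refine ⟨ψ p, ⟨hp3, ?_⟩, ?_⟩
  · have h4 := (hab hp hp3.1).2 rfl
    simpa [h0] using h4
  · rintro u ⟨hu, hu0⟩
    have h4 := (hab hp hu.1).1 (by simp [h0, hu0])
    exact h4.symm

/-- Local constancy of the number of solutions.

Proof. `Z0 = {u | G p0 u = 0}` is closed, bounded by `R` (take `p = p0` in `hb`) and discrete
(`persist` at `p = p0`, `Filter.Eventually.self_of_nhds`), hence finite. Choose disjoint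
neighbourhoods `V u`, `u ∈ Z0`, and let `U u ⊆ V u` be as in `persist`: for `p` near `p0` there is
exactly one solution in every `U u`. The set `K = closedBall 0 R \ ⋃ interior (U u)` is compact and
`G p0` has no zero on it, so `G p` has no zero on `K` for `p` near `p0` (tube lemma, for instance
`generalized_tube_lemma` or `IsCompact.eventually_forall_of_forall_eventually`). So for `p` near
`p0` the solutions correspond bijectively to the points of `Z0`. -/
theorem lc {𝕜 P E : Type} [RCLike 𝕜] [NormedAddCommGroup P] [NormedSpace 𝕜 P]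
    [CompleteSpace P] [NormedAddCommGroup E] [NormedSpace 𝕜 E] [FiniteDimensional 𝕜 E]
    (G : P → E → E) (hG : ContDiff 𝕜 1 (fun w : P × E => G w.1 w.2)) (p0 : P) (R : ℝ)
    (hb : ∀ᶠ p in 𝓝 p0, ∀ u, G p u = 0 → ‖u‖ ≤ R)
    (hn : ∀ u, G p0 u = 0 → Function.Bijective (fderiv 𝕜 (G p0) u)) :
    ∀ᶠ p in 𝓝 p0, {u | G p u = 0}.encard = {u | G p0 u = 0}.encard := by
  classical
  have hpE : ProperSpace E := FiniteDimensional.proper 𝕜 E
  have hcont : Continuous (fun w : P × E => G w.1 w.2) := hG.continuous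
  have hc0 : Continuous (G p0) := hcont.comp (Continuous.prodMk_right p0)
  set Z : Set E := {u | G p0 u = 0} with hZ
  have hZb : ∀ u ∈ Z, ‖u‖ ≤ R := fun u hu => hb.self_of_nhds u hu
  have hZc : IsCompact Z := by
    refine (isCompact_closedBall (0 : E) R).of_isClosed_subset
      (isClosed_singleton.preimage hc0) ?_
    intro u hu
    rw [mem_closedBall_zero_iff]
    exact hZb u hu
  have hper : ∀ u ∈ Z, ∀ V ∈ 𝓝 u, ∃ U ∈ 𝓝 u, U ⊆ V ∧ ∀ᶠ p in 𝓝 p0, ∃! v, v ∈ U ∧ G p v = 0 :=
    fun u hu V hV => persist G hG p0 u hu (hn u hu) V hV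
  have hfin : Z.Finite := by
    choose! U hU using fun u hu => hper u hu Set.univ Filter.univ_mem
    obtain ⟨t, ht, htc⟩ := hZc.elim_nhds_subcover U fun u hu => (hU u hu).1
    refine t.finite_toSet.subset ?_
    intro x hx
    obtain ⟨u, hut, hxu⟩ := Set.mem_iUnion₂.1 (htc hx)
    have huZ := ht u hut
    obtain ⟨v, -, hv⟩ := (hU u huZ).2.2.self_of_nhds
    have e1 := hv x ⟨hxu, hx⟩
    have e2 := hv u ⟨mem_of_mem_nhds (hU u huZ).1, huZ⟩
    rw [e1, ← e2]
    exact hut
  obtain ⟨V, hV, hVd⟩ := hfin.t2_separation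
  choose! U hU using fun u hu => hper u hu (V u) ((hV u).2.mem_nhds (hV u).1)
  set K : Set E := Metric.closedBall (0 : E) R \ ⋃ u ∈ Z, interior (U u) with hK
  have hKc : IsCompact K := by
    refine (isCompact_closedBall (0 : E) R).diff ?_
    exact isOpen_biUnion fun u _ => isOpen_interior
  have hK0 : ∀ᶠ p in 𝓝 p0, ∀ y ∈ K, G p y ≠ 0 := by
    refine hKc.eventually_forall_of_forall_eventually fun y hy => ?_
    have hne : G p0 y ≠ 0 := by
      intro h
      refine hy.2 (Set.mem_iUnion₂.2 ⟨y, h, ?_⟩)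
      exact mem_interior_iff_mem_nhds.2 (hU y h).1
    exact hcont.continuousAt.eventually_ne (x := (p0, y)) hne
  have hall : ∀ᶠ p in 𝓝 p0, ∀ u ∈ Z, ∃! v, v ∈ U u ∧ G p v = 0 :=
    (Filter.eventually_all_finite hfin).2 fun u hu => (hU u hu).2.2
  filter_upwards [hb, hK0, hall] with p hpb hpK hpu
  choose! f hf using hpu
  have himg : {u | G p u = 0} = f '' Z := by
    ext x
    constructor
    · intro hx
      have hx0 : G p x = 0 := hx
      have hxR : x ∈ Metric.closedBall (0 : E) R := by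
        rw [mem_closedBall_zero_iff]
        exact hpb x hx0
      by_contra hcon
      refine hpK x ⟨hxR, fun hmem => hcon ?_⟩ hx0
      obtain ⟨u, hu, hxu⟩ := Set.mem_iUnion₂.1 hmem
      exact ⟨u, hu, ((hf u hu).2 x ⟨interior_subset hxu, hx0⟩).symm⟩
    · rintro ⟨u, hu, rfl⟩
      exact (hf u hu).1.2
  rw [himg]
  refine Set.InjOn.encard_image ?_
  intro u hu u' hu' he
  by_contra hne
  have hdis := hVd hu hu' hne
  refine Set.disjoint_left.1 hdis ((hU u hu).2.1 (hf u hu).1.1) ?_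
  rw [he]
  exact (hU u' hu').2.1 (hf u' hu').1.1

end Pool.Agent.MPb0eP
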