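import Mathlib

/-!
# MP_b0e20b_ag, formats (n,1,1): density and connectedness of the complement of a hypersurface
-/

set_option autoImplicit false

open scoped Topology
open MvPolynomial

namespace Pool.Agent.MPb0eP

/-- Proof. A nonzero polynomial does not vanish on a product of infinite sets (Mathlib:
`MvPolynomial.funext_set` or the like; or induction), apply this to the product of the sets
`{w | ‖w - t i‖ < ε}`. -/
theorem dense_ne {ι : Type} [Fintype ι] (P : MvPolynomial ι ℂ) (hP : P ≠ 0) (t : ι → ℂ)
    (W : Set (ι → ℂ)) (hW : W ∈ 𝓝 t) : ∃ s ∈ W, eval s P ≠ 0 := by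
  obtain ⟨u, hu, hut, hsub⟩ : ∃ u : ι → Set ℂ, (∀ i, IsOpen (u i)) ∧ (∀ i, t i ∈ u i) ∧
      Set.pi Set.univ u ⊆ W := by
    obtain ⟨V, hVW, hVo, htV⟩ := mem_nhds_iff.1 hW
    obtain ⟨u, hu, hsub⟩ := isOpen_pi_iff'.1 hVo t htV
    exact ⟨u, fun i => (hu i).1, fun i => (hu i).2, hsub.trans hVW⟩
  by_contra hcon
  push Not at hcon
  refine hP (MvPolynomial.funext_set u (fun i => ?_) fun x hx => ?_)
  · exact infinite_of_mem_nhds (t i) ((hu i).mem_nhds (hut i))
  · rw [hcon x (hsub hx), map_zero]

/-- The same with real points (the product of the sets `{(r : ℂ) | |r - t i| < ε}`). -/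
theorem dense_ne_real {ι : Type} [Fintype ι] (P : MvPolynomial ι ℂ) (hP : P ≠ 0) (t : ι → ℝ)
    (W : Set (ι → ℝ)) (hW : W ∈ 𝓝 t) : ∃ s ∈ W, eval (fun i => (s i : ℂ)) P ≠ 0 := by
  obtain ⟨u, hu, hut, hsub⟩ : ∃ u : ι → Set ℝ, (∀ i, IsOpen (u i)) ∧ (∀ i, t i ∈ u i) ∧
      Set.pi Set.univ u ⊆ W := by
    obtain ⟨V, hVW, hVo, htV⟩ := mem_nhds_iff.1 hW
    obtain ⟨u, hu, hsub⟩ := isOpen_pi_iff'.1 hVo t htV
    exact ⟨u, fun i => (hu i).1, fun i => (hu i).2, hsub.trans hVW⟩
  by_contra hcon
  push Not at hcon
  refine hP (MvPolynomial.funext_set (fun i => (fun r : ℝ => (r : ℂ)) '' (u i)) (fun i => ?_)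
    fun x hx => ?_)
  · exact (infinite_of_mem_nhds (t i) ((hu i).mem_nhds (hut i))).image
      (Complex.ofReal_injective.injOn)
  · choose y hy hyx using fun i => hx i (Set.mem_univ i)
    have hx' : x = fun i => ((y i : ℝ) : ℂ) := (funext hyx).symm
    rw [hx', hcon y (hsub fun i _ => hy i), map_zero]

/-- A function which is locally constant on the complement of the zero set of a polynomial is
constant there.

Proof. On the line `μ ↦ s + μ (t - s)`, `μ : ℂ`, the polynomial is a nonzero polynomial in one
variable (it does not vanish at `μ = 0`), so it has finitely many zeros; the complement `L` of a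
finite set in `ℂ` is connected (`Set.Countable.isConnected_compl_of_one_lt_rank` or path connected)
and `μ ↦ F (s + μ (t - s))` is locally constant on `L` (e.g.
`IsPreconnected.constant_of_mapsTo` with the discrete topology, or
`IsPreconnected.induction` type arguments: the set where it is equal to `F s` is relatively open and
closed). -/
theorem const_of_loc {ι α : Type} [Fintype ι] (P : MvPolynomial ι ℂ) (F : (ι → ℂ) → α)
    (hF : ∀ t, eval t P ≠ 0 → ∀ᶠ s in 𝓝 t, F s = F t) (s t : ι → ℂ) (hs : eval s P ≠ 0)
    (ht : eval t P ≠ 0) : F s = F t := by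
  classical
  -- the polynomial on the line through `s` and `t`
  let q : Polynomial ℂ := MvPolynomial.aeval
    (fun i => Polynomial.C (s i) + Polynomial.X * Polynomial.C (t i - s i)) P
  have hq : ∀ μ : ℂ, q.eval μ = eval (fun i => s i + μ * (t i - s i)) P := by
    intro μ
    have h1 : (Polynomial.evalRingHom μ) (MvPolynomial.aeval
        (fun i => Polynomial.C (s i) + Polynomial.X * Polynomial.C (t i - s i)) P) =
        MvPolynomial.eval₂ ((Polynomial.evalRingHom μ).comp (algebraMap ℂ (Polynomial ℂ)))
          (fun i => (Polynomial.evalRingHom μ)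
            (Polynomial.C (s i) + Polynomial.X * Polynomial.C (t i - s i))) P := by
      rw [MvPolynomial.aeval_def, MvPolynomial.hom_eval₂]
    have h2 : (Polynomial.evalRingHom μ).comp (algebraMap ℂ (Polynomial ℂ)) = RingHom.id ℂ := by
      ext z
      simp
    rw [h2] at h1
    have h3 : (fun i => (Polynomial.evalRingHom μ)
        (Polynomial.C (s i) + Polynomial.X * Polynomial.C (t i - s i))) =
        fun i => s i + μ * (t i - s i) := by
      funext i
      simp
    rw [h3] at h1
    exact h1
  have hq0 : q ≠ 0 := by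
    intro h0
    have h1 := hq 0
    rw [h0] at h1
    apply hs
    have h2 : (fun i => s i + (0 : ℂ) * (t i - s i)) = s := by
      funext i
      ring
    rw [h2] at h1
    simpa using h1.symm
  let L : Set ℂ := {μ | q.eval μ ≠ 0}
  have hL : L = (q.roots.toFinset : Set ℂ)ᶜ := by
    ext μ
    simp [L, Polynomial.mem_roots hq0, Polynomial.IsRoot]
  have hconn : IsPreconnected L := by
    rw [hL]
    refine (Set.Countable.isConnected_compl_of_one_lt_rank ?_ ?_).isPreconnected
    · rw [Complex.rank_real_complex]
      norm_num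
    · exact (Finset.finite_toSet _).countable
  let f : ℂ → (ι → ℂ) := fun μ i => s i + μ * (t i - s i)
  have hf : Continuous f := by
    refine continuous_pi fun i => ?_
    exact continuous_const.add (continuous_id.mul continuous_const)
  let _ : TopologicalSpace α := ⊥
  have _ : DiscreteTopology α := ⟨rfl⟩
  have hcont : ContinuousOn (fun μ => F (f μ)) L := by
    intro μ hμ
    have h1 : ∀ᶠ x in 𝓝 (f μ), F x = F (f μ) := hF (f μ) (by rw [← hq μ]; exact hμ)
    have h2 : ∀ᶠ ν in 𝓝 μ, F (f ν) = F (f μ) := hf.continuousAt.eventually h1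
    refine ContinuousAt.continuousWithinAt ?_
    exact (continuousAt_const (y := F (f μ))).congr (h2.mono fun ν h => h.symm)
  have h0 : (0 : ℂ) ∈ L := by
    change q.eval 0 ≠ 0
    rw [hq 0]
    have h2 : (fun i => s i + (0 : ℂ) * (t i - s i)) = s := by
      funext i
      ring
    rw [h2]
    exact hs
  have h1 : (1 : ℂ) ∈ L := by
    change q.eval 1 ≠ 0
    rw [hq 1]
    have h2 : (fun i => s i + (1 : ℂ) * (t i - s i)) = t := by
      funext i
      ring
    rw [h2]
    exact ht
  have h := hconn.constant hcont h0 h1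
  have e0 : f 0 = s := by
    funext i
    simp only [f]
    ring
  have e1 : f 1 = t := by
    funext i
    simp only [f]
    ring
  simpa only [e0, e1] using h

end Pool.Agent.MPb0eP
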