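import Mathlib

/-!
# MP_b0e20b_ag, formats (n,1,1): elimination
-/

set_option autoImplicit false

open MvPolynomial

namespace Pool.Agent.MPb0eP

/-- Elimination: the image of a hypersurface `J = 0` of the affine space `κ → ℂ` under a
polynomial map to an affine space of at least the same dimension lies in a hypersurface.

Proof. The `card ι + 1 > card κ` polynomials `T i` and `J` are algebraically dependent
(transcendence degree of `MvPolynomial κ ℂ` is `card κ`; or a dimension count in bounded degree).
So there is a nonzero `Q : MvPolynomial (Option ι) ℂ` with `aeval (Option.elim · J T) Q = 0`.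
Read it as a nonzero polynomial `Σ q_j J^j` with coefficients `q_j : MvPolynomial ι ℂ`
(`MvPolynomial.optionEquivLeft`), divide by the highest power of `J` (i.e. of the variable): as
`MvPolynomial κ ℂ` is a domain and `J ≠ 0` we may assume `q_0 ≠ 0`; then `P = q_0` works, since at a
point with `J = 0` the relation gives `q_0 (T) = 0`. -/
theorem elim {ι κ : Type} [Fintype ι] [Fintype κ] (h : Fintype.card κ ≤ Fintype.card ι)
    (T : ι → MvPolynomial κ ℂ) (J : MvPolynomial κ ℂ) (hJ : J ≠ 0) :
    ∃ P : MvPolynomial ι ℂ, P ≠ 0 ∧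
      ∀ w : κ → ℂ, eval w J = 0 → eval (fun i => eval w (T i)) P = 0 := by
  classical
  -- the polynomials are algebraically dependent
  have hdep : ¬ AlgebraicIndependent ℂ (fun o : Option ι => o.elim J T) := by
    intro hind
    have h1 := hind.cardinalMk_le_trdeg
    rw [MvPolynomial.trdeg_of_isDomain, Cardinal.lift_id', Cardinal.mk_fintype,
      Cardinal.mk_fintype, Fintype.card_option, Nat.cast_le] at h1
    omega
  rw [algebraicIndependent_iff] at hdep
  push Not at hdep
  obtain ⟨Q, hQ, hQ0⟩ := hdep
  obtain ⟨R, hR, hdvd⟩ := (optionEquivLeft ℂ ι Q).exists_eq_pow_rootMultiplicity_mul_and_not_dvd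
    ((map_ne_zero_iff _ (optionEquivLeft ℂ ι).injective).2 hQ0) 0
  rw [map_zero, sub_zero] at hR hdvd
  rw [Polynomial.X_dvd_iff] at hdvd
  -- the relation
  have key : ∀ Q : MvPolynomial (Option ι) ℂ, (optionEquivLeft ℂ ι Q).eval₂
      (aeval T : MvPolynomial ι ℂ →ₐ[ℂ] MvPolynomial κ ℂ).toRingHom J =
        aeval (fun o : Option ι => o.elim J T) Q := by
    intro Q
    induction Q using MvPolynomial.induction_on with
    | C c =>
      rw [optionEquivLeft_C, Polynomial.eval₂_C, aeval_C]
      exact aeval_C _ _
    | add p p' hp hp' => rw [map_add, map_add, Polynomial.eval₂_add, hp, hp']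
    | mul_X p o hp =>
      rw [map_mul, map_mul, Polynomial.eval₂_mul, hp, aeval_X]
      congr 1
      cases o with
      | none => rw [optionEquivLeft_X_none, Polynomial.eval₂_X]; rfl
      | some x =>
        rw [optionEquivLeft_X_some, Polynomial.eval₂_C]
        exact aeval_X _ _
  have h0 : R.eval₂ (aeval T : MvPolynomial ι ℂ →ₐ[ℂ] MvPolynomial κ ℂ).toRingHom J = 0 := by
    have h1 := key Q
    rw [hQ, hR, Polynomial.eval₂_mul, Polynomial.eval₂_pow, Polynomial.eval₂_X] at h1
    exact (mul_eq_zero.1 h1).resolve_left (pow_ne_zero _ hJ)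
  refine ⟨R.coeff 0, hdvd, fun w hw => ?_⟩
  have h1 := congrArg (eval w) h0
  rw [map_zero, Polynomial.hom_eval₂, hw, Polynomial.eval₂_at_zero] at h1
  rw [← h1]
  change _ = eval w (aeval T (R.coeff 0))
  have h2 : (eval w).comp (algebraMap ℂ (MvPolynomial κ ℂ)) = RingHom.id ℂ :=
    RingHom.ext fun c => eval_C c
  rw [aeval_def, eval_eval₂, h2]
  rfl

end Pool.Agent.MPb0eP
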