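import Mathlib

/-!
# MP_b0e20b_ag, tensors of format (n + 1) x 2 x 2: definitions

Coordinates. A point of the rank-one tensors in the hyperplane H is `v ⊗ w ⊗ w'` with
`v = (1/(n+1)) 𝟙 + (1/√(n+1)) ∑ x i u_i` (`u_i` an orthonormal basis of the vectors of sum zero),
`w = ((1+y)/2, (1-y)/2)`, `w' = ((1+z)/2, (1-z)/2)`. The critical points of the distance to `T` are
the solutions `(x, y, z)` of the system `Sys t x y z`, the critical equations of
`(1/2) (1 + x·x)(1 + y²)(1 + z²) - M(x, y, z)`,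
`M = ∑ (v_s · x) (1, y, z, yz)_s + b y + c z + f y z`. If `(1 + y²)(1 + z²) ≠ 0`, then `x` is
`V(y, z)/((1+y²)(1+z²))`, `V = v_0 + v_1 y + v_2 z + v_3 y z`, and `(y, z)` is a solution of the
plane system `E1 = E2 = 0` with the parameters `b, c, f` and `q = V · V`.
-/

set_option autoImplicit false

open scoped BigOperators

namespace Pool.Agent.MPb0eP

/-- The scalar product. -/
def dot {R : Type} [CommRing R] {n : ℕ} (x y : Fin n → R) : R := ∑ i, x i * y i

/-- Parameters of the plane system; `qij` is the coefficient of `y ^ i * z ^ j` in `q`. -/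
structure Pl (R : Type) where
  b : R
  c : R
  f : R
  q00 : R
  q10 : R
  q20 : R
  q01 : R
  q11 : R
  q21 : R
  q02 : R
  q12 : R
  q22 : R

namespace Pl

variable {R : Type} [CommRing R]

/-- Exchange of the two variables. -/
def swap (p : Pl R) : Pl R where
  b := p.c
  c := p.b
  f := p.f
  q00 := p.q00
  q10 := p.q01
  q20 := p.q02
  q01 := p.q10
  q11 := p.q11
  q21 := p.q12
  q02 := p.q20
  q12 := p.q21
  q22 := p.q22

/-- The first equation. -/
def E1 (p : Pl R) (y z : R) : R :=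
  2 * (1 + y ^ 2) ^ 2 * (1 + z ^ 2) * (y * (1 + z ^ 2) - p.b - p.f * z) -
    ((p.q10 + p.q11 * z + p.q12 * z ^ 2) * (1 - y ^ 2) +
      2 * ((p.q20 + p.q21 * z + p.q22 * z ^ 2) - (p.q00 + p.q01 * z + p.q02 * z ^ 2)) * y)

/-- The derivative of `E1` in the direction of `y`. -/
def E1y (p : Pl R) (y z : R) : R :=
  2 * (4 * y * (1 + y ^ 2) * (1 + z ^ 2) * (y * (1 + z ^ 2) - p.b - p.f * z) +
      (1 + y ^ 2) ^ 2 * (1 + z ^ 2) ^ 2) -
    ((p.q10 + p.q11 * z + p.q12 * z ^ 2) * (-2 * y) +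
      2 * ((p.q20 + p.q21 * z + p.q22 * z ^ 2) - (p.q00 + p.q01 * z + p.q02 * z ^ 2)))

/-- The derivative of `E1` in the direction of `z`. -/
def E1z (p : Pl R) (y z : R) : R :=
  2 * (1 + y ^ 2) ^ 2 * (2 * z * (y * (1 + z ^ 2) - p.b - p.f * z) +
      (1 + z ^ 2) * (2 * y * z - p.f)) -
    ((p.q11 + 2 * p.q12 * z) * (1 - y ^ 2) +
      2 * ((p.q21 + 2 * p.q22 * z) - (p.q01 + 2 * p.q02 * z)) * y)

/-- The second equation. -/
def E2 (p : Pl R) (y z : R) : R := p.swap.E1 z y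

/-- The derivative of `E2` in the direction of `y`. -/
def E2y (p : Pl R) (y z : R) : R := p.swap.E1z z y

/-- The derivative of `E2` in the direction of `z`. -/
def E2z (p : Pl R) (y z : R) : R := p.swap.E1y z y

/-- The Jacobian determinant. -/
def dJ (p : Pl R) (y z : R) : R := p.E1y y z * p.E2z y z - p.E1z y z * p.E2y y z

/-- The condition for `y = s`, `s² = -1` (no solution at infinity or on `y = s`). -/
def cnd1 (p : Pl R) (s : R) : R :=
  (p.q20 + p.q21 * s + p.q22 * s ^ 2) *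
    ((p.b + s * p.f) ^ 2 + (p.q20 + p.q21 * s + p.q22 * s ^ 2)) *
    ((p.q01 + p.q11 * s + p.q21 * s ^ 2) ^ 2 -
      4 * (p.q00 + p.q10 * s + p.q20 * s ^ 2) * (p.q02 + p.q12 * s + p.q22 * s ^ 2))

/-- The value of `q`. -/
def qv (p : Pl R) (y z : R) : R :=
  p.q00 + p.q10 * y + p.q20 * y ^ 2 + (p.q01 + p.q11 * y + p.q21 * y ^ 2) * z +
    (p.q02 + p.q12 * y + p.q22 * y ^ 2) * z ^ 2

/-- The product of all conditions; `s² = -1`. -/
def cnd (p : Pl R) (s : R) : R :=
  p.cnd1 s * p.cnd1 (-s) * (p.swap.cnd1 s * p.swap.cnd1 (-s)) *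
    (p.qv s s * p.qv s (-s) * (p.qv (-s) s * p.qv (-s) (-s)))

/-- The solutions of the plane system. -/
def PSol (p : Pl R) : Set (R × R) := {u | p.E1 u.1 u.2 = 0 ∧ p.E2 u.1 u.2 = 0}

end Pl

/-- Indices of the parameters of the tensor. -/
abbrev Idx (n : ℕ) : Type := (Fin 4 × Fin n) ⊕ Fin 3

/-- Parameters of the tensor. -/
abbrev Tp (n : ℕ) (R : Type) : Type := Idx n → R

/-- The vector coefficients of `1, y, z, yz`. -/
def tv {n : ℕ} {R : Type} (t : Tp n R) (s : Fin 4) : Fin n → R := fun i => t (Sum.inl (s, i))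

/-- The scalar coefficients: of `y`, of `z`, of `yz`. -/
def ts {n : ℕ} {R : Type} (t : Tp n R) (s : Fin 3) : R := t (Sum.inr s)

/-- The parameters of the plane system. -/
def pl {n : ℕ} {R : Type} [CommRing R] (t : Tp n R) : Pl R where
  b := ts t 0
  c := ts t 1
  f := ts t 2
  q00 := dot (tv t 0) (tv t 0)
  q10 := 2 * dot (tv t 0) (tv t 1)
  q20 := dot (tv t 1) (tv t 1)
  q01 := 2 * dot (tv t 0) (tv t 2)
  q11 := 2 * dot (tv t 0) (tv t 3) + 2 * dot (tv t 1) (tv t 2)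
  q21 := 2 * dot (tv t 1) (tv t 3)
  q02 := dot (tv t 2) (tv t 2)
  q12 := 2 * dot (tv t 2) (tv t 3)
  q22 := dot (tv t 3) (tv t 3)

/-- The critical system. -/
structure Sys {n : ℕ} {R : Type} [CommRing R] (t : Tp n R) (x : Fin n → R) (y z : R) : Prop where
  hx : ∀ i, x i * ((1 + y ^ 2) * (1 + z ^ 2)) =
    tv t 0 i + tv t 1 i * y + tv t 2 i * z + tv t 3 i * (y * z)
  hy : y * ((1 + dot x x) * (1 + z ^ 2)) =
    ts t 0 + dot (tv t 1) x + ts t 2 * z + dot (tv t 3) x * z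
  hz : z * ((1 + dot x x) * (1 + y ^ 2)) =
    ts t 1 + dot (tv t 2) x + ts t 2 * y + dot (tv t 3) x * y

/-- The solutions of the critical system. -/
def Sol {n : ℕ} {R : Type} [CommRing R] (t : Tp n R) : Set ((Fin n → R) × R × R) :=
  {u | Sys t u.1 u.2.1 u.2.2}

/-- Complexification of the parameters. -/
def toC {n : ℕ} (t : Tp n ℝ) : Tp n ℂ := fun i => (t i : ℂ)

/-- `N` is the number of solutions for all `t` outside the zero set of a nonzero polynomial. -/
def GenT (n N : ℕ) : Prop :=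
  ∃ P : MvPolynomial (Idx n) ℂ, P ≠ 0 ∧
    ∀ t : Tp n ℂ, MvPolynomial.eval t P ≠ 0 → (Sol t).encard = N

/-- There are real parameters with exactly `k` real plane solutions, all nondegenerate. -/
def RG (n k : ℕ) : Prop :=
  ∃ t : Tp n ℝ, (pl t).PSol.encard = k ∧ ∀ u ∈ (pl t).PSol, (pl t).dJ u.1 u.2 ≠ 0

/-- `S` is a set of nondegenerate complex plane solutions outside `(1+y²)(1+z²) = 0`. -/
def NDS {n : ℕ} (t : Tp n ℂ) (S : Finset (ℂ × ℂ)) : Prop :=
  ∀ u ∈ S, u ∈ (pl t).PSol ∧ (pl t).dJ u.1 u.2 ≠ 0 ∧ (1 + u.1 ^ 2) * (1 + u.2 ^ 2) ≠ 0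

/-- There are real parameters with `N` nondegenerate complex plane solutions outside
`(1+y²)(1+z²) = 0`, exactly `k` of them real. -/
def RC (n k N : ℕ) : Prop :=
  ∃ (t : Tp n ℝ) (S : Finset (ℂ × ℂ)), NDS (toC t) S ∧ S.card = N ∧
    {u : ℂ × ℂ | u ∈ S ∧ u.1.im = 0 ∧ u.2.im = 0}.encard = k

/-- Indices of the variables `x, y, z, v 1, v 2, v 3, f` which parametrise all solutions. -/
abbrev Kap (n : ℕ) : Type := Fin n ⊕ Fin 2 ⊕ (Fin 3 × Fin n) ⊕ Unit

/-- The parameters of the tensor as functions of a solution and of the higher coefficients. -/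
def psi {n : ℕ} {R : Type} [CommRing R] (w : Kap n → R) : Tp n R :=
  let x : Fin n → R := fun i => w (Sum.inl i)
  let y : R := w (Sum.inr (Sum.inl 0))
  let z : R := w (Sum.inr (Sum.inl 1))
  let v : Fin 3 → Fin n → R := fun s i => w (Sum.inr (Sum.inr (Sum.inl (s, i))))
  let f : R := w (Sum.inr (Sum.inr (Sum.inr ())))
  Sum.elim
    (fun si => Fin.cons (α := fun _ => R)
      (x si.2 * ((1 + y ^ 2) * (1 + z ^ 2)) - v 0 si.2 * y - v 1 si.2 * z -
        v 2 si.2 * (y * z)) (fun s => v s si.2) si.1)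
    ![y * ((1 + dot x x) * (1 + z ^ 2)) - dot (v 0) x - f * z - dot (v 2) x * z,
      z * ((1 + dot x x) * (1 + y ^ 2)) - dot (v 1) x - f * y - dot (v 2) x * y, f]

/-- The point of the parametrising space which belongs to a solution. -/
def kpt {n : ℕ} {R : Type} (t : Tp n R) (x : Fin n → R) (y z : R) : Kap n → R :=
  Sum.elim x (Sum.elim ![y, z] (Sum.elim (fun si => tv t si.1.succ si.2) (fun _ => ts t 2)))

end Pool.Agent.MPb0eP
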