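import Mathlib
import Pool.Agent.Lib.MP_b0e20b_ag_P.Defs

/-!
# MP_b0e20b_ag, formats (n,1,1): critical system and plane system
-/

set_option autoImplicit false

namespace Pool.Agent.MPb0eP

/-- The value of `V`. -/
def Vv {n : ℕ} {R : Type} [CommRing R] (t : Tp n R) (y z : R) : Fin n → R :=
  fun i => tv t 0 i + tv t 1 i * y + tv t 2 i * z + tv t 3 i * (y * z)

theorem qv_pl {n : ℕ} {R : Type} [CommRing R] (t : Tp n R) (y z : R) :
    (pl t).qv y z = dot (Vv t y z) (Vv t y z) := by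
  simp only [Pl.qv, pl, dot, Vv, Finset.mul_sum, Finset.sum_mul, ← Finset.sum_add_distrib]
  exact Finset.sum_congr rfl fun i _ => by ring

private theorem NY_dy {n : ℕ} {R : Type} [CommRing R] (t : Tp n R) (y z : R) :
    ((pl t).q10 + (pl t).q11 * z + (pl t).q12 * z ^ 2) +
      2 * ((pl t).q20 + (pl t).q21 * z + (pl t).q22 * z ^ 2) * y =
    2 * (dot (tv t 1) (Vv t y z) + z * dot (tv t 3) (Vv t y z)) := by
  simp only [pl, dot, Vv, Finset.mul_sum, Finset.sum_mul, ← Finset.sum_add_distrib]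
  exact Finset.sum_congr rfl fun i _ => by ring

private theorem NY_dz {n : ℕ} {R : Type} [CommRing R] (t : Tp n R) (y z : R) :
    ((pl t).q01 + (pl t).q11 * y + (pl t).q21 * y ^ 2) +
      2 * ((pl t).q02 + (pl t).q12 * y + (pl t).q22 * y ^ 2) * z =
    2 * (dot (tv t 2) (Vv t y z) + y * dot (tv t 3) (Vv t y z)) := by
  simp only [pl, dot, Vv, Finset.mul_sum, Finset.sum_mul, ← Finset.sum_add_distrib]
  exact Finset.sum_congr rfl fun i _ => by ring

private theorem NY_E1 {n : ℕ} {R : Type} [CommRing R] (t : Tp n R) (y z : R) :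
    (pl t).E1 y z = 2 * (1 + y ^ 2) ^ 2 * (1 + z ^ 2) *
        (y * (1 + z ^ 2) - ts t 0 - ts t 2 * z) +
      2 * y * dot (Vv t y z) (Vv t y z) -
      (1 + y ^ 2) * (2 * (dot (tv t 1) (Vv t y z) + z * dot (tv t 3) (Vv t y z))) := by
  rw [← NY_dy, ← qv_pl]
  have hb : (pl t).b = ts t 0 := rfl
  have hf : (pl t).f = ts t 2 := rfl
  rw [← hb, ← hf]
  unfold Pl.E1 Pl.qv
  ring

private theorem NY_E2 {n : ℕ} {R : Type} [CommRing R] (t : Tp n R) (y z : R) :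
    (pl t).E2 y z = 2 * (1 + z ^ 2) ^ 2 * (1 + y ^ 2) *
        (z * (1 + y ^ 2) - ts t 1 - ts t 2 * y) +
      2 * z * dot (Vv t y z) (Vv t y z) -
      (1 + z ^ 2) * (2 * (dot (tv t 2) (Vv t y z) + y * dot (tv t 3) (Vv t y z))) := by
  rw [← NY_dz, ← qv_pl]
  have hb : (pl t).c = ts t 1 := rfl
  have hf : (pl t).f = ts t 2 := rfl
  rw [← hb, ← hf]
  unfold Pl.E2 Pl.E1 Pl.swap Pl.qv
  ring

private theorem NY_dot_div {n : ℕ} {K : Type} [Field K] (u v : Fin n → K) (D : K) :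
    dot u (fun i => v i / D) = dot u v / D := by
  simp only [dot, Finset.sum_div]
  exact Finset.sum_congr rfl fun i _ => by ring

private theorem NY_dot_div2 {n : ℕ} {K : Type} [Field K] (v : Fin n → K) (D : K) :
    dot (fun i => v i / D) (fun i => v i / D) = dot v v / D ^ 2 := by
  simp only [dot, Finset.sum_div]
  exact Finset.sum_congr rfl fun i _ => by ring

private theorem NY_eq {K : Type} [Field K] (h2 : (2 : K) ≠ 0) (y z b f q A B : K)
    (hY : 1 + y ^ 2 ≠ 0) (hZ : 1 + z ^ 2 ≠ 0) :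
    y * ((1 + q / ((1 + y ^ 2) * (1 + z ^ 2)) ^ 2) * (1 + z ^ 2)) =
      b + A / ((1 + y ^ 2) * (1 + z ^ 2)) + f * z + B / ((1 + y ^ 2) * (1 + z ^ 2)) * z ↔
    2 * (1 + y ^ 2) ^ 2 * (1 + z ^ 2) * (y * (1 + z ^ 2) - b - f * z) + 2 * y * q -
      (1 + y ^ 2) * (2 * (A + z * B)) = 0 := by
  have h : y * ((1 + q / ((1 + y ^ 2) * (1 + z ^ 2)) ^ 2) * (1 + z ^ 2)) -
      (b + A / ((1 + y ^ 2) * (1 + z ^ 2)) + f * z + B / ((1 + y ^ 2) * (1 + z ^ 2)) * z) =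
    (2 * (1 + y ^ 2) ^ 2 * (1 + z ^ 2) * (y * (1 + z ^ 2) - b - f * z) + 2 * y * q -
      (1 + y ^ 2) * (2 * (A + z * B))) / (2 * (1 + y ^ 2) ^ 2 * (1 + z ^ 2)) := by
    field_simp
    ring
  rw [← sub_eq_zero, h, div_eq_zero_iff]
  have hd : 2 * (1 + y ^ 2) ^ 2 * (1 + z ^ 2) ≠ 0 :=
    mul_ne_zero (mul_ne_zero h2 (pow_ne_zero 2 hY)) hZ
  constructor
  · rintro (h | h)
    · exact h
    · exact absurd h hd
  · exact Or.inl

/-- Proof. `x = V/(YZ)` from `hx`. With this value `1 + x·x = 1 + q/(YZ)²`, and the second equation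
multiplied by `2 Y² Z` is `E1 = 0`, the third multiplied by `2 Y Z²` is `E2 = 0`, where
`2 dot (v 1 + z v 3) V` is the derivative of `q` in `y` (it is enough to expand all scalar products:
both sides are linear combinations of the `dot (tv t s) (tv t s')`). -/
theorem sys_iff {n : ℕ} {K : Type} [Field K] (h2 : (2 : K) ≠ 0) (t : Tp n K) (x : Fin n → K)
    (y z : K) (h : (1 + y ^ 2) * (1 + z ^ 2) ≠ 0) :
    Sys t x y z ↔
      (x = fun i => Vv t y z i / ((1 + y ^ 2) * (1 + z ^ 2))) ∧ (y, z) ∈ (pl t).PSol := by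
  have hY : 1 + y ^ 2 ≠ 0 := left_ne_zero_of_mul h
  have hZ : 1 + z ^ 2 ≠ 0 := right_ne_zero_of_mul h
  have hx : (∀ i, x i * ((1 + y ^ 2) * (1 + z ^ 2)) =
      tv t 0 i + tv t 1 i * y + tv t 2 i * z + tv t 3 i * (y * z)) ↔
      x = fun i => Vv t y z i / ((1 + y ^ 2) * (1 + z ^ 2)) := by
    constructor
    · intro h1
      funext i
      exact (eq_div_iff h).mpr (h1 i)
    · intro h1 i
      rw [h1]
      exact div_mul_cancel₀ _ h
  have hsys : Sys t x y z ↔ (∀ i, x i * ((1 + y ^ 2) * (1 + z ^ 2)) =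
      tv t 0 i + tv t 1 i * y + tv t 2 i * z + tv t 3 i * (y * z)) ∧
      (y * ((1 + dot x x) * (1 + z ^ 2)) =
        ts t 0 + dot (tv t 1) x + ts t 2 * z + dot (tv t 3) x * z) ∧
      (z * ((1 + dot x x) * (1 + y ^ 2)) =
        ts t 1 + dot (tv t 2) x + ts t 2 * y + dot (tv t 3) x * y) :=
    ⟨fun h => ⟨h.hx, h.hy, h.hz⟩, fun h => ⟨h.1, h.2.1, h.2.2⟩⟩
  rw [hsys, hx]
  refine and_congr_right fun h1 => ?_
  have hmem : (y, z) ∈ (pl t).PSol ↔ (pl t).E1 y z = 0 ∧ (pl t).E2 y z = 0 := Iff.rfl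
  rw [hmem, h1, NY_dot_div2, NY_dot_div, NY_dot_div, NY_dot_div, NY_E1, NY_E2]
  refine and_congr (NY_eq h2 y z _ _ _ _ _ hY hZ) ?_
  rw [mul_comm (1 + y ^ 2) (1 + z ^ 2)]
  exact NY_eq h2 z y _ _ _ _ _ hZ hY

end Pool.Agent.MPb0eP
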