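import Mathlib
import Pool.Agent.Lib.MP_b0e20b_ag_P.Defs
import Pool.Agent.Lib.MP_b0e20b_ag_P.NY

/-!
# MP_b0e20b_ag, formats (n,1,1): conditions for a bijection with the plane solutions
-/

set_option autoImplicit false

namespace Pool.Agent.MPb0eP

/-- A quadratic polynomial with a double zero has discriminant zero. -/
private theorem NY2_disc {a b c z : ℂ} (h0 : a + b * z + c * z ^ 2 = 0)
    (h1 : b + 2 * c * z = 0) : b ^ 2 - 4 * a * c = 0 := by
  linear_combination (b + 2 * c * z) * h1 - 4 * c * h0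

private theorem NY2_cnd1 {p : Pl ℂ} {s z : ℂ}
    (h0 : (p.q00 + p.q10 * s + p.q20 * s ^ 2) + (p.q01 + p.q11 * s + p.q21 * s ^ 2) * z +
      (p.q02 + p.q12 * s + p.q22 * s ^ 2) * z ^ 2 = 0)
    (h1 : (p.q01 + p.q11 * s + p.q21 * s ^ 2) + 2 * (p.q02 + p.q12 * s + p.q22 * s ^ 2) * z = 0) :
    p.cnd1 s = 0 := by
  unfold Pl.cnd1
  rw [NY2_disc h0 h1, mul_zero]

/-- The case `y = s`. -/
private theorem NY2_aux {p : Pl ℂ} {s z : ℂ} (hs : 1 + s ^ 2 = 0) (h1 : p.cnd1 s ≠ 0)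
    (h2 : 1 + z ^ 2 = 0 → p.qv s z ≠ 0) (e1 : p.E1 s z = 0) (e2 : p.E2 s z = 0) : False := by
  have hq : p.qv s z = 0 := by
    have h3 : 2 * p.qv s z = 0 := by
      unfold Pl.E1 at e1
      unfold Pl.qv
      linear_combination (-s) * e1 + (2 * (p.q00 + p.q01 * z + p.q02 * z ^ 2) +
        (p.q10 + p.q11 * z + p.q12 * z ^ 2) * s +
        2 * (1 + s ^ 2) * (1 + z ^ 2) * (s * (1 + z ^ 2) - p.b - p.f * z) * s) * hs
    rcases mul_eq_zero.1 h3 with h4 | h4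
    · norm_num at h4
    · exact h4
  have hq' : (p.q00 + p.q10 * s + p.q20 * s ^ 2) + (p.q01 + p.q11 * s + p.q21 * s ^ 2) * z +
      (p.q02 + p.q12 * s + p.q22 * s ^ 2) * z ^ 2 = 0 := hq
  have h3 : (1 + z ^ 2) * ((p.q01 + p.q11 * s + p.q21 * s ^ 2) +
      2 * (p.q02 + p.q12 * s + p.q22 * s ^ 2) * z) = 0 := by
    unfold Pl.E2 Pl.swap Pl.E1 at e2
    simp only at e2
    linear_combination (-1 : ℂ) * e2 + 2 * z * hq' +
      2 * (1 + z ^ 2) ^ 2 * (z * (1 + s ^ 2) - p.c - p.f * s) * hs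
  rcases mul_eq_zero.1 h3 with h4 | h4
  · exact h2 h4 hq
  · exact h1 (NY2_cnd1 hq' h4)

private theorem NY2_sq {s : ℂ} (hs : 1 + s ^ 2 = 0) : s = Complex.I ∨ s = -Complex.I := by
  have h1 : (s - Complex.I) * (s + Complex.I) = 0 := by
    linear_combination hs - Complex.I_sq
  rcases mul_eq_zero.1 h1 with h2 | h2
  · exact Or.inl (sub_eq_zero.1 h2)
  · exact Or.inr (eq_neg_of_add_eq_zero_left h2)

private theorem NY2_c1 {p : Pl ℂ} (h : p.cnd Complex.I ≠ 0) {s : ℂ} (hs : 1 + s ^ 2 = 0) :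
    p.cnd1 s ≠ 0 := by
  intro h1
  apply h
  unfold Pl.cnd
  rcases NY2_sq hs with rfl | rfl
  · rw [h1]
    ring
  · rw [h1]
    ring

private theorem NY2_c2 {p : Pl ℂ} (h : p.cnd Complex.I ≠ 0) {s : ℂ} (hs : 1 + s ^ 2 = 0) :
    p.swap.cnd1 s ≠ 0 := by
  intro h1
  apply h
  unfold Pl.cnd
  rcases NY2_sq hs with rfl | rfl
  · rw [h1]
    ring
  · rw [h1]
    ring

private theorem NY2_c3 {p : Pl ℂ} (h : p.cnd Complex.I ≠ 0) {s z : ℂ} (hs : 1 + s ^ 2 = 0)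
    (hz : 1 + z ^ 2 = 0) : p.qv s z ≠ 0 := by
  intro h1
  apply h
  unfold Pl.cnd
  rcases NY2_sq hs with rfl | rfl <;> rcases NY2_sq hz with rfl | rfl
  · rw [h1]
    ring
  · rw [h1]
    ring
  · rw [h1]
    ring
  · rw [h1]
    ring

/-- Under the condition `cnd` no plane solution has `(1+y²)(1+z²) = 0`.

Proof. Let `y = s`, `s² = -1` (so `s = ± I`). `E1 s z = 2 s q(s, z)`, so `q(s,z) = 0`;
`E2 s z = -(1+z²) q_z(s,z) + 2 z q(s,z)`, so `(1+z²) q_z(s,z) = 0`. If `1+z² = 0` this contradicts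
the factor `qv s z` of `cnd`. Otherwise `q_z = 0`, and the discriminant
`q_z² - 4 (coefficient of z²) q` is `0`, contradiction. The case `z = s` is symmetric. -/
theorem cnd_ne (p : Pl ℂ) (h : p.cnd Complex.I ≠ 0) (u : ℂ × ℂ) (hu : u ∈ p.PSol) :
    (1 + u.1 ^ 2) * (1 + u.2 ^ 2) ≠ 0 := by
  obtain ⟨y, z⟩ := u
  obtain ⟨e1, e2⟩ := hu
  change p.E1 y z = 0 at e1
  change p.E2 y z = 0 at e2
  intro h0
  rcases mul_eq_zero.1 h0 with hy | hz
  · exact NY2_aux hy (NY2_c1 h hy) (fun hz => NY2_c3 h hy hz) e1 e2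
  · refine NY2_aux (p := p.swap) (s := z) (z := y) hz (NY2_c2 h hz) (fun hy => ?_) e2 e1
    have h1 : p.swap.qv z y = p.qv y z := by
      unfold Pl.qv Pl.swap
      ring
    rw [h1]
    exact NY2_c3 h hy hz

private theorem NY2_lin {n : ℕ} (a b c d x : Fin n → ℂ) (y z : ℂ) :
    dot (fun i => a i + b i * y + c i * z + d i * (y * z)) x =
      dot a x + dot b x * y + dot c x * z + dot d x * (y * z) := by
  unfold dot
  rw [Finset.sum_mul, Finset.sum_mul, Finset.sum_mul, ← Finset.sum_add_distrib,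
    ← Finset.sum_add_distrib, ← Finset.sum_add_distrib]
  exact Finset.sum_congr rfl fun i _ => by ring

private theorem NY2_comm {n : ℕ} (a b : Fin n → ℂ) : dot a b = dot b a :=
  Finset.sum_congr rfl fun i _ => mul_comm _ _

private theorem NY2_zero {n : ℕ} {V : Fin n → ℂ} (h : ∀ i, V i = 0) (x : Fin n → ℂ) :
    dot V x = 0 := Finset.sum_eq_zero fun i _ => by rw [h i, zero_mul]

/-- Under the condition `cnd` no solution of the critical system has `(1+y²)(1+z²) = 0`.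

Proof. If `y = s = ± I`, then `hx` gives `V(s, z) = 0`, so `q(s, ·) = V·V` has a zero of order two at
`z` (`q_z = 2 V·V_z`), its discriminant vanishes. -/
theorem cnd_ne_sys {n : ℕ} (t : Tp n ℂ) (h : (pl t).cnd Complex.I ≠ 0) (x : Fin n → ℂ) (y z : ℂ)
    (hs : Sys t x y z) : (1 + y ^ 2) * (1 + z ^ 2) ≠ 0 := by
  intro h0
  have hV : ∀ i, tv t 0 i + tv t 1 i * y + tv t 2 i * z + tv t 3 i * (y * z) = 0 := fun i => by
    rw [← hs.hx i, h0, mul_zero]
  have hx : ∀ x : Fin n → ℂ, dot (tv t 0) x + dot (tv t 1) x * y + dot (tv t 2) x * z +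
      dot (tv t 3) x * (y * z) = 0 := fun x => by
    rw [← NY2_lin]
    exact NY2_zero hV x
  have e0 := hx (tv t 0)
  have e1 := hx (tv t 1)
  have e2 := hx (tv t 2)
  have e3 := hx (tv t 3)
  rw [NY2_comm (tv t 1) (tv t 0), NY2_comm (tv t 2) (tv t 0), NY2_comm (tv t 3) (tv t 0)] at e0
  rw [NY2_comm (tv t 2) (tv t 1), NY2_comm (tv t 3) (tv t 1)] at e1
  rw [NY2_comm (tv t 3) (tv t 2)] at e2
  rcases mul_eq_zero.1 h0 with hy | hz
  · refine NY2_c1 h hy (NY2_cnd1 (z := z) ?_ ?_)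
    · change (dot (tv t 0) (tv t 0) + 2 * dot (tv t 0) (tv t 1) * y +
        dot (tv t 1) (tv t 1) * y ^ 2) + (2 * dot (tv t 0) (tv t 2) +
        (2 * dot (tv t 0) (tv t 3) + 2 * dot (tv t 1) (tv t 2)) * y +
        2 * dot (tv t 1) (tv t 3) * y ^ 2) * z + (dot (tv t 2) (tv t 2) +
        2 * dot (tv t 2) (tv t 3) * y + dot (tv t 3) (tv t 3) * y ^ 2) * z ^ 2 = 0
      linear_combination e0 + y * e1 + z * e2 + y * z * e3
    · change (2 * dot (tv t 0) (tv t 2) +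
        (2 * dot (tv t 0) (tv t 3) + 2 * dot (tv t 1) (tv t 2)) * y +
        2 * dot (tv t 1) (tv t 3) * y ^ 2) + 2 * (dot (tv t 2) (tv t 2) +
        2 * dot (tv t 2) (tv t 3) * y + dot (tv t 3) (tv t 3) * y ^ 2) * z = 0
      linear_combination 2 * e2 + 2 * y * e3
  · refine NY2_c2 h hz (NY2_cnd1 (z := y) ?_ ?_)
    · change (dot (tv t 0) (tv t 0) + 2 * dot (tv t 0) (tv t 2) * z +
        dot (tv t 2) (tv t 2) * z ^ 2) + (2 * dot (tv t 0) (tv t 1) +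
        (2 * dot (tv t 0) (tv t 3) + 2 * dot (tv t 1) (tv t 2)) * z +
        2 * dot (tv t 2) (tv t 3) * z ^ 2) * y + (dot (tv t 1) (tv t 1) +
        2 * dot (tv t 1) (tv t 3) * z + dot (tv t 3) (tv t 3) * z ^ 2) * y ^ 2 = 0
      linear_combination e0 + y * e1 + z * e2 + y * z * e3
    · change (2 * dot (tv t 0) (tv t 1) +
        (2 * dot (tv t 0) (tv t 3) + 2 * dot (tv t 1) (tv t 2)) * z +
        2 * dot (tv t 2) (tv t 3) * z ^ 2) + 2 * (dot (tv t 1) (tv t 1) +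
        2 * dot (tv t 1) (tv t 3) * z + dot (tv t 3) (tv t 3) * z ^ 2) * y = 0
      linear_combination 2 * e1 + 2 * z * e3

private theorem NY2_enc {n : ℕ} {K : Type} [Field K] (h2 : (2 : K) ≠ 0) (t : Tp n K)
    (h : ∀ u ∈ (pl t).PSol, (1 + u.1 ^ 2) * (1 + u.2 ^ 2) ≠ 0)
    (h' : ∀ x y z, Sys t x y z → (1 + y ^ 2) * (1 + z ^ 2) ≠ 0) :
    (Sol t).encard = (pl t).PSol.encard := by
  have hg : Function.Injective (fun u : K × K =>
      ((fun i => Vv t u.1 u.2 i / ((1 + u.1 ^ 2) * (1 + u.2 ^ 2)), u.1, u.2) :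
        (Fin n → K) × K × K)) := by
    rintro ⟨y, z⟩ ⟨y', z'⟩ h1
    exact congrArg Prod.snd h1
  rw [← hg.encard_image]
  congr 1
  ext ⟨x, y, z⟩
  constructor
  · intro hs
    have hs' : Sys t x y z := hs
    obtain ⟨hx, hp⟩ := (sys_iff h2 t x y z (h' x y z hs')).1 hs'
    exact ⟨(y, z), hp, by rw [hx]⟩
  · rintro ⟨⟨y', z'⟩, hp, h1⟩
    have e1 : y' = y := congrArg (fun w => w.2.1) h1
    have e2 : z' = z := congrArg (fun w => w.2.2) h1
    subst e1 e2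
    have e3 : (fun i => Vv t y' z' i / ((1 + y' ^ 2) * (1 + z' ^ 2))) = x := congrArg Prod.fst h1
    exact (sys_iff h2 t x y' z' (h (y', z') hp)).2 ⟨e3.symm, hp⟩

/-- Proof. `sys_iff`, `cnd_ne`, `cnd_ne_sys`: the projection `(x, y, z) ↦ (y, z)` is a bijection. -/
theorem encard_cnd {n : ℕ} (t : Tp n ℂ) (h : (pl t).cnd Complex.I ≠ 0) :
    (Sol t).encard = (pl t).PSol.encard := by
  exact NY2_enc two_ne_zero t (fun u hu => cnd_ne (pl t) h u hu)
    (fun x y z hs => cnd_ne_sys t h x y z hs)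

/-- For real parameters always. -/
theorem encard_real {n : ℕ} (t : Tp n ℝ) : (Sol t).encard = (pl t).PSol.encard := by
  have h1 : ∀ y z : ℝ, (1 + y ^ 2) * (1 + z ^ 2) ≠ 0 := fun y z => by positivity
  exact NY2_enc two_ne_zero t (fun u _ => h1 u.1 u.2) (fun x y z _ => h1 y z)

end Pool.Agent.MPb0eP
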