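import Mathlib
import Pool.Agent.Lib.MP_b0e20b_ag_P.Defs

/-!
# MP_b0e20b_ag, formats (n,1,1): the plane system as a differentiable map
-/

set_option autoImplicit false

open scoped Topology

namespace Pool.Agent.MPb0eP

/-- The plane system. -/
def Gp {n : ℕ} {R : Type} [CommRing R] (t : Tp n R) (u : R × R) : R × R :=
  ((pl t).E1 u.1 u.2, (pl t).E2 u.1 u.2)

/-- Proof. It is polynomial in the coordinates (unfold everything, `fun_prop`). -/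
theorem contDiff_Gp {𝕜 : Type} [RCLike 𝕜] (n : ℕ) :
    ContDiff 𝕜 1 (fun w : Tp n 𝕜 × (𝕜 × 𝕜) => Gp w.1 w.2) := by
  unfold Gp Pl.E2 Pl.swap Pl.E1 pl tv ts dot
  fun_prop

private theorem pd_E1 {𝕜 : Type} [RCLike 𝕜] (p : Pl 𝕜) (u : 𝕜 × 𝕜) :
    HasFDerivAt (fun u : 𝕜 × 𝕜 => p.E1 u.1 u.2)
      (p.E1y u.1 u.2 • ContinuousLinearMap.fst 𝕜 𝕜 𝕜 +
          p.E1z u.1 u.2 • ContinuousLinearMap.snd 𝕜 𝕜 𝕜) u := by
  have hy : HasFDerivAt (fun u : 𝕜 × 𝕜 => u.1) (ContinuousLinearMap.fst 𝕜 𝕜 𝕜) u :=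
    hasFDerivAt_fst
  have hz : HasFDerivAt (fun u : 𝕜 × 𝕜 => u.2) (ContinuousLinearMap.snd 𝕜 𝕜 𝕜) u :=
    hasFDerivAt_snd
  have h1 := (hy.pow 2).const_add 1
  have h2 := (hz.pow 2).const_add 1
  have h3 := ((hy.mul h2).sub_const p.b).sub (hz.const_mul p.f)
  have h4 := (((h1.pow 2).const_mul 2).mul h2).mul h3
  have q1 := ((hz.const_mul p.q11).const_add p.q10).add ((hz.pow 2).const_mul p.q12)
  have q2 := ((hz.const_mul p.q21).const_add p.q20).add ((hz.pow 2).const_mul p.q22)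
  have q0 := ((hz.const_mul p.q01).const_add p.q00).add ((hz.pow 2).const_mul p.q02)
  have h5 := q1.mul ((hy.pow 2).const_sub 1)
  have h6 := ((q2.sub q0).const_mul 2).mul hy
  have h7 := h4.sub (h5.add h6)
  refine (h7.congr_fderiv ?_).congr_of_eventuallyEq ?_
  · ext <;> simp [Pl.E1y, Pl.E1z] <;> ring
  · refine Filter.Eventually.of_forall fun w => ?_
    simp only [Pl.E1, Pi.mul_apply, Pi.sub_apply, Pi.add_apply]

/-- The derivative of the plane system; for every `p : Pl 𝕜`. -/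
theorem fderiv_plane {𝕜 : Type} [RCLike 𝕜] (p : Pl 𝕜) (u : 𝕜 × 𝕜) :
    HasFDerivAt (fun u : 𝕜 × 𝕜 => (p.E1 u.1 u.2, p.E2 u.1 u.2))
      (((p.E1y u.1 u.2 • ContinuousLinearMap.fst 𝕜 𝕜 𝕜 +
          p.E1z u.1 u.2 • ContinuousLinearMap.snd 𝕜 𝕜 𝕜).prod
        (p.E2y u.1 u.2 • ContinuousLinearMap.fst 𝕜 𝕜 𝕜 +
          p.E2z u.1 u.2 • ContinuousLinearMap.snd 𝕜 𝕜 𝕜)) : 𝕜 × 𝕜 →L[𝕜] 𝕜 × 𝕜) u := by
  have h2 : HasFDerivAt (fun u : 𝕜 × 𝕜 => p.E2 u.1 u.2)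
      (p.E2y u.1 u.2 • ContinuousLinearMap.fst 𝕜 𝕜 𝕜 +
          p.E2z u.1 u.2 • ContinuousLinearMap.snd 𝕜 𝕜 𝕜) u := by
    have hs : HasFDerivAt (fun u : 𝕜 × 𝕜 => (u.2, u.1))
        ((ContinuousLinearMap.snd 𝕜 𝕜 𝕜).prod (ContinuousLinearMap.fst 𝕜 𝕜 𝕜)) u :=
      hasFDerivAt_snd.prodMk hasFDerivAt_fst
    have h := (pd_E1 p.swap (u.2, u.1)).comp u hs
    refine (h.congr_fderiv ?_).congr_of_eventuallyEq ?_
    · ext <;> simp [Pl.E2y, Pl.E2z]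
    · exact Filter.Eventually.of_forall fun w => rfl
  exact (pd_E1 p u).prodMk h2

/-- Proof. `fderiv_plane`; a linear map of the plane with nonzero determinant is injective, hence
bijective. -/
theorem bij_plane {𝕜 : Type} [RCLike 𝕜] {n : ℕ} (t : Tp n 𝕜) (u : 𝕜 × 𝕜)
    (h : (pl t).dJ u.1 u.2 ≠ 0) : Function.Bijective (fderiv 𝕜 (Gp t) u) := by
  have hd : fderiv 𝕜 (Gp t) u = _ := (fderiv_plane (pl t) u).fderiv
  rw [hd]
  set p := pl t with hp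
  have hi : Function.Injective
      ((((p.E1y u.1 u.2 • ContinuousLinearMap.fst 𝕜 𝕜 𝕜 +
          p.E1z u.1 u.2 • ContinuousLinearMap.snd 𝕜 𝕜 𝕜).prod
        (p.E2y u.1 u.2 • ContinuousLinearMap.fst 𝕜 𝕜 𝕜 +
          p.E2z u.1 u.2 • ContinuousLinearMap.snd 𝕜 𝕜 𝕜)) : 𝕜 × 𝕜 →L[𝕜] 𝕜 × 𝕜) :
          𝕜 × 𝕜 →ₗ[𝕜] 𝕜 × 𝕜) := by
    rw [injective_iff_map_eq_zero]
    rintro ⟨a, b⟩ hab
    have e1 : p.E1y u.1 u.2 * a + p.E1z u.1 u.2 * b = 0 := by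
      simpa using congrArg Prod.fst hab
    have e2 : p.E2y u.1 u.2 * a + p.E2z u.1 u.2 * b = 0 := by
      simpa using congrArg Prod.snd hab
    have ha : p.dJ u.1 u.2 * a = 0 := by
      unfold Pl.dJ
      linear_combination p.E2z u.1 u.2 * e1 - p.E1z u.1 u.2 * e2
    have hb : p.dJ u.1 u.2 * b = 0 := by
      unfold Pl.dJ
      linear_combination p.E1y u.1 u.2 * e2 - p.E2y u.1 u.2 * e1
    have ha' : a = 0 := (mul_eq_zero.mp ha).resolve_left h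
    have hb' : b = 0 := (mul_eq_zero.mp hb).resolve_left h
    rw [ha', hb']
    rfl
  exact ⟨hi, LinearMap.injective_iff_surjective.mp hi⟩

end Pool.Agent.MPb0eP
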