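import Mathlib
import Pool.Agent.Lib.MP_b0e20b_ag_P.Cn
import Pool.Agent.Lib.MP_b0e20b_ag_P.LC
import Pool.Agent.Lib.MP_b0e20b_ag_P.PD
import Pool.Agent.Lib.MP_b0e20b_ag_P.NY
import Pool.Agent.Lib.MP_b0e20b_ag_P.NY2

/-!
# MP_b0e20b_ag, formats (n,1,1): attained numbers
-/

set_option autoImplicit false

open scoped Topology
open MvPolynomial

namespace Pool.Agent.MPb0eP

/-- The padded parameters. -/
private def pad {n : ℕ} (t : Tp n ℝ) : Tp (n + 1) ℝ :=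
  Sum.elim (fun si => Fin.cons (α := fun _ => ℝ) 0 (fun i => t (Sum.inl (si.1, i))) si.2)
    (fun s => t (Sum.inr s))

private theorem dot_pad {n : ℕ} (t : Tp n ℝ) (s s' : Fin 4) :
    dot (tv (pad t) s) (tv (pad t) s') = dot (tv t s) (tv t s') := by
  simp [dot, tv, pad, Fin.sum_univ_succ]

private theorem pl_pad {n : ℕ} (t : Tp n ℝ) : pl (pad t) = pl t := by
  simp only [pl, dot_pad]
  simp [ts, pad]

/-- Adding a zero coordinate does not change the plane system. -/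
theorem rg_pad {n k : ℕ} (h : RG n k) : RG (n + 1) k := by
  obtain ⟨t, h1, h2⟩ := h
  refine ⟨pad t, ?_, ?_⟩
  · rw [pl_pad]; exact h1
  · rw [pl_pad]; exact h2

private theorem gp_iff {n : ℕ} (t : Tp n ℝ) (u : ℝ × ℝ) :
    Gp t u = 0 ↔ u ∈ (pl t).PSol := by
  simp [Gp, Pl.PSol, Prod.ext_iff]

private theorem abs_dot_le {n : ℕ} (x v : Fin n → ℝ) (A B : ℝ) (hx : ∀ i, |x i| ≤ A)
    (hv : ∀ i, |v i| ≤ B) : |dot v x| ≤ n * (B * A) := by
  unfold dot
  refine (Finset.abs_sum_le_sum_abs _ _).trans ?_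
  have : ∀ i ∈ (Finset.univ : Finset (Fin n)), |v i * x i| ≤ B * A := by
    intro i _
    rw [abs_mul]
    exact mul_le_mul (hv i) (hx i) (abs_nonneg _) ((abs_nonneg _).trans (hv i))
  refine (Finset.sum_le_sum this).trans ?_
  simp

private theorem bound1 {y z X a d f g C D : ℝ} (hX : 0 ≤ X) (hC : 0 ≤ C) (hD : 0 ≤ D)
    (ha : |a| ≤ C) (hd : |d| ≤ D) (hf : |f| ≤ C) (hg : |g| ≤ D)
    (h : y * ((1 + X) * (1 + z ^ 2)) = a + d + f * z + g * z) : |y| ≤ 2 * (C + D) := by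
  have h1 : |y| * (1 + z ^ 2) ≤ |y * ((1 + X) * (1 + z ^ 2))| := by
    rw [abs_mul, abs_of_nonneg (a := (1 + X) * (1 + z ^ 2)) (by positivity)]
    refine mul_le_mul_of_nonneg_left ?_ (abs_nonneg _)
    nlinarith [sq_nonneg z, mul_nonneg hX (sq_nonneg z)]
  have h2 : |a + d + f * z + g * z| ≤ (C + D) * (1 + |z|) := by
    have e1 : |f * z| ≤ C * |z| := by
      rw [abs_mul]; exact mul_le_mul_of_nonneg_right hf (abs_nonneg _)
    have e2 : |g * z| ≤ D * |z| := by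
      rw [abs_mul]; exact mul_le_mul_of_nonneg_right hg (abs_nonneg _)
    have e3 := abs_add_le (a + d + f * z) (g * z)
    have e4 := abs_add_le (a + d) (f * z)
    have e5 := abs_add_le a d
    nlinarith
  rw [h] at h1
  have h3 : 1 + |z| ≤ 2 * (1 + z ^ 2) := by
    have : |z| ^ 2 = z ^ 2 := sq_abs z
    nlinarith [sq_nonneg (|z| - 1), abs_nonneg z]
  have h4 : |y| * (1 + z ^ 2) ≤ (2 * (C + D)) * (1 + z ^ 2) := by
    have := mul_le_mul_of_nonneg_left h3 (add_nonneg hC hD)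
    nlinarith
  exact le_of_mul_le_mul_right h4 (by positivity)

private theorem boundx {y z w a b c d C : ℝ} (hC : 0 ≤ C)
    (ha : |a| ≤ C) (hb : |b| ≤ C) (hc : |c| ≤ C) (hd : |d| ≤ C)
    (h : w * ((1 + y ^ 2) * (1 + z ^ 2)) = a + b * y + c * z + d * (y * z)) : |w| ≤ 4 * C := by
  have hpos : 0 < (1 + y ^ 2) * (1 + z ^ 2) := by positivity
  have h1 : |w| * ((1 + y ^ 2) * (1 + z ^ 2)) = |a + b * y + c * z + d * (y * z)| := by
    rw [← h, abs_mul, abs_of_pos hpos]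
  have ey : |y| ≤ 1 + y ^ 2 := by
    have : |y| ^ 2 = y ^ 2 := sq_abs y
    nlinarith [sq_nonneg (|y| - 1), abs_nonneg y]
  have ez : |z| ≤ 1 + z ^ 2 := by
    have : |z| ^ 2 = z ^ 2 := sq_abs z
    nlinarith [sq_nonneg (|z| - 1), abs_nonneg z]
  have y1 : 1 ≤ 1 + y ^ 2 := by nlinarith [sq_nonneg y]
  have z1 : 1 ≤ 1 + z ^ 2 := by nlinarith [sq_nonneg z]
  have k1 : (1:ℝ) ≤ (1 + y ^ 2) * (1 + z ^ 2) := by nlinarith
  have k2 : |y| ≤ (1 + y ^ 2) * (1 + z ^ 2) := by nlinarith [abs_nonneg y]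
  have k3 : |z| ≤ (1 + y ^ 2) * (1 + z ^ 2) := by nlinarith [abs_nonneg z]
  have k4 : |y| * |z| ≤ (1 + y ^ 2) * (1 + z ^ 2) :=
    mul_le_mul ey ez (abs_nonneg _) (by positivity)
  have t1 : |b * y| ≤ C * ((1 + y ^ 2) * (1 + z ^ 2)) := by
    rw [abs_mul]; exact mul_le_mul hb k2 (abs_nonneg _) hC
  have t2 : |c * z| ≤ C * ((1 + y ^ 2) * (1 + z ^ 2)) := by
    rw [abs_mul]; exact mul_le_mul hc k3 (abs_nonneg _) hC
  have t3 : |d * (y * z)| ≤ C * ((1 + y ^ 2) * (1 + z ^ 2)) := by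
    rw [abs_mul, abs_mul]; exact mul_le_mul hd k4 (by positivity) hC
  have t0 : |a| ≤ C * ((1 + y ^ 2) * (1 + z ^ 2)) := by nlinarith
  have e3 := abs_add_le (a + b * y + c * z) (d * (y * z))
  have e4 := abs_add_le (a + b * y) (c * z)
  have e5 := abs_add_le a (b * y)
  have h5 : |w| * ((1 + y ^ 2) * (1 + z ^ 2)) ≤ (4 * C) * ((1 + y ^ 2) * (1 + z ^ 2)) := by
    rw [h1]; linarith
  exact le_of_mul_le_mul_right h5 hpos

/-- Real solutions are bounded, locally uniformly.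

Proof. A real plane solution gives a solution of the critical system (`sys_iff`). If all parameters
are at most `C` in absolute value, then `|x i| (1+y²)(1+z²) ≤ 4 C (1+y²)(1+z²)` (each of
`1, |y|, |z|, |y z|` is at most `(1+y²)(1+z²)`), so `|x i| ≤ 4 C`, and then
`|y| (1+z²) ≤ |y| (1 + x·x)(1+z²) ≤ C' (1 + |z|) ≤ 2 C' (1+z²)`; the same for `z`. -/
theorem bd_real {n : ℕ} (t0 : Tp n ℝ) :
    ∃ R : ℝ, ∀ᶠ t in 𝓝 t0, ∀ u, Gp t u = 0 → ‖u‖ ≤ R := by
  set C : ℝ := ‖t0‖ + 1 with hCdef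
  have hC : 0 ≤ C := by positivity
  have hev : ∀ᶠ t in 𝓝 t0, ‖t‖ < C := by
    have hc : ContinuousAt (fun t : Tp n ℝ => ‖t‖) t0 := continuous_norm.continuousAt
    exact hc.eventually_lt continuousAt_const (by simp [hCdef])
  refine ⟨2 * (C + n * (C * (4 * C))), ?_⟩
  filter_upwards [hev] with t ht u hu
  have hti : ∀ i, |t i| ≤ C := fun i => by
    have := norm_le_pi_norm t i
    rw [Real.norm_eq_abs] at this
    linarith
  obtain ⟨y, z⟩ := u
  have hne : (1 + y ^ 2) * (1 + z ^ 2) ≠ 0 := by positivity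
  have hs : Sys t (fun i => Vv t y z i / ((1 + y ^ 2) * (1 + z ^ 2))) y z := by
    rw [sys_iff two_ne_zero t _ y z hne]
    exact ⟨rfl, (gp_iff t (y, z)).1 hu⟩
  set x : Fin n → ℝ := fun i => Vv t y z i / ((1 + y ^ 2) * (1 + z ^ 2)) with hxdef
  have hxi : ∀ i, |x i| ≤ 4 * C := fun i =>
    boundx hC (hti _) (hti _) (hti _) (hti _) (hs.hx i)
  have hX : 0 ≤ dot x x := by
    unfold dot
    exact Finset.sum_nonneg fun i _ => mul_self_nonneg _
  have hdot : ∀ s, |dot (tv t s) x| ≤ n * (C * (4 * C)) := fun s =>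
    abs_dot_le x (tv t s) (4 * C) C hxi (fun i => hti _)
  have hD : (0 : ℝ) ≤ n * (C * (4 * C)) := by positivity
  have hy : |y| ≤ 2 * (C + n * (C * (4 * C))) :=
    bound1 hX hC hD (hti _) (hdot 1) (hti _) (hdot 3) hs.hy
  have hz : |z| ≤ 2 * (C + n * (C * (4 * C))) :=
    bound1 hX hC hD (hti _) (hdot 2) (hti _) (hdot 3) hs.hz
  rw [Prod.norm_def]
  simp only [Real.norm_eq_abs]
  exact max_le hy hz

/-- Proof. At the parameters `t0` of `RG` the number of real plane solutions is locally constant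
(`lc` over `ℝ`, `bd_real`, `bij_plane`). Take `t` near `t0` with `eval (toC t) P ≠ 0`
(`dense_ne_real`). Then `Sol (toC t)` has `N` elements and `Sol t` has `k` (`encard_real`). -/
theorem att {n k N : ℕ} (hG : GenT n N) (h : RG n k) :
    ∃ t : Tp n ℝ, (Sol (toC t)).encard = N ∧ (Sol t).encard = k := by
  obtain ⟨P, hP, hPN⟩ := hG
  obtain ⟨t0, h1, h2⟩ := h
  obtain ⟨R, hR⟩ := bd_real t0
  have hset : ∀ t : Tp n ℝ, {u | Gp t u = 0} = (pl t).PSol := fun t => by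
    ext u
    exact gp_iff t u
  have hloc := lc (𝕜 := ℝ) (fun (t : Tp n ℝ) (u : ℝ × ℝ) => Gp t u) (contDiff_Gp n) t0 R hR
    (fun u hu => bij_plane t0 u (h2 u ((gp_iff t0 u).1 hu)))
  obtain ⟨t, ht, htP⟩ := dense_ne_real P hP t0 _ hloc
  refine ⟨t, hPN (toC t) htP, ?_⟩
  have ht' : {u | Gp t u = 0}.encard = {u | Gp t0 u = 0}.encard := ht
  rw [encard_real, ← hset t, ht', hset t0, h1]

end Pool.Agent.MPb0eP
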