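import Mathlib
import Pool.Agent.Lib.MP_b0e20b_ag_P.Defs

/-!
# MP_b0e20b_ag, format (1,1,1): the critical system in three variables
-/

set_option autoImplicit false

open scoped Topology

namespace Pool.Agent.MPb0eP

/-- The critical system for `n = 1`. -/
def G3 {R : Type} [CommRing R] (t : Tp 1 R) (u : R × R × R) : R × R × R :=
  (u.1 * ((1 + u.2.1 ^ 2) * (1 + u.2.2 ^ 2)) -
      (tv t 0 0 + tv t 1 0 * u.2.1 + tv t 2 0 * u.2.2 + tv t 3 0 * (u.2.1 * u.2.2)),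
    u.2.1 * ((1 + u.1 ^ 2) * (1 + u.2.2 ^ 2)) -
      (ts t 0 + tv t 1 0 * u.1 + ts t 2 * u.2.2 + tv t 3 0 * u.1 * u.2.2),
    u.2.2 * ((1 + u.1 ^ 2) * (1 + u.2.1 ^ 2)) -
      (ts t 1 + tv t 2 0 * u.1 + ts t 2 * u.2.1 + tv t 3 0 * u.1 * u.2.1))

/-- The Hessian determinant. -/
def H3 {R : Type} [CommRing R] (t : Tp 1 R) (u : R × R × R) : R :=
  let A := (1 + u.2.1 ^ 2) * (1 + u.2.2 ^ 2)
  let B := (1 + u.1 ^ 2) * (1 + u.2.2 ^ 2)
  let C := (1 + u.1 ^ 2) * (1 + u.2.1 ^ 2)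
  let s12 := 2 * u.1 * u.2.1 * (1 + u.2.2 ^ 2) - tv t 1 0 - tv t 3 0 * u.2.2
  let s13 := 2 * u.1 * u.2.2 * (1 + u.2.1 ^ 2) - tv t 2 0 - tv t 3 0 * u.2.1
  let s23 := 2 * u.2.1 * u.2.2 * (1 + u.1 ^ 2) - ts t 2 - tv t 3 0 * u.1
  A * B * C + 2 * s12 * s13 * s23 - A * s23 ^ 2 - B * s13 ^ 2 - C * s12 ^ 2

private theorem tDSys {R : Type} [CommRing R] (t : Tp 1 R) (u : R × R × R) :
    G3 t u = 0 ↔ Sys t (fun _ => u.1) u.2.1 u.2.2 := by
  have hd : ∀ x y : Fin 1 → R, dot x y = x 0 * y 0 := fun x y => by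
    simp [dot]
  constructor
  · intro h
    have h1 := congrArg Prod.fst h
    have h2 := congrArg (fun w => w.2.1) h
    have h3 := congrArg (fun w => w.2.2) h
    simp only [G3, Prod.fst_zero, Prod.snd_zero] at h1 h2 h3
    refine ⟨fun i => ?_, ?_, ?_⟩
    · obtain rfl : i = 0 := Subsingleton.elim _ _
      linear_combination h1
    · rw [hd, hd, hd]
      linear_combination h2
    · rw [hd, hd, hd]
      linear_combination h3
  · rintro ⟨h1, h2, h3⟩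
    rw [hd, hd, hd] at h2 h3
    have h1' := h1 0
    refine Prod.ext ?_ (Prod.ext ?_ ?_)
    · simp only [G3, Prod.fst_zero]
      linear_combination h1'
    · simp only [G3, Prod.fst_zero, Prod.snd_zero]
      linear_combination h2
    · simp only [G3, Prod.snd_zero]
      linear_combination h3

/-- Proof. Unfold; `dot` over `Fin 1` is one product (`Fin.sum_univ_one`); the bijection is
`u ↦ (fun _ => u.1, u.2)`. -/
theorem encard_G3 {R : Type} [CommRing R] (t : Tp 1 R) :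
    {u : R × R × R | G3 t u = 0}.encard = (Sol t).encard := by
  have hi : Function.Injective
      (fun u : R × R × R => (((fun _ => u.1), u.2) : (Fin 1 → R) × R × R)) := by
    intro u v h
    have h1 := congrFun (congrArg Prod.fst h) 0
    have h2 := congrArg Prod.snd h
    exact Prod.ext h1 h2
  rw [← hi.encard_image]
  apply congrArg
  ext w
  constructor
  · rintro ⟨u, hu, rfl⟩
    exact (tDSys t u).1 hu
  · intro hw
    have he : (fun _ : Fin 1 => w.1 0) = w.1 := funext fun i => by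
      rw [Subsingleton.elim i 0]
    refine ⟨(w.1 0, w.2), (tDSys t _).2 ?_, Prod.ext he rfl⟩
    change Sys t (fun _ => w.1 0) w.2.1 w.2.2
    rw [he]
    exact hw

theorem contDiff_G3 {𝕜 : Type} [RCLike 𝕜] :
    ContDiff 𝕜 1 (fun w : Tp 1 𝕜 × (𝕜 × 𝕜 × 𝕜) => G3 w.1 w.2) := by
  have ht : ∀ i : Idx 1, ContDiff 𝕜 1 (fun w : Tp 1 𝕜 × (𝕜 × 𝕜 × 𝕜) => w.1 i) := fun i =>
    (contDiff_apply 𝕜 𝕜 i).comp contDiff_fst
  have hx : ContDiff 𝕜 1 (fun w : Tp 1 𝕜 × (𝕜 × 𝕜 × 𝕜) => w.2.1) :=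
    contDiff_fst.comp contDiff_snd
  have hy : ContDiff 𝕜 1 (fun w : Tp 1 𝕜 × (𝕜 × 𝕜 × 𝕜) => w.2.2.1) :=
    contDiff_fst.comp (contDiff_snd.comp contDiff_snd)
  have hz : ContDiff 𝕜 1 (fun w : Tp 1 𝕜 × (𝕜 × 𝕜 × 𝕜) => w.2.2.2) :=
    contDiff_snd.comp (contDiff_snd.comp contDiff_snd)
  have h1 : ∀ {f : Tp 1 𝕜 × (𝕜 × 𝕜 × 𝕜) → 𝕜}, ContDiff 𝕜 1 f →
      ContDiff 𝕜 1 (fun w => 1 + f w ^ 2) := fun hf => contDiff_const.add (hf.pow 2)
  refine ContDiff.prodMk ?_ (ContDiff.prodMk ?_ ?_)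
  · exact (hx.mul ((h1 hy).mul (h1 hz))).sub ((((ht _).add ((ht _).mul hy)).add
      ((ht _).mul hz)).add ((ht _).mul (hy.mul hz)))
  · exact (hy.mul ((h1 hx).mul (h1 hz))).sub ((((ht _).add ((ht _).mul hx)).add
      ((ht _).mul hz)).add (((ht _).mul hx).mul hz))
  · exact (hz.mul ((h1 hx).mul (h1 hy))).sub ((((ht _).add ((ht _).mul hx)).add
      ((ht _).mul hy)).add (((ht _).mul hx).mul hy))

/-- Proof. The derivative has the matrix `[A s12 s13; s12 B s23; s13 s23 C]` with the determinant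
`H3 t u`, so it is injective (multiply with the adjugate), hence bijective (finite dimension). -/
theorem bij_G3 {𝕜 : Type} [RCLike 𝕜] (t : Tp 1 𝕜) (u : 𝕜 × 𝕜 × 𝕜) (h : H3 t u ≠ 0) :
    Function.Bijective (fderiv 𝕜 (G3 t) u) := by
  have hx : HasFDerivAt (fun w : 𝕜 × 𝕜 × 𝕜 => w.1) (ContinuousLinearMap.fst 𝕜 𝕜 (𝕜 × 𝕜)) u :=
    hasFDerivAt_fst
  have hy : HasFDerivAt (fun w : 𝕜 × 𝕜 × 𝕜 => w.2.1)
      ((ContinuousLinearMap.fst 𝕜 𝕜 𝕜).comp (ContinuousLinearMap.snd 𝕜 𝕜 (𝕜 × 𝕜))) u :=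
    ((ContinuousLinearMap.fst 𝕜 𝕜 𝕜).comp (ContinuousLinearMap.snd 𝕜 𝕜 (𝕜 × 𝕜))).hasFDerivAt
  have hz : HasFDerivAt (fun w : 𝕜 × 𝕜 × 𝕜 => w.2.2)
      ((ContinuousLinearMap.snd 𝕜 𝕜 𝕜).comp (ContinuousLinearMap.snd 𝕜 𝕜 (𝕜 × 𝕜))) u :=
    ((ContinuousLinearMap.snd 𝕜 𝕜 𝕜).comp (ContinuousLinearMap.snd 𝕜 𝕜 (𝕜 × 𝕜))).hasFDerivAt
  have d1 := (hx.mul (((hy.pow 2).const_add 1).mul ((hz.pow 2).const_add 1))).sub
    ((((hasFDerivAt_const (tv t 0 0) u).add (hy.const_mul (tv t 1 0))).add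
      (hz.const_mul (tv t 2 0))).add ((hy.mul hz).const_mul (tv t 3 0)))
  have d2 := (hy.mul (((hx.pow 2).const_add 1).mul ((hz.pow 2).const_add 1))).sub
    ((((hasFDerivAt_const (ts t 0) u).add (hx.const_mul (tv t 1 0))).add
      (hz.const_mul (ts t 2))).add ((hx.const_mul (tv t 3 0)).mul hz))
  have d3 := (hz.mul (((hx.pow 2).const_add 1).mul ((hy.pow 2).const_add 1))).sub
    ((((hasFDerivAt_const (ts t 1) u).add (hx.const_mul (tv t 2 0))).add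
      (hy.const_mul (ts t 2))).add ((hx.const_mul (tv t 3 0)).mul hy))
  have hd : HasFDerivAt (G3 t) _ u := d1.prodMk (d2.prodMk d3)
  rw [hd.fderiv]
  have hinj : ∀ (L : (𝕜 × 𝕜 × 𝕜) →L[𝕜] (𝕜 × 𝕜 × 𝕜)), (∀ v, L v = 0 → v = 0) →
      Function.Bijective L := by
    intro L hL
    have h1 : Function.Injective L := (injective_iff_map_eq_zero L).2 hL
    exact ⟨h1, (LinearMap.injective_iff_surjective (f := L.toLinearMap)).1 h1⟩
  apply hinj
  rintro ⟨a, b, c⟩ hv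
  have e1 := congrArg Prod.fst hv
  have e2 := congrArg (fun w => w.2.1) hv
  have e3 := congrArg (fun w => w.2.2) hv
  simp only [ContinuousLinearMap.prod_apply, sub_apply, add_apply, smul_apply,
    ContinuousLinearMap.comp_apply, ContinuousLinearMap.coe_fst', ContinuousLinearMap.coe_snd',
    zero_apply, smul_eq_mul, Prod.fst_zero, Prod.snd_zero, Nat.reduceSub, pow_one,
    nsmul_eq_mul, Nat.cast_ofNat, Pi.mul_apply] at e1 e2 e3
  obtain ⟨A, hA⟩ : ∃ A, A = (1 + u.2.1 ^ 2) * (1 + u.2.2 ^ 2) := ⟨_, rfl⟩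
  obtain ⟨B, hB⟩ : ∃ B, B = (1 + u.1 ^ 2) * (1 + u.2.2 ^ 2) := ⟨_, rfl⟩
  obtain ⟨C, hC⟩ : ∃ C, C = (1 + u.1 ^ 2) * (1 + u.2.1 ^ 2) := ⟨_, rfl⟩
  obtain ⟨p, hp⟩ : ∃ p, p = 2 * u.1 * u.2.1 * (1 + u.2.2 ^ 2) - tv t 1 0 - tv t 3 0 * u.2.2 :=
    ⟨_, rfl⟩
  obtain ⟨q, hq⟩ : ∃ q, q = 2 * u.1 * u.2.2 * (1 + u.2.1 ^ 2) - tv t 2 0 - tv t 3 0 * u.2.1 :=
    ⟨_, rfl⟩
  obtain ⟨r, hr⟩ : ∃ r, r = 2 * u.2.1 * u.2.2 * (1 + u.1 ^ 2) - ts t 2 - tv t 3 0 * u.1 :=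
    ⟨_, rfl⟩
  have hH : H3 t u = A * B * C + 2 * p * q * r - A * r ^ 2 - B * q ^ 2 - C * p ^ 2 := by
    rw [hA, hB, hC, hp, hq, hr]
    rfl
  rw [hH] at h
  have f1 : A * a + p * b + q * c = 0 := by
    rw [hA, hp, hq]
    linear_combination e1
  have f2 : p * a + B * b + r * c = 0 := by
    rw [hB, hp, hr]
    linear_combination e2
  have f3 : q * a + r * b + C * c = 0 := by
    rw [hC, hq, hr]
    linear_combination e3
  have ha : a = 0 := by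
    refine (mul_eq_zero.1 (?_ : (A * B * C + 2 * p * q * r - A * r ^ 2 - B * q ^ 2 -
      C * p ^ 2) * a = 0)).resolve_left h
    linear_combination (B * C - r ^ 2) * f1 + (q * r - p * C) * f2 + (p * r - q * B) * f3
  have hb : b = 0 := by
    refine (mul_eq_zero.1 (?_ : (A * B * C + 2 * p * q * r - A * r ^ 2 - B * q ^ 2 -
      C * p ^ 2) * b = 0)).resolve_left h
    linear_combination (q * r - p * C) * f1 + (A * C - q ^ 2) * f2 + (p * q - A * r) * f3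
  have hc : c = 0 := by
    refine (mul_eq_zero.1 (?_ : (A * B * C + 2 * p * q * r - A * r ^ 2 - B * q ^ 2 -
      C * p ^ 2) * c = 0)).resolve_left h
    linear_combination (p * r - q * B) * f1 + (p * q - A * r) * f2 + (A * B - p ^ 2) * f3
  rw [ha, hb, hc]
  rfl

end Pool.Agent.MPb0eP
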