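import Mathlib
import Pool.Agent.Lib.MP_b0e20b_ag_P.Defs
import Pool.Agent.Lib.MP_b0e20b_ag_P.TD

/-!
# MP_b0e20b_ag, format (1,1,1): no solution escapes to infinity
-/

set_option autoImplicit false

open scoped Topology

namespace Pool.Agent.MPb0eP

/-- The four linear forms of the first variable, multiplied. `s² = -1`. -/
def frm {R : Type} [CommRing R] (s a d e g : R) : R :=
  ((a + s * d + s * e - g) * (a + s * d - s * e + g)) *
    ((a - s * d + s * e + g) * (a - s * d - s * e - g))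

/-- The product of the twelve linear forms. -/
def cnd3 {R : Type} [CommRing R] (s : R) (t : Tp 1 R) : R :=
  frm s (tv t 0 0) (tv t 1 0) (tv t 2 0) (tv t 3 0) *
    frm s (ts t 0) (tv t 1 0) (ts t 2) (tv t 3 0) *
    frm s (ts t 1) (tv t 2 0) (ts t 2) (tv t 3 0)

/-- choice of the nearest root of `-1` -/
private theorem B1_root (y : ℂ) : ∃ s : ℂ, s ^ 2 = -1 ∧ ‖y - s‖ ≤ ‖1 + y ^ 2‖ := by
  have key : ∀ s : ℂ, s ^ 2 = -1 → ‖s‖ = 1 → ‖y - s‖ ≤ ‖y + s‖ → ‖y - s‖ ≤ ‖1 + y ^ 2‖ := by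
    intro s hs hn h
    have h1 : (2 : ℝ) ≤ ‖y + s‖ + ‖y - s‖ := by
      have h2 : ‖(y + s) - (y - s)‖ = 2 := by
        have h3 : (y + s) - (y - s) = 2 * s := by ring
        rw [h3, norm_mul, hn]
        simp
      rw [← h2]
      exact norm_sub_le _ _
    have h4 : 1 ≤ ‖y + s‖ := by linarith
    have h5 : 1 + y ^ 2 = (y - s) * (y + s) := by
      have : (y - s) * (y + s) = y ^ 2 - s ^ 2 := by ring
      rw [this, hs]; ring
    rw [h5, norm_mul]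
    exact le_mul_of_one_le_right (norm_nonneg _) h4
  rcases le_total ‖y - Complex.I‖ ‖y + Complex.I‖ with h | h
  · exact ⟨Complex.I, Complex.I_sq, key _ Complex.I_sq Complex.norm_I h⟩
  · refine ⟨-Complex.I, by rw [neg_sq, Complex.I_sq], key _ (by rw [neg_sq, Complex.I_sq])
      (by rw [norm_neg, Complex.norm_I]) ?_⟩
    rw [sub_neg_eq_add, ← sub_eq_add_neg]
    exact h

private theorem B1_lin {K : ℝ} {b d f g u v : ℂ} (hb : ‖b‖ ≤ K) (hd : ‖d‖ ≤ K)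
    (hf : ‖f‖ ≤ K) (hg : ‖g‖ ≤ K) :
    ‖b + d * u + f * v + g * (u * v)‖ ≤ K * ((1 + ‖u‖) * (1 + ‖v‖)) := by
  have h1 : ‖b + d * u + f * v + g * (u * v)‖ ≤
      ‖b‖ + ‖d‖ * ‖u‖ + ‖f‖ * ‖v‖ + ‖g‖ * (‖u‖ * ‖v‖) := by
    refine (norm_add_le _ _).trans ?_
    rw [norm_mul g, norm_mul u]
    refine add_le_add_left (((norm_add_le _ _).trans ?_)) _
    rw [norm_mul f]
    refine add_le_add_left (((norm_add_le _ _).trans ?_)) _
    rw [norm_mul d]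
  have h2 : ‖d‖ * ‖u‖ ≤ K * ‖u‖ := mul_le_mul_of_nonneg_right hd (norm_nonneg _)
  have h3 : ‖f‖ * ‖v‖ ≤ K * ‖v‖ := mul_le_mul_of_nonneg_right hf (norm_nonneg _)
  have h4 : ‖g‖ * (‖u‖ * ‖v‖) ≤ K * (‖u‖ * ‖v‖) :=
    mul_le_mul_of_nonneg_right hg (by positivity)
  nlinarith [h1, h2, h3, h4]

private theorem B1_low (y : ℂ) : ‖y‖ ^ 2 - 1 ≤ ‖1 + y ^ 2‖ := by
  have h := norm_sub_norm_le (y ^ 2) (-1)
  rw [norm_neg, norm_one, norm_pow, sub_neg_eq_add, add_comm (y ^ 2)] at h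
  exact h

private theorem B1_low' (y : ℂ) : 1 - ‖y‖ ^ 2 ≤ ‖1 + y ^ 2‖ := by
  have h := norm_sub_norm_le (1 : ℂ) (-y ^ 2)
  rw [norm_neg, norm_one, norm_pow, sub_neg_eq_add] at h
  exact h

/-- part (a) -/
private theorem B1_a {K X : ℝ} (hK : 1 ≤ K) (hX : 32 * K < X) {y z : ℂ}
    (h1 : ‖y‖ * ‖1 + z ^ 2‖ * X ≤ 4 * K * (1 + ‖z‖))
    (h2 : ‖z‖ * ‖1 + y ^ 2‖ * X ≤ 4 * K * (1 + ‖y‖)) : ‖z‖ < 2 := by
  by_contra hz
  push Not at hz
  have hX0 : 0 < X := by linarith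
  have hY0 := norm_nonneg y
  have h3 : 3 / 4 * ‖z‖ ^ 2 ≤ ‖1 + z ^ 2‖ := by nlinarith [B1_low z]
  have h4 : ‖y‖ * (3 / 4 * ‖z‖ ^ 2) * X ≤ 4 * K * (1 + ‖z‖) :=
    le_trans (mul_le_mul_of_nonneg_right (mul_le_mul_of_nonneg_left h3 hY0) hX0.le) h1
  -- `y X ≤ 4 K`
  have h5 : ‖y‖ * X ≤ 4 * K := by
    have h6 : ‖y‖ * X * ‖z‖ ^ 2 * (3 / 4) ≤ 4 * K * (3 / 2 * ‖z‖) := by
      calc ‖y‖ * X * ‖z‖ ^ 2 * (3 / 4) = ‖y‖ * (3 / 4 * ‖z‖ ^ 2) * X := by ring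
        _ ≤ 4 * K * (1 + ‖z‖) := h4
        _ ≤ 4 * K * (3 / 2 * ‖z‖) := by
          refine mul_le_mul_of_nonneg_left ?_ (by linarith)
          linarith
    have h7 : ‖y‖ * X * ‖z‖ ≤ 8 * K := by
      have h8 : (‖y‖ * X * ‖z‖) * ‖z‖ ≤ (8 * K) * ‖z‖ := by nlinarith [h6]
      exact le_of_mul_le_mul_right h8 (by linarith)
    have h9 : ‖y‖ * X * 2 ≤ ‖y‖ * X * ‖z‖ :=
      mul_le_mul_of_nonneg_left hz (by positivity)
    linarith
  have h10 : ‖y‖ ≤ 1 / 2 := by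
    by_contra hc
    push Not at hc
    nlinarith
  have h11 : 3 / 4 ≤ ‖1 + y ^ 2‖ := by
    have := B1_low' y
    nlinarith
  have h12 : ‖z‖ * (3 / 4) * X ≤ 4 * K * (1 + ‖y‖) :=
    le_trans (mul_le_mul_of_nonneg_right
      (mul_le_mul_of_nonneg_left h11 (norm_nonneg z)) hX0.le) h2
  have h13 : 2 * (3 / 4) * X ≤ ‖z‖ * (3 / 4) * X :=
    mul_le_mul_of_nonneg_right (by linarith) hX0.le
  nlinarith

/-- part (b) -/
private theorem B1_b {K X : ℝ} (hK : 1 ≤ K) (hX : 32 * K < X) {y z : ℂ} (hy : ‖y‖ < 2)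
    (hz : ‖z‖ < 2)
    (h1 : ‖y‖ * ‖1 + z ^ 2‖ * X ≤ 4 * K * (1 + ‖z‖))
    (h2 : ‖z‖ * ‖1 + y ^ 2‖ * X ≤ 4 * K * (1 + ‖y‖))
    (h0 : X * (‖1 + y ^ 2‖ * ‖1 + z ^ 2‖) ≤ K * ((1 + ‖y‖) * (1 + ‖z‖))) :
    ‖1 + z ^ 2‖ * X ≤ 24 * K := by
  have hX0 : 0 < X := by linarith
  have hY0 := norm_nonneg y
  have hZ0 := norm_nonneg z
  have hy2 : 1 / 2 ≤ ‖y‖ := by
    by_contra hc
    push Not at hc
    have h11 : 3 / 4 ≤ ‖1 + y ^ 2‖ := by
      have := B1_low' y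
      nlinarith
    have h12 : ‖z‖ * (3 / 4) * X ≤ 4 * K * (1 + ‖y‖) :=
      le_trans (mul_le_mul_of_nonneg_right
        (mul_le_mul_of_nonneg_left h11 hZ0) hX0.le) h2
    have h13 : ‖z‖ ≤ 1 / 2 := by
      by_contra hd
      push Not at hd
      have : 1 / 2 * (3 / 4) * X ≤ ‖z‖ * (3 / 4) * X :=
        mul_le_mul_of_nonneg_right (by linarith) hX0.le
      nlinarith
    have h14 : 3 / 4 ≤ ‖1 + z ^ 2‖ := by
      have := B1_low' z
      nlinarith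
    have h15 : 3 / 4 * (3 / 4) ≤ ‖1 + y ^ 2‖ * ‖1 + z ^ 2‖ :=
      mul_le_mul h11 h14 (by norm_num) (norm_nonneg _)
    have h16 : X * (3 / 4 * (3 / 4)) ≤ X * (‖1 + y ^ 2‖ * ‖1 + z ^ 2‖) :=
      mul_le_mul_of_nonneg_left h15 hX0.le
    have h17 : (1 + ‖y‖) * (1 + ‖z‖) ≤ 3 / 2 * (3 / 2) :=
      mul_le_mul (by linarith) (by linarith) (by linarith) (by norm_num)
    have h18 : K * ((1 + ‖y‖) * (1 + ‖z‖)) ≤ K * (3 / 2 * (3 / 2)) :=
      mul_le_mul_of_nonneg_left h17 (by linarith)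
    nlinarith
  have h3 : 1 / 2 * ‖1 + z ^ 2‖ * X ≤ ‖y‖ * ‖1 + z ^ 2‖ * X :=
    mul_le_mul_of_nonneg_right (mul_le_mul_of_nonneg_right hy2 (norm_nonneg _)) hX0.le
  have h4 : 4 * K * (1 + ‖z‖) ≤ 4 * K * 3 :=
    mul_le_mul_of_nonneg_left (by linarith) (by linarith)
  nlinarith

/-- The estimate for one variable, in scalars.

Proof (`C ≥ 1` without loss of generality, `R` large depending on `C` and `m`). Let `|x| > R`, then
`|1+x²| ≥ |x|²/2`. From the second equation `|y| |1+z²| ≤ 8 C (1+|z|)/|x|`, from the third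
`|z| |1+y²| ≤ 8 C (1+|y|)/|x|`.
(a) `|z| < 2` and `|y| < 2`: if `|z| ≥ 2` then `|1+z²| ≥ (3/4)|z|²`, so `|y| ≤ 16 C/|x|` is small,
`|1+y²| ≥ 1/2`, and then `|z| ≤ 16 C (1+|y|)/|x|` is small, contradiction. The same for `y`.
(b) Now `|y||1+z²|` and `|z||1+y²|` are at most `24 C/|x|` and
`|1+y²||1+z²| ≤ 9 C/|x|` (first equation). If `|y| < 1/2`, then `|1+y²| ≥ 3/4`, so
`|z| ≤ 32 C/|x|`, `|1+z²| ≥ 1/2` and `3/8 ≤ 9 C/|x|`, contradiction. So `|y| ≥ 1/2` and likewise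
`|z| ≥ 1/2`, hence `|1+z²|, |1+y²| ≤ 48 C/|x|`.
(c) The first equation: `|a + d y + e z + g y z| = |x||1+y²||1+z²| ≤ (48 C)²/|x|`.
(d) `1+y² = (y - I)(y + I)`: `y` is within `48 C/|x|` of a `s = ± I` (the other factor is at least
`1` in absolute value), `z` of a `s' = ± I`; so the form `a + s d + s' e + s s' g` is at most
`C'/|x|`, smaller than `m` for large `|x|`. -/
theorem bd_x (C m : ℝ) (hm : 0 < m) : ∃ R : ℝ, ∀ a b c d e f g : ℂ,
    ‖a‖ ≤ C → ‖b‖ ≤ C → ‖c‖ ≤ C → ‖d‖ ≤ C → ‖e‖ ≤ C → ‖f‖ ≤ C → ‖g‖ ≤ C →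
    (∀ s s' : ℂ, s ^ 2 = -1 → s' ^ 2 = -1 → m ≤ ‖a + s * d + s' * e + s * s' * g‖) →
    ∀ x y z : ℂ, x * ((1 + y ^ 2) * (1 + z ^ 2)) = a + d * y + e * z + g * (y * z) →
      y * ((1 + x ^ 2) * (1 + z ^ 2)) = b + d * x + f * z + g * x * z →
      z * ((1 + x ^ 2) * (1 + y ^ 2)) = c + e * x + f * y + g * x * y → ‖x‖ ≤ R := by
  set K : ℝ := max C 1 with hKdef
  have hK : 1 ≤ K := le_max_right _ _
  have hCK : C ≤ K := le_max_left _ _
  refine ⟨32 * K + 696 * K ^ 2 / m, ?_⟩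
  intro a b c d e f g ha hb hc hd he hf hg hform x y z e1 e2 e3
  by_contra hcon
  push Not at hcon
  have hpos : 0 ≤ 696 * K ^ 2 / m := by positivity
  set X : ℝ := ‖x‖ with hXdef
  have hX : 32 * K < X := by linarith
  have hX0 : 0 < X := by linarith
  have hXm : 696 * K ^ 2 < m * X := by
    have : 696 * K ^ 2 / m < X := by linarith
    rw [div_lt_iff₀ hm] at this
    linarith
  have hxlow : X ^ 2 / 2 ≤ ‖1 + x ^ 2‖ := by
    have := B1_low x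
    rw [← hXdef] at this
    nlinarith
  -- second and third equations
  have aux : ∀ (y z b d f : ℂ) (e4 : y * ((1 + x ^ 2) * (1 + z ^ 2)) =
      b + d * x + f * z + g * (x * z)) (hb : ‖b‖ ≤ K) (hd : ‖d‖ ≤ K) (hf : ‖f‖ ≤ K)
      (hg : ‖g‖ ≤ K), ‖y‖ * ‖1 + z ^ 2‖ * X ≤ 4 * K * (1 + ‖z‖) := by
    intro y z b d f e4 hb hd hf hg
    have h1 := B1_lin (u := x) (v := z) hb hd hf hg
    rw [← e4, norm_mul, norm_mul, ← hXdef] at h1
    have h2 : ‖y‖ * (X ^ 2 / 2 * ‖1 + z ^ 2‖) ≤ ‖y‖ * (‖1 + x ^ 2‖ * ‖1 + z ^ 2‖) :=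
      mul_le_mul_of_nonneg_left (mul_le_mul_of_nonneg_right hxlow (norm_nonneg _))
        (norm_nonneg _)
    have h3 : K * ((1 + X) * (1 + ‖z‖)) ≤ K * ((2 * X) * (1 + ‖z‖)) := by
      refine mul_le_mul_of_nonneg_left (mul_le_mul_of_nonneg_right (by linarith) ?_)
        (by linarith)
      have := norm_nonneg z
      linarith
    have h4 : (‖y‖ * ‖1 + z ^ 2‖ * X) * X ≤ (4 * K * (1 + ‖z‖)) * X := by nlinarith
    exact le_of_mul_le_mul_right h4 hX0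
  have ha' := le_trans ha hCK
  have hb' := le_trans hb hCK
  have hc' := le_trans hc hCK
  have hd' := le_trans hd hCK
  have he' := le_trans he hCK
  have hf' := le_trans hf hCK
  have hg' := le_trans hg hCK
  have h1 := aux y z b d f (by linear_combination e2) hb' hd' hf' hg'
  have h2 := aux z y c e f (by linear_combination e3) hc' he' hf' hg'
  have hz2 := B1_a hK hX h1 h2
  have hy2 := B1_a hK hX h2 h1
  have h0 : X * (‖1 + y ^ 2‖ * ‖1 + z ^ 2‖) ≤ K * ((1 + ‖y‖) * (1 + ‖z‖)) := by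
    have h := B1_lin (u := y) (v := z) ha' hd' he' hg'
    rw [← e1, norm_mul, norm_mul, ← hXdef] at h
    exact h
  have hzs := B1_b hK hX hy2 hz2 h1 h2 h0
  have hys := B1_b hK hX hz2 hy2 h2 h1 (by
    rw [mul_comm ‖1 + z ^ 2‖, mul_comm (1 + ‖z‖)]
    exact h0)
  -- the first equation, again
  have h3 : ‖a + d * y + e * z + g * (y * z)‖ * X ≤ 576 * K ^ 2 := by
    rw [← e1, norm_mul, norm_mul, ← hXdef]
    calc X * (‖1 + y ^ 2‖ * ‖1 + z ^ 2‖) * X = (‖1 + y ^ 2‖ * X) * (‖1 + z ^ 2‖ * X) := by ring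
      _ ≤ (24 * K) * (24 * K) := mul_le_mul hys hzs (by positivity) (by linarith)
      _ = 576 * K ^ 2 := by ring
  obtain ⟨s, hs, hsy⟩ := B1_root y
  obtain ⟨s', hs', hsz⟩ := B1_root z
  have hs1 : ‖s'‖ = 1 := by
    have h4 : ‖s'‖ ^ 2 = 1 := by rw [← norm_pow, hs', norm_neg, norm_one]
    exact (pow_eq_one_iff_of_nonneg (norm_nonneg _) two_ne_zero).mp h4
  have hfm := hform s s' hs hs'
  have h4 : a + s * d + s' * e + s * s' * g = (a + d * y + e * z + g * (y * z)) -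
      d * (y - s) - e * (z - s') - g * (y * (z - s') + s' * (y - s)) := by ring
  have h5 : ‖a + s * d + s' * e + s * s' * g‖ ≤ ‖a + d * y + e * z + g * (y * z)‖ +
      K * ‖1 + y ^ 2‖ + K * ‖1 + z ^ 2‖ + K * (2 * ‖1 + z ^ 2‖ + ‖1 + y ^ 2‖) := by
    rw [h4]
    refine (norm_sub_le _ _).trans (add_le_add ((norm_sub_le _ _).trans (add_le_add
      ((norm_sub_le _ _).trans (add_le_add le_rfl ?_)) ?_)) ?_)
    · rw [norm_mul]
      exact mul_le_mul hd' hsy (norm_nonneg _) (by linarith)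
    · rw [norm_mul]
      exact mul_le_mul he' hsz (norm_nonneg _) (by linarith)
    · rw [norm_mul]
      refine mul_le_mul hg' ?_ (norm_nonneg _) (by linarith)
      refine (norm_add_le _ _).trans (add_le_add ?_ ?_)
      · rw [norm_mul]
        exact mul_le_mul hy2.le hsz (norm_nonneg _) (by norm_num)
      · rw [norm_mul, hs1, one_mul]
        exact hsy
  have h6 : m * X ≤ (‖a + d * y + e * z + g * (y * z)‖ +
      K * ‖1 + y ^ 2‖ + K * ‖1 + z ^ 2‖ + K * (2 * ‖1 + z ^ 2‖ + ‖1 + y ^ 2‖)) * X :=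
    mul_le_mul_of_nonneg_right (hfm.trans h5) hX0.le
  have h7 : K * (‖1 + y ^ 2‖ * X) ≤ K * (24 * K) :=
    mul_le_mul_of_nonneg_left hys (by linarith)
  have h8 : K * (‖1 + z ^ 2‖ * X) ≤ K * (24 * K) :=
    mul_le_mul_of_nonneg_left hzs (by linarith)
  nlinarith [h3, h6, h7, h8, hXm]

end Pool.Agent.MPb0eP
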