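import Mathlib
import Pool.Agent.Lib.MP_b0e20b_ag_P.Defs
import Pool.Agent.Lib.MP_b0e20b_ag_P.TD
import Pool.Agent.Lib.MP_b0e20b_ag_P.B1

/-!
# MP_b0e20b_ag, format (1,1,1): no solution escapes to infinity, locally uniformly
-/

set_option autoImplicit false

open scoped Topology

namespace Pool.Agent.MPb0eP

private theorem b1b_low (Φ : Tp 1 ℂ → ℂ) (hΦ : Continuous Φ) (t0 : Tp 1 ℂ) (h : Φ t0 ≠ 0) :
    ∃ m : ℝ, 0 < m ∧ ∀ᶠ t in 𝓝 t0, m ≤ ‖Φ t‖ := by
  refine ⟨‖Φ t0‖ / 2, half_pos (norm_pos_iff.mpr h), ?_⟩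
  have h1 : Filter.Tendsto (fun t => ‖Φ t‖) (𝓝 t0) (𝓝 ‖Φ t0‖) :=
    (continuous_norm.comp hΦ).tendsto t0
  exact (h1.eventually (lt_mem_nhds (half_lt_self (norm_pos_iff.mpr h)))).mono
    (fun t ht => le_of_lt ht)

private theorem b1b_root (s : ℂ) (h : s ^ 2 = -1) : s = Complex.I ∨ s = -Complex.I := by
  have h1 : (s - Complex.I) * (s + Complex.I) = 0 := by
    ring_nf
    rw [h, Complex.I_sq]
    ring
  rcases mul_eq_zero.mp h1 with h2 | h2
  · exact Or.inl (sub_eq_zero.mp h2)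
  · exact Or.inr (eq_neg_of_add_eq_zero_left h2)

private theorem b1b_frm (A D E G : Tp 1 ℂ → ℂ) (hA : Continuous A) (hD : Continuous D)
    (hE : Continuous E) (hG : Continuous G) (t0 : Tp 1 ℂ)
    (h : frm Complex.I (A t0) (D t0) (E t0) (G t0) ≠ 0) :
    ∃ m : ℝ, 0 < m ∧ ∀ᶠ t in 𝓝 t0, ∀ s s' : ℂ, s ^ 2 = -1 → s' ^ 2 = -1 →
      m ≤ ‖A t + s * D t + s' * E t + s * s' * G t‖ := by
  have hc : ∀ s s' : ℂ, Continuous (fun t => A t + s * D t + s' * E t + s * s' * G t) := by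
    intro s s'
    exact ((hA.add (continuous_const.mul hD)).add (continuous_const.mul hE)).add
      (continuous_const.mul hG)
  have hII : Complex.I * Complex.I = -1 := Complex.I_mul_I
  have n1 : A t0 + Complex.I * D t0 + Complex.I * E t0 + Complex.I * Complex.I * G t0 ≠ 0 := by
    intro h0
    apply h
    have h1 : A t0 + Complex.I * D t0 + Complex.I * E t0 - G t0 = 0 := by
      rw [← h0, hII]; ring
    unfold frm
    rw [h1]; ring
  have n2 : A t0 + Complex.I * D t0 + (-Complex.I) * E t0 +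
      Complex.I * (-Complex.I) * G t0 ≠ 0 := by
    intro h0
    apply h
    have h1 : A t0 + Complex.I * D t0 - Complex.I * E t0 + G t0 = 0 := by
      rw [← h0, mul_neg, hII]; ring
    unfold frm
    rw [h1]; ring
  have n3 : A t0 + (-Complex.I) * D t0 + Complex.I * E t0 +
      (-Complex.I) * Complex.I * G t0 ≠ 0 := by
    intro h0
    apply h
    have h1 : A t0 - Complex.I * D t0 + Complex.I * E t0 + G t0 = 0 := by
      rw [← h0, neg_mul Complex.I Complex.I, hII]; ring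
    unfold frm
    rw [h1]; ring
  have n4 : A t0 + (-Complex.I) * D t0 + (-Complex.I) * E t0 +
      (-Complex.I) * (-Complex.I) * G t0 ≠ 0 := by
    intro h0
    apply h
    have h1 : A t0 - Complex.I * D t0 - Complex.I * E t0 - G t0 = 0 := by
      rw [← h0, neg_mul_neg, hII]; ring
    unfold frm
    rw [h1]; ring
  obtain ⟨m1, p1, e1⟩ := b1b_low _ (hc _ _) t0 n1
  obtain ⟨m2, p2, e2⟩ := b1b_low _ (hc _ _) t0 n2
  obtain ⟨m3, p3, e3⟩ := b1b_low _ (hc _ _) t0 n3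
  obtain ⟨m4, p4, e4⟩ := b1b_low _ (hc _ _) t0 n4
  refine ⟨min (min m1 m2) (min m3 m4), lt_min (lt_min p1 p2) (lt_min p3 p4), ?_⟩
  filter_upwards [e1, e2, e3, e4] with t f1 f2 f3 f4 s s' hs hs'
  rcases b1b_root s hs with rfl | rfl <;> rcases b1b_root s' hs' with rfl | rfl
  · exact ((min_le_left _ _).trans (min_le_left _ _)).trans f1
  · exact ((min_le_left _ _).trans (min_le_right _ _)).trans f2
  · exact ((min_le_right _ _).trans (min_le_left _ _)).trans f3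
  · exact ((min_le_right _ _).trans (min_le_right _ _)).trans f4

/-- Proof. `bd_x` for the three variables (the system is invariant under the permutations of the
variables with the parameters permuted accordingly); the norms of the parameters and of the linear
forms are controlled near `t0` by continuity. -/
theorem bd3 (t0 : Tp 1 ℂ) (h : cnd3 Complex.I t0 ≠ 0) :
    ∃ R : ℝ, ∀ᶠ t in 𝓝 t0, ∀ u, G3 t u = 0 → ‖u‖ ≤ R := by
  have cv : ∀ s : Fin 4, Continuous (fun t : Tp 1 ℂ => tv t s 0) := fun s =>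
    continuous_apply (Sum.inl (s, 0) : Idx 1)
  have cs : ∀ s : Fin 3, Continuous (fun t : Tp 1 ℂ => ts t s) := fun s =>
    continuous_apply (Sum.inr s : Idx 1)
  unfold cnd3 at h
  have h12 := left_ne_zero_of_mul h
  have h3 := right_ne_zero_of_mul h
  have h1 := left_ne_zero_of_mul h12
  have h2 := right_ne_zero_of_mul h12
  obtain ⟨m1, p1, e1⟩ := b1b_frm _ _ _ _ (cv 0) (cv 1) (cv 2) (cv 3) t0 h1
  obtain ⟨m2, p2, e2⟩ := b1b_frm _ _ _ _ (cs 0) (cv 1) (cs 2) (cv 3) t0 h2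
  obtain ⟨m3, p3, e3⟩ := b1b_frm _ _ _ _ (cs 1) (cv 2) (cs 2) (cv 3) t0 h3
  obtain ⟨R1, b1⟩ := bd_x (‖t0‖ + 1) m1 p1
  obtain ⟨R2, b2⟩ := bd_x (‖t0‖ + 1) m2 p2
  obtain ⟨R3, b3⟩ := bd_x (‖t0‖ + 1) m3 p3
  have e0 : ∀ᶠ t in 𝓝 t0, ‖t‖ < ‖t0‖ + 1 :=
    (continuous_norm.tendsto t0).eventually (gt_mem_nhds (lt_add_one _))
  refine ⟨max R1 (max R2 R3), ?_⟩
  filter_upwards [e0, e1, e2, e3] with t f0 f1 f2 f3 u hu
  have nv : ∀ s : Fin 4, ‖tv t s 0‖ ≤ ‖t0‖ + 1 := fun s =>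
    (norm_le_pi_norm t (Sum.inl (s, 0) : Idx 1)).trans f0.le
  have ns : ∀ s : Fin 3, ‖ts t s‖ ≤ ‖t0‖ + 1 := fun s =>
    (norm_le_pi_norm t (Sum.inr s : Idx 1)).trans f0.le
  obtain ⟨x, y, z⟩ := u
  have g1 := congrArg Prod.fst hu
  have g2 := congrArg (fun v => v.2.1) hu
  have g3 := congrArg (fun v => v.2.2) hu
  simp only [G3, Prod.fst_zero, Prod.snd_zero] at g1 g2 g3
  have k1 := b1 _ _ _ _ _ _ _ (nv 0) (ns 0) (ns 1) (nv 1) (nv 2) (ns 2) (nv 3) f1 x y z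
    (sub_eq_zero.mp g1) (sub_eq_zero.mp g2) (sub_eq_zero.mp g3)
  have k2 := b2 _ _ _ _ _ _ _ (ns 0) (nv 0) (ns 1) (nv 1) (ns 2) (nv 2) (nv 3) f2 y x z
    (by linear_combination g2) (by linear_combination g1) (by linear_combination g3)
  have k3 := b3 _ _ _ _ _ _ _ (ns 1) (nv 0) (ns 0) (nv 2) (ns 2) (nv 1) (nv 3) f3 z x y
    (by linear_combination g3) (by linear_combination g1) (by linear_combination g2)
  rw [Prod.norm_def, Prod.norm_def]
  exact max_le_max k1 (max_le_max k2 k3)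

end Pool.Agent.MPb0eP
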