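import Mathlib
import Pool.Agent.Lib.MP_b0e20b_ag_P.Defs
import Pool.Agent.Lib.MP_b0e20b_ag_P.PD

/-!
# MP_b0e20b_ag, formats (n,1,1): no solution of the plane system escapes to infinity
-/

set_option autoImplicit false

open scoped Topology

namespace Pool.Agent.MPb0eP

/-- All parameters are bounded by `C`. -/
def Bdd (p : Pl ℂ) (C : ℝ) : Prop :=
  ‖p.b‖ ≤ C ∧ ‖p.c‖ ≤ C ∧ ‖p.f‖ ≤ C ∧ ‖p.q00‖ ≤ C ∧ ‖p.q10‖ ≤ C ∧ ‖p.q20‖ ≤ C ∧ ‖p.q01‖ ≤ C ∧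
    ‖p.q11‖ ≤ C ∧ ‖p.q21‖ ≤ C ∧ ‖p.q02‖ ≤ C ∧ ‖p.q12‖ ≤ C ∧ ‖p.q22‖ ≤ C

private theorem B2_quad (C : ℝ) (a b c z : ℂ) (ha : ‖a‖ ≤ C) (hb : ‖b‖ ≤ C) (hc : ‖c‖ ≤ C) :
    ‖a + b * z + c * z ^ 2‖ ≤ C * (1 + ‖z‖ + ‖z‖ ^ 2) := by
  have h0 := norm_nonneg z
  have h1 : ‖b * z‖ ≤ C * ‖z‖ := by
    rw [norm_mul]; exact mul_le_mul_of_nonneg_right hb h0
  have h2 : ‖c * z ^ 2‖ ≤ C * ‖z‖ ^ 2 := by
    rw [norm_mul, norm_pow]; exact mul_le_mul_of_nonneg_right hc (by positivity)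
  have h3 := norm_add_le (a + b * z) (c * z ^ 2)
  have h4 := norm_add_le a (b * z)
  linarith

private theorem B2_bracket (C : ℝ) (u v w y : ℂ) (S : ℝ) (hS : 0 ≤ C * S)
    (hu : ‖u‖ ≤ C * S) (hv : ‖v‖ ≤ C * S) (hw : ‖w‖ ≤ C * S) :
    ‖u * (1 - y ^ 2) + 2 * (v - w) * y‖ ≤ C * S * (1 + ‖y‖ ^ 2 + 4 * ‖y‖) := by
  have h0 := norm_nonneg y
  have h1 : ‖(1 : ℂ) - y ^ 2‖ ≤ 1 + ‖y‖ ^ 2 := by
    have h := norm_sub_le (1 : ℂ) (y ^ 2)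
    rw [norm_one, norm_pow] at h
    exact h
  have h2 : ‖u * (1 - y ^ 2)‖ ≤ C * S * (1 + ‖y‖ ^ 2) := by
    rw [norm_mul]
    exact mul_le_mul hu h1 (norm_nonneg _) hS
  have h3 : ‖2 * (v - w) * y‖ ≤ 4 * (C * S) * ‖y‖ := by
    rw [norm_mul, norm_mul, Complex.norm_ofNat]
    have h4 := norm_sub_le v w
    refine mul_le_mul_of_nonneg_right ?_ h0
    linarith
  have h5 := norm_add_le (u * (1 - y ^ 2)) (2 * (v - w) * y)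
  nlinarith [h5, h2, h3]

private theorem B2_one (z : ℂ) : ‖z‖ ^ 2 - 1 ≤ ‖1 + z ^ 2‖ := by
  have h : ‖z ^ 2‖ ≤ ‖1 + z ^ 2‖ + ‖(1 : ℂ)‖ := by
    have h1 := norm_sub_le (1 + z ^ 2) (1 : ℂ)
    have h2 : (1 : ℂ) + z ^ 2 - 1 = z ^ 2 := by ring
    rw [h2] at h1
    exact h1
  rw [norm_pow, norm_one] at h
  linarith

private theorem B2_t (C : ℝ) (b f y z : ℂ) (hb : ‖b‖ ≤ C) (hf : ‖f‖ ≤ C) :
    ‖y‖ * ‖1 + z ^ 2‖ - C - C * ‖z‖ ≤ ‖y * (1 + z ^ 2) - b - f * z‖ := by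
  have h1 : ‖y * (1 + z ^ 2)‖ ≤ ‖y * (1 + z ^ 2) - b - f * z‖ + ‖b‖ + ‖f * z‖ := by
    have h2 := norm_add_le (y * (1 + z ^ 2) - b - f * z) b
    have h3 := norm_add_le (y * (1 + z ^ 2) - b - f * z + b) (f * z)
    have h4 : y * (1 + z ^ 2) - b - f * z + b + f * z = y * (1 + z ^ 2) := by ring
    rw [h4] at h3
    linarith
  rw [norm_mul, norm_mul] at h1
  have h5 : ‖f‖ * ‖z‖ ≤ C * ‖z‖ := mul_le_mul_of_nonneg_right hf (norm_nonneg z)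
  linarith

private theorem B2_real (C r s Y Z t : ℝ) (hC : 1 ≤ C) (hr : 20 * C ≤ r) (hs : 0 ≤ s)
    (hY : r ^ 2 - 1 ≤ Y) (hZ : s ^ 2 - 1 ≤ Z) (hZ0 : 0 ≤ Z) (ht : r * Z - C - C * s ≤ t)
    (ht0 : 0 ≤ t)
    (h : 2 * Y ^ 2 * Z * t ≤ C * (1 + s + s ^ 2) * (1 + r ^ 2 + 4 * r)) :
    s ≤ 2 ∧ r * Z ≤ 6 * C := by
  have hr20 : 20 ≤ r := by linarith
  have hr0 : 0 < r := by linarith
  have hr2 : 400 ≤ r ^ 2 := by nlinarith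
  have hY2 : r ^ 2 / 2 ≤ Y := by linarith
  have hYY : r ^ 4 / 4 ≤ Y ^ 2 := by
    have h1 : 0 ≤ r ^ 2 / 2 := by positivity
    nlinarith [mul_le_mul hY2 hY2 h1 (by linarith : (0 : ℝ) ≤ Y)]
  have hR : 1 + r ^ 2 + 4 * r ≤ 2 * r ^ 2 := by nlinarith
  have hZt : 0 ≤ Z * t := mul_nonneg hZ0 ht0
  have hL : r ^ 4 / 2 * (Z * t) ≤ 2 * Y ^ 2 * Z * t := by nlinarith
  have hM : C * (1 + s + s ^ 2) * (1 + r ^ 2 + 4 * r) ≤ C * (1 + s + s ^ 2) * (2 * r ^ 2) :=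
    mul_le_mul_of_nonneg_left hR (by positivity)
  have hmain : r ^ 4 / 2 * (Z * t) ≤ C * (1 + s + s ^ 2) * (2 * r ^ 2) := by linarith
  have hmain2 : r ^ 2 * (Z * t) ≤ 4 * C * (1 + s + s ^ 2) := by
    have h1 : r ^ 2 * (r ^ 2 * (Z * t)) ≤ r ^ 2 * (4 * C * (1 + s + s ^ 2)) := by nlinarith
    exact le_of_mul_le_mul_left h1 (by positivity)
  have hs2 : s ≤ 2 := by
    by_contra hcon
    push Not at hcon
    have hZ2 : s ^ 2 / 2 ≤ Z := by nlinarith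
    have hrs : 20 * C * s ≤ r * s := mul_le_mul_of_nonneg_right hr hs
    have ht2 : r * s ^ 2 / 4 ≤ t := by
      have h1 : r * (s ^ 2 / 2) ≤ r * Z := mul_le_mul_of_nonneg_left hZ2 hr0.le
      have h2 : 20 * C * s * s ≤ r * s * s := mul_le_mul_of_nonneg_right hrs hs
      have h3 : C * s * 2 ≤ C * s * s := mul_le_mul_of_nonneg_left hcon.le (by positivity)
      have h4 : C * 2 ≤ C * s := mul_le_mul_of_nonneg_left hcon.le (by positivity)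
      nlinarith
    have h1 : s ^ 2 / 2 * (r * s ^ 2 / 4) ≤ Z * t :=
      mul_le_mul hZ2 ht2 (by positivity) hZ0
    have h2 : r ^ 2 * (s ^ 2 / 2 * (r * s ^ 2 / 4)) ≤ 4 * C * (1 + s + s ^ 2) :=
      (mul_le_mul_of_nonneg_left h1 (by positivity)).trans hmain2
    have h3 : 1 + s + s ^ 2 ≤ 2 * s ^ 2 := by nlinarith
    have h4 : 4 * C * (1 + s + s ^ 2) ≤ 4 * C * (2 * s ^ 2) :=
      mul_le_mul_of_nonneg_left h3 (by positivity)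
    have h5 : s ^ 2 * (r ^ 3 * s ^ 2) ≤ s ^ 2 * (64 * C) := by nlinarith
    have h6 : r ^ 3 * s ^ 2 ≤ 64 * C := le_of_mul_le_mul_left h5 (by positivity)
    have h7 : 4 ≤ s ^ 2 := by nlinarith
    have h8 : r ^ 3 * 4 ≤ r ^ 3 * s ^ 2 := mul_le_mul_of_nonneg_left h7 (by positivity)
    have h9 : 400 * r ≤ r ^ 3 := by nlinarith
    linarith
  refine ⟨hs2, ?_⟩
  by_contra hcon
  push Not at hcon
  have ht2 : r * Z / 2 ≤ t := by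
    have h1 : C * s ≤ C * 2 := mul_le_mul_of_nonneg_left hs2 (by positivity)
    linarith
  have h1 : Z * (r * Z / 2) ≤ Z * t := mul_le_mul_of_nonneg_left ht2 hZ0
  have h2 : r ^ 2 * (Z * (r * Z / 2)) ≤ 4 * C * (1 + s + s ^ 2) :=
    (mul_le_mul_of_nonneg_left h1 (by positivity)).trans hmain2
  have h3 : 1 + s + s ^ 2 ≤ 7 := by nlinarith
  have h4 : 4 * C * (1 + s + s ^ 2) ≤ 4 * C * 7 := mul_le_mul_of_nonneg_left h3 (by positivity)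
  have h5 : r * (r * Z) ^ 2 ≤ 56 * C := by nlinarith
  have h6 : (6 * C) ^ 2 ≤ (r * Z) ^ 2 := by
    have : (0 : ℝ) ≤ 6 * C := by positivity
    nlinarith
  have h7 : 20 * (6 * C) ^ 2 ≤ r * (r * Z) ^ 2 := by
    have h8 := mul_le_mul hr20 h6 (by positivity) hr0.le
    exact h8
  nlinarith

/-- First part of the estimate: if `y` is large, then `z` is near `± I` and `y (1+z²)` is bounded.

Proof (`C ≥ 1` without loss of generality). Put `Y = 1+y²`, `Z = 1+z²`, `t = y Z - b - f z`; the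
first equation is `2 Y² Z t = A`, `A` the bracket. Let `r = |y|` be large, `|Y| ≥ r²/2`.
If `|z| ≥ 2`, then `|Z| ≥ |z|²/2`, `|t| ≥ r|z|²/2 - 2C|z| ≥ r|z|²/4`, so the left side is at least
`r⁵|z|⁴/16` and the right side at most `18 C |z|² r²`: contradiction. So `|z| < 2`, `|A| ≤ 42 C r²`,
`|Z||t| ≤ 84 C/r²`. If `r|Z| ≥ 6C`, then `|t| ≥ r|Z| - 3C ≥ r|Z|/2` and `|Z|²≤ 168 C/r³`, so
`36 C² ≤ 168 C/r`, contradiction. -/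
theorem bd_a (C : ℝ) (hC : 1 ≤ C) : ∃ R : ℝ, ∀ (p : Pl ℂ), Bdd p C → ∀ y z : ℂ,
    p.E1 y z = 0 → R ≤ ‖y‖ → ‖z‖ ≤ 2 ∧ ‖y‖ * ‖1 + z ^ 2‖ ≤ 6 * C := by
  refine ⟨20 * C, fun p hp y z hE hR => ?_⟩
  obtain ⟨hb, hc, hf, h00, h10, h20, h01, h11, h21, h02, h12, h22⟩ := hp
  have hS : 0 ≤ C * (1 + ‖z‖ + ‖z‖ ^ 2) := by
    have := norm_nonneg z
    positivity
  refine B2_real C ‖y‖ ‖z‖ ‖1 + y ^ 2‖ ‖1 + z ^ 2‖ ‖y * (1 + z ^ 2) - p.b - p.f * z‖ hC hR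
    (norm_nonneg z) (B2_one y) (B2_one z) (norm_nonneg _) (B2_t C p.b p.f y z hb hf)
    (norm_nonneg _) ?_
  have h1 := B2_bracket C (p.q10 + p.q11 * z + p.q12 * z ^ 2) (p.q20 + p.q21 * z + p.q22 * z ^ 2)
    (p.q00 + p.q01 * z + p.q02 * z ^ 2) y (1 + ‖z‖ + ‖z‖ ^ 2) hS
    (B2_quad C _ _ _ z h10 h11 h12) (B2_quad C _ _ _ z h20 h21 h22)
    (B2_quad C _ _ _ z h00 h01 h02)
  have h2 : 2 * (1 + y ^ 2) ^ 2 * (1 + z ^ 2) * (y * (1 + z ^ 2) - p.b - p.f * z) =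
      (p.q10 + p.q11 * z + p.q12 * z ^ 2) * (1 - y ^ 2) +
      2 * ((p.q20 + p.q21 * z + p.q22 * z ^ 2) - (p.q00 + p.q01 * z + p.q02 * z ^ 2)) * y := by
    have h3 := hE
    unfold Pl.E1 at h3
    exact sub_eq_zero.1 h3
  rw [← h2, norm_mul, norm_mul, norm_mul, norm_pow, Complex.norm_ofNat] at h1
  exact h1

end Pool.Agent.MPb0eP
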