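import Mathlib
import Pool.Agent.Lib.MP_b0e20b_ag_P.Defs
import Pool.Agent.Lib.MP_b0e20b_ag_P.B2

/-!
# MP_b0e20b_ag, formats (n,1,1): the estimate for y
-/

set_option autoImplicit false

open scoped Topology

namespace Pool.Agent.MPb0eP

/-- bounded sequences converge along an ultrafilter -/
private lemma B2y_lim (U : Ultrafilter ℕ) (f : ℕ → ℂ) (M : ℝ)
    (h : ∀ᶠ n in (U : Filter ℕ), ‖f n‖ ≤ M) :
    ∃ l, Filter.Tendsto f (U : Filter ℕ) (𝓝 l) := by
  have h1 : ((U.map f : Ultrafilter ℂ) : Filter ℂ) ≤ Filter.principal (Metric.closedBall 0 M) := by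
    rw [Filter.le_principal_iff, Ultrafilter.coe_map, Filter.mem_map]
    filter_upwards [h] with n hn
    simpa using hn
  obtain ⟨x, -, hx⟩ := (isCompact_closedBall (0 : ℂ) M).ultrafilter_le_nhds (U.map f) h1
  exact ⟨x, hx⟩

/-- the first equation, divided by `y ^ 3` -/
private lemma B2y_e1 (p : Pl ℂ) {y z u κ : ℂ} (hu : u * y = 1) (hκ : κ = y * (1 + z ^ 2))
    (h : p.E1 y z = 0) :
    2 * (1 + u ^ 2) ^ 2 * κ * (κ - p.b - p.f * z) -
      ((p.q10 + p.q11 * z + p.q12 * z ^ 2) * (u ^ 3 - u) +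
        2 * ((p.q20 + p.q21 * z + p.q22 * z ^ 2) - (p.q00 + p.q01 * z + p.q02 * z ^ 2)) *
          u ^ 2) = 0 := by
  have hy : y ≠ 0 := by
    rintro rfl
    simp at hu
  have hu' : u = 1 / y := by
    field_simp
    exact hu
  unfold Pl.E1 at h
  rw [hu', hκ]
  field_simp
  linear_combination h

/-- the second equation, divided by `y ^ 2` -/
private lemma B2y_e2 (p : Pl ℂ) {y z u κ : ℂ} (hu : u * y = 1) (hκ : κ = y * (1 + z ^ 2))
    (h : p.E2 y z = 0) :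
    2 * (1 + u ^ 2) * κ ^ 2 * (z * (1 + u ^ 2) - p.c * u ^ 2 - p.f * u) -
      ((p.q01 * u ^ 2 + p.q11 * u + p.q21) * (1 - z ^ 2) +
        2 * ((p.q02 * u ^ 2 + p.q12 * u + p.q22) - (p.q00 * u ^ 2 + p.q10 * u + p.q20)) *
          z) = 0 := by
  have hy : y ≠ 0 := by
    rintro rfl
    simp at hu
  have hu' : u = 1 / y := by
    field_simp
    exact hu
  unfold Pl.E2 Pl.E1 Pl.swap at h
  simp only at h
  rw [hu', hκ]
  field_simp
  linear_combination h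

/-- The estimate for `y`.

Proof. Suppose not; take sequences of parameters and solutions with `|y| → ∞` (or work with explicit
`O(1/|y|)`). By `bd_a`, `κ = y (1+z²)` and `z` are bounded and `1 + z² → 0`. Pass to limits (a
subsequence, or an ultrafilter finer than `atTop`): `p → p∞` (the twelve coordinates), `κ → κ∞`,
`z → s` with `s² = -1`, `u = 1/y → 0`. Dividing the first equation by `y³`:
`2 (1+u²)² κ (κ - b - f z) = A / y³ → 0`, so `κ∞ (κ∞ - b - f s) = 0`. Dividing the second by `y²`: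
`2 (1+u²) κ² (z (1+u²) - c u² - f u) =
  (q01 u² + q11 u + q21)(1 - z²) + 2 ((q02 u² + q12 u + q22) - (q00 u² + q10 u + q20)) z`,
in the limit `2 κ∞² s = 2 q21 + 2 (q22 - q20) s`, i.e. `κ∞² = -Q`, `Q = q20 + q21 s + q22 s²`.
With `w = b + s f`: either `κ∞ = 0` and `Q = 0`, or `κ∞ = w` and `w² + Q = 0`; both are excluded by
the lower bounds `m`, which persist in the limit. -/
theorem bd_y (C m : ℝ) (hm : 0 < m) : ∃ R : ℝ, ∀ (p : Pl ℂ), Bdd p C →
    (∀ s : ℂ, s ^ 2 = -1 → m ≤ ‖p.q20 + p.q21 * s + p.q22 * s ^ 2‖ ∧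
      m ≤ ‖(p.b + s * p.f) ^ 2 + (p.q20 + p.q21 * s + p.q22 * s ^ 2)‖) →
    ∀ y z : ℂ, p.E1 y z = 0 → p.E2 y z = 0 → ‖y‖ ≤ R := by
  by_contra hcon
  push Not at hcon
  choose p hp hq y z h1 h2 h3 using fun n : ℕ => hcon n
  obtain ⟨R0, hR0⟩ := bd_a (max C 1) (le_max_right _ _)
  have hp' : ∀ n, Bdd (p n) (max C 1) := by
    intro n
    obtain ⟨a1, a2, a3, a4, a5, a6, a7, a8, a9, a10, a11, a12⟩ := hp n
    have hC : C ≤ max C 1 := le_max_left _ _
    exact ⟨a1.trans hC, a2.trans hC, a3.trans hC, a4.trans hC, a5.trans hC, a6.trans hC,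
      a7.trans hC, a8.trans hC, a9.trans hC, a10.trans hC, a11.trans hC, a12.trans hC⟩
  let U : Ultrafilter ℕ := Filter.hyperfilter ℕ
  have hU : (U : Filter ℕ) ≤ Filter.atTop := Nat.hyperfilter_le_atTop
  have hy : Filter.Tendsto (fun n => ‖y n‖) (U : Filter ℕ) Filter.atTop := by
    refine Filter.Tendsto.mono_left ?_ hU
    exact Filter.tendsto_atTop_mono (fun n => (h3 n).le) tendsto_natCast_atTop_atTop
  have hbd : ∀ᶠ n in (U : Filter ℕ), ‖z n‖ ≤ 2 ∧ ‖y n‖ * ‖1 + z n ^ 2‖ ≤ 6 * max C 1 := by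
    filter_upwards [hy.eventually_ge_atTop R0] with n hn
    exact hR0 (p n) (hp' n) (y n) (z n) (h1 n) hn
  have hall : ∀ (g : Pl ℂ → ℂ), (∀ q, Bdd q C → ‖g q‖ ≤ C) →
      ∃ l, Filter.Tendsto (fun n => g (p n)) (U : Filter ℕ) (𝓝 l) := fun g hg =>
    B2y_lim U _ C (Filter.Eventually.of_forall fun n => hg _ (hp n))
  obtain ⟨b, hb⟩ := hall (fun q => q.b) (fun q hq => hq.1)
  obtain ⟨c, hc⟩ := hall (fun q => q.c) (fun q hq => hq.2.1)
  obtain ⟨f, hf⟩ := hall (fun q => q.f) (fun q hq => hq.2.2.1)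
  obtain ⟨q00, h00⟩ := hall (fun q => q.q00) (fun q hq => hq.2.2.2.1)
  obtain ⟨q10, h10⟩ := hall (fun q => q.q10) (fun q hq => hq.2.2.2.2.1)
  obtain ⟨q20, h20⟩ := hall (fun q => q.q20) (fun q hq => hq.2.2.2.2.2.1)
  obtain ⟨q01, h01⟩ := hall (fun q => q.q01) (fun q hq => hq.2.2.2.2.2.2.1)
  obtain ⟨q11, h11⟩ := hall (fun q => q.q11) (fun q hq => hq.2.2.2.2.2.2.2.1)
  obtain ⟨q21, h21⟩ := hall (fun q => q.q21) (fun q hq => hq.2.2.2.2.2.2.2.2.1)
  obtain ⟨q02, h02⟩ := hall (fun q => q.q02) (fun q hq => hq.2.2.2.2.2.2.2.2.2.1)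
  obtain ⟨q12, h12⟩ := hall (fun q => q.q12) (fun q hq => hq.2.2.2.2.2.2.2.2.2.2.1)
  obtain ⟨q22, h22⟩ := hall (fun q => q.q22) (fun q hq => hq.2.2.2.2.2.2.2.2.2.2.2)
  obtain ⟨s, hz⟩ := B2y_lim U z 2 (hbd.mono fun n hn => hn.1)
  obtain ⟨κ, hκ⟩ := B2y_lim U (fun n => y n * (1 + z n ^ 2)) (6 * max C 1)
    (hbd.mono fun n hn => by rw [norm_mul]; exact hn.2)
  have hu : Filter.Tendsto (fun n => (y n)⁻¹) (U : Filter ℕ) (𝓝 0) := by
    rw [tendsto_zero_iff_norm_tendsto_zero]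
    refine hy.inv_tendsto_atTop.congr fun n => ?_
    rw [norm_inv]
    rfl
  have hy0 : ∀ᶠ n in (U : Filter ℕ), y n ≠ 0 := by
    filter_upwards [hy.eventually_gt_atTop 0] with n hn
    exact norm_pos_iff.1 hn
  -- the limit of `z`
  have hs : s ^ 2 = -1 := by
    have e1 : Filter.Tendsto (fun n => (y n)⁻¹ * (y n * (1 + z n ^ 2))) (U : Filter ℕ)
        (𝓝 (0 * κ)) := hu.mul hκ
    have e2 : Filter.Tendsto (fun n => 1 + z n ^ 2) (U : Filter ℕ) (𝓝 (1 + s ^ 2)) :=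
      tendsto_const_nhds.add (hz.pow 2)
    have e3 : Filter.Tendsto (fun n => 1 + z n ^ 2) (U : Filter ℕ) (𝓝 (0 * κ)) := by
      refine e1.congr' ?_
      filter_upwards [hy0] with n hn
      field_simp
    have e4 := tendsto_nhds_unique e2 e3
    linear_combination e4
  -- the limits of the two equations
  have L1 : 2 * (1 + 0 ^ 2) ^ 2 * κ * (κ - b - f * s) -
      ((q10 + q11 * s + q12 * s ^ 2) * (0 ^ 3 - 0) +
        2 * ((q20 + q21 * s + q22 * s ^ 2) - (q00 + q01 * s + q02 * s ^ 2)) * 0 ^ 2) = 0 := by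
    refine tendsto_nhds_unique (f := fun n => 2 * (1 + (y n)⁻¹ ^ 2) ^ 2 *
      (y n * (1 + z n ^ 2)) * (y n * (1 + z n ^ 2) - (p n).b - (p n).f * z n) -
      (((p n).q10 + (p n).q11 * z n + (p n).q12 * z n ^ 2) * ((y n)⁻¹ ^ 3 - (y n)⁻¹) +
        2 * (((p n).q20 + (p n).q21 * z n + (p n).q22 * z n ^ 2) -
          ((p n).q00 + (p n).q01 * z n + (p n).q02 * z n ^ 2)) * (y n)⁻¹ ^ 2))
      (l := (U : Filter ℕ)) ?_ ?_
    · exact (((tendsto_const_nhds.mul ((tendsto_const_nhds.add (hu.pow 2)).pow 2)).mul hκ).mul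
        ((hκ.sub hb).sub (hf.mul hz))).sub
        ((((h10.add (h11.mul hz)).add (h12.mul (hz.pow 2))).mul ((hu.pow 3).sub hu)).add
          ((tendsto_const_nhds.mul (((h20.add (h21.mul hz)).add (h22.mul (hz.pow 2))).sub
            ((h00.add (h01.mul hz)).add (h02.mul (hz.pow 2))))).mul (hu.pow 2)))
    · refine tendsto_const_nhds.congr' ?_
      filter_upwards [hy0] with n hn
      exact (B2y_e1 (p n) (inv_mul_cancel₀ hn) rfl (h1 n)).symm
  have L2 : 2 * (1 + 0 ^ 2) * κ ^ 2 * (s * (1 + 0 ^ 2) - c * 0 ^ 2 - f * 0) -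
      ((q01 * 0 ^ 2 + q11 * 0 + q21) * (1 - s ^ 2) +
        2 * ((q02 * 0 ^ 2 + q12 * 0 + q22) - (q00 * 0 ^ 2 + q10 * 0 + q20)) * s) = 0 := by
    refine tendsto_nhds_unique (f := fun n => 2 * (1 + (y n)⁻¹ ^ 2) *
      (y n * (1 + z n ^ 2)) ^ 2 * (z n * (1 + (y n)⁻¹ ^ 2) - (p n).c * (y n)⁻¹ ^ 2 -
        (p n).f * (y n)⁻¹) -
      (((p n).q01 * (y n)⁻¹ ^ 2 + (p n).q11 * (y n)⁻¹ + (p n).q21) * (1 - z n ^ 2) +
        2 * (((p n).q02 * (y n)⁻¹ ^ 2 + (p n).q12 * (y n)⁻¹ + (p n).q22) -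
          ((p n).q00 * (y n)⁻¹ ^ 2 + (p n).q10 * (y n)⁻¹ + (p n).q20)) * z n))
      (l := (U : Filter ℕ)) ?_ ?_
    · exact (((tendsto_const_nhds.mul (tendsto_const_nhds.add (hu.pow 2))).mul (hκ.pow 2)).mul
        (((hz.mul (tendsto_const_nhds.add (hu.pow 2))).sub (hc.mul (hu.pow 2))).sub
          (hf.mul hu))).sub
        (((((h01.mul (hu.pow 2)).add (h11.mul hu)).add h21).mul
            (tendsto_const_nhds.sub (hz.pow 2))).add
          ((tendsto_const_nhds.mul ((((h02.mul (hu.pow 2)).add (h12.mul hu)).add h22).sub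
            (((h00.mul (hu.pow 2)).add (h10.mul hu)).add h20))).mul hz))
    · refine tendsto_const_nhds.congr' ?_
      filter_upwards [hy0] with n hn
      exact (B2y_e2 (p n) (inv_mul_cancel₀ hn) rfl (h2 n)).symm
  -- the lower bounds in the limit
  have hQ : Filter.Tendsto (fun n => (p n).q20 + (p n).q21 * s + (p n).q22 * s ^ 2)
      (U : Filter ℕ) (𝓝 (q20 + q21 * s + q22 * s ^ 2)) :=
    (h20.add (h21.mul tendsto_const_nhds)).add (h22.mul tendsto_const_nhds)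
  have m1 : m ≤ ‖q20 + q21 * s + q22 * s ^ 2‖ :=
    ge_of_tendsto hQ.norm (Filter.Eventually.of_forall fun n => (hq n s hs).1)
  have m2 : m ≤ ‖(b + s * f) ^ 2 + (q20 + q21 * s + q22 * s ^ 2)‖ :=
    ge_of_tendsto (((hb.add (tendsto_const_nhds.mul hf)).pow 2).add hQ).norm
      (Filter.Eventually.of_forall fun n => (hq n s hs).2)
  have hκ2 : κ ^ 2 = -(q20 + q21 * s + q22 * s ^ 2) := by
    linear_combination (-s / 2) * L2 + (κ ^ 2 + q20 + q21 * s / 2) * hs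
  have hκ1 : κ * (κ - b - f * s) = 0 := by
    linear_combination (1 / 2) * L1
  rcases mul_eq_zero.1 hκ1 with h | h
  · rw [h] at hκ2
    have h4 : q20 + q21 * s + q22 * s ^ 2 = 0 := by linear_combination hκ2
    rw [h4, norm_zero] at m1
    linarith
  · have h5 : κ = b + s * f := by linear_combination h
    rw [← h5, hκ2, neg_add_cancel, norm_zero] at m2
    linarith

end Pool.Agent.MPb0eP
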