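import Mathlib
import Pool.Agent.Lib.MP_b0e20b_ag_P.Defs
import Pool.Agent.Lib.MP_b0e20b_ag_P.PD
import Pool.Agent.Lib.MP_b0e20b_ag_P.B2
import Pool.Agent.Lib.MP_b0e20b_ag_P.B2y

/-!
# MP_b0e20b_ag, formats (n,1,1): no plane solution escapes to infinity, locally uniformly
-/

set_option autoImplicit false

open scoped Topology

namespace Pool.Agent.MPb0eP

/-- The estimate for `y` along a continuous family of plane systems. -/
private theorem B2b_aux {X : Type} [TopologicalSpace X] (P : X → Pl ℂ)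
    (h1 : Continuous fun t => (P t).b) (h2 : Continuous fun t => (P t).c)
    (h3 : Continuous fun t => (P t).f) (h4 : Continuous fun t => (P t).q00)
    (h5 : Continuous fun t => (P t).q10) (h6 : Continuous fun t => (P t).q20)
    (h7 : Continuous fun t => (P t).q01) (h8 : Continuous fun t => (P t).q11)
    (h9 : Continuous fun t => (P t).q21) (h10 : Continuous fun t => (P t).q02)
    (h11 : Continuous fun t => (P t).q12) (h12 : Continuous fun t => (P t).q22)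
    (t0 : X) (hI : (P t0).cnd1 Complex.I ≠ 0) (hJ : (P t0).cnd1 (-Complex.I) ≠ 0) :
    ∃ R : ℝ, ∀ᶠ t in 𝓝 t0, ∀ y z : ℂ, (P t).E1 y z = 0 → (P t).E2 y z = 0 → ‖y‖ ≤ R := by
  have hup : ∀ f : X → ℂ, Continuous f → ∀ C : ℝ, ‖f t0‖ < C → ∀ᶠ t in 𝓝 t0, ‖f t‖ ≤ C :=
    fun f hf C hC => Filter.Tendsto.eventually_le_const hC (hf.norm.tendsto t0)
  have hlo : ∀ f : X → ℂ, Continuous f → ∀ m : ℝ, m < ‖f t0‖ → ∀ᶠ t in 𝓝 t0, m ≤ ‖f t‖ :=
    fun f hf m hm => Filter.Tendsto.eventually_const_le hm (hf.norm.tendsto t0)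
  obtain ⟨C, hC⟩ : ∃ C : ℝ, C = 1 + ‖(P t0).b‖ + ‖(P t0).c‖ + ‖(P t0).f‖ + ‖(P t0).q00‖ +
      ‖(P t0).q10‖ + ‖(P t0).q20‖ + ‖(P t0).q01‖ + ‖(P t0).q11‖ + ‖(P t0).q21‖ + ‖(P t0).q02‖ +
      ‖(P t0).q12‖ + ‖(P t0).q22‖ := ⟨_, rfl⟩
  have n1 := norm_nonneg (P t0).b
  have n2 := norm_nonneg (P t0).c
  have n3 := norm_nonneg (P t0).f
  have n4 := norm_nonneg (P t0).q00
  have n5 := norm_nonneg (P t0).q10
  have n6 := norm_nonneg (P t0).q20
  have n7 := norm_nonneg (P t0).q01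
  have n8 := norm_nonneg (P t0).q11
  have n9 := norm_nonneg (P t0).q21
  have n10 := norm_nonneg (P t0).q02
  have n11 := norm_nonneg (P t0).q12
  have n12 := norm_nonneg (P t0).q22
  -- the lower bounds
  have hq : ∀ s : ℂ, (P t0).cnd1 s ≠ 0 →
      (P t0).q20 + (P t0).q21 * s + (P t0).q22 * s ^ 2 ≠ 0 ∧
      ((P t0).b + s * (P t0).f) ^ 2 +
        ((P t0).q20 + (P t0).q21 * s + (P t0).q22 * s ^ 2) ≠ 0 := by
    intro s hs
    unfold Pl.cnd1 at hs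
    constructor
    · intro h
      exact hs (by rw [h]; ring)
    · intro h
      exact hs (by rw [h]; ring)
  have cq : ∀ s : ℂ, Continuous fun t => (P t).q20 + (P t).q21 * s + (P t).q22 * s ^ 2 :=
    fun s => (h6.add (h9.mul continuous_const)).add (h12.mul continuous_const)
  have cw : ∀ s : ℂ, Continuous fun t => ((P t).b + s * (P t).f) ^ 2 +
      ((P t).q20 + (P t).q21 * s + (P t).q22 * s ^ 2) :=
    fun s => ((h1.add (continuous_const.mul h3)).pow 2).add (cq s)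
  have hm : ∀ s : ℂ, (P t0).cnd1 s ≠ 0 → ∃ m : ℝ, 0 < m ∧ ∀ᶠ t in 𝓝 t0,
      m ≤ ‖(P t).q20 + (P t).q21 * s + (P t).q22 * s ^ 2‖ ∧
      m ≤ ‖((P t).b + s * (P t).f) ^ 2 +
        ((P t).q20 + (P t).q21 * s + (P t).q22 * s ^ 2)‖ := by
    intro s hs
    obtain ⟨ha, hb⟩ := hq s hs
    have ha' := norm_pos_iff.2 ha
    have hb' := norm_pos_iff.2 hb
    obtain ⟨m, hm0, hma, hmb⟩ : ∃ m : ℝ, 0 < m ∧
        m < ‖(P t0).q20 + (P t0).q21 * s + (P t0).q22 * s ^ 2‖ ∧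
        m < ‖((P t0).b + s * (P t0).f) ^ 2 +
          ((P t0).q20 + (P t0).q21 * s + (P t0).q22 * s ^ 2)‖ := by
      obtain ⟨m, h0, h1⟩ := exists_between (lt_min ha' hb')
      exact ⟨m, h0, lt_of_lt_of_le h1 (min_le_left _ _), lt_of_lt_of_le h1 (min_le_right _ _)⟩
    exact ⟨m, hm0, (hlo _ (cq s) m hma).and (hlo _ (cw s) m hmb)⟩
  obtain ⟨m1, hm1, e1⟩ := hm _ hI
  obtain ⟨m2, hm2, e2⟩ := hm _ hJ
  obtain ⟨R, hR⟩ := bd_y C (min m1 m2) (lt_min hm1 hm2)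
  refine ⟨R, ?_⟩
  filter_upwards [e1, e2, hup _ h1 C (by linarith), hup _ h2 C (by linarith),
    hup _ h3 C (by linarith), hup _ h4 C (by linarith), hup _ h5 C (by linarith),
    hup _ h6 C (by linarith), hup _ h7 C (by linarith), hup _ h8 C (by linarith),
    hup _ h9 C (by linarith), hup _ h10 C (by linarith), hup _ h11 C (by linarith),
    hup _ h12 C (by linarith)] with t g1 g2 b1 b2 b3 b4 b5 b6 b7 b8 b9 b10 b11 b12
  intro y z hy hz
  refine hR (P t) ⟨b1, b2, b3, b4, b5, b6, b7, b8, b9, b10, b11, b12⟩ ?_ y z hy hz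
  intro s hs
  have hs' : s = Complex.I ∨ s = -Complex.I := by
    rw [← sq_eq_sq_iff_eq_or_eq_neg, hs, Complex.I_sq]
  rcases hs' with rfl | rfl
  · exact ⟨(min_le_left _ _).trans g1.1, (min_le_left _ _).trans g1.2⟩
  · exact ⟨(min_le_right _ _).trans g2.1, (min_le_right _ _).trans g2.2⟩

private theorem B2b_dot {n : ℕ} (a b : Fin 4) :
    Continuous fun t : Tp n ℂ => dot (tv t a) (tv t b) := by
  unfold dot tv
  fun_prop

private theorem B2b_ts {n : ℕ} (a : Fin 3) :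
    Continuous fun t : Tp n ℂ => ts t a := by
  unfold ts
  fun_prop

/-- Proof. `bd_y` for `pl t` and for `(pl t).swap` (then `E1` and `E2` and `y` and `z` are
exchanged), and continuity in `t`. -/
theorem bd2 {n : ℕ} (t0 : Tp n ℂ) (h : (pl t0).cnd Complex.I ≠ 0) :
    ∃ R : ℝ, ∀ᶠ t in 𝓝 t0, ∀ u, Gp t u = 0 → ‖u‖ ≤ R := by
  have hc : (pl t0).cnd1 Complex.I ≠ 0 ∧ (pl t0).cnd1 (-Complex.I) ≠ 0 ∧
      (pl t0).swap.cnd1 Complex.I ≠ 0 ∧ (pl t0).swap.cnd1 (-Complex.I) ≠ 0 := by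
    unfold Pl.cnd at h
    refine ⟨?_, ?_, ?_, ?_⟩ <;> intro h' <;> exact h (by rw [h']; ring)
  obtain ⟨c1, c2, c3, c4⟩ := hc
  have k00 := B2b_dot (n := n) 0 0
  have k10 := (continuous_const (y := (2 : ℂ))).mul (B2b_dot (n := n) 0 1)
  have k20 := B2b_dot (n := n) 1 1
  have k01 := (continuous_const (y := (2 : ℂ))).mul (B2b_dot (n := n) 0 2)
  have k11 := ((continuous_const (y := (2 : ℂ))).mul (B2b_dot (n := n) 0 3)).add
    ((continuous_const (y := (2 : ℂ))).mul (B2b_dot (n := n) 1 2))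
  have k21 := (continuous_const (y := (2 : ℂ))).mul (B2b_dot (n := n) 1 3)
  have k02 := B2b_dot (n := n) 2 2
  have k12 := (continuous_const (y := (2 : ℂ))).mul (B2b_dot (n := n) 2 3)
  have k22 := B2b_dot (n := n) 3 3
  have kb := B2b_ts (n := n) 0
  have kc := B2b_ts (n := n) 1
  have kf := B2b_ts (n := n) 2
  obtain ⟨R1, e1⟩ := B2b_aux (fun t : Tp n ℂ => pl t) kb kc kf k00 k10 k20 k01 k11 k21 k02 k12
    k22 t0 c1 c2
  obtain ⟨R2, e2⟩ := B2b_aux (fun t : Tp n ℂ => (pl t).swap) kc kb kf k00 k01 k02 k10 k11 k12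
    k20 k21 k22 t0 c3 c4
  refine ⟨max R1 R2, ?_⟩
  filter_upwards [e1, e2] with t g1 g2
  intro u hu
  have hu1 : (pl t).E1 u.1 u.2 = 0 := congrArg Prod.fst hu
  have hu2 : (pl t).E2 u.1 u.2 = 0 := congrArg Prod.snd hu
  rw [Prod.norm_def]
  exact max_le_max (g1 u.1 u.2 hu1 hu2) (g2 u.2 u.1 hu2 hu1)

end Pool.Agent.MPb0eP
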