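import Mathlib
import Pool.Agent.Lib.MP_b0e20b_ag_P.Defs

/-!
# MP_b0e20b_ag, formats (n,1,1): a checker for isolated complex solutions of the plane system

Discs in the complex plane with integer data; `s` is the scale. A box is a product of two discs
with an approximate inverse of the Jacobian matrix.
-/

set_option autoImplicit false

namespace Pool.Agent.MPb0eP

/-- A disc: the complex numbers `w` with `‖w * s - (a + b i)‖ ≤ r`, `s` the scale. -/
structure Dk where
  a : ℤ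
  b : ℤ
  r : ℤ

namespace Dk

/-- Membership in a disc of scale `s`. -/
def Mem (s : ℤ) (w : ℂ) (D : Dk) : Prop :=
  ‖w * (s : ℂ) - ((D.a : ℂ) + (D.b : ℂ) * Complex.I)‖ ≤ (D.r : ℝ)

/-- The exact integer `m`. -/
def num (s m : ℤ) : Dk := ⟨m * s, 0, 0⟩

/-- Sum. -/
def add (D E : Dk) : Dk := ⟨D.a + E.a, D.b + E.b, D.r + E.r⟩

/-- Difference. -/
def sub (D E : Dk) : Dk := ⟨D.a - E.a, D.b - E.b, D.r + E.r⟩

/-- An upper bound of `|a + b i|`. -/
def n1 (D : Dk) : ℤ := |D.a| + |D.b|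

/-- Product, rounded. -/
def mul (s : ℤ) (D E : Dk) : Dk :=
  ⟨(D.a * E.a - D.b * E.b) / s, (D.a * E.b + D.b * E.a) / s,
    (D.n1 * E.r + E.n1 * D.r + D.r * E.r) / s + 3⟩

/-- An upper bound of `|w| * s` for the points of the disc. -/
def mag (D : Dk) : ℤ := D.n1 + D.r

/-- A condition which implies that `0` is not in the disc. -/
def nz (D : Dk) : Bool := decide (D.r < |D.a|) || decide (D.r < |D.b|)

/-- A condition which implies that the discs are disjoint. -/
def far (D E : Dk) : Bool :=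
  decide (D.r + E.r < |D.a - E.a|) || decide (D.r + E.r < |D.b - E.b|)

end Dk

/-- Polynomial expressions in two variables with integer coefficients. -/
inductive Ex where
  | y : Ex
  | z : Ex
  | num : ℤ → Ex
  | add : Ex → Ex → Ex
  | sub : Ex → Ex → Ex
  | mul : Ex → Ex → Ex

namespace Ex

/-- The value in a ring. -/
def ev {R : Type} [CommRing R] (u v : R) : Ex → R
  | y => u
  | z => v
  | num m => (m : R)
  | add e e' => e.ev u v + e'.ev u v
  | sub e e' => e.ev u v - e'.ev u v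
  | mul e e' => e.ev u v * e'.ev u v

/-- The value on discs. -/
def dk (s : ℤ) (U V : Dk) : Ex → Dk
  | y => U
  | z => V
  | num m => Dk.num s m
  | add e e' => (e.dk s U V).add (e'.dk s U V)
  | sub e e' => (e.dk s U V).sub (e'.dk s U V)
  | mul e e' => (e.dk s U V).mul s (e'.dk s U V)

/-- `1 + e²`. -/
def sq1 (e : Ex) : Ex := add (num 1) (mul e e)

/-- The quadratic polynomial `a + b z + c z²`. -/
def quad (a b c : ℤ) : Ex := add (num a) (mul z (add (num b) (mul (num c) z)))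

/-- The expression `y (1 + z²) - b - f z`. -/
def tt (p : Pl ℤ) : Ex := sub (mul y (sq1 z)) (add (num p.b) (mul (num p.f) z))

/-- The expression of `E1`. -/
def x1 (p : Pl ℤ) : Ex :=
  sub (mul (mul (num 2) (mul (mul (sq1 y) (sq1 y)) (sq1 z))) (tt p))
    (add (mul (quad p.q10 p.q11 p.q12) (sub (num 1) (mul y y)))
      (mul (num 2) (mul (sub (quad p.q20 p.q21 p.q22) (quad p.q00 p.q01 p.q02)) y)))

/-- The expression of `E1y`. -/
def x1y (p : Pl ℤ) : Ex :=
  sub (mul (num 2) (add (mul (mul (mul (num 4) y) (mul (sq1 y) (sq1 z))) (tt p))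
      (mul (mul (sq1 y) (sq1 y)) (mul (sq1 z) (sq1 z)))))
    (add (mul (quad p.q10 p.q11 p.q12) (mul (num (-2)) y))
      (mul (num 2) (sub (quad p.q20 p.q21 p.q22) (quad p.q00 p.q01 p.q02))))

/-- The expression of `E1z`. -/
def x1z (p : Pl ℤ) : Ex :=
  sub (mul (mul (num 2) (mul (sq1 y) (sq1 y))) (add (mul (mul (num 2) z) (tt p))
      (mul (sq1 z) (sub (mul (mul (num 2) y) z) (num p.f)))))
    (add (mul (add (num p.q11) (mul (num (2 * p.q12)) z)) (sub (num 1) (mul y y)))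
      (mul (num 2) (mul (sub (add (num p.q21) (mul (num (2 * p.q22)) z))
        (add (num p.q01) (mul (num (2 * p.q02)) z))) y)))

end Ex

/-- A box with an approximate inverse `B` of the Jacobian matrix (four complex numbers of the
scale `s`, by rows). -/
structure Bx where
  ya : ℤ
  yb : ℤ
  yr : ℤ
  za : ℤ
  zb : ℤ
  zr : ℤ
  a11 : ℤ
  b11 : ℤ
  a12 : ℤ
  b12 : ℤ
  a21 : ℤ
  b21 : ℤ
  a22 : ℤ
  b22 : ℤ

namespace Bx

/-- The disc of `y`. -/
def Y (x : Bx) : Dk := ⟨x.ya, x.yb, x.yr⟩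

/-- The disc of `z`. -/
def Z (x : Bx) : Dk := ⟨x.za, x.zb, x.zr⟩

/-- The centre of the disc of `y`. -/
def y0 (x : Bx) : Dk := ⟨x.ya, x.yb, 0⟩

/-- The centre of the disc of `z`. -/
def z0 (x : Bx) : Dk := ⟨x.za, x.zb, 0⟩

/-- Upper bound for `|(B E)_i| * s` at the centre, where `e1, e2` are the discs of the values of
the equations and `c, d` the entries of the row. -/
def rowE (s : ℤ) (c d e1 e2 : Dk) : ℤ := ((c.mul s e1).add (d.mul s e2)).mag

/-- Upper bound for the entry `(1 - B J)_ij`, `dl = 1` on the diagonal and `0` otherwise. -/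
def rowJ (s dl : ℤ) (c d j1 j2 : Dk) : ℤ :=
  ((Dk.num s dl).sub ((c.mul s j1).add (d.mul s j2))).mag

/-- The Krawczyk test. -/
def kr (s : ℤ) (p : Pl ℤ) (x : Bx) : Bool :=
  let e1 := (Ex.x1 p).dk s x.y0 x.z0
  let e2 := (Ex.x1 p.swap).dk s x.z0 x.y0
  let j11 := (Ex.x1y p).dk s x.Y x.Z
  let j12 := (Ex.x1z p).dk s x.Y x.Z
  let j21 := (Ex.x1z p.swap).dk s x.Z x.Y
  let j22 := (Ex.x1y p.swap).dk s x.Z x.Y
  let c11 : Dk := ⟨x.a11, x.b11, 0⟩
  let c12 : Dk := ⟨x.a12, x.b12, 0⟩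
  let c21 : Dk := ⟨x.a21, x.b21, 0⟩
  let c22 : Dk := ⟨x.a22, x.b22, 0⟩
  decide (0 < x.yr) && decide (0 < x.zr) &&
    decide (2 * rowE s c11 c12 e1 e2 ≤ x.yr) &&
    decide (2 * rowE s c21 c22 e1 e2 ≤ x.zr) &&
    decide (2 * (rowJ s 1 c11 c12 j11 j21 * x.yr + rowJ s 0 c11 c12 j12 j22 * x.zr) ≤
      s * x.yr) &&
    decide (2 * (rowJ s 0 c21 c22 j11 j21 * x.yr + rowJ s 1 c21 c22 j12 j22 * x.zr) ≤
      s * x.zr) &&
    ((Ex.sq1 Ex.y).dk s x.Y x.Z).nz && ((Ex.sq1 Ex.z).dk s x.Y x.Z).nz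

/-- The centre is real. -/
def re (x : Bx) : Bool := decide (x.yb = 0) && decide (x.zb = 0)

/-- The box contains no real point. -/
def nre (x : Bx) : Bool := decide (x.yr < |x.yb|) || decide (x.zr < |x.zb|)

/-- The boxes are disjoint. -/
def sep (x x' : Bx) : Bool := x.Y.far x'.Y || x.Z.far x'.Z

/-- The boxes of a list are pairwise disjoint. -/
def sepL : List Bx → Bool
  | [] => true
  | x :: l => l.all (fun x' => x.sep x') && sepL l

end Bx

/-- The test: `L` is a list of `k` real boxes, `L'` a list of nonreal boxes, `N` altogether. -/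
def ck (s : ℤ) (p : Pl ℤ) (L L' : List Bx) (k N : ℕ) : Bool :=
  decide (0 < s) && decide (L.length = k) && decide (L.length + L'.length = N) &&
    L.all (fun x => x.re && Bx.kr s p x) && L'.all (fun x => x.nre && Bx.kr s p x) &&
    Bx.sepL (L ++ L')

/-- An integer system as a system over a ring. -/
def Pl.cst (R : Type) [CommRing R] (p : Pl ℤ) : Pl R :=
  ⟨(p.b : R), (p.c : R), (p.f : R), (p.q00 : R), (p.q10 : R), (p.q20 : R), (p.q01 : R),
    (p.q11 : R), (p.q21 : R), (p.q02 : R), (p.q12 : R), (p.q22 : R)⟩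

/-- Integer parameters for `n = 1`: the coefficients of `x, y, z, xy, xz, yz, xyz`. -/
def mk1 (a b c d e f g : ℤ) : Tp 1 ℤ :=
  Sum.elim (fun si => ![a, d, e, g] si.1) ![b, c, f]

/-- The plane system of `mk1`. -/
def pl1 (a b c d e f g : ℤ) : Pl ℤ :=
  ⟨b, c, f, a * a, 2 * (a * d), d * d, 2 * (a * e), 2 * (a * g) + 2 * (d * e), 2 * (d * g),
    e * e, 2 * (e * g), g * g⟩

/-- Integer parameters for `n = 2`. -/
def mk2 (a a' d d' e e' g g' b c f : ℤ) : Tp 2 ℤ :=
  Sum.elim (fun si => ![![a, a'], ![d, d'], ![e, e'], ![g, g']] si.1 si.2) ![b, c, f]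

/-- The plane system of `mk2`. -/
def pl2 (a a' d d' e e' g g' b c f : ℤ) : Pl ℤ :=
  ⟨b, c, f, a * a + a' * a', 2 * (a * d + a' * d'), d * d + d' * d', 2 * (a * e + a' * e'),
    2 * (a * g + a' * g') + 2 * (d * e + d' * e'), 2 * (d * g + d' * g'),
    e * e + e' * e', 2 * (e * g + e' * g'), g * g + g' * g'⟩

end Pool.Agent.MPb0eP
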