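import Mathlib
import Pool.Agent.Lib.MP_b0e20b_ag_P.CkD

/-!
# MP_b0e20b_ag, formats (n,1,1): soundness of the arithmetic of discs
-/

set_option autoImplicit false

namespace Pool.Agent.MPb0eP

/-- The centre of a disc. -/
private noncomputable def ctr (D : Dk) : ℂ := (D.a : ℂ) + (D.b : ℂ) * Complex.I

private theorem norm_ab (x y : ℝ) : ‖(x : ℂ) + (y : ℂ) * Complex.I‖ ≤ |x| + |y| := by
  refine (norm_add_le _ _).trans ?_
  simp [Complex.norm_real]

private theorem norm_ctr (D : Dk) : ‖ctr D‖ ≤ (D.n1 : ℝ) := by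
  have h := norm_ab (D.a : ℝ) (D.b : ℝ)
  simpa [ctr, Dk.n1] using h

private theorem abs_re_le (x y : ℝ) : |x| ≤ ‖(x : ℂ) + (y : ℂ) * Complex.I‖ := by
  have h := Complex.abs_re_le_norm ((x : ℂ) + (y : ℂ) * Complex.I)
  simpa using h

private theorem abs_im_le (x y : ℝ) : |y| ≤ ‖(x : ℂ) + (y : ℂ) * Complex.I‖ := by
  have h := Complex.abs_im_le_norm ((x : ℂ) + (y : ℂ) * Complex.I)
  simpa using h

private theorem mem_iff {s : ℤ} {w : ℂ} {D : Dk} :
    Dk.Mem s w D ↔ ‖w * (s : ℂ) - ctr D‖ ≤ (D.r : ℝ) := Iff.rfl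

theorem mem_num {s : ℤ} (m : ℤ) : Dk.Mem s (m : ℂ) (Dk.num s m) := by
  simp [Dk.Mem, Dk.num]

theorem mem_add {s : ℤ} {w w' : ℂ} {D E : Dk} (h : Dk.Mem s w D) (h' : Dk.Mem s w' E) :
    Dk.Mem s (w + w') (D.add E) := by
  rw [mem_iff] at *
  have e : (w + w') * (s : ℂ) - ctr (D.add E) =
      (w * (s : ℂ) - ctr D) + (w' * (s : ℂ) - ctr E) := by
    simp only [ctr, Dk.add]
    push_cast
    ring
  rw [e]
  refine (norm_add_le _ _).trans ?_
  have : ((D.add E).r : ℝ) = (D.r : ℝ) + (E.r : ℝ) := by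
    simp only [Dk.add]
    push_cast
    ring
  rw [this]
  exact add_le_add h h'

theorem mem_sub {s : ℤ} {w w' : ℂ} {D E : Dk} (h : Dk.Mem s w D) (h' : Dk.Mem s w' E) :
    Dk.Mem s (w - w') (D.sub E) := by
  rw [mem_iff] at *
  have e : (w - w') * (s : ℂ) - ctr (D.sub E) =
      (w * (s : ℂ) - ctr D) - (w' * (s : ℂ) - ctr E) := by
    simp only [ctr, Dk.sub]
    push_cast
    ring
  rw [e]
  refine (norm_sub_le _ _).trans ?_
  have : ((D.sub E).r : ℝ) = (D.r : ℝ) + (E.r : ℝ) := by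
    simp only [Dk.sub]
    push_cast
    ring
  rw [this]
  exact add_le_add h h'

/-- The rounding error of a division. -/
private theorem round_err {s : ℤ} (hs : 0 < s) (x : ℤ) :
    |(x : ℝ) / (s : ℝ) - ((x / s : ℤ) : ℝ)| ≤ 1 := by
  have hs' : (0 : ℝ) < (s : ℝ) := by exact_mod_cast hs
  have h1 : (s : ℝ) * ((x / s : ℤ) : ℝ) + ((x % s : ℤ) : ℝ) = (x : ℝ) := by
    exact_mod_cast Int.mul_ediv_add_emod x s
  have h2 : (0 : ℝ) ≤ ((x % s : ℤ) : ℝ) := by
    exact_mod_cast Int.emod_nonneg x hs.ne'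
  have h3 : ((x % s : ℤ) : ℝ) < (s : ℝ) := by
    exact_mod_cast Int.emod_lt_of_pos x hs
  have e : (x : ℝ) / (s : ℝ) - ((x / s : ℤ) : ℝ) = ((x % s : ℤ) : ℝ) / (s : ℝ) := by
    field_simp
    linarith
  rw [e, abs_of_nonneg (div_nonneg h2 hs'.le), div_le_one hs']
  exact h3.le

theorem mem_mul {s : ℤ} (hs : 0 < s) {w w' : ℂ} {D E : Dk} (h : Dk.Mem s w D)
    (h' : Dk.Mem s w' E) : Dk.Mem s (w * w') (D.mul s E) := by
  rw [mem_iff] at *
  have hs' : (0 : ℝ) < (s : ℝ) := by exact_mod_cast hs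
  have hsc : (s : ℂ) ≠ 0 := by exact_mod_cast hs.ne'
  set e : ℂ := w * (s : ℂ) - ctr D with he
  set e' : ℂ := w' * (s : ℂ) - ctr E with he'
  set x : ℤ := D.a * E.a - D.b * E.b with hx
  set y : ℤ := D.a * E.b + D.b * E.a with hy
  set z : ℤ := D.n1 * E.r + E.n1 * D.r + D.r * E.r with hz
  have key : w * w' * (s : ℂ) - ctr (D.mul s E) =
      ((((x : ℝ) / (s : ℝ) - ((x / s : ℤ) : ℝ) : ℝ) : ℂ) +
        (((y : ℝ) / (s : ℝ) - ((y / s : ℤ) : ℝ) : ℝ) : ℂ) * Complex.I) +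
      (ctr D * e' + e * ctr E + e * e') / (s : ℂ) := by
    have h1 : w * w' * (s : ℂ) = (ctr D + e) * (ctr E + e') / (s : ℂ) := by
      rw [he, he']
      field_simp
      ring
    have h2 : ctr D * ctr E = (x : ℂ) + (y : ℂ) * Complex.I := by
      simp only [ctr, hx, hy]
      push_cast
      linear_combination ((D.b : ℂ) * (E.b : ℂ)) * Complex.I_mul_I
    have h3 : ctr (D.mul s E) = ((x / s : ℤ) : ℂ) + ((y / s : ℤ) : ℂ) * Complex.I := rfl
    rw [h1, h3]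
    push_cast
    field_simp
    linear_combination h2
  have hn1 : ‖ctr D * e' + e * ctr E + e * e'‖ ≤ (z : ℝ) := by
    have a1 : ‖ctr D * e'‖ ≤ (D.n1 : ℝ) * (E.r : ℝ) := by
      rw [norm_mul]
      exact mul_le_mul (norm_ctr D) h' (norm_nonneg _) ((norm_nonneg _).trans (norm_ctr D))
    have a2 : ‖e * ctr E‖ ≤ (D.r : ℝ) * (E.n1 : ℝ) := by
      rw [norm_mul]
      exact mul_le_mul h (norm_ctr E) (norm_nonneg _) ((norm_nonneg _).trans h)
    have a3 : ‖e * e'‖ ≤ (D.r : ℝ) * (E.r : ℝ) := by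
      rw [norm_mul]
      exact mul_le_mul h h' (norm_nonneg _) ((norm_nonneg _).trans h)
    have a4 := norm_add₃_le (a := ctr D * e') (b := e * ctr E) (c := e * e')
    rw [hz]
    push_cast
    linarith
  have hz1 : (z : ℝ) / (s : ℝ) ≤ ((z / s : ℤ) : ℝ) + 1 := by
    have := (abs_le.1 (round_err hs z)).2
    linarith
  have hfin : ((D.mul s E).r : ℝ) = ((z / s : ℤ) : ℝ) + 3 := by
    simp only [Dk.mul]
    push_cast
    ring
  rw [key, hfin]
  refine (norm_add_le _ _).trans ?_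
  have b1 := norm_ab ((x : ℝ) / (s : ℝ) - ((x / s : ℤ) : ℝ))
    ((y : ℝ) / (s : ℝ) - ((y / s : ℤ) : ℝ))
  have b2 := round_err hs x
  have b3 := round_err hs y
  have b4 : ‖(ctr D * e' + e * ctr E + e * e') / (s : ℂ)‖ ≤ (z : ℝ) / (s : ℝ) := by
    rw [norm_div]
    have : ‖(s : ℂ)‖ = (s : ℝ) := by
      rw [Complex.norm_intCast, abs_of_pos hs']
    rw [this]
    exact div_le_div_of_nonneg_right hn1 hs'.le
  linarith

/-- Proof. Induction. Product: `w s = c + e`, `w' s = c' + e'` with the centres `c, c'` and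
`|e| ≤ r`, `|e'| ≤ r'`; so `w w' s = (c c' + c e' + c' e + e e')/s`; the rounding of the two
coordinates of `c c'/s` changes it by at most `2`, and `|c| ≤ n1`; `⌊x/s⌋ + 1 ≥ x/s`. -/
theorem mem_dk {s : ℤ} (hs : 0 < s) (e : Ex) {u v : ℂ} {U V : Dk} (hu : Dk.Mem s u U)
    (hv : Dk.Mem s v V) : Dk.Mem s (e.ev u v) (e.dk s U V) := by
  induction e with
  | y => exact hu
  | z => exact hv
  | num m => exact mem_num m
  | add e e' ih ih' => exact mem_add ih ih'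
  | sub e e' ih ih' => exact mem_sub ih ih'
  | mul e e' ih ih' => exact mem_mul hs ih ih'

theorem le_mag {s : ℤ} (hs : 0 < s) {w : ℂ} {D : Dk} (h : Dk.Mem s w D) :
    ‖w‖ * (s : ℝ) ≤ (D.mag : ℝ) := by
  rw [mem_iff] at h
  have hs' : (0 : ℝ) < (s : ℝ) := by exact_mod_cast hs
  have h1 : ‖w‖ * (s : ℝ) = ‖w * (s : ℂ)‖ := by
    rw [norm_mul, Complex.norm_intCast, abs_of_pos hs']
  have h2 : w * (s : ℂ) = ctr D + (w * (s : ℂ) - ctr D) := by ring
  have h3 := norm_add_le (ctr D) (w * (s : ℂ) - ctr D)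
  rw [← h2] at h3
  have h4 := norm_ctr D
  have h5 : (D.mag : ℝ) = (D.n1 : ℝ) + (D.r : ℝ) := by
    simp only [Dk.mag]
    push_cast
    ring
  rw [h1, h5]
  linarith

private theorem abs_of_norm {a b r : ℤ}
    (h : ‖((a : ℤ) : ℂ) + ((b : ℤ) : ℂ) * Complex.I‖ ≤ (r : ℝ)) : |a| ≤ r ∧ |b| ≤ r := by
  have h1 := abs_re_le (a : ℝ) (b : ℝ)
  have h2 := abs_im_le (a : ℝ) (b : ℝ)
  simp only [Complex.ofReal_intCast] at h1 h2
  constructor
  · exact_mod_cast h1.trans h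
  · exact_mod_cast h2.trans h

theorem ne_of_nz {s : ℤ} {w : ℂ} {D : Dk} (h : Dk.Mem s w D) (hD : D.nz = true) : w ≠ 0 := by
  rintro rfl
  rw [mem_iff, zero_mul, zero_sub, norm_neg] at h
  have h1 := abs_of_norm h
  simp only [Dk.nz, Bool.or_eq_true, decide_eq_true_eq] at hD
  omega

theorem ne_of_far {s : ℤ} {w w' : ℂ} {D E : Dk} (h : Dk.Mem s w D) (h' : Dk.Mem s w' E)
    (hD : D.far E = true) : w ≠ w' := by
  rintro rfl
  have h0 := mem_sub h h'
  rw [mem_iff, sub_self, zero_mul, zero_sub, norm_neg] at h0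
  have h1 := abs_of_norm h0
  simp only [Dk.far, Bool.or_eq_true, decide_eq_true_eq] at hD
  simp only [Dk.sub] at h1
  omega

theorem ev_x1 {R : Type} [CommRing R] (p : Pl ℤ) (y z : R) :
    (Ex.x1 p).ev y z = (p.cst R).E1 y z := by
  simp only [Ex.x1, Ex.tt, Ex.quad, Ex.sq1, Ex.ev, Pl.E1, Pl.cst]
  push_cast
  ring

theorem ev_x1y {R : Type} [CommRing R] (p : Pl ℤ) (y z : R) :
    (Ex.x1y p).ev y z = (p.cst R).E1y y z := by
  simp only [Ex.x1y, Ex.tt, Ex.quad, Ex.sq1, Ex.ev, Pl.E1y, Pl.cst]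
  push_cast
  ring

theorem ev_x1z {R : Type} [CommRing R] (p : Pl ℤ) (y z : R) :
    (Ex.x1z p).ev y z = (p.cst R).E1z y z := by
  simp only [Ex.x1z, Ex.tt, Ex.sq1, Ex.ev, Pl.E1z, Pl.cst]
  push_cast
  ring

theorem swap_cst {R : Type} [CommRing R] (p : Pl ℤ) : (p.cst R).swap = p.swap.cst R := rfl

/-- The system of parameters with integer entries. -/
theorem pl_cast {R : Type} [CommRing R] {n : ℕ} (t : Tp n ℤ) :
    pl (fun i => (t i : R)) = (pl t).cst R := by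
  have hd : ∀ x y : Fin n → ℤ,
      ((dot x y : ℤ) : R) = dot (fun i => (x i : R)) (fun i => (y i : R)) := by
    intro x y
    simp only [dot]
    push_cast
    rfl
  simp only [pl, Pl.cst, ts]
  push_cast [hd]
  rfl

theorem pl_mk1 (a b c d e f g : ℤ) : pl (mk1 a b c d e f g) = pl1 a b c d e f g := by
  simp [pl, mk1, pl1, ts, tv, dot]

theorem pl_mk2 (a a' d d' e e' g g' b c f : ℤ) :
    pl (mk2 a a' d d' e e' g g' b c f) = pl2 a a' d d' e e' g g' b c f := by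
  simp [pl, mk2, pl2, ts, tv, dot]

end Pool.Agent.MPb0eP
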