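import Mathlib
import Pool.Agent.Lib.MP_b0e20b_ag_P.Defs

/-!
# MP_b0e20b_ag, formats (n,1,1): the theorem of Krawczyk for the plane system
-/

set_option autoImplicit false

namespace Pool.Agent.MPb0eP

private theorem ck2_deriv (p : Pl ℂ) {Y Z : ℝ → ℂ} {a b : ℂ} {t : ℝ} (hY : HasDerivAt Y a t)
    (hZ : HasDerivAt Z b t) :
    HasDerivAt (fun t => p.E1 (Y t) (Z t))
      (p.E1y (Y t) (Z t) * a + p.E1z (Y t) (Z t) * b) t := by
  have hsq : ∀ {W : ℝ → ℂ} {c : ℂ}, HasDerivAt W c t →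
      HasDerivAt (fun t => W t ^ 2) (2 * W t * c) t := by
    intro W c hW
    exact (hW.fun_pow 2).congr_deriv (by norm_num)
  have hA : HasDerivAt (fun t => 1 + Y t ^ 2) (2 * Y t * a) t := (hsq hY).const_add 1
  have hB : HasDerivAt (fun t => 1 + Z t ^ 2) (2 * Z t * b) t := (hsq hZ).const_add 1
  have hA2 := hsq hA
  have h1 := ((hA2.const_mul 2).fun_mul hB).fun_mul
    (((hY.fun_mul hB).sub_const p.b).fun_sub (hZ.const_mul p.f))
  have hq1 : HasDerivAt (fun t => p.q10 + p.q11 * Z t + p.q12 * Z t ^ 2)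
      (p.q11 * b + p.q12 * (2 * Z t * b)) t :=
    ((hZ.const_mul p.q11).const_add p.q10).fun_add ((hsq hZ).const_mul p.q12)
  have hq2 : HasDerivAt (fun t => p.q20 + p.q21 * Z t + p.q22 * Z t ^ 2)
      (p.q21 * b + p.q22 * (2 * Z t * b)) t :=
    ((hZ.const_mul p.q21).const_add p.q20).fun_add ((hsq hZ).const_mul p.q22)
  have hq0 : HasDerivAt (fun t => p.q00 + p.q01 * Z t + p.q02 * Z t ^ 2)
      (p.q01 * b + p.q02 * (2 * Z t * b)) t :=
    ((hZ.const_mul p.q01).const_add p.q00).fun_add ((hsq hZ).const_mul p.q02)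
  have h2 := (hq1.fun_mul ((hsq hY).const_sub 1)).fun_add
    (((hq2.fun_sub hq0).const_mul 2).fun_mul hY)
  have h3 := h1.fun_sub h2
  refine HasDerivAt.congr_deriv (h3.congr_of_eventuallyEq ?_) ?_
  · exact Filter.Eventually.of_forall fun t => by simp only [Pl.E1]
  · simp only [Pl.E1y, Pl.E1z]
    ring

private theorem ck2_row (p : Pl ℂ) (y0 z0 : ℂ) (r1 r2 : ℝ) (h1 : 0 < r1) (_h2 : 0 < r2)
    (c1 c2 e1 e2 : ℂ) (r : ℝ)
    (hJ : ∀ y z : ℂ, ‖y - y0‖ ≤ r1 → ‖z - z0‖ ≤ r2 →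
      2 * (‖e1 - (c1 * p.E1y y z + c2 * p.E2y y z)‖ * r1 +
        ‖e2 - (c1 * p.E1z y z + c2 * p.E2z y z)‖ * r2) ≤ r)
    {y z y' z' : ℂ} (hy : ‖y - y0‖ ≤ r1) (hz : ‖z - z0‖ ≤ r2) (hy' : ‖y' - y0‖ ≤ r1)
    (hz' : ‖z' - z0‖ ≤ r2) {q : ℝ} (hq1 : ‖y' - y‖ ≤ q * r1) (hq2 : ‖z' - z‖ ≤ q * r2) :
    ‖(e1 * y' + e2 * z' - (c1 * p.E1 y' z' + c2 * p.E2 y' z')) -
      (e1 * y + e2 * z - (c1 * p.E1 y z + c2 * p.E2 y z))‖ ≤ q * (r / 2) := by
  have hq : 0 ≤ q := by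
    by_contra hcon
    push Not at hcon
    have h3 : q * r1 < 0 := mul_neg_of_neg_of_pos hcon h1
    linarith [norm_nonneg (y' - y)]
  have hseg : ∀ {w w' w0 : ℂ} {ρ : ℝ}, ‖w - w0‖ ≤ ρ → ‖w' - w0‖ ≤ ρ → ∀ t ∈ Set.Icc (0 : ℝ) 1,
      ‖w + (t : ℂ) * (w' - w) - w0‖ ≤ ρ := by
    intro w w' w0 ρ hw hw' t ht
    have h4 : w + (t : ℂ) * (w' - w) - w0 = (1 - (t : ℂ)) * (w - w0) + (t : ℂ) * (w' - w0) := by
      ring
    rw [h4]
    have h5 : ‖(1 - (t : ℂ))‖ = 1 - t := by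
      have : (1 - (t : ℂ)) = ((1 - t : ℝ) : ℂ) := by push_cast; ring
      rw [this, Complex.norm_real, Real.norm_of_nonneg (by linarith [ht.2])]
    have h6 : ‖(t : ℂ)‖ = t := by
      rw [Complex.norm_real, Real.norm_of_nonneg ht.1]
    calc ‖(1 - (t : ℂ)) * (w - w0) + (t : ℂ) * (w' - w0)‖
        ≤ ‖(1 - (t : ℂ)) * (w - w0)‖ + ‖(t : ℂ) * (w' - w0)‖ := norm_add_le _ _
      _ = (1 - t) * ‖w - w0‖ + t * ‖w' - w0‖ := by rw [norm_mul, norm_mul, h5, h6]
      _ ≤ (1 - t) * ρ + t * ρ := add_le_add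
          (mul_le_mul_of_nonneg_left hw (by linarith [ht.2]))
          (mul_le_mul_of_nonneg_left hw' ht.1)
      _ = ρ := by ring
  set Y : ℝ → ℂ := fun t => y + (t : ℂ) * (y' - y) with hYd
  set Z : ℝ → ℂ := fun t => z + (t : ℂ) * (z' - z) with hZd
  have hY : ∀ t : ℝ, HasDerivAt Y (y' - y) t := by
    intro t
    have h : HasDerivAt (fun t : ℝ => y + (t : ℂ) * (y' - y)) (1 * (y' - y)) t :=
      ((Complex.ofRealCLM.hasDerivAt (x := t)).mul_const (y' - y)).const_add y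
    exact h.congr_deriv (one_mul _)
  have hZ : ∀ t : ℝ, HasDerivAt Z (z' - z) t := by
    intro t
    have h : HasDerivAt (fun t : ℝ => z + (t : ℂ) * (z' - z)) (1 * (z' - z)) t :=
      ((Complex.ofRealCLM.hasDerivAt (x := t)).mul_const (z' - z)).const_add z
    exact h.congr_deriv (one_mul _)
  have hd : ∀ t : ℝ, HasDerivAt
      (fun t => e1 * Y t + e2 * Z t - (c1 * p.E1 (Y t) (Z t) + c2 * p.E2 (Y t) (Z t)))
      ((e1 - (c1 * p.E1y (Y t) (Z t) + c2 * p.E2y (Y t) (Z t))) * (y' - y) +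
        (e2 - (c1 * p.E1z (Y t) (Z t) + c2 * p.E2z (Y t) (Z t))) * (z' - z)) t := by
    intro t
    have g1 := ck2_deriv p (hY t) (hZ t)
    have g2 := ck2_deriv p.swap (hZ t) (hY t)
    have g3 := (((hY t).const_mul e1).fun_add ((hZ t).const_mul e2)).fun_sub
      ((g1.const_mul c1).fun_add (g2.const_mul c2))
    refine HasDerivAt.congr_deriv g3 ?_
    simp only [Pl.E2y, Pl.E2z]
    ring
  have key := norm_image_sub_le_of_norm_deriv_le_segment_01' (C := q * (r / 2))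
    (fun t _ => (hd t).hasDerivWithinAt) (fun t ht => by
      have ht' : t ∈ Set.Icc (0 : ℝ) 1 := ⟨ht.1, ht.2.le⟩
      have h7 := hJ (Y t) (Z t) (hseg hy hy' t ht') (hseg hz hz' t ht')
      set A := e1 - (c1 * p.E1y (Y t) (Z t) + c2 * p.E2y (Y t) (Z t))
      set B := e2 - (c1 * p.E1z (Y t) (Z t) + c2 * p.E2z (Y t) (Z t))
      calc ‖A * (y' - y) + B * (z' - z)‖ ≤ ‖A‖ * ‖y' - y‖ + ‖B‖ * ‖z' - z‖ := by
            refine (norm_add_le _ _).trans ?_
            rw [norm_mul, norm_mul]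
        _ ≤ ‖A‖ * (q * r1) + ‖B‖ * (q * r2) := add_le_add
            (mul_le_mul_of_nonneg_left hq1 (norm_nonneg _))
            (mul_le_mul_of_nonneg_left hq2 (norm_nonneg _))
        _ = q * ((‖A‖ * r1 + ‖B‖ * r2)) := by ring
        _ ≤ q * (r / 2) := mul_le_mul_of_nonneg_left (by linarith) hq)
  simpa [hYd, hZd] using key

/-- If the approximate Newton map `g = id - B E` contracts a polydisc, there is exactly one solution
in it, and the Jacobian determinant does not vanish on the polydisc.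

Proof. The map `g u = u - B (E u)` has the derivative `1 - B E'(u)`, so along the segment between two
points `u, u'` of the polydisc (convex) `|g u - g u'|_i ≤ (row sum)`; in the weighted norm
`max (|·|₁/r1, |·|₂/r2)` it is a contraction with the constant `1/2`
(`norm_image_sub_le_of_norm_deriv_le_segment_01'` or `Convex.norm_image_sub_le_of_...`), and it maps
the polydisc to itself because `|g u - u0| ≤ |g u - g u0| + |g u0 - u0| ≤ r/2 + r/2`. Banach's fixed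
point theorem (`ContractingWith.exists_fixedPoint'` after rescaling to the closed unit ball of
`ℂ × ℂ`, or directly with sequences): there is exactly one fixed point `u`, `B (E u) = 0`. `B E'(u)` is
injective: `B E' v = 0` gives `v = (1 - B E') v`, so the weighted norm of `v` is at most half of
itself. Hence `det B * det E' ≠ 0`, and `B (E u) = 0` implies `E u = 0`. (Derivatives of `E1`, `E2` along
a line: they are polynomials, `E1y`, `E1z`, ... are their derivatives.) -/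
theorem kraw (p : Pl ℂ) (y0 z0 : ℂ) (r1 r2 : ℝ) (h1 : 0 < r1) (h2 : 0 < r2)
    (c11 c12 c21 c22 : ℂ)
    (hE1 : 2 * ‖c11 * p.E1 y0 z0 + c12 * p.E2 y0 z0‖ ≤ r1)
    (hE2 : 2 * ‖c21 * p.E1 y0 z0 + c22 * p.E2 y0 z0‖ ≤ r2)
    (hJ1 : ∀ y z : ℂ, ‖y - y0‖ ≤ r1 → ‖z - z0‖ ≤ r2 →
      2 * (‖1 - (c11 * p.E1y y z + c12 * p.E2y y z)‖ * r1 +
        ‖0 - (c11 * p.E1z y z + c12 * p.E2z y z)‖ * r2) ≤ r1)
    (hJ2 : ∀ y z : ℂ, ‖y - y0‖ ≤ r1 → ‖z - z0‖ ≤ r2 →
      2 * (‖0 - (c21 * p.E1y y z + c22 * p.E2y y z)‖ * r1 +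
        ‖1 - (c21 * p.E1z y z + c22 * p.E2z y z)‖ * r2) ≤ r2) :
    (∃! u : ℂ × ℂ, (‖u.1 - y0‖ ≤ r1 ∧ ‖u.2 - z0‖ ≤ r2) ∧ u ∈ p.PSol) ∧
      ∀ y z : ℂ, ‖y - y0‖ ≤ r1 → ‖z - z0‖ ≤ r2 → p.dJ y z ≠ 0 := by
  -- the determinant
  have hdet : ∀ y z : ℂ, ‖y - y0‖ ≤ r1 → ‖z - z0‖ ≤ r2 →
      (c11 * c22 - c12 * c21) * p.dJ y z ≠ 0 := by
    intro y z hy hz h0
    have k1 := hJ1 y z hy hz
    have k2 := hJ2 y z hy hz
    set a := 1 - (c11 * p.E1y y z + c12 * p.E2y y z) with ha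
    set b := 0 - (c11 * p.E1z y z + c12 * p.E2z y z) with hb
    set c := 0 - (c21 * p.E1y y z + c22 * p.E2y y z) with hc
    set d := 1 - (c21 * p.E1z y z + c22 * p.E2z y z) with hd
    have h3 : (1 - a) * (1 - d) = b * c := by
      have : (1 - a) * (1 - d) - b * c = (c11 * c22 - c12 * c21) * p.dJ y z := by
        rw [ha, hb, hc, hd]
        unfold Pl.dJ
        ring
      rw [h0] at this
      exact sub_eq_zero.mp this
    have h4 : ‖1 - a‖ * ‖1 - d‖ = ‖b‖ * ‖c‖ := by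
      rw [← norm_mul, h3, norm_mul]
    have h5 : 1 - ‖a‖ ≤ ‖1 - a‖ := by
      have := norm_sub_norm_le (1 : ℂ) a
      rwa [norm_one] at this
    have h6 : 1 - ‖d‖ ≤ ‖1 - d‖ := by
      have := norm_sub_norm_le (1 : ℂ) d
      rwa [norm_one] at this
    have h7 : ‖b‖ * r2 + r1 / 2 ≤ ‖1 - a‖ * r1 := by nlinarith
    have h8 : ‖c‖ * r1 + r2 / 2 ≤ ‖1 - d‖ * r2 := by nlinarith
    have h9 : (‖b‖ * r2 + r1 / 2) * (‖c‖ * r1 + r2 / 2) ≤ (‖1 - a‖ * r1) * (‖1 - d‖ * r2) :=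
      mul_le_mul h7 h8 (by positivity) (by positivity)
    have h10 : (‖1 - a‖ * r1) * (‖1 - d‖ * r2) = ‖b‖ * ‖c‖ * (r1 * r2) := by
      rw [← h4]; ring
    have h11 : 0 < r1 * r2 := by positivity
    have h12 : 0 ≤ ‖b‖ * r2 * r2 := by positivity
    have h13 : 0 ≤ ‖c‖ * r1 * r1 := by positivity
    nlinarith
  have hB : c11 * c22 - c12 * c21 ≠ 0 := by
    have := hdet y0 z0 (by simpa using h1.le) (by simpa using h2.le)
    exact left_ne_zero_of_mul this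
  -- the Newton map in the coordinates of the unit ball
  set g1 : ℂ → ℂ → ℂ := fun y z => y - (c11 * p.E1 y z + c12 * p.E2 y z) with hg1
  set g2 : ℂ → ℂ → ℂ := fun y z => z - (c21 * p.E1 y z + c22 * p.E2 y z) with hg2
  have L1 : ∀ {y z y' z' : ℂ}, ‖y - y0‖ ≤ r1 → ‖z - z0‖ ≤ r2 → ‖y' - y0‖ ≤ r1 → ‖z' - z0‖ ≤ r2 →
      ∀ {q : ℝ}, ‖y' - y‖ ≤ q * r1 → ‖z' - z‖ ≤ q * r2 → ‖g1 y' z' - g1 y z‖ ≤ q * (r1 / 2) := by
    intro y z y' z' hy hz hy' hz' q hq1 hq2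
    have := ck2_row p y0 z0 r1 r2 h1 h2 c11 c12 1 0 r1 hJ1 hy hz hy' hz' hq1 hq2
    simpa [hg1] using this
  have L2 : ∀ {y z y' z' : ℂ}, ‖y - y0‖ ≤ r1 → ‖z - z0‖ ≤ r2 → ‖y' - y0‖ ≤ r1 → ‖z' - z0‖ ≤ r2 →
      ∀ {q : ℝ}, ‖y' - y‖ ≤ q * r1 → ‖z' - z‖ ≤ q * r2 → ‖g2 y' z' - g2 y z‖ ≤ q * (r2 / 2) := by
    intro y z y' z' hy hz hy' hz' q hq1 hq2
    have := ck2_row p y0 z0 r1 r2 h1 h2 c21 c22 0 1 r2 hJ2 hy hz hy' hz' hq1 hq2
    simpa [hg2] using this
  have hr1 : (r1 : ℂ) ≠ 0 := by exact_mod_cast h1.ne'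
  have hr2 : (r2 : ℂ) ≠ 0 := by exact_mod_cast h2.ne'
  set G : ℂ × ℂ → ℂ × ℂ := fun w =>
    ((g1 (y0 + r1 * w.1) (z0 + r2 * w.2) - y0) / r1,
      (g2 (y0 + r1 * w.1) (z0 + r2 * w.2) - z0) / r2) with hG
  set K : Set (ℂ × ℂ) := Metric.closedBall 0 1 with hK
  have hKm : ∀ w : ℂ × ℂ, w ∈ K ↔ ‖w.1‖ ≤ 1 ∧ ‖w.2‖ ≤ 1 := by
    intro w
    rw [hK, Metric.mem_closedBall, dist_zero_right, Prod.norm_def, max_le_iff]
  have hin : ∀ w ∈ K, ‖(y0 + r1 * w.1) - y0‖ ≤ r1 ∧ ‖(z0 + r2 * w.2) - z0‖ ≤ r2 := by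
    intro w hw
    rw [hKm] at hw
    rw [add_sub_cancel_left, add_sub_cancel_left, norm_mul, norm_mul, Complex.norm_real,
      Complex.norm_real, Real.norm_of_nonneg h1.le, Real.norm_of_nonneg h2.le]
    constructor <;> nlinarith [hw.1, hw.2]
  have hLip : ∀ w ∈ K, ∀ w' ∈ K, ‖G w' - G w‖ ≤ 1 / 2 * ‖w' - w‖ := by
    intro w hw w' hw'
    have i := hin w hw
    have i' := hin w' hw'
    have q1 : ‖(y0 + r1 * w'.1) - (y0 + r1 * w.1)‖ ≤ ‖w' - w‖ * r1 := by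
      have : (y0 + r1 * w'.1) - (y0 + r1 * w.1) = r1 * (w' - w).1 := by
        rw [Prod.fst_sub]; ring
      rw [this, norm_mul, Complex.norm_real, Real.norm_of_nonneg h1.le, mul_comm]
      exact mul_le_mul_of_nonneg_right (norm_fst_le _) h1.le
    have q2 : ‖(z0 + r2 * w'.2) - (z0 + r2 * w.2)‖ ≤ ‖w' - w‖ * r2 := by
      have : (z0 + r2 * w'.2) - (z0 + r2 * w.2) = r2 * (w' - w).2 := by
        rw [Prod.snd_sub]; ring
      rw [this, norm_mul, Complex.norm_real, Real.norm_of_nonneg h2.le, mul_comm]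
      exact mul_le_mul_of_nonneg_right (norm_snd_le _) h2.le
    have e1 := L1 i.1 i.2 i'.1 i'.2 q1 q2
    have e2 := L2 i.1 i.2 i'.1 i'.2 q1 q2
    rw [Prod.norm_def]
    refine max_le ?_ ?_
    · have : (G w' - G w).1 = (g1 (y0 + r1 * w'.1) (z0 + r2 * w'.2) -
          g1 (y0 + r1 * w.1) (z0 + r2 * w.2)) / r1 := by
        rw [Prod.fst_sub]
        simp only [hG]
        ring
      rw [this, norm_div, Complex.norm_real, Real.norm_of_nonneg h1.le, div_le_iff₀ h1]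
      linarith
    · have : (G w' - G w).2 = (g2 (y0 + r1 * w'.1) (z0 + r2 * w'.2) -
          g2 (y0 + r1 * w.1) (z0 + r2 * w.2)) / r2 := by
        rw [Prod.snd_sub]
        simp only [hG]
        ring
      rw [this, norm_div, Complex.norm_real, Real.norm_of_nonneg h2.le, div_le_iff₀ h2]
      linarith
  have hG0 : ‖G 0‖ ≤ 1 / 2 := by
    rw [Prod.norm_def]
    refine max_le ?_ ?_
    · have : (G 0).1 = - (c11 * p.E1 y0 z0 + c12 * p.E2 y0 z0) / r1 := by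
        simp [hG, hg1]
      rw [this, norm_div, norm_neg, Complex.norm_real, Real.norm_of_nonneg h1.le,
        div_le_iff₀ h1]
      linarith
    · have : (G 0).2 = - (c21 * p.E1 y0 z0 + c22 * p.E2 y0 z0) / r2 := by
        simp [hG, hg2]
      rw [this, norm_div, norm_neg, Complex.norm_real, Real.norm_of_nonneg h2.le,
        div_le_iff₀ h2]
      linarith
  have h0K : (0 : ℂ × ℂ) ∈ K := by
    rw [hKm]; simp
  have hmap : Set.MapsTo G K K := by
    intro w hw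
    have e := hLip 0 h0K w hw
    rw [sub_zero] at e
    have hw1 : ‖w‖ ≤ 1 := by
      rwa [hK, Metric.mem_closedBall, dist_zero_right] at hw
    rw [hK, Metric.mem_closedBall, dist_zero_right]
    have := norm_add_le (G w - G 0) (G 0)
    rw [sub_add_cancel] at this
    linarith
  have hcontr : ContractingWith (1 / 2 : NNReal) (hmap.restrict G K K) := by
    refine ⟨by
      rw [← NNReal.coe_lt_coe]
      norm_num, ?_⟩
    refine LipschitzWith.of_dist_le_mul fun w w' => ?_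
    have e := hLip w' w'.2 w w.2
    rw [Subtype.dist_eq, Subtype.dist_eq, dist_eq_norm, dist_eq_norm]
    simpa using e
  obtain ⟨w, hwK, hfix, -, -⟩ := ContractingWith.exists_fixedPoint' (f := G)
    (Metric.isClosed_closedBall.isComplete) hmap hcontr h0K (edist_ne_top _ _)
  -- zeros and fixed points
  have hzero : ∀ y z : ℂ, c11 * p.E1 y z + c12 * p.E2 y z = 0 →
      c21 * p.E1 y z + c22 * p.E2 y z = 0 → p.E1 y z = 0 ∧ p.E2 y z = 0 := by
    intro y z k1 k2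
    constructor
    · have : (c11 * c22 - c12 * c21) * p.E1 y z = 0 := by
        linear_combination c22 * k1 - c12 * k2
      exact (mul_eq_zero.mp this).resolve_left hB
    · have : (c11 * c22 - c12 * c21) * p.E2 y z = 0 := by
        linear_combination c11 * k2 - c21 * k1
      exact (mul_eq_zero.mp this).resolve_left hB
  refine ⟨⟨(y0 + r1 * w.1, z0 + r2 * w.2), ⟨hin w hwK, ?_⟩, ?_⟩, ?_⟩
  · have f1 : (G w).1 = w.1 := by rw [hfix.eq]
    have f2 : (G w).2 = w.2 := by rw [hfix.eq]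
    simp only [hG, hg1, hg2] at f1 f2
    rw [div_eq_iff hr1] at f1
    rw [div_eq_iff hr2] at f2
    exact hzero _ _ (by linear_combination -f1) (by linear_combination -f2)
  · rintro ⟨y, z⟩ ⟨⟨hy, hz⟩, he1, he2⟩
    simp only at hy hz he1 he2
    set w' : ℂ × ℂ := ((y - y0) / r1, (z - z0) / r2) with hw'
    have hy' : y0 + r1 * w'.1 = y := by
      rw [hw']; field_simp; ring
    have hz' : z0 + r2 * w'.2 = z := by
      rw [hw']; field_simp; ring
    have hw'K : w' ∈ K := by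
      rw [hKm, hw']
      simp only [norm_div, Complex.norm_real, Real.norm_of_nonneg h1.le,
        Real.norm_of_nonneg h2.le]
      exact ⟨(div_le_one h1).mpr hy, (div_le_one h2).mpr hz⟩
    have hfix' : G w' = w' := by
      simp only [hG, hy', hz', hg1, hg2]
      rw [he1, he2]
      simp [hw']
    have e := hLip w hwK w' hw'K
    rw [hfix', hfix.eq] at e
    have : ‖w' - w‖ ≤ 0 := by linarith [norm_nonneg (w' - w)]
    have h0 : w' = w := sub_eq_zero.mp (norm_le_zero_iff.mp this)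
    rw [← h0, hy', hz']
  · intro y z hy hz
    exact right_ne_zero_of_mul (hdet y z hy hz)

end Pool.Agent.MPb0eP
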