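import Mathlib
import Pool.Agent.Lib.MP_b0e20b_ag_P.CkD
import Pool.Agent.Lib.MP_b0e20b_ag_P.Ck1
import Pool.Agent.Lib.MP_b0e20b_ag_P.Ck2

/-!
# MP_b0e20b_ag, formats (n,1,1): soundness of the checker
-/

set_option autoImplicit false

namespace Pool.Agent.MPb0eP

/-- Membership in a box. -/
def InBx (s : ℤ) (x : Bx) (u : ℂ × ℂ) : Prop := Dk.Mem s u.1 x.Y ∧ Dk.Mem s u.2 x.Z

private theorem Ck3_mem_iff {s : ℤ} (hs : 0 < s) (w : ℂ) (D : Dk) :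
    Dk.Mem s w D ↔
      ‖w - ((D.a : ℂ) + (D.b : ℂ) * Complex.I) / (s : ℂ)‖ ≤ (D.r : ℝ) / (s : ℝ) := by
  have hsR : (0 : ℝ) < (s : ℝ) := by exact_mod_cast hs
  have hsC : (s : ℂ) ≠ 0 := by exact_mod_cast hs.ne'
  have hn : ‖(s : ℂ)‖ = (s : ℝ) := by
    rw [Complex.norm_intCast, abs_of_pos hsR]
  have e : w * (s : ℂ) - ((D.a : ℂ) + (D.b : ℂ) * Complex.I) =
      (w - ((D.a : ℂ) + (D.b : ℂ) * Complex.I) / (s : ℂ)) * (s : ℂ) := by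
    field_simp
  unfold Dk.Mem
  rw [e, norm_mul, hn, le_div_iff₀ hsR]

private theorem Ck3_mem_self {s : ℤ} (hs : 0 < s) (a b : ℤ) :
    Dk.Mem s (((a : ℂ) + (b : ℂ) * Complex.I) / (s : ℂ)) ⟨a, b, 0⟩ := by
  rw [Ck3_mem_iff hs]
  simp

/-- A box which passes the test contains exactly one solution; it is nondegenerate.

Proof. `kraw` with `y0 = (ya + yb i)/s`, `r1 = yr/s` etc., `c11 = (a11 + b11 i)/s` etc.; the
hypotheses follow from `mem_dk`, `le_mag`, `ev_x1`, `ev_x1y`, `ev_x1z` and the inequalities of `kr`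
(those are multiplied by `s`). -/
theorem kr_sound {s : ℤ} (hs : 0 < s) (p : Pl ℤ) (x : Bx) (h : Bx.kr s p x = true) :
    (∃! u : ℂ × ℂ, InBx s x u ∧ u ∈ (p.cst ℂ).PSol) ∧
      ∀ u : ℂ × ℂ, InBx s x u →
        (p.cst ℂ).dJ u.1 u.2 ≠ 0 ∧ (1 + u.1 ^ 2) * (1 + u.2 ^ 2) ≠ 0 := by
  have hsR : (0 : ℝ) < (s : ℝ) := by exact_mod_cast hs
  simp only [Bx.kr, Bool.and_eq_true, decide_eq_true_eq] at h
  obtain ⟨⟨⟨⟨⟨⟨⟨h1, h2⟩, h3⟩, h4⟩, h5⟩, h6⟩, h7⟩, h8⟩ := h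
  have hyr : (0 : ℝ) < (x.yr : ℝ) := by exact_mod_cast h1
  have hzr : (0 : ℝ) < (x.zr : ℝ) := by exact_mod_cast h2
  set y0 : ℂ := ((x.ya : ℂ) + (x.yb : ℂ) * Complex.I) / (s : ℂ) with hy0
  set z0 : ℂ := ((x.za : ℂ) + (x.zb : ℂ) * Complex.I) / (s : ℂ) with hz0
  have my0 : Dk.Mem s y0 x.y0 := Ck3_mem_self hs _ _
  have mz0 : Dk.Mem s z0 x.z0 := Ck3_mem_self hs _ _
  have m11 := Ck3_mem_self hs x.a11 x.b11
  have m12 := Ck3_mem_self hs x.a12 x.b12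
  have m21 := Ck3_mem_self hs x.a21 x.b21
  have m22 := Ck3_mem_self hs x.a22 x.b22
  set c11 : ℂ := ((x.a11 : ℂ) + (x.b11 : ℂ) * Complex.I) / (s : ℂ) with hc11
  set c12 : ℂ := ((x.a12 : ℂ) + (x.b12 : ℂ) * Complex.I) / (s : ℂ) with hc12
  set c21 : ℂ := ((x.a21 : ℂ) + (x.b21 : ℂ) * Complex.I) / (s : ℂ) with hc21
  set c22 : ℂ := ((x.a22 : ℂ) + (x.b22 : ℂ) * Complex.I) / (s : ℂ) with hc22
  have iY : ∀ y : ℂ, ‖y - y0‖ ≤ (x.yr : ℝ) / (s : ℝ) ↔ Dk.Mem s y x.Y := fun y =>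
    (Ck3_mem_iff hs y x.Y).symm
  have iZ : ∀ z : ℂ, ‖z - z0‖ ≤ (x.zr : ℝ) / (s : ℝ) ↔ Dk.Mem s z x.Z := fun z =>
    (Ck3_mem_iff hs z x.Z).symm
  have e1m : Dk.Mem s ((p.cst ℂ).E1 y0 z0) ((Ex.x1 p).dk s x.y0 x.z0) := by
    have := mem_dk hs (Ex.x1 p) my0 mz0
    rwa [ev_x1] at this
  have e2m : Dk.Mem s ((p.cst ℂ).E2 y0 z0) ((Ex.x1 p.swap).dk s x.z0 x.y0) := by
    have := mem_dk hs (Ex.x1 p.swap) mz0 my0
    rw [ev_x1] at this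
    unfold Pl.E2
    rwa [swap_cst]
  have hE : ∀ (c d : ℂ) (C D : Dk) (r : ℤ), Dk.Mem s c C → Dk.Mem s d D →
      2 * Bx.rowE s C D ((Ex.x1 p).dk s x.y0 x.z0) ((Ex.x1 p.swap).dk s x.z0 x.y0) ≤ r →
      2 * ‖c * (p.cst ℂ).E1 y0 z0 + d * (p.cst ℂ).E2 y0 z0‖ ≤ (r : ℝ) / (s : ℝ) := by
    intro c d C D r hc hd hr
    have hm := le_mag hs (mem_add (mem_mul hs hc e1m) (mem_mul hs hd e2m))
    rw [le_div_iff₀ hsR]
    have hr' : (2 : ℝ) * ((Bx.rowE s C D ((Ex.x1 p).dk s x.y0 x.z0)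
      ((Ex.x1 p.swap).dk s x.z0 x.y0) : ℤ) : ℝ) ≤ (r : ℝ) := by exact_mod_cast hr
    have hm' : ‖c * (p.cst ℂ).E1 y0 z0 + d * (p.cst ℂ).E2 y0 z0‖ * (s : ℝ) ≤
      ((Bx.rowE s C D ((Ex.x1 p).dk s x.y0 x.z0)
        ((Ex.x1 p.swap).dk s x.z0 x.y0) : ℤ) : ℝ) := hm
    linarith
  have hJ : ∀ (y z : ℂ), Dk.Mem s y x.Y → Dk.Mem s z x.Z →
      ∀ (c d : ℂ) (C D : Dk) (dl dl' : ℤ) (r : ℤ), Dk.Mem s c C → Dk.Mem s d D →
      2 * (Bx.rowJ s dl C D ((Ex.x1y p).dk s x.Y x.Z) ((Ex.x1z p.swap).dk s x.Z x.Y) * x.yr +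
        Bx.rowJ s dl' C D ((Ex.x1z p).dk s x.Y x.Z) ((Ex.x1y p.swap).dk s x.Z x.Y) * x.zr) ≤
        s * r →
      2 * (‖(dl : ℂ) - (c * (p.cst ℂ).E1y y z + d * (p.cst ℂ).E2y y z)‖ *
          ((x.yr : ℝ) / (s : ℝ)) +
        ‖(dl' : ℂ) - (c * (p.cst ℂ).E1z y z + d * (p.cst ℂ).E2z y z)‖ *
          ((x.zr : ℝ) / (s : ℝ))) ≤ (r : ℝ) / (s : ℝ) := by
    intro y z hy hz c d C D dl dl' r hc hd hr
    have a1 : Dk.Mem s ((p.cst ℂ).E1y y z) ((Ex.x1y p).dk s x.Y x.Z) := by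
      have := mem_dk hs (Ex.x1y p) hy hz
      rwa [ev_x1y] at this
    have a2 : Dk.Mem s ((p.cst ℂ).E1z y z) ((Ex.x1z p).dk s x.Y x.Z) := by
      have := mem_dk hs (Ex.x1z p) hy hz
      rwa [ev_x1z] at this
    have a3 : Dk.Mem s ((p.cst ℂ).E2y y z) ((Ex.x1z p.swap).dk s x.Z x.Y) := by
      have := mem_dk hs (Ex.x1z p.swap) hz hy
      rw [ev_x1z] at this
      unfold Pl.E2y
      rwa [swap_cst]
    have a4 : Dk.Mem s ((p.cst ℂ).E2z y z) ((Ex.x1y p.swap).dk s x.Z x.Y) := by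
      have := mem_dk hs (Ex.x1y p.swap) hz hy
      rw [ev_x1y] at this
      unfold Pl.E2z
      rwa [swap_cst]
    have b1 := le_mag hs (mem_sub (mem_num (s := s) dl)
      (mem_add (mem_mul hs hc a1) (mem_mul hs hd a3)))
    have b2 := le_mag hs (mem_sub (mem_num (s := s) dl')
      (mem_add (mem_mul hs hc a2) (mem_mul hs hd a4)))
    have b1' : ‖(dl : ℂ) - (c * (p.cst ℂ).E1y y z + d * (p.cst ℂ).E2y y z)‖ * (s : ℝ) ≤
      ((Bx.rowJ s dl C D ((Ex.x1y p).dk s x.Y x.Z)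
        ((Ex.x1z p.swap).dk s x.Z x.Y) : ℤ) : ℝ) := b1
    have b2' : ‖(dl' : ℂ) - (c * (p.cst ℂ).E1z y z + d * (p.cst ℂ).E2z y z)‖ * (s : ℝ) ≤
      ((Bx.rowJ s dl' C D ((Ex.x1z p).dk s x.Y x.Z)
        ((Ex.x1y p.swap).dk s x.Z x.Y) : ℤ) : ℝ) := b2
    have hr' : (2 : ℝ) * (((Bx.rowJ s dl C D ((Ex.x1y p).dk s x.Y x.Z)
        ((Ex.x1z p.swap).dk s x.Z x.Y) : ℤ) : ℝ) * (x.yr : ℝ) +
        ((Bx.rowJ s dl' C D ((Ex.x1z p).dk s x.Y x.Z)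
        ((Ex.x1y p.swap).dk s x.Z x.Y) : ℤ) : ℝ) * (x.zr : ℝ)) ≤ (s : ℝ) * (r : ℝ) := by
      exact_mod_cast hr
    rw [le_div_iff₀ hsR]
    have c1 := mul_le_mul_of_nonneg_right b1' hyr.le
    have c2 := mul_le_mul_of_nonneg_right b2' hzr.le
    have key : (2 * (‖(dl : ℂ) - (c * (p.cst ℂ).E1y y z + d * (p.cst ℂ).E2y y z)‖ *
          ((x.yr : ℝ) / (s : ℝ)) +
        ‖(dl' : ℂ) - (c * (p.cst ℂ).E1z y z + d * (p.cst ℂ).E2z y z)‖ *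
          ((x.zr : ℝ) / (s : ℝ))) * (s : ℝ)) * (s : ℝ) =
        2 * (‖(dl : ℂ) - (c * (p.cst ℂ).E1y y z + d * (p.cst ℂ).E2y y z)‖ * (s : ℝ) *
          (x.yr : ℝ) +
        ‖(dl' : ℂ) - (c * (p.cst ℂ).E1z y z + d * (p.cst ℂ).E2z y z)‖ * (s : ℝ) *
          (x.zr : ℝ)) := by
      field_simp
    nlinarith
  have K := kraw (p.cst ℂ) y0 z0 ((x.yr : ℝ) / (s : ℝ)) ((x.zr : ℝ) / (s : ℝ))
    (div_pos hyr hsR) (div_pos hzr hsR) c11 c12 c21 c22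
    (hE _ _ _ _ _ m11 m12 h3) (hE _ _ _ _ _ m21 m22 h4)
    (fun y z hy hz => by
      have := hJ y z ((iY y).1 hy) ((iZ z).1 hz) c11 c12 _ _ 1 0 x.yr m11 m12 h5
      simpa using this)
    (fun y z hy hz => by
      have := hJ y z ((iY y).1 hy) ((iZ z).1 hz) c21 c22 _ _ 0 1 x.zr m21 m22 h6
      simpa using this)
  obtain ⟨⟨u, ⟨⟨hu1, hu2⟩, hu3⟩, huu⟩, hJJ⟩ := K
  refine ⟨⟨u, ⟨⟨(iY _).1 hu1, (iZ _).1 hu2⟩, hu3⟩, ?_⟩, ?_⟩
  · rintro v ⟨⟨hv1, hv2⟩, hv3⟩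
    exact huu v ⟨⟨(iY _).2 hv1, (iZ _).2 hv2⟩, hv3⟩
  · rintro v ⟨hv1, hv2⟩
    refine ⟨hJJ _ _ ((iY _).2 hv1) ((iZ _).2 hv2), ?_⟩
    have n1 := ne_of_nz (mem_dk hs (Ex.sq1 Ex.y) hv1 hv2) h7
    have n2 := ne_of_nz (mem_dk hs (Ex.sq1 Ex.z) hv1 hv2) h8
    have q1 : (Ex.sq1 Ex.y).ev v.1 v.2 = 1 + v.1 ^ 2 := by
      simp [Ex.sq1, Ex.ev]; ring
    have q2 : (Ex.sq1 Ex.z).ev v.1 v.2 = 1 + v.2 ^ 2 := by
      simp [Ex.sq1, Ex.ev]; ring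
    rw [q1] at n1
    rw [q2] at n2
    exact mul_ne_zero n1 n2

private theorem Ck3_conj_mem {s : ℤ} {w : ℂ} {D : Dk} (hb : D.b = 0) (h : Dk.Mem s w D) :
    Dk.Mem s ((starRingEnd ℂ) w) D := by
  unfold Dk.Mem at h ⊢
  have e : (starRingEnd ℂ) w * (s : ℂ) - ((D.a : ℂ) + (D.b : ℂ) * Complex.I) =
      (starRingEnd ℂ) (w * (s : ℂ) - ((D.a : ℂ) + (D.b : ℂ) * Complex.I)) := by
    rw [hb]
    simp
  rw [e, Complex.norm_conj]
  exact h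

private theorem Ck3_conj_E1 (p : Pl ℤ) (y z : ℂ) :
    (p.cst ℂ).E1 ((starRingEnd ℂ) y) ((starRingEnd ℂ) z) =
      (starRingEnd ℂ) ((p.cst ℂ).E1 y z) := by
  simp [Pl.E1, Pl.cst, map_ofNat]

/-- Proof. The conjugate of the solution is a solution in the same box. -/
theorem re_sound {s : ℤ} (p : Pl ℤ) (x : Bx)
    (h : ∃! u : ℂ × ℂ, InBx s x u ∧ u ∈ (p.cst ℂ).PSol) (hr : x.re = true) (u : ℂ × ℂ)
    (hu : InBx s x u) (hu' : u ∈ (p.cst ℂ).PSol) : u.1.im = 0 ∧ u.2.im = 0 := by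
  simp only [Bx.re, Bool.and_eq_true, decide_eq_true_eq] at hr
  obtain ⟨hr1, hr2⟩ := hr
  set v : ℂ × ℂ := ((starRingEnd ℂ) u.1, (starRingEnd ℂ) u.2) with hv
  have hvB : InBx s x v := ⟨Ck3_conj_mem hr1 hu.1, Ck3_conj_mem hr2 hu.2⟩
  have hvS : v ∈ (p.cst ℂ).PSol := by
    obtain ⟨e1, e2⟩ := hu'
    refine ⟨?_, ?_⟩
    · change (p.cst ℂ).E1 ((starRingEnd ℂ) u.1) ((starRingEnd ℂ) u.2) = 0
      rw [Ck3_conj_E1, e1, map_zero]
    · change (p.cst ℂ).E2 ((starRingEnd ℂ) u.1) ((starRingEnd ℂ) u.2) = 0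
      unfold Pl.E2 at e2 ⊢
      rw [swap_cst] at e2 ⊢
      rw [Ck3_conj_E1, e2, map_zero]
  have e : v = u := h.unique ⟨hvB, hvS⟩ ⟨hu, hu'⟩
  have e1 : (starRingEnd ℂ) u.1 = u.1 := congrArg Prod.fst e
  have e2 : (starRingEnd ℂ) u.2 = u.2 := congrArg Prod.snd e
  exact ⟨Complex.conj_eq_iff_im.1 e1, Complex.conj_eq_iff_im.1 e2⟩

private theorem Ck3_im {s : ℤ} {w : ℂ} {D : Dk} (h : Dk.Mem s w D) (hw : w.im = 0) :
    |D.b| ≤ D.r := by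
  unfold Dk.Mem at h
  have h1 := Complex.abs_im_le_norm (w * (s : ℂ) - ((D.a : ℂ) + (D.b : ℂ) * Complex.I))
  have e : (w * (s : ℂ) - ((D.a : ℂ) + (D.b : ℂ) * Complex.I)).im = -(D.b : ℝ) := by
    simp [hw]
  rw [e, abs_neg] at h1
  have h2 := h1.trans h
  exact_mod_cast h2

theorem nre_sound {s : ℤ} (x : Bx) (hr : x.nre = true) (u : ℂ × ℂ) (hu : InBx s x u) :
    ¬ (u.1.im = 0 ∧ u.2.im = 0) := by
  rintro ⟨i1, i2⟩
  simp only [Bx.nre, Bool.or_eq_true, decide_eq_true_eq] at hr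
  have j1 : |x.yb| ≤ x.yr := Ck3_im hu.1 i1
  have j2 : |x.zb| ≤ x.zr := Ck3_im hu.2 i2
  rcases hr with hr | hr
  · exact absurd j1 (not_le.2 hr)
  · exact absurd j2 (not_le.2 hr)

theorem sep_sound {s : ℤ} (x x' : Bx) (h : x.sep x' = true) (u u' : ℂ × ℂ) (hu : InBx s x u)
    (hu' : InBx s x' u') : u ≠ u' := by
  simp only [Bx.sep, Bool.or_eq_true] at h
  rcases h with h | h
  · exact fun e => ne_of_far hu.1 hu'.1 h (congrArg Prod.fst e)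
  · exact fun e => ne_of_far hu.2 hu'.2 h (congrArg Prod.snd e)

private theorem Ck3_pw : ∀ L : List Bx, Bx.sepL L = true →
    L.Pairwise (fun x x' => x.sep x' = true)
  | [], _ => List.Pairwise.nil
  | x :: l, h => by
    simp only [Bx.sepL, Bool.and_eq_true, List.all_eq_true] at h
    exact List.Pairwise.cons h.1 (Ck3_pw l h.2)

/-- Soundness of the checker.

Proof. Choose the solutions of the boxes of `L ++ L'`; they are pairwise different (`sep_sound`), so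
they form a set `S` of `N` elements, those of `L` are real and those of `L'` are not. -/
theorem rc_of_ck {n : ℕ} (t : Tp n ℤ) (p : Pl ℤ) (hp : pl t = p) (s : ℤ) (L L' : List Bx)
    (k N : ℕ) (h : ck s p L L' k N = true) : RC n k N := by
  classical
  simp only [ck, Bool.and_eq_true, decide_eq_true_eq, List.all_eq_true] at h
  obtain ⟨⟨⟨⟨⟨hs, hk⟩, hN⟩, hL⟩, hL'⟩, hsep⟩ := h
  let P : Bx → ℂ × ℂ → Prop := fun x u => InBx s x u ∧ u ∈ (p.cst ℂ).PSol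
  let f : Bx → ℂ × ℂ := fun x => if hx : ∃ u, P x u then hx.choose else (0, 0)
  have hkr : ∀ x ∈ L ++ L', Bx.kr s p x = true := by
    intro x hx
    rcases List.mem_append.1 hx with hx | hx
    · exact (hL x hx).2
    · exact (hL' x hx).2
  have hf : ∀ x ∈ L ++ L', P x (f x) := by
    intro x hx
    have hx' : ∃ u, P x u := (kr_sound hs p x (hkr x hx)).1.exists
    simp only [f, dif_pos hx']
    exact hx'.choose_spec
  have hpw := Ck3_pw (L ++ L') hsep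
  have hnd : ((L ++ L').map f).Nodup := by
    rw [List.Nodup, List.pairwise_map]
    refine List.Pairwise.imp_of_mem ?_ hpw
    intro x x' hx hx' hxx
    exact sep_sound x x' hxx _ _ (hf x hx).1 (hf x' hx').1
  have hpt : pl (toC (fun i => ((t i : ℤ) : ℝ))) = p.cst ℂ := by
    have e : toC (fun i => ((t i : ℤ) : ℝ)) = fun i => ((t i : ℤ) : ℂ) := by
      funext i
      simp [toC]
    rw [e, pl_cast, hp]
  have hLn : (L.map f).Nodup := by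
    rw [List.map_append] at hnd
    exact hnd.of_append_left
  refine ⟨fun i => ((t i : ℤ) : ℝ), ((L ++ L').map f).toFinset, ?_, ?_, ?_⟩
  · intro u hu
    rw [List.mem_toFinset, List.mem_map] at hu
    obtain ⟨x, hx, rfl⟩ := hu
    rw [hpt]
    have h1 := hf x hx
    exact ⟨h1.2, (kr_sound hs p x (hkr x hx)).2 _ h1.1⟩
  · rw [List.toFinset_card_of_nodup hnd, List.length_map, List.length_append, hN]
  · have e : {u : ℂ × ℂ | u ∈ ((L ++ L').map f).toFinset ∧ u.1.im = 0 ∧ u.2.im = 0} =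
        ((L.map f).toFinset : Set (ℂ × ℂ)) := by
      ext u
      simp only [Set.mem_ofPred_eq, Finset.mem_coe, List.mem_toFinset, List.mem_map]
      constructor
      · rintro ⟨⟨x, hx, rfl⟩, him⟩
        rcases List.mem_append.1 hx with hx' | hx'
        · exact ⟨x, hx', rfl⟩
        · exact absurd him (nre_sound x (hL' x hx').1 _ (hf x hx).1)
      · rintro ⟨x, hx, rfl⟩
        have hxm : x ∈ L ++ L' := List.mem_append_left _ hx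
        exact ⟨⟨x, hxm, rfl⟩, re_sound p x (kr_sound hs p x (hkr x hxm)).1 (hL x hx).1 _
          (hf x hxm).1 (hf x hxm).2⟩
    rw [e, Set.encard_coe_eq_coe_finsetCard, List.toFinset_card_of_nodup hLn,
      List.length_map, hk]

end Pool.Agent.MPb0eP
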