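import Mathlib
import Pool.Agent.Lib.MP_b0e20b_ag_P.Defs
import Pool.Agent.Lib.MP_b0e20b_ag_P.El
import Pool.Agent.Lib.MP_b0e20b_ag_P.Cn

/-!
# MP_b0e20b_ag, formats (n,1,1): the parametrisation of all solutions
-/

set_option autoImplicit false

open scoped Topology
open MvPolynomial

namespace Pool.Agent.MPb0eP

/-- A solution of the system for `psi w`. -/
theorem sys_psi {n : ℕ} {R : Type} [CommRing R] (w : Kap n → R) :
    Sys (psi w) (fun i => w (Sum.inl i)) (w (Sum.inr (Sum.inl 0))) (w (Sum.inr (Sum.inl 1))) := by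
  refine ⟨fun i => ?_, ?_, ?_⟩
  · change w (Sum.inl i) * ((1 + w (Sum.inr (Sum.inl 0)) ^ 2) * (1 + w (Sum.inr (Sum.inl 1)) ^ 2)) =
      (w (Sum.inl i) * ((1 + w (Sum.inr (Sum.inl 0)) ^ 2) * (1 + w (Sum.inr (Sum.inl 1)) ^ 2)) -
        w (Sum.inr (Sum.inr (Sum.inl (0, i)))) * w (Sum.inr (Sum.inl 0)) -
        w (Sum.inr (Sum.inr (Sum.inl (1, i)))) * w (Sum.inr (Sum.inl 1)) -
        w (Sum.inr (Sum.inr (Sum.inl (2, i)))) *
          (w (Sum.inr (Sum.inl 0)) * w (Sum.inr (Sum.inl 1)))) +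
      w (Sum.inr (Sum.inr (Sum.inl (0, i)))) * w (Sum.inr (Sum.inl 0)) +
      w (Sum.inr (Sum.inr (Sum.inl (1, i)))) * w (Sum.inr (Sum.inl 1)) +
      w (Sum.inr (Sum.inr (Sum.inl (2, i)))) *
        (w (Sum.inr (Sum.inl 0)) * w (Sum.inr (Sum.inl 1)))
    ring
  · change w (Sum.inr (Sum.inl 0)) * ((1 + dot (fun i => w (Sum.inl i)) (fun i => w (Sum.inl i))) *
        (1 + w (Sum.inr (Sum.inl 1)) ^ 2)) =
      (w (Sum.inr (Sum.inl 0)) * ((1 + dot (fun i => w (Sum.inl i)) (fun i => w (Sum.inl i))) *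
        (1 + w (Sum.inr (Sum.inl 1)) ^ 2)) -
        dot (fun i => w (Sum.inr (Sum.inr (Sum.inl (0, i))))) (fun i => w (Sum.inl i)) -
        w (Sum.inr (Sum.inr (Sum.inr ()))) * w (Sum.inr (Sum.inl 1)) -
        dot (fun i => w (Sum.inr (Sum.inr (Sum.inl (2, i))))) (fun i => w (Sum.inl i)) *
          w (Sum.inr (Sum.inl 1))) +
      dot (fun i => w (Sum.inr (Sum.inr (Sum.inl (0, i))))) (fun i => w (Sum.inl i)) +
      w (Sum.inr (Sum.inr (Sum.inr ()))) * w (Sum.inr (Sum.inl 1)) +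
      dot (fun i => w (Sum.inr (Sum.inr (Sum.inl (2, i))))) (fun i => w (Sum.inl i)) *
        w (Sum.inr (Sum.inl 1))
    ring
  · change w (Sum.inr (Sum.inl 1)) * ((1 + dot (fun i => w (Sum.inl i)) (fun i => w (Sum.inl i))) *
        (1 + w (Sum.inr (Sum.inl 0)) ^ 2)) =
      (w (Sum.inr (Sum.inl 1)) * ((1 + dot (fun i => w (Sum.inl i)) (fun i => w (Sum.inl i))) *
        (1 + w (Sum.inr (Sum.inl 0)) ^ 2)) -
        dot (fun i => w (Sum.inr (Sum.inr (Sum.inl (1, i))))) (fun i => w (Sum.inl i)) -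
        w (Sum.inr (Sum.inr (Sum.inr ()))) * w (Sum.inr (Sum.inl 0)) -
        dot (fun i => w (Sum.inr (Sum.inr (Sum.inl (2, i))))) (fun i => w (Sum.inl i)) *
          w (Sum.inr (Sum.inl 0))) +
      dot (fun i => w (Sum.inr (Sum.inr (Sum.inl (1, i))))) (fun i => w (Sum.inl i)) +
      w (Sum.inr (Sum.inr (Sum.inr ()))) * w (Sum.inr (Sum.inl 0)) +
      dot (fun i => w (Sum.inr (Sum.inr (Sum.inl (2, i))))) (fun i => w (Sum.inl i)) *
        w (Sum.inr (Sum.inl 0))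
    ring

/-- Every solution is obtained in this way. -/
theorem psi_kpt {n : ℕ} {R : Type} [CommRing R] {t : Tp n R} {x : Fin n → R} {y z : R}
    (h : Sys t x y z) : psi (kpt t x y z) = t := by
  funext k
  rcases k with ⟨s, i⟩ | s
  · refine Fin.cases ?_ (fun s => ?_) s
    · change x i * ((1 + y ^ 2) * (1 + z ^ 2)) - tv t 1 i * y - tv t 2 i * z -
        tv t 3 i * (y * z) = tv t 0 i
      rw [h.hx i]
      ring
    · rfl
  · fin_cases s
    · change y * ((1 + dot x x) * (1 + z ^ 2)) - dot (tv t 1) x - ts t 2 * z -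
        dot (tv t 3) x * z = ts t 0
      rw [h.hy]
      ring
    · change z * ((1 + dot x x) * (1 + y ^ 2)) - dot (tv t 2) x - ts t 2 * y -
        dot (tv t 3) x * y = ts t 1
      rw [h.hz]
      ring
    · rfl

/-- `psi` commutes with ring homomorphisms; in particular with evaluations of polynomials (apply it
with `w = MvPolynomial.X` and `g = eval v`). -/
theorem psi_map {n : ℕ} {R S : Type} [CommRing R] [CommRing S] (g : R →+* S) (w : Kap n → R) :
    psi (fun k => g (w k)) = fun i => g (psi w i) := by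
  funext k
  rcases k with ⟨s, i⟩ | s
  · refine Fin.cases ?_ (fun s => ?_) s
    · simp [psi]
    · simp [psi]
  · fin_cases s
    · simp [psi, dot, map_sum]
    · simp [psi, dot, map_sum]
    · simp [psi]

/-- Proof. `elim` with `κ = Kap n` (`4 n + 3` elements, as `Idx n`), `T = psi X`; `psi_map`,
`psi_kpt`. -/
theorem elimT {n : ℕ} (J : MvPolynomial (Kap n) ℂ) (hJ : J ≠ 0) :
    ∃ P : MvPolynomial (Idx n) ℂ, P ≠ 0 ∧ ∀ (t : Tp n ℂ) (x : Fin n → ℂ) (y z : ℂ),
      Sys t x y z → eval (kpt t x y z) J = 0 → eval t P = 0 := by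
  obtain ⟨P, hP, h⟩ := elim (ι := Idx n) (κ := Kap n) (by
    simp only [Fintype.card_sum, Fintype.card_prod, Fintype.card_fin, Fintype.card_unit]
    omega) (psi (X : Kap n → MvPolynomial (Kap n) ℂ)) J hJ
  refine ⟨P, hP, fun t x y z hs hw => ?_⟩
  have h1 := h (kpt t x y z) hw
  rw [← psi_map (eval (kpt t x y z)) X] at h1
  simp only [eval_X] at h1
  rwa [show (fun k => kpt t x y z k) = kpt t x y z from rfl, psi_kpt hs] at h1

/-- `psi` is continuous. -/
theorem psi_cont (n : ℕ) : Continuous (psi : (Kap n → ℂ) → Tp n ℂ) := by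
  refine continuous_pi fun k => ?_
  rcases k with ⟨s, i⟩ | s
  · refine Fin.cases ?_ (fun s => ?_) s
    · change Continuous fun w : Kap n → ℂ =>
        w (Sum.inl i) * ((1 + w (Sum.inr (Sum.inl 0)) ^ 2) * (1 + w (Sum.inr (Sum.inl 1)) ^ 2)) -
        w (Sum.inr (Sum.inr (Sum.inl (0, i)))) * w (Sum.inr (Sum.inl 0)) -
        w (Sum.inr (Sum.inr (Sum.inl (1, i)))) * w (Sum.inr (Sum.inl 1)) -
        w (Sum.inr (Sum.inr (Sum.inl (2, i)))) *
          (w (Sum.inr (Sum.inl 0)) * w (Sum.inr (Sum.inl 1)))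
      fun_prop
    · exact continuous_apply (Sum.inr (Sum.inr (Sum.inl (s, i))) : Kap n)
  · fin_cases s
    · change Continuous fun w : Kap n → ℂ =>
        (w (Sum.inr (Sum.inl 0)) * ((1 + dot (fun i => w (Sum.inl i)) (fun i => w (Sum.inl i))) *
        (1 + w (Sum.inr (Sum.inl 1)) ^ 2)) -
        dot (fun i => w (Sum.inr (Sum.inr (Sum.inl (0, i))))) (fun i => w (Sum.inl i)) -
        w (Sum.inr (Sum.inr (Sum.inr ()))) * w (Sum.inr (Sum.inl 1)) -
        dot (fun i => w (Sum.inr (Sum.inr (Sum.inl (2, i))))) (fun i => w (Sum.inl i)) *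
          w (Sum.inr (Sum.inl 1)))
      unfold dot
      fun_prop
    · change Continuous fun w : Kap n → ℂ =>
        (w (Sum.inr (Sum.inl 1)) * ((1 + dot (fun i => w (Sum.inl i)) (fun i => w (Sum.inl i))) *
        (1 + w (Sum.inr (Sum.inl 0)) ^ 2)) -
        dot (fun i => w (Sum.inr (Sum.inr (Sum.inl (1, i))))) (fun i => w (Sum.inl i)) -
        w (Sum.inr (Sum.inr (Sum.inr ()))) * w (Sum.inr (Sum.inl 0)) -
        dot (fun i => w (Sum.inr (Sum.inr (Sum.inl (2, i))))) (fun i => w (Sum.inl i)) *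
          w (Sum.inr (Sum.inl 0)))
      unfold dot
      fun_prop
    · exact continuous_apply (Sum.inr (Sum.inr (Sum.inr ())) : Kap n)

/-- Near every solution there are solutions for parameters outside a given hypersurface.

Proof. The polynomial `P' = bind₁ (psi X) P` (so `eval w P' = eval (psi w) P`) is not zero, since by
`hs` some `psi w` is outside the hypersurface. Apply `dense_ne` to it at `kpt t x y z` and the
preimage of the neighbourhood under the continuous map `w ↦ (psi w, x-part, y, z)`. -/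
theorem near_generic {n : ℕ} (P : MvPolynomial (Idx n) ℂ)
    (hs : ∃ t : Tp n ℂ, eval t P ≠ 0 ∧ (Sol t).Nonempty) (t : Tp n ℂ) (x : Fin n → ℂ) (y z : ℂ)
    (h : Sys t x y z) (W : Set (Tp n ℂ)) (hW : W ∈ 𝓝 t) (V : Set ((Fin n → ℂ) × ℂ × ℂ))
    (hV : V ∈ 𝓝 (x, y, z)) :
    ∃ t' ∈ W, eval t' P ≠ 0 ∧ ∃ u ∈ V, u ∈ Sol t' := by
  have hev : ∀ w : Kap n → ℂ,
      eval w (bind₁ (psi (X : Kap n → MvPolynomial (Kap n) ℂ)) P) = eval (psi w) P := by
    intro w
    have h1 := psi_map (eval w) (X : Kap n → MvPolynomial (Kap n) ℂ)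
    simp only [eval_X] at h1
    have h2 : (fun i => eval w (psi (X : Kap n → MvPolynomial (Kap n) ℂ) i)) = psi w := h1.symm
    rw [← h2]
    simp only [← MvPolynomial.coe_aeval_eq_eval, RingHom.coe_coe]
    exact aeval_bind₁ _ _ _
  obtain ⟨t0, ht0, ⟨⟨x0, y0, z0⟩, h0⟩⟩ := hs
  have hP' : bind₁ (psi (X : Kap n → MvPolynomial (Kap n) ℂ)) P ≠ 0 := by
    intro h1
    have h2 := hev (kpt t0 x0 y0 z0)
    rw [h1, map_zero, psi_kpt h0] at h2
    exact ht0 h2.symm
  have hc : Continuous fun w : Kap n → ℂ => (psi w,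
      ((fun i => w (Sum.inl i) : Fin n → ℂ), w (Sum.inr (Sum.inl 0)), w (Sum.inr (Sum.inl 1)))) :=
    (psi_cont n).prodMk ((continuous_pi fun i => continuous_apply _).prodMk
      ((continuous_apply _).prodMk (continuous_apply _)))
  have hn : W ×ˢ V ∈ 𝓝 ((fun w : Kap n → ℂ => (psi w,
      ((fun i => w (Sum.inl i) : Fin n → ℂ), w (Sum.inr (Sum.inl 0)),
        w (Sum.inr (Sum.inl 1))))) (kpt t x y z)) := by
    change W ×ˢ V ∈ 𝓝 (psi (kpt t x y z), (x, y, z))
    rw [psi_kpt h]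
    exact prod_mem_nhds hW hV
  obtain ⟨w, hw, hwP⟩ := dense_ne _ hP' (kpt t x y z) _ (hc.continuousAt.preimage_mem_nhds hn)
  rw [hev] at hwP
  exact ⟨psi w, hw.1, hwP, _, hw.2, sys_psi w⟩

end Pool.Agent.MPb0eP
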