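import Mathlib
import Pool.Agent.Lib.MP_b0e20b_ag_P.Defs
import Pool.Agent.Lib.MP_b0e20b_ag_P.TD

/-!
# MP_b0e20b_ag, format (1,1,1): the base point `M = x y z`
-/

set_option autoImplicit false

namespace Pool.Agent.MPb0eP

/-- The base point: the coefficient of `x y z` is `1`, all others are `0`. -/
noncomputable def base1 : Tp 1 ℂ := fun i => if i = Sum.inl (3, 0) then 1 else 0

open Polynomial in
/-- Four distinct roots. -/
theorem quart1 : ∃ r : Finset ℂ, r.card = 4 ∧ ∀ t : ℂ, t ∈ r ↔ t ^ 4 + 2 * t ^ 2 - t + 1 = 0 := by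
  obtain ⟨p, hp⟩ : ∃ p : ℂ[X], p = X ^ 4 + C 2 * X ^ 2 - X + 1 := ⟨_, rfl⟩
  have hdeg : p.natDegree = 4 := by
    rw [hp]
    compute_degree!
  have hne : p ≠ 0 := by
    intro h
    rw [h] at hdeg
    simp at hdeg
  have hd : derivative p = C 4 * X ^ 3 + C 4 * X - 1 := by
    rw [hp]
    simp only [derivative_add, derivative_sub, derivative_X_pow, derivative_C_mul, derivative_X,
      derivative_one]
    have h4 : (C 4 : ℂ[X]) = 4 := rfl
    have h2 : (C 2 : ℂ[X]) = 2 := rfl
    simp only [h4, h2, Nat.cast_ofNat]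
    ring
  have hsep : p.Separable := by
    refine ⟨C (1 / 229) * (C 192 + C 256 * X + C 144 * X ^ 2),
      C (1 / 229) * (- C 37 - C 84 * X - C 64 * X ^ 2 - C 36 * X ^ 3), ?_⟩
    rw [hd, hp]
    have e : (C (1 / 229) : ℂ[X]) * C 229 = 1 := by
      rw [← C_mul]
      norm_num
    have h229 : (C 229 : ℂ[X]) = 229 := rfl
    rw [h229] at e
    have h4 : (C 4 : ℂ[X]) = 4 := rfl
    have h2 : (C 2 : ℂ[X]) = 2 := rfl
    have h192 : (C 192 : ℂ[X]) = 192 := rfl
    have h256 : (C 256 : ℂ[X]) = 256 := rfl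
    have h144 : (C 144 : ℂ[X]) = 144 := rfl
    have h37 : (C 37 : ℂ[X]) = 37 := rfl
    have h84 : (C 84 : ℂ[X]) = 84 := rfl
    have h64 : (C 64 : ℂ[X]) = 64 := rfl
    have h36 : (C 36 : ℂ[X]) = 36 := rfl
    rw [h4, h2, h192, h256, h144, h37, h84, h64, h36]
    linear_combination e
  refine ⟨p.roots.toFinset, ?_, fun t => ?_⟩
  · rw [Multiset.toFinset_card_of_nodup (nodup_roots hsep), ← hdeg]
    exact (splits_iff_card_roots.1 (IsAlgClosed.splits p))
  · rw [Multiset.mem_toFinset, mem_roots hne, IsRoot.def, hp]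
    simp

private theorem s1tv (s : Fin 4) : tv base1 s 0 = if s = 3 then 1 else 0 := by
  simp only [tv, base1, Sum.inl.injEq, Prod.mk.injEq, and_true]

private theorem s1ts (s : Fin 3) : ts base1 s = 0 := by
  simp [ts, base1]

private theorem s1G (x y z : ℂ) : G3 base1 (x, y, z) = 0 ↔
    x * ((1 + y ^ 2) * (1 + z ^ 2)) = y * z ∧ y * ((1 + x ^ 2) * (1 + z ^ 2)) = x * z ∧
      z * ((1 + x ^ 2) * (1 + y ^ 2)) = x * y := by
  have h0 : tv base1 0 0 = 0 := by rw [s1tv]; simp
  have h1 : tv base1 1 0 = 0 := by rw [s1tv]; simp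
  have h2 : tv base1 2 0 = 0 := by rw [s1tv]; simp
  have h3 : tv base1 3 0 = 1 := by rw [s1tv]; simp
  simp only [G3, h0, h1, h2, h3, s1ts, Prod.mk_eq_zero]
  constructor
  · rintro ⟨e1, e2, e3⟩
    refine ⟨?_, ?_, ?_⟩
    · linear_combination e1
    · linear_combination e2
    · linear_combination e3
  · rintro ⟨e1, e2, e3⟩
    refine ⟨?_, ?_, ?_⟩
    · linear_combination e1
    · linear_combination e2
    · linear_combination e3

private theorem s1class (x y z : ℂ) (h : G3 base1 (x, y, z) = 0) :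
    (x = 0 ∧ y = 0 ∧ z = 0) ∨ ∃ t : ℂ, t ^ 4 + 2 * t ^ 2 - t + 1 = 0 ∧
      ((x = t ∧ y = t ∧ z = t) ∨ (x = t ∧ y = -t ∧ z = -t) ∨ (x = -t ∧ y = t ∧ z = -t) ∨
        (x = -t ∧ y = -t ∧ z = t)) := by
  obtain ⟨e1, e2, e3⟩ := (s1G x y z).1 h
  have hX : 1 + x ^ 2 ≠ 0 := by
    intro hX
    have hx : x ≠ 0 := by
      rintro rfl
      simp at hX
    have hz : z = 0 := by
      rw [hX] at e2
      have : x * z = 0 := by rw [← e2]; ring
      exact (mul_eq_zero.1 this).resolve_left hx
    have hy : y = 0 := by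
      rw [hX] at e3
      have : x * y = 0 := by rw [← e3]; ring
      exact (mul_eq_zero.1 this).resolve_left hx
    rw [hz, hy] at e1
    apply hx
    linear_combination e1
  have hY : 1 + y ^ 2 ≠ 0 := by
    intro hX
    have hx : y ≠ 0 := by
      rintro rfl
      simp at hX
    have hz : z = 0 := by
      rw [hX] at e1
      have : y * z = 0 := by rw [← e1]; ring
      exact (mul_eq_zero.1 this).resolve_left hx
    have hy : x = 0 := by
      rw [hX] at e3
      have : x * y = 0 := by rw [← e3]; ring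
      exact (mul_eq_zero.1 this).resolve_right hx
    rw [hz, hy] at e2
    apply hx
    linear_combination e2
  have hZ : 1 + z ^ 2 ≠ 0 := by
    intro hX
    have hx : z ≠ 0 := by
      rintro rfl
      simp at hX
    have hz : y = 0 := by
      rw [hX] at e1
      have : y * z = 0 := by rw [← e1]; ring
      exact (mul_eq_zero.1 this).resolve_right hx
    have hy : x = 0 := by
      rw [hX] at e2
      have : x * z = 0 := by rw [← e2]; ring
      exact (mul_eq_zero.1 this).resolve_right hx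
    rw [hz, hy] at e3
    apply hx
    linear_combination e3
  have hxy : (x - y) * (x + y) = 0 := by
    refine (mul_eq_zero.1 (?_ : (1 + z ^ 2) * ((x - y) * (x + y)) = 0)).resolve_left hZ
    linear_combination x * e1 - y * e2
  have hxz : (x - z) * (x + z) = 0 := by
    refine (mul_eq_zero.1 (?_ : (1 + y ^ 2) * ((x - z) * (x + z)) = 0)).resolve_left hY
    linear_combination x * e1 - z * e3
  by_cases hx : x = 0
  · left
    rw [hx] at hxy hxz
    refine ⟨hx, ?_, ?_⟩
    · have : y ^ 2 = 0 := by linear_combination -hxy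
      exact pow_eq_zero_iff (two_ne_zero) |>.1 this
    · have : z ^ 2 = 0 := by linear_combination -hxz
      exact pow_eq_zero_iff (two_ne_zero) |>.1 this
  · right
    have key : ∀ s : ℂ, y * z = s * x ^ 2 → y ^ 2 = x ^ 2 → z ^ 2 = x ^ 2 →
        (1 + x ^ 2) ^ 2 = s * x := by
      intro s hs h1 h2
      rw [h1, h2, hs] at e1
      apply mul_left_cancel₀ hx
      linear_combination e1
    rcases mul_eq_zero.1 hxy with h1 | h1 <;> rcases mul_eq_zero.1 hxz with h2 | h2
    · have hy : y = x := by linear_combination -h1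
      have hz : z = x := by linear_combination -h2
      have k := key 1 (by rw [hy, hz]; ring) (by rw [hy]) (by rw [hz])
      exact ⟨x, by linear_combination k, Or.inl ⟨rfl, hy, hz⟩⟩
    · have hy : y = x := by linear_combination -h1
      have hz : z = -x := by linear_combination h2
      have k := key (-1) (by rw [hy, hz]; ring) (by rw [hy]) (by rw [hz]; ring)
      exact ⟨-x, by linear_combination k, Or.inr (Or.inr (Or.inr
        ⟨by ring, by rw [hy]; ring, hz⟩))⟩
    · have hy : y = -x := by linear_combination h1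
      have hz : z = x := by linear_combination -h2
      have k := key (-1) (by rw [hy, hz]; ring) (by rw [hy]; ring) (by rw [hz])
      exact ⟨-x, by linear_combination k, Or.inr (Or.inr (Or.inl
        ⟨by ring, hy, by rw [hz]; ring⟩))⟩
    · have hy : y = -x := by linear_combination h1
      have hz : z = -x := by linear_combination h2
      have k := key 1 (by rw [hy, hz]; ring) (by rw [hy]; ring) (by rw [hz]; ring)
      exact ⟨x, by linear_combination k, Or.inr (Or.inl ⟨rfl, hy, hz⟩)⟩

/-- Proof. The equations are `x Y Z = y z`, `y X Z = x z`, `z X Y = x y` with `X = 1+x²` etc.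
`Z ≠ 0`: otherwise `y z = 0` and `z² = -1`, so `y = 0`, then `x z = 0`, `x = 0`, but
`z X Y = z ≠ 0 = x y`. Likewise `X, Y ≠ 0`. Multiplying with `x, y, z` gives
`x² Y Z = y² X Z`, hence `x² = y²`, and `x² = z²`. If `x = 0`, the solution is `0`. Otherwise put
`t = x y z / x²`; then `t² = x²`, the signs `x/t, y/t, z/t` have product `1`, and
`t (1+t²)² = t²`, i.e. `t⁴ + 2t² - t + 1 = 0`. Conversely `(ε₁ t, ε₂ t, ε₃ t)`, `ε₁ε₂ε₃ = 1`, is a
solution for every root `t`; these are `16` distinct points, as `t ≠ 0` and `t` is determined by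
`t = x y z / x²`. -/
theorem base1_count : {u : ℂ × ℂ × ℂ | G3 base1 u = 0}.encard = 17 := by
  classical
  obtain ⟨r, hc, hr⟩ := quart1
  have hr0 : ∀ t ∈ r, t ≠ 0 := by
    rintro t ht rfl
    have := (hr 0).1 ht
    norm_num at this
  obtain ⟨f, hf⟩ : ∃ f : Fin 4 → ℂ → ℂ × ℂ × ℂ,
      f = ![fun t => (t, t, t), fun t => (t, -t, -t), fun t => (-t, t, -t),
        fun t => (-t, -t, t)] := ⟨_, rfl⟩
  have f0 : ∀ t, f 0 t = (t, t, t) := fun t => by rw [hf]; rfl
  have f1 : ∀ t, f 1 t = (t, -t, -t) := fun t => by rw [hf]; rfl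
  have f2 : ∀ t, f 2 t = (-t, t, -t) := fun t => by rw [hf]; rfl
  have f3 : ∀ t, f 3 t = (-t, -t, t) := fun t => by rw [hf]; rfl
  have hset : {u : ℂ × ℂ × ℂ | G3 base1 u = 0} =
      ↑(insert (0, 0, 0) ((Finset.univ ×ˢ r).image fun q : Fin 4 × ℂ => f q.1 q.2)) := by
    ext ⟨x, y, z⟩
    simp only [Set.mem_ofPred_eq, Finset.coe_insert, Finset.coe_image, Set.mem_insert_iff,
      Set.mem_image, Finset.mem_coe, Finset.mem_product, Finset.mem_univ, true_and, Prod.exists]
    constructor
    · intro h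
      rcases s1class x y z h with ⟨rfl, rfl, rfl⟩ | ⟨t, ht, h⟩
      · left; rfl
      · right
        rcases h with ⟨rfl, rfl, rfl⟩ | ⟨rfl, rfl, rfl⟩ | ⟨rfl, rfl, rfl⟩ | ⟨rfl, rfl, rfl⟩
        · exact ⟨0, _, (hr _).2 ht, f0 _⟩
        · exact ⟨1, _, (hr _).2 ht, f1 _⟩
        · exact ⟨2, _, (hr _).2 ht, f2 _⟩
        · exact ⟨3, _, (hr _).2 ht, f3 _⟩
    · rintro (h | ⟨i, t, ht, h⟩)
      · simp only [Prod.mk.injEq] at h
        obtain ⟨rfl, rfl, rfl⟩ := h
        rw [s1G]
        norm_num
      · have hh := (hr t).1 ht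
        fin_cases i
        · have h' := (f0 t).symm.trans h
          simp only [Prod.mk.injEq] at h'
          obtain ⟨rfl, rfl, rfl⟩ := h'
          rw [s1G]
          refine ⟨?_, ?_, ?_⟩ <;> linear_combination t * hh
        · have h' := (f1 t).symm.trans h
          simp only [Prod.mk.injEq] at h'
          obtain ⟨rfl, rfl, rfl⟩ := h'
          rw [s1G]
          refine ⟨?_, ?_, ?_⟩
          · linear_combination t * hh
          · linear_combination -t * hh
          · linear_combination -t * hh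
        · have h' := (f2 t).symm.trans h
          simp only [Prod.mk.injEq] at h'
          obtain ⟨rfl, rfl, rfl⟩ := h'
          rw [s1G]
          refine ⟨?_, ?_, ?_⟩
          · linear_combination -t * hh
          · linear_combination t * hh
          · linear_combination -t * hh
        · have h' := (f3 t).symm.trans h
          simp only [Prod.mk.injEq] at h'
          obtain ⟨rfl, rfl, rfl⟩ := h'
          rw [s1G]
          refine ⟨?_, ?_, ?_⟩
          · linear_combination -t * hh
          · linear_combination -t * hh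
          · linear_combination t * hh
  have hneg : ∀ t ∈ r, t ≠ -t := by
    intro t ht h
    apply hr0 t ht
    linear_combination (1 / 2 : ℂ) * h
  have hinj : Set.InjOn (fun q : Fin 4 × ℂ => f q.1 q.2)
      (((Finset.univ : Finset (Fin 4)) ×ˢ r : Finset (Fin 4 × ℂ)) : Set (Fin 4 × ℂ)) := by
    rintro ⟨i, t⟩ hi ⟨j, s⟩ hj h
    simp only [Finset.coe_product, Set.mem_prod, Finset.mem_coe, Finset.mem_univ,
      true_and] at hi hj
    have a1 := hneg t hi
    have a2 := hneg s hj
    have a3 := hr0 t hi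
    simp only at h
    fin_cases i <;> fin_cases j <;>
      simp only [Fin.zero_eta, Fin.mk_one, Fin.reduceFinMk, f0, f1, f2, f3, Prod.mk.injEq] at h <;>
      obtain ⟨h1, h2, h3⟩ := h
    all_goals first
      | (exfalso; apply a3; linear_combination (1 / 2 : ℂ) * (h1 + h2))
      | (exfalso; apply a3; linear_combination (1 / 2 : ℂ) * (h1 - h2))
      | (exfalso; apply a3; linear_combination (-1 / 2 : ℂ) * (h1 + h2))
      | (exfalso; apply a3; linear_combination (-1 / 2 : ℂ) * (h1 - h2))
      | (exfalso; apply a3; linear_combination (1 / 2 : ℂ) * (h1 + h3))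
      | (exfalso; apply a3; linear_combination (1 / 2 : ℂ) * (h1 - h3))
      | (exfalso; apply a3; linear_combination (-1 / 2 : ℂ) * (h1 + h3))
      | (exfalso; apply a3; linear_combination (-1 / 2 : ℂ) * (h1 - h3))
      | (exfalso; apply a3; linear_combination (1 / 2 : ℂ) * (h2 + h3))
      | (exfalso; apply a3; linear_combination (1 / 2 : ℂ) * (h2 - h3))
      | (exfalso; apply a3; linear_combination (-1 / 2 : ℂ) * (h2 + h3))
      | (exfalso; apply a3; linear_combination (-1 / 2 : ℂ) * (h2 - h3))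
      | (have : t = s := by linear_combination h1
         rw [this])
      | (have : t = s := by linear_combination -h1
         rw [this])
  rw [hset, Set.encard_coe_eq_coe_finsetCard, Finset.card_insert_of_notMem,
    Finset.card_image_of_injOn hinj, Finset.card_product, hc]
  · simp
  · rw [Finset.mem_image]
    rintro ⟨⟨i, t⟩, hq, h⟩
    have ht := (Finset.mem_product.1 hq).2
    have a3 := hr0 t ht
    simp only at h
    fin_cases i <;>
      simp only [Fin.zero_eta, Fin.mk_one, Fin.reduceFinMk, f0, f1, f2, f3, Prod.mk.injEq,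
        neg_eq_zero] at h <;> exact a3 h.1

/-- Proof. At `0` the Hessian is the identity. At `(ε₁ t, ε₂ t, ε₃ t)` with `ε₁ε₂ε₃ = 1`, `r = t²`,
`t = (1+r)²`, the diagonal entries are `A = B = C = (1+r)²` and the others are
`s12 = 2 x y (1+r) - z = ε₃ (2 r (1+r) - t) = ε₃ (1+r)(r-1)` etc.; so
`H3 = (1+r)³ ((1+r)³ + 2 (r-1)³ - 3 (1+r)(r-1)²) = 4 (1+r)³ (3r-1)`. Here `r ≠ -1` as `1+x² ≠ 0`, and
`r = 1/3` would give `t = 16/9`, `t² = 256/81 ≠ 1/3`. -/
theorem base1_nd : ∀ u : ℂ × ℂ × ℂ, G3 base1 u = 0 → H3 base1 u ≠ 0 := by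
  rintro ⟨x, y, z⟩ h
  have h0 : tv base1 1 0 = 0 := by rw [s1tv]; simp
  have h2 : tv base1 2 0 = 0 := by rw [s1tv]; simp
  have h3 : tv base1 3 0 = 1 := by rw [s1tv]; simp
  simp only [H3, h0, h2, h3, s1ts]
  rcases s1class x y z h with ⟨rfl, rfl, rfl⟩ | ⟨t, ht, h⟩
  · norm_num
  · have hr1 : 1 + t ^ 2 ≠ 0 := by
      intro e
      have : t = 0 := by linear_combination (1 + t ^ 2) * e - ht
      rw [this] at e
      norm_num at e
    have hr2 : 3 * t ^ 2 - 1 ≠ 0 := by
      intro e
      have e1 : t = 16 / 9 := by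
        linear_combination (1 / 3 * t ^ 2 + 7 / 9) * e - ht
      rw [e1] at e
      norm_num at e
    have hprod : 4 * (1 + t ^ 2) ^ 3 * (3 * t ^ 2 - 1) ≠ 0 :=
      mul_ne_zero (mul_ne_zero (by norm_num) (pow_ne_zero 3 hr1)) hr2
    have ht' : t = (1 + t ^ 2) ^ 2 := by linear_combination -ht
    have hs : 2 * t ^ 2 * (1 + t ^ 2) - t = (1 + t ^ 2) * (t ^ 2 - 1) := by
      linear_combination ht
    obtain ⟨s, hsd⟩ : ∃ s, s = 2 * t ^ 2 * (1 + t ^ 2) - t := ⟨_, rfl⟩
    have hA : ((1 + t ^ 2) * (1 + t ^ 2)) * ((1 + t ^ 2) * (1 + t ^ 2)) *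
        ((1 + t ^ 2) * (1 + t ^ 2)) + 2 * s ^ 3 - 3 * ((1 + t ^ 2) * (1 + t ^ 2)) * s ^ 2 =
        4 * (1 + t ^ 2) ^ 3 * (3 * t ^ 2 - 1) := by
      rw [hsd, hs]
      ring
    rw [← hA, hsd] at hprod
    rcases h with ⟨rfl, rfl, rfl⟩ | ⟨rfl, rfl, rfl⟩ | ⟨rfl, rfl, rfl⟩ | ⟨rfl, rfl, rfl⟩
    · intro h
      apply hprod
      linear_combination h
    · intro h
      apply hprod
      linear_combination h
    · intro h
      apply hprod
      linear_combination h
    · intro h
      apply hprod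
      linear_combination h

end Pool.Agent.MPb0eP
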