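import Mathlib
import Pool.Agent.Lib.MP_b0e20b_ag_P.ElT
import Pool.Agent.Lib.MP_b0e20b_ag_P.LC
import Pool.Agent.Lib.MP_b0e20b_ag_P.Cn
import Pool.Agent.Lib.MP_b0e20b_ag_P.TD
import Pool.Agent.Lib.MP_b0e20b_ag_P.B1
import Pool.Agent.Lib.MP_b0e20b_ag_P.B1b
import Pool.Agent.Lib.MP_b0e20b_ag_P.S1

/-!
# MP_b0e20b_ag, format (1,1,1): the generic number is 17
-/

set_option autoImplicit false

open scoped Topology
open MvPolynomial

namespace Pool.Agent.MPb0eP

private theorem G1_H3_map {R S : Type} [CommRing R] [CommRing S] (g : R →+* S) (t : Tp 1 R)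
    (u : R × R × R) :
    g (H3 t u) = H3 (fun i => g (t i)) (g u.1, g u.2.1, g u.2.2) := by
  simp only [H3, tv, ts, map_sub, map_add, map_mul, map_pow, map_one, map_ofNat]

private theorem G1_cnd3_map {R S : Type} [CommRing R] [CommRing S] (g : R →+* S) (s : R)
    (t : Tp 1 R) : g (cnd3 s t) = cnd3 (g s) (fun i => g (t i)) := by
  simp only [cnd3, frm, tv, ts, map_sub, map_add, map_mul]

private theorem G1_sys {t : Tp 1 ℂ} {u : ℂ × ℂ × ℂ} (h : G3 t u = 0) :
    Sys t (fun _ => u.1) u.2.1 u.2.2 := by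
  have h1 : (G3 t u).1 = 0 := by rw [h]; rfl
  have h2 : (G3 t u).2.1 = 0 := by rw [h]; rfl
  have h3 : (G3 t u).2.2 = 0 := by rw [h]; rfl
  simp only [G3] at h1 h2 h3
  refine ⟨fun i => ?_, ?_, ?_⟩
  · have hi : i = 0 := Subsingleton.elim _ _
    subst hi
    linear_combination h1
  · simp only [dot, Fin.sum_univ_one]
    linear_combination h2
  · simp only [dot, Fin.sum_univ_one]
    linear_combination h3

/-- Outside a hypersurface all solutions are nondegenerate.

Proof. `elimT` with `J` = the polynomial `H3` in the variables of `Kap 1` (that is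
`H3 (psi X) (X x, X y, X z)` in the polynomial ring; evaluation at `kpt t x y z` gives
`H3 t (x, y, z)` by `psi_map`, `psi_kpt` and unfolding). `J ≠ 0`: at the point `0` of `Kap 1` its value
is `H3 0 0 = 1`. -/
theorem nd_generic1 : ∃ P : MvPolynomial (Idx 1) ℂ, P ≠ 0 ∧ ∀ (t : Tp 1 ℂ) (u : ℂ × ℂ × ℂ),
    eval t P ≠ 0 → G3 t u = 0 → H3 t u ≠ 0 := by
  let J : MvPolynomial (Kap 1) ℂ := H3 (psi (X : Kap 1 → MvPolynomial (Kap 1) ℂ))
    (X (Sum.inl 0), X (Sum.inr (Sum.inl 0)), X (Sum.inr (Sum.inl 1)))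
  have hJ : ∀ w : Kap 1 → ℂ, eval w J =
      H3 (psi w) (w (Sum.inl 0), w (Sum.inr (Sum.inl 0)), w (Sum.inr (Sum.inl 1))) := by
    intro w
    have h1 := G1_H3_map (eval w) (psi (X : Kap 1 → MvPolynomial (Kap 1) ℂ))
      (X (Sum.inl 0), X (Sum.inr (Sum.inl 0)), X (Sum.inr (Sum.inl 1)))
    have h2 := psi_map (eval w) (X : Kap 1 → MvPolynomial (Kap 1) ℂ)
    simp only [eval_X] at h1 h2
    rw [← h2] at h1
    exact h1
  have hJ0 : J ≠ 0 := by
    intro h0
    have h1 := hJ (fun _ => 0)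
    rw [h0, map_zero] at h1
    have h2 : psi (fun _ => (0 : ℂ) : Kap 1 → ℂ) = fun _ => 0 := by
      funext k
      rcases k with ⟨s, i⟩ | s
      · refine Fin.cases ?_ (fun s => ?_) s
        · simp [psi]
        · simp [psi]
      · fin_cases s
        · simp [psi, dot]
        · simp [psi, dot]
        · simp [psi]
    rw [h2] at h1
    simp [H3, tv, ts] at h1
  obtain ⟨P, hP, h⟩ := elimT J hJ0
  refine ⟨P, hP, fun t u ht hu h3 => ht ?_⟩
  have hs := G1_sys hu
  refine h t _ _ _ hs ?_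
  rw [hJ, psi_kpt hs]
  exact h3

/-- Proof. Let `P1` be as in `nd_generic1` and `P2 = cnd3 (C I) X` (so that
`eval t P2 = cnd3 I t`; not zero: take `t` with `v 0 = b = c = 1` and the rest `0`). On the
complement of the zero set of `P1 * P2` the number of solutions of `G3 t u = 0` is locally constant
(`lc`, `bd3`, `bij_G3`), hence constant (`const_of_loc`). At `base1` the conditions of `lc` hold too
(`cnd3 I base1 = (-1)(1)(1)(-1) ... ≠ 0`, `base1_nd`), so the number is `17` near `base1`, in particular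
at points with `P1 * P2 ≠ 0` (`dense_ne`). Finally `encard_G3`. -/
theorem gen1 : GenT 1 17 := by
  obtain ⟨P1, hP1, hnd⟩ := nd_generic1
  let P2 : MvPolynomial (Idx 1) ℂ := cnd3 (C Complex.I) (X : Idx 1 → MvPolynomial (Idx 1) ℂ)
  have hP2e : ∀ t : Tp 1 ℂ, eval t P2 = cnd3 Complex.I t := by
    intro t
    have h1 := G1_cnd3_map (eval t) (C Complex.I) (X : Idx 1 → MvPolynomial (Idx 1) ℂ)
    simp only [eval_X, eval_C] at h1
    exact h1
  have hP2 : P2 ≠ 0 := by
    intro h0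
    have h1 := hP2e (Sum.elim (fun si => if si.1 = 0 then 1 else 0)
      (fun s => if s = 2 then 0 else 1))
    rw [h0, map_zero] at h1
    simp [cnd3, frm, tv, ts] at h1
  have hP : P1 * P2 ≠ 0 := mul_ne_zero hP1 hP2
  have hloc : ∀ t : Tp 1 ℂ, cnd3 Complex.I t ≠ 0 → (∀ u, G3 t u = 0 → H3 t u ≠ 0) →
      ∀ᶠ p in 𝓝 t, {u | G3 p u = 0}.encard = {u | G3 t u = 0}.encard := by
    intro t h1 h2
    obtain ⟨R, hR⟩ := bd3 t h1
    exact lc (𝕜 := ℂ) G3 contDiff_G3 t R hR fun u hu => bij_G3 t u (h2 u hu)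
  have hF : ∀ t : Tp 1 ℂ, eval t (P1 * P2) ≠ 0 →
      ∀ᶠ p in 𝓝 t, {u | G3 p u = 0}.encard = {u | G3 t u = 0}.encard := by
    intro t ht
    rw [map_mul] at ht
    refine hloc t ?_ fun u hu => hnd t u (left_ne_zero_of_mul ht) hu
    rw [← hP2e]
    exact right_ne_zero_of_mul ht
  have hb : cnd3 Complex.I base1 ≠ 0 := by
    simp [cnd3, frm, tv, ts, base1]
  obtain ⟨s, hs, hsP⟩ := dense_ne (P1 * P2) hP base1 _ (hloc base1 hb base1_nd)
  have hs17 : {u | G3 s u = 0}.encard = 17 := by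
    have h1 : {u | G3 s u = 0}.encard = {u | G3 base1 u = 0}.encard := hs
    rw [h1]
    exact base1_count
  refine ⟨P1 * P2, hP, fun t ht => ?_⟩
  have h1 : {u | G3 t u = 0}.encard = {u | G3 s u = 0}.encard :=
    const_of_loc (P1 * P2) (fun t : Tp 1 ℂ => {u | G3 t u = 0}.encard) hF t s ht hsP
  rw [← encard_G3, h1, hs17]
  rfl

end Pool.Agent.MPb0eP
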