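import Mathlib
import Pool.Agent.Lib.MP_b0e20b_ag_P.Defs

/-!
# MP_b0e20b_ag, formats (n,1,1): the base point `q = 4 y² + 4 z²` of the plane system
-/

set_option autoImplicit false

namespace Pool.Agent.MPb0eP

/-- The base point: `q20 = q02 = 4`, all other parameters are `0`. -/
def baseP : Pl ℂ where
  b := 0
  c := 0
  f := 0
  q00 := 0
  q10 := 0
  q20 := 4
  q01 := 0
  q11 := 0
  q21 := 0
  q02 := 4
  q12 := 0
  q22 := 0

private lemma S2_deg : (Polynomial.X ^ 4 + Polynomial.C 4 * Polynomial.X -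
    Polynomial.C 8 : Polynomial ℂ).natDegree = 4 := by
  compute_degree!

private lemma S2_sep : (Polynomial.X ^ 4 + Polynomial.C 4 * Polynomial.X -
    Polynomial.C 8 : Polynomial ℂ).Separable := by
  rw [Polynomial.separable_def]
  refine ⟨Polynomial.C (-(27 / 539)) * (Polynomial.C (1 / 3) * Polynomial.X ^ 2 +
      Polynomial.C (8 / 9) * Polynomial.X + Polynomial.C (64 / 27)),
    Polynomial.C (27 / 2156) * (Polynomial.C 1 + (Polynomial.C (1 / 3) * Polynomial.X ^ 2 +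
      Polynomial.C (8 / 9) * Polynomial.X + Polynomial.C (64 / 27)) * Polynomial.X), ?_⟩
  apply Polynomial.funext
  intro x
  simp only [Polynomial.derivative_sub, Polynomial.derivative_add, Polynomial.derivative_X_pow,
    Polynomial.derivative_mul, Polynomial.derivative_C, Polynomial.derivative_X,
    Polynomial.eval_add, Polynomial.eval_mul, Polynomial.eval_sub, Polynomial.eval_pow,
    Polynomial.eval_C, Polynomial.eval_X, Polynomial.eval_one, Polynomial.eval_zero]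
  push_cast
  ring

/-- Four distinct roots. -/
theorem quart2 : ∃ r : Finset ℂ, r.card = 4 ∧ ∀ u : ℂ, u ∈ r ↔ u ^ 4 + 4 * u - 8 = 0 := by
  classical
  set p : Polynomial ℂ := Polynomial.X ^ 4 + Polynomial.C 4 * Polynomial.X - Polynomial.C 8
    with hp
  have hdeg : p.natDegree = 4 := S2_deg
  have hp0 : p ≠ 0 := by
    intro h
    rw [h] at hdeg
    simp at hdeg
  refine ⟨p.roots.toFinset, ?_, ?_⟩
  · rw [Multiset.toFinset_card_of_nodup (Polynomial.nodup_roots S2_sep)]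
    exact (Polynomial.splits_iff_card_roots.1 (IsAlgClosed.splits p)).trans hdeg
  · intro u
    rw [Multiset.mem_toFinset, Polynomial.mem_roots hp0, Polynomial.IsRoot.def]
    simp [hp]

private lemma S2_E1 (y z : ℂ) : baseP.E1 y z =
    2 * y * ((1 + y ^ 2) ^ 2 * (1 + z ^ 2) ^ 2 - 8 + 4 * (1 + z ^ 2)) := by
  simp only [Pl.E1, baseP]
  ring

private lemma S2_E2 (y z : ℂ) : baseP.E2 y z =
    2 * z * ((1 + y ^ 2) ^ 2 * (1 + z ^ 2) ^ 2 - 8 + 4 * (1 + y ^ 2)) := by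
  simp only [Pl.E2, Pl.swap, Pl.E1, baseP]
  ring

private lemma S2_dJ (y z : ℂ) : baseP.dJ y z =
    (8 * y ^ 2 * (1 + y ^ 2) * (1 + z ^ 2) ^ 2 +
        2 * ((1 + y ^ 2) ^ 2 * (1 + z ^ 2) ^ 2 - 8 + 4 * (1 + z ^ 2))) *
      (8 * z ^ 2 * (1 + z ^ 2) * (1 + y ^ 2) ^ 2 +
        2 * ((1 + y ^ 2) ^ 2 * (1 + z ^ 2) ^ 2 - 8 + 4 * (1 + y ^ 2))) -
      64 * y ^ 2 * z ^ 2 * ((1 + y ^ 2) ^ 2 * (1 + z ^ 2) + 2) *
      ((1 + z ^ 2) ^ 2 * (1 + y ^ 2) + 2) := by
  simp only [Pl.dJ, Pl.E1y, Pl.E1z, Pl.E2y, Pl.E2z, Pl.swap, baseP]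
  ring

private lemma S2_gen {y z : ℂ} (hy : y ≠ 0) (hz : z ≠ 0)
    (h1 : 2 * y * ((1 + y ^ 2) ^ 2 * (1 + z ^ 2) ^ 2 - 8 + 4 * (1 + z ^ 2)) = 0)
    (h2 : 2 * z * ((1 + y ^ 2) ^ 2 * (1 + z ^ 2) ^ 2 - 8 + 4 * (1 + y ^ 2)) = 0) :
    z ^ 2 = y ^ 2 ∧ (1 + y ^ 2) ^ 4 + 4 * (1 + y ^ 2) - 8 = 0 := by
  have h3 : (1 + y ^ 2) ^ 2 * (1 + z ^ 2) ^ 2 - 8 + 4 * (1 + z ^ 2) = 0 := by
    rcases mul_eq_zero.1 h1 with h | h
    · exact absurd h (by simpa using hy)
    · exact h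
  have h4 : (1 + y ^ 2) ^ 2 * (1 + z ^ 2) ^ 2 - 8 + 4 * (1 + y ^ 2) = 0 := by
    rcases mul_eq_zero.1 h2 with h | h
    · exact absurd h (by simpa using hz)
    · exact h
  have h5 : z ^ 2 = y ^ 2 := by linear_combination (1 / 4) * h3 - (1 / 4) * h4
  refine ⟨h5, ?_⟩
  rw [h5] at h4
  linear_combination h4

private lemma S2_sqrt (u : ℂ) : ∃ s : ℂ, s ^ 2 = u := by
  obtain ⟨s, hs⟩ := IsAlgClosed.exists_pow_nat_eq u (n := 2) (by norm_num)
  exact ⟨s, hs⟩

/-- Proof. With `Y = 1+y²`, `Z = 1+z²` the equations are `2 y (Y² Z² - 8 + 4 Z) = 0` and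
`2 z (Y² Z² - 8 + 4 Y) = 0`. Solutions: `(0,0)`; `y = 0`, `Z² = 4`, i.e. `z² = 1` or `z² = -3`: four
points; `z = 0`: four points; and `Y = Z = u`, `u⁴ + 4u - 8 = 0`, `y² = z² = u - 1 ≠ 0`: sixteen
points. -/
theorem baseP_count : baseP.PSol.encard = 25 := by
  classical
  obtain ⟨r, hr, hr'⟩ := quart2
  choose s hs using fun u : ℂ => S2_sqrt (u - 1)
  obtain ⟨w, hw⟩ := S2_sqrt (-3)
  have hw0 : w ≠ 0 := by
    rintro rfl
    norm_num at hw
  have hw1 : w ≠ 1 := by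
    rintro rfl
    norm_num at hw
  have hw2 : w ≠ -1 := by
    rintro rfl
    norm_num at hw
  have hww : w ≠ -w := by
    intro h
    apply hw0
    linear_combination (1 / 2) * h
  have hs0 : ∀ u ∈ r, s u ≠ 0 := by
    intro u hu h
    have h1 := hs u
    rw [h] at h1
    have h2 : u = 1 := by linear_combination -h1
    have h3 := (hr' u).1 hu
    rw [h2] at h3
    norm_num at h3
  set A : Finset ℂ := {1, -1, w, -w} with hA
  have hAc : A.card = 4 := by
    rw [hA, Finset.card_insert_of_notMem, Finset.card_insert_of_notMem,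
      Finset.card_insert_of_notMem, Finset.card_singleton]
    · simpa using hww
    · simp only [Finset.mem_insert, Finset.mem_singleton, not_or]
      exact ⟨fun h => hw2 h.symm, fun h => hw1 (neg_inj.1 h).symm⟩
    · simp only [Finset.mem_insert, Finset.mem_singleton, not_or]
      refine ⟨by norm_num, fun h => hw1 h.symm, fun h => hw2 ?_⟩
      linear_combination h
  have hAm : ∀ x : ℂ, x ∈ A ↔ (1 + x ^ 2) ^ 2 = 4 := by
    intro x
    simp only [hA, Finset.mem_insert, Finset.mem_singleton]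
    constructor
    · rintro (rfl | rfl | rfl | rfl)
      · norm_num
      · norm_num
      · rw [hw]; norm_num
      · rw [neg_sq, hw]; norm_num
    · intro h
      have h1 : (x - 1) * ((x + 1) * ((x - w) * (x + w))) = 0 := by
        linear_combination h - (x ^ 2 - 1) * hw
      rcases mul_eq_zero.1 h1 with h2 | h2
      · left; linear_combination h2
      rcases mul_eq_zero.1 h2 with h2 | h2
      · right; left; linear_combination h2
      rcases mul_eq_zero.1 h2 with h2 | h2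
      · right; right; left; linear_combination h2
      · right; right; right; linear_combination h2
  have hA0 : (0 : ℂ) ∉ A := by
    rw [hAm]
    norm_num
  set E : Finset ℂ := {1, -1} with hE
  have hEc : E.card = 2 := by
    rw [hE, Finset.card_insert_of_notMem, Finset.card_singleton]
    simp only [Finset.mem_singleton]
    norm_num
  have hEm : ∀ x : ℂ, x ∈ E ↔ x ^ 2 = 1 := by
    intro x
    simp only [hE, Finset.mem_insert, Finset.mem_singleton]
    constructor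
    · rintro (rfl | rfl) <;> norm_num
    · intro h
      have h1 : (x - 1) * (x + 1) = 0 := by linear_combination h
      rcases mul_eq_zero.1 h1 with h2 | h2
      · left; linear_combination h2
      · right; linear_combination h2
  have hE0 : ∀ x ∈ E, x ≠ 0 := by
    rintro x hx rfl
    rw [hEm] at hx
    norm_num at hx
  set S1 : Finset (ℂ × ℂ) := A.image (fun z => ((0 : ℂ), z)) with hS1
  set S2 : Finset (ℂ × ℂ) := A.image (fun y => (y, (0 : ℂ))) with hS2
  set S3 : Finset (ℂ × ℂ) := (r ×ˢ (E ×ˢ E)).image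
    (fun q => (q.2.1 * s q.1, q.2.2 * s q.1)) with hS3
  have hc1 : S1.card = 4 := by
    rw [hS1, Finset.card_image_of_injective _ (fun a b h => (Prod.mk.inj h).2), hAc]
  have hc2 : S2.card = 4 := by
    rw [hS2, Finset.card_image_of_injective _ (fun a b h => (Prod.mk.inj h).1), hAc]
  have hc3 : S3.card = 16 := by
    rw [hS3, Finset.card_image_of_injOn, Finset.card_product, Finset.card_product, hr, hEc]
    rintro ⟨u, e, e'⟩ hq ⟨u', g, g'⟩ hq' h
    simp only [Finset.coe_product, Set.mem_prod, Finset.mem_coe] at hq hq'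
    obtain ⟨hu, he, he'⟩ := hq
    obtain ⟨hu', hg, hg'⟩ := hq'
    obtain ⟨h1, h2⟩ := Prod.mk.inj h
    simp only at h1 h2
    have h3 : u = u' := by
      have h4 : (e * s u) ^ 2 = (g * s u') ^ 2 := by rw [h1]
      rw [mul_pow, mul_pow, (hEm e).1 he, (hEm g).1 hg, hs, hs] at h4
      linear_combination h4
    subst h3
    have h4 := hs0 u hu
    rw [mul_right_cancel₀ h4 h1, mul_right_cancel₀ h4 h2]
  have hd : Disjoint S1 S2 := by
    rw [Finset.disjoint_left]
    rintro ⟨y, z⟩ h1 h2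
    simp only [hS1, hS2, Finset.mem_image, Prod.mk.injEq] at h1 h2
    obtain ⟨a, ha, h3, h4⟩ := h1
    obtain ⟨b, hb, h5, h6⟩ := h2
    exact hA0 (by rw [h3, ← h5]; exact hb)
  have hd3 : Disjoint (S1 ∪ S2) S3 := by
    rw [Finset.disjoint_left]
    rintro ⟨y, z⟩ h1 h2
    simp only [hS1, hS2, hS3, Finset.mem_union, Finset.mem_image, Prod.mk.injEq,
      Finset.mem_product, Prod.exists] at h1 h2
    obtain ⟨u, e, e', ⟨hu, he, he'⟩, h3, h4⟩ := h2
    have h5 : y ≠ 0 := h3 ▸ mul_ne_zero (hE0 e he) (hs0 u hu)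
    have h6 : z ≠ 0 := h4 ▸ mul_ne_zero (hE0 e' he') (hs0 u hu)
    rcases h1 with ⟨a, ha, h7, h8⟩ | ⟨a, ha, h7, h8⟩
    · exact h5 h7.symm
    · exact h6 h8.symm
  have hd0 : ((0 : ℂ), (0 : ℂ)) ∉ (S1 ∪ S2) ∪ S3 := by
    intro h1
    simp only [hS1, hS2, hS3, Finset.mem_union, Finset.mem_image, Prod.mk.injEq,
      Finset.mem_product, Prod.exists] at h1
    rcases h1 with (⟨a, ha, h7, h8⟩ | ⟨a, ha, h7, h8⟩) | ⟨u, e, e', ⟨hu, he, he'⟩, h3, h4⟩
    · exact hA0 (h8 ▸ ha)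
    · exact hA0 (h7 ▸ ha)
    · exact mul_ne_zero (hE0 e he) (hs0 u hu) h3
  have hcard : (insert ((0 : ℂ), (0 : ℂ)) ((S1 ∪ S2) ∪ S3)).card = 25 := by
    rw [Finset.card_insert_of_notMem hd0, Finset.card_union_of_disjoint hd3,
      Finset.card_union_of_disjoint hd, hc1, hc2, hc3]
  have hset : baseP.PSol = ((insert ((0 : ℂ), (0 : ℂ)) ((S1 ∪ S2) ∪ S3) : Finset (ℂ × ℂ)) :
      Set (ℂ × ℂ)) := by
    ext ⟨y, z⟩
    simp only [Pl.PSol, Set.mem_ofPred_eq, S2_E1, S2_E2, Finset.mem_coe, Finset.mem_insert,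
      Finset.mem_union, hS1, hS2, hS3, Finset.mem_image, Prod.mk.injEq, Finset.mem_product,
      Prod.exists]
    constructor
    · rintro ⟨h1, h2⟩
      by_cases hy : y = 0
      · subst hy
        by_cases hz : z = 0
        · left
          exact ⟨rfl, hz⟩
        · right; left; left
          refine ⟨z, (hAm z).2 ?_, rfl, rfl⟩
          have h4 : 2 * z * ((1 + z ^ 2) ^ 2 - 4) = 0 := by linear_combination h2
          rcases mul_eq_zero.1 h4 with h | h
          · exact absurd h (by simpa using hz)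
          · linear_combination h
      · by_cases hz : z = 0
        · subst hz
          right; left; right
          refine ⟨y, (hAm y).2 ?_, rfl, rfl⟩
          have h4 : 2 * y * ((1 + y ^ 2) ^ 2 - 4) = 0 := by linear_combination h1
          rcases mul_eq_zero.1 h4 with h | h
          · exact absurd h (by simpa using hy)
          · linear_combination h
        · obtain ⟨hz2, h5⟩ := S2_gen hy hz h1 h2
          right; right
          have hu : (1 + y ^ 2) ∈ r := (hr' _).2 h5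
          have h6 := hs0 _ hu
          have h7 : s (1 + y ^ 2) ^ 2 = y ^ 2 := by rw [hs]; ring
          refine ⟨1 + y ^ 2, y / s (1 + y ^ 2), z / s (1 + y ^ 2), ⟨hu, ?_, ?_⟩, ?_, ?_⟩
          · rw [hEm, div_pow, h7]
            exact div_self (pow_ne_zero _ hy)
          · rw [hEm, div_pow, h7, hz2]
            exact div_self (pow_ne_zero _ hy)
          · exact div_mul_cancel₀ _ h6
          · exact div_mul_cancel₀ _ h6
    · rintro (⟨rfl, rfl⟩ | (⟨a, ha, rfl, rfl⟩ | ⟨a, ha, rfl, rfl⟩) |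
        ⟨u, e, e', ⟨hu, he, he'⟩, rfl, rfl⟩)
      · constructor <;> ring
      · rw [hAm] at ha
        constructor
        · ring
        · linear_combination (2 * a) * ha
      · rw [hAm] at ha
        constructor
        · linear_combination (2 * a) * ha
        · ring
      · have h1 := (hr' u).1 hu
        have h2 := hs u
        have h3 := (hEm e).1 he
        have h4 := (hEm e').1 he'
        have h5 : (e * s u) ^ 2 = u - 1 := by rw [mul_pow, h3, h2]; ring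
        have h6 : (e' * s u) ^ 2 = u - 1 := by rw [mul_pow, h4, h2]; ring
        rw [h5, h6]
        constructor
        · linear_combination (2 * (e * s u)) * h1
        · linear_combination (2 * (e' * s u)) * h1
  rw [hset, Set.encard_coe_eq_coe_finsetCard, hcard]
  rfl

/-- Proof. At `(0,0)`: `dJ = 36`. At `y = 0`, `Z² = 4`: `E1y = 2 (Z² - 8 + 4Z) ≠ 0`,
`E2z = 8 z² Z ≠ 0`, the other two entries are `0`. Likewise `z = 0`. At `Y = Z = u`:
`dJ = 64 y² z² (u⁶ - (u³+2)²) = -256 y² z² (u³ + 1)` and `u³ = -1` is impossible (then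
`u⁴ + 4u - 8 = 3u - 8`, `u = 8/3`). -/
theorem baseP_nd : ∀ u ∈ baseP.PSol, baseP.dJ u.1 u.2 ≠ 0 := by
  rintro ⟨y, z⟩ ⟨h1, h2⟩
  simp only at h1 h2 ⊢
  rw [S2_E1] at h1
  rw [S2_E2] at h2
  rw [S2_dJ]
  by_cases hy : y = 0
  · subst hy
    by_cases hz : z = 0
    · subst hz
      norm_num
    · have h3 : (1 + z ^ 2) ^ 2 = 4 := by
        have h4 : 2 * z * ((1 + z ^ 2) ^ 2 - 4) = 0 := by linear_combination h2
        have h5 : (1 + z ^ 2) ^ 2 - 4 = 0 := by
          rcases mul_eq_zero.1 h4 with h | h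
          · exact absurd h (by simpa using hz)
          · exact h
        linear_combination h5
      have h6 : (1 + z ^ 2) ≠ 0 := by
        intro h
        rw [h] at h3
        norm_num at h3
      have h7 : (8 * (0 : ℂ) ^ 2 * (1 + 0 ^ 2) * (1 + z ^ 2) ^ 2 +
          2 * ((1 + 0 ^ 2) ^ 2 * (1 + z ^ 2) ^ 2 - 8 + 4 * (1 + z ^ 2))) *
        (8 * z ^ 2 * (1 + z ^ 2) * (1 + 0 ^ 2) ^ 2 +
          2 * ((1 + 0 ^ 2) ^ 2 * (1 + z ^ 2) ^ 2 - 8 + 4 * (1 + 0 ^ 2))) -
        64 * 0 ^ 2 * z ^ 2 * ((1 + 0 ^ 2) ^ 2 * (1 + z ^ 2) + 2) *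
        ((1 + z ^ 2) ^ 2 * (1 + 0 ^ 2) + 2) = 64 * z ^ 4 * (1 + z ^ 2) := by
        linear_combination (2 * (8 * z ^ 2 * (1 + z ^ 2) + 2 * ((1 + z ^ 2) ^ 2 - 4)) +
          2 * (8 * z ^ 2)) * h3
      rw [h7]
      exact mul_ne_zero (mul_ne_zero (by norm_num) (pow_ne_zero _ hz)) h6
  · by_cases hz : z = 0
    · subst hz
      have h3 : (1 + y ^ 2) ^ 2 = 4 := by
        have h4 : 2 * y * ((1 + y ^ 2) ^ 2 - 4) = 0 := by linear_combination h1
        have h5 : (1 + y ^ 2) ^ 2 - 4 = 0 := by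
          rcases mul_eq_zero.1 h4 with h | h
          · exact absurd h (by simpa using hy)
          · exact h
        linear_combination h5
      have h6 : (1 + y ^ 2) ≠ 0 := by
        intro h
        rw [h] at h3
        norm_num at h3
      have h7 : (8 * y ^ 2 * (1 + y ^ 2) * (1 + (0 : ℂ) ^ 2) ^ 2 +
          2 * ((1 + y ^ 2) ^ 2 * (1 + 0 ^ 2) ^ 2 - 8 + 4 * (1 + 0 ^ 2))) *
        (8 * 0 ^ 2 * (1 + 0 ^ 2) * (1 + y ^ 2) ^ 2 +
          2 * ((1 + y ^ 2) ^ 2 * (1 + 0 ^ 2) ^ 2 - 8 + 4 * (1 + y ^ 2))) -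
        64 * y ^ 2 * 0 ^ 2 * ((1 + y ^ 2) ^ 2 * (1 + 0 ^ 2) + 2) *
        ((1 + 0 ^ 2) ^ 2 * (1 + y ^ 2) + 2) = 64 * y ^ 4 * (1 + y ^ 2) := by
        linear_combination (2 * (8 * y ^ 2 * (1 + y ^ 2) + 2 * ((1 + y ^ 2) ^ 2 - 4)) +
          2 * (8 * y ^ 2)) * h3
      rw [h7]
      exact mul_ne_zero (mul_ne_zero (by norm_num) (pow_ne_zero _ hy)) h6
    · obtain ⟨hz2, h5⟩ := S2_gen hy hz h1 h2
      rw [hz2]
      have h7 : (8 * y ^ 2 * (1 + y ^ 2) * (1 + y ^ 2) ^ 2 +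
          2 * ((1 + y ^ 2) ^ 2 * (1 + y ^ 2) ^ 2 - 8 + 4 * (1 + y ^ 2))) *
        (8 * y ^ 2 * (1 + y ^ 2) * (1 + y ^ 2) ^ 2 +
          2 * ((1 + y ^ 2) ^ 2 * (1 + y ^ 2) ^ 2 - 8 + 4 * (1 + y ^ 2))) -
        64 * y ^ 2 * y ^ 2 * ((1 + y ^ 2) ^ 2 * (1 + y ^ 2) + 2) *
        ((1 + y ^ 2) ^ 2 * (1 + y ^ 2) + 2) = -256 * y ^ 4 * ((1 + y ^ 2) ^ 3 + 1) := by
        linear_combination (32 * y ^ 2 * (1 + y ^ 2) ^ 3 +
          4 * ((1 + y ^ 2) ^ 4 + 4 * (1 + y ^ 2) - 8)) * h5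
      rw [h7]
      refine mul_ne_zero (mul_ne_zero (by norm_num) (pow_ne_zero _ hy)) ?_
      intro h8
      have h9 : (1 + y ^ 2) = 8 / 3 := by
        linear_combination (1 / 3) * h5 - (1 / 3) * (1 + y ^ 2) * h8
      rw [h9] at h8
      norm_num at h8

/-- Proof. The factors are computed: `q20 + q21 s + q22 s² = 4`, `(b + s f)² + 4 = 4`, the
discriminant is `0 - 4 (4 s²) 4 = 64`, and `qv (± s) (± s) = 4 s² + 4 s² = -8`. -/
theorem baseP_cnd : baseP.cnd Complex.I ≠ 0 := by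
  have h : baseP.cnd Complex.I = 1024 ^ 4 * 8 ^ 4 := by
    have h1 : ∀ s : ℂ, s ^ 2 = -1 → baseP.cnd1 s = 1024 := by
      intro s hs
      simp only [Pl.cnd1, baseP]
      linear_combination (-1024) * hs
    have h2 : ∀ s : ℂ, s ^ 2 = -1 → baseP.swap.cnd1 s = 1024 := by
      intro s hs
      simp only [Pl.cnd1, Pl.swap, baseP]
      linear_combination (-1024) * hs
    have h3 : ∀ s t : ℂ, s ^ 2 = -1 → t ^ 2 = -1 → baseP.qv s t = -8 := by
      intro s t hs ht
      simp only [Pl.qv, baseP]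
      linear_combination 4 * hs + 4 * ht
    have h4 : Complex.I ^ 2 = -1 := Complex.I_sq
    have h5 : (-Complex.I) ^ 2 = -1 := by rw [neg_sq, h4]
    rw [Pl.cnd, h1 _ h4, h1 _ h5, h2 _ h4, h2 _ h5, h3 _ _ h4 h4, h3 _ _ h4 h5, h3 _ _ h5 h4,
      h3 _ _ h5 h5]
    norm_num
  rw [h]
  norm_num

/-- The base point comes from parameters of every format with `n ≥ 2`.

Proof. `v 1 = (2, 0, ..., 0)`, `v 2 = (0, 2, 0, ..., 0)`, everything else `0`. -/
theorem exists_base (n : ℕ) (hn : 2 ≤ n) : ∃ t : Tp n ℂ, pl t = baseP := by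
  refine ⟨Sum.elim (fun si => if si.1 = 1 ∧ si.2 = ⟨0, by omega⟩ then 2 else
    if si.1 = 2 ∧ si.2 = ⟨1, by omega⟩ then 2 else 0) (fun _ => 0), ?_⟩
  simp only [pl, baseP, Pl.mk.injEq, dot, tv, ts, Sum.elim_inl, Sum.elim_inr]
  refine ⟨trivial, trivial, trivial, ?_, ?_, ?_, ?_, ?_, ?_, ?_, ?_, ?_⟩
  all_goals first | (simp; done) | (simp; norm_num)

end Pool.Agent.MPb0eP
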