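import Mathlib
import Pool.Agent.Lib.MP_b0e20b_ag_P.ElT
import Pool.Agent.Lib.MP_b0e20b_ag_P.LC
import Pool.Agent.Lib.MP_b0e20b_ag_P.Cn
import Pool.Agent.Lib.MP_b0e20b_ag_P.PD
import Pool.Agent.Lib.MP_b0e20b_ag_P.B2
import Pool.Agent.Lib.MP_b0e20b_ag_P.B2b
import Pool.Agent.Lib.MP_b0e20b_ag_P.S2
import Pool.Agent.Lib.MP_b0e20b_ag_P.NY
import Pool.Agent.Lib.MP_b0e20b_ag_P.NY2

/-!
# MP_b0e20b_ag, formats (n,1,1), n at least 2: the generic number is 25
-/

set_option autoImplicit false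

open scoped Topology
open MvPolynomial

namespace Pool.Agent.MPb0eP

/-- The image of the parameters of the plane system under a ring homomorphism. -/
private def G2map {R S : Type} [CommRing R] [CommRing S] (g : R →+* S) (p : Pl R) : Pl S where
  b := g p.b
  c := g p.c
  f := g p.f
  q00 := g p.q00
  q10 := g p.q10
  q20 := g p.q20
  q01 := g p.q01
  q11 := g p.q11
  q21 := g p.q21
  q02 := g p.q02
  q12 := g p.q12
  q22 := g p.q22

private theorem G2map_dJ {R S : Type} [CommRing R] [CommRing S] (g : R →+* S) (p : Pl R)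
    (y z : R) : g (p.dJ y z) = (G2map g p).dJ (g y) (g z) := by
  have h2 : g 2 = 2 := map_ofNat g 2
  have h4 : g 4 = 4 := map_ofNat g 4
  simp [Pl.dJ, Pl.E1y, Pl.E1z, Pl.E2y, Pl.E2z, Pl.swap, G2map, h2, h4]

private theorem G2map_cnd {R S : Type} [CommRing R] [CommRing S] (g : R →+* S) (p : Pl R)
    (s : R) : g (p.cnd s) = (G2map g p).cnd (g s) := by
  have h4 : g 4 = 4 := map_ofNat g 4
  simp [Pl.cnd, Pl.cnd1, Pl.qv, Pl.swap, G2map, h4]

private theorem G2map_pl {n : ℕ} {R S : Type} [CommRing R] [CommRing S] (g : R →+* S)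
    (t : Tp n R) : G2map g (pl t) = pl (fun i => g (t i)) := by
  have h2 : g 2 = 2 := map_ofNat g 2
  simp [G2map, pl, dot, tv, ts, h2]

private theorem G2J_eval {n : ℕ} (w : Kap n → ℂ) :
    eval w ((pl (psi (fun k => (X k : MvPolynomial (Kap n) ℂ)))).dJ
      (X (Sum.inr (Sum.inl 0))) (X (Sum.inr (Sum.inl 1)))) =
      (pl (psi w)).dJ (w (Sum.inr (Sum.inl 0))) (w (Sum.inr (Sum.inl 1))) := by
  rw [G2map_dJ, G2map_pl, ← psi_map]
  simp

private theorem G2c_eval {n : ℕ} (t : Tp n ℂ) :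
    eval t ((pl (fun k => (X k : MvPolynomial (Idx n) ℂ))).cnd (C Complex.I)) =
      (pl t).cnd Complex.I := by
  rw [G2map_cnd, G2map_pl]
  simp

private theorem G2_zero (n : ℕ) : (pl (psi (0 : Kap n → ℂ))).dJ 0 0 = 4 := by
  have h : psi (0 : Kap n → ℂ) = 0 := by
    funext i
    rcases i with ⟨s, i⟩ | s
    · refine Fin.cases ?_ (fun s => ?_) s
      · simp [psi]
      · simp [psi]
    · fin_cases s <;> simp [psi, dot]
  rw [h]
  simp [Pl.dJ, Pl.E1y, Pl.E1z, Pl.E2y, Pl.E2z, Pl.swap, pl, dot, tv, ts]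
  norm_num

/-- Outside a hypersurface all plane solutions with `(1+y²)(1+z²) ≠ 0` are nondegenerate.

Proof. `elimT` with `J` = the polynomial `(pl (psi X)).dJ (X y) (X z)` in the variables of `Kap n`
(its value at `kpt t x y z` is `(pl t).dJ y z`). `J ≠ 0`: at the point `0` of `Kap n` its value is
`(pl 0).dJ 0 0 = 4`. A plane solution with `(1+y²)(1+z²) ≠ 0` gives a solution of `Sys` (`sys_iff`). -/
theorem nd_generic2 (n : ℕ) : ∃ P : MvPolynomial (Idx n) ℂ, P ≠ 0 ∧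
    ∀ (t : Tp n ℂ) (u : ℂ × ℂ), eval t P ≠ 0 → u ∈ (pl t).PSol →
      (1 + u.1 ^ 2) * (1 + u.2 ^ 2) ≠ 0 → (pl t).dJ u.1 u.2 ≠ 0 := by
  have hJ : (pl (psi (fun k => (X k : MvPolynomial (Kap n) ℂ)))).dJ
      (X (Sum.inr (Sum.inl 0))) (X (Sum.inr (Sum.inl 1))) ≠ 0 := by
    intro h0
    have h1 := G2J_eval (0 : Kap n → ℂ)
    rw [h0] at h1
    have h2 := G2_zero n
    simp only [map_zero, Pi.zero_apply] at h1
    rw [h2] at h1
    norm_num at h1
  obtain ⟨P, hP, hPJ⟩ := elimT _ hJ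
  refine ⟨P, hP, ?_⟩
  rintro t ⟨y, z⟩ ht hu h1 hd
  apply ht
  have hs : Sys t (fun i => Vv t y z i / ((1 + y ^ 2) * (1 + z ^ 2))) y z :=
    (sys_iff (by norm_num) t _ y z h1).2 ⟨rfl, hu⟩
  refine hPJ t _ y z hs ?_
  rw [G2J_eval, psi_kpt hs]
  simpa [kpt] using hd

/-- Proof. Let `P1` be as in `nd_generic2` and `P2 = (pl X).cnd (C I)` (so that
`eval t P2 = (pl t).cnd I`; not zero because of `exists_base`, `baseP_cnd`). On the complement of the
zero set of `P1 * P2` the number of plane solutions is locally constant (`lc`, `bd2`, `cnd_ne`,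
`bij_plane`), hence constant (`const_of_loc`). At the parameters of `exists_base` the conditions of
`lc` hold too (`baseP_nd`, `baseP_cnd`), so the number is `25` near them (`baseP_count`), in
particular at points with `P1 * P2 ≠ 0` (`dense_ne`). Finally `encard_cnd`. -/
theorem gen2 (n : ℕ) (hn : 2 ≤ n) : GenT n 25 := by
  obtain ⟨P1, hP1, h1⟩ := nd_generic2 n
  obtain ⟨t0, ht0⟩ := exists_base n hn
  have hP2 : (pl (fun k => (X k : MvPolynomial (Idx n) ℂ))).cnd (C Complex.I) ≠ 0 := by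
    intro h0
    have h2 := G2c_eval t0
    rw [h0, map_zero, ht0] at h2
    exact baseP_cnd h2.symm
  have hP : P1 * (pl (fun k => (X k : MvPolynomial (Idx n) ℂ))).cnd (C Complex.I) ≠ 0 :=
    mul_ne_zero hP1 hP2
  have hset : ∀ t : Tp n ℂ, {u : ℂ × ℂ | Gp t u = 0} = (pl t).PSol := by
    intro t
    ext u
    simp [Gp, Pl.PSol, Prod.ext_iff]
  have hloc : ∀ t : Tp n ℂ, (pl t).cnd Complex.I ≠ 0 →
      (∀ u ∈ (pl t).PSol, (pl t).dJ u.1 u.2 ≠ 0) →
      ∀ᶠ s in 𝓝 t, {u : ℂ × ℂ | Gp s u = 0}.encard = {u : ℂ × ℂ | Gp t u = 0}.encard := by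
    intro t hc hd
    obtain ⟨R, hR⟩ := bd2 t hc
    refine lc (𝕜 := ℂ) Gp (contDiff_Gp n) t R hR ?_
    intro u hu
    have hu' : u ∈ (pl t).PSol := by
      rw [← hset t]
      exact hu
    exact bij_plane t u (hd u hu')
  have hgen : ∀ t : Tp n ℂ,
      eval t (P1 * (pl (fun k => (X k : MvPolynomial (Idx n) ℂ))).cnd (C Complex.I)) ≠ 0 →
      (pl t).cnd Complex.I ≠ 0 ∧ ∀ u ∈ (pl t).PSol, (pl t).dJ u.1 u.2 ≠ 0 := by
    intro t ht
    rw [map_mul, G2c_eval] at ht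
    have hc := right_ne_zero_of_mul ht
    exact ⟨hc, fun u hu => h1 t u (left_ne_zero_of_mul ht) hu (cnd_ne _ hc u hu)⟩
  have h25 : ∀ᶠ s in 𝓝 t0, {u : ℂ × ℂ | Gp s u = 0}.encard = 25 := by
    have h := hloc t0 (by rw [ht0]; exact baseP_cnd) (by rw [ht0]; exact baseP_nd)
    have hc : {u : ℂ × ℂ | Gp t0 u = 0}.encard = 25 := by
      rw [hset t0, ht0]
      exact baseP_count
    rw [hc] at h
    exact h
  obtain ⟨s, hs, hsP⟩ := dense_ne _ hP t0 _ h25
  refine ⟨_, hP, fun t ht => ?_⟩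
  obtain ⟨hc, hd⟩ := hgen t ht
  rw [encard_cnd t hc, ← hset t]
  have h := const_of_loc _ (fun t : Tp n ℂ => {u : ℂ × ℂ | Gp t u = 0}.encard)
    (fun t ht => hloc t (hgen t ht).1 (hgen t ht).2) t s ht hsP
  have h' : {u : ℂ × ℂ | Gp t u = 0}.encard = {u : ℂ × ℂ | Gp s u = 0}.encard := h
  rw [h']
  exact hs

end Pool.Agent.MPb0eP
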