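import Mathlib
import Pool.Agent.Lib.MP_b0e20b_ag_P.Defs
import Pool.Agent.Lib.MP_b0e20b_ag_P.Frm

/-!
# MP_b0e20b_ag, tensors of format (n + 1) x 2 x 2: definitions
-/

set_option autoImplicit false

open scoped BigOperators

namespace Pool.Agent.MPb0eP

/-- Complex tensors of format `(n + 1) × 2 × 2`. -/
abbrev Tensor (n : ℕ) : Type := Fin (n + 1) → Fin 2 → Fin 2 → ℂ

/-- The Frobenius bilinear form. -/
def form {n : ℕ} (S T : Tensor n) : ℂ := ∑ i, ∑ j, ∑ k, S i j k * T i j k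

/-- The sum of the entries; the hyperplane `H` is `total T = 1`. -/
def total {n : ℕ} (T : Tensor n) : ℂ := ∑ i, ∑ j, ∑ k, T i j k

/-- The tensor `u ⊗ v ⊗ w`. -/
def rk1 {n : ℕ} (u : Fin (n + 1) → ℂ) (v w : Fin 2 → ℂ) : Tensor n :=
  fun i j k => u i * v j * w k

/-- `X = u ⊗ v ⊗ w` is a point of `𝒮 ∩ H` and `T - X` is orthogonal to the tangent space of
`𝒮 ∩ H` at `X`, which consists of the tensors `u' ⊗ v ⊗ w + u ⊗ v' ⊗ w + u ⊗ v ⊗ w'` whose entries
add up to zero. (All points of `𝒮 ∩ H` are smooth, as they are nonzero.) -/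
def IsCritical {n : ℕ} (T X : Tensor n) : Prop :=
  total X = 1 ∧ ∃ (u : Fin (n + 1) → ℂ) (v w : Fin 2 → ℂ), X = rk1 u v w ∧
    ∀ (u' : Fin (n + 1) → ℂ) (v' w' : Fin 2 → ℂ),
      total (rk1 u' v w + rk1 u v' w + rk1 u v w') = 0 →
        form (T - X) (rk1 u' v w + rk1 u v' w + rk1 u v w') = 0

/-- All entries are real. -/
def IsReal {n : ℕ} (T : Tensor n) : Prop := ∀ i j k, (T i j k).im = 0

/-- The set of (complex) critical points. -/
def crit {n : ℕ} (T : Tensor n) : Set (Tensor n) := {X | IsCritical T X}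

/-- The set of real critical points. -/
def realCrit {n : ℕ} (T : Tensor n) : Set (Tensor n) := {X | IsCritical T X ∧ IsReal X}

/-- `N` is the number of critical points for generic `T` in `H`: it is the number of critical points
for every `T` in a nonempty Zariski open subset `{P ≠ 0}` of `H`. -/
def IsGenericNumber (n N : ℕ) : Prop :=
  ∃ P : MvPolynomial (Fin (n + 1) × Fin 2 × Fin 2) ℂ,
    (∃ T : Tensor n, total T = 1 ∧ MvPolynomial.eval (fun p => T p.1 p.2.1 p.2.2) P ≠ 0) ∧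
    ∀ T : Tensor n, total T = 1 → MvPolynomial.eval (fun p => T p.1 p.2.1 p.2.2) P ≠ 0 →
      (crit T).encard = N

/-- The vectors `(1, 1)` and `(1, -1)`. -/
def ep {R : Type} [CommRing R] (s : Fin 2) (j : Fin 2) : R := if s = 1 ∧ j = 1 then -1 else 1

/-- The first index of `1, y, z, yz`: the exponent of `y`. -/
def iy (s : Fin 4) : Fin 2 := if s = 1 ∨ s = 3 then 1 else 0

/-- The second index of `1, y, z, yz`: the exponent of `z`. -/
def iz (s : Fin 4) : Fin 2 := if s = 2 ∨ s = 3 then 1 else 0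

/-- The contraction of `T` with `u`, `ep s`, `ep s'`. -/
def ctr {n : ℕ} (T : Tensor n) (u : Fin (n + 1) → ℂ) (s s' : Fin 2) : ℂ :=
  ∑ i, ∑ j, ∑ k, T i j k * u i * ep s j * ep s' k

/-- The parameters of a tensor. -/
noncomputable def par {n : ℕ} (T : Tensor n) : Tp n ℂ :=
  Sum.elim (fun si => (Real.sqrt (n + 1) : ℂ) *
      ctr T (fun j => (fr n si.2 j : ℂ)) (iy si.1) (iz si.1))
    ![ctr T (fun _ => 1) 1 0, ctr T (fun _ => 1) 0 1, ctr T (fun _ => 1) 1 1]

/-- The tensor in `H` with given parameters. -/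
noncomputable def ten {n : ℕ} (t : Tp n ℂ) : Tensor n := fun i j k =>
  (1 / 4) * ((1 + ts t 0 * ep 1 j + ts t 1 * ep 1 k + ts t 2 * (ep 1 j * ep 1 k)) / ((n : ℂ) + 1) +
    ∑ l, (fr n l i : ℂ) * ((tv t 0 l + tv t 1 l * ep 1 j + tv t 2 l * ep 1 k +
      tv t 3 l * (ep 1 j * ep 1 k)) / (Real.sqrt (n + 1) : ℂ)))

/-- The first vector of the point with the coordinates `x, y, z`. -/
noncomputable def vx {n : ℕ} (x : Fin n → ℂ) : Fin (n + 1) → ℂ := fun j =>
  1 / ((n : ℂ) + 1) + (1 / (Real.sqrt (n + 1) : ℂ)) * ∑ i, x i * (fr n i j : ℂ)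

/-- The second and third vector. -/
noncomputable def vy (y : ℂ) : Fin 2 → ℂ := fun j => (1 + ep 1 j * y) / 2

/-- The point with the coordinates `x, y, z`. -/
noncomputable def pnt {n : ℕ} (u : (Fin n → ℂ) × ℂ × ℂ) : Tensor n :=
  rk1 (vx u.1) (vy u.2.1) (vy u.2.2)

end Pool.Agent.MPb0eP
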