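import Mathlib
import Pool.Agent.Lib.MP_b0e20b_ag_P.TDefs

/-!
# MP_b0e20b_ag, formats (n,1,1): parity
-/

set_option autoImplicit false

open scoped BigOperators

namespace Pool.Agent.MPb0eP

/-- An involution preserving a finite set: parity of the number of fixed points. -/
private lemma parity_aux {α : Type*} {S : Set α} (hfin : S.Finite) (f : α → α)
    (hf : ∀ x ∈ S, f x ∈ S) (hinv : ∀ x ∈ S, f (f x) = x) :
    Even (S.ncard + {x | x ∈ S ∧ f x = x}.ncard) := by
  classical
  obtain ⟨s, rfl⟩ := hfin.exists_finset_coe
  have h1 : {x | x ∈ (s : Set α) ∧ f x = x} =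
      ((s.filter (fun x => f x = x) : Finset α) : Set α) := by
    ext x
    simp
  rw [h1, Set.ncard_coe_finset, Set.ncard_coe_finset]
  have h2 : ∑ x ∈ s, (if f x = x then (0 : ZMod 2) else 1) = 0 := by
    apply Finset.sum_involution (fun x _ => f x)
    · intro x hx
      by_cases h : f x = x
      · simp [h]
      · have h3 : f (f x) ≠ f x := by
          rw [hinv x (by exact_mod_cast hx)]
          exact fun h4 => h h4.symm
        rw [if_neg h, if_neg h3]
        decide
    · intro x hx h3 h4
      simp only [h4, if_true] at h3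
      exact h3 rfl
    · intro x hx
      exact_mod_cast hf x (by exact_mod_cast hx)
    · intro x hx
      exact hinv x (by exact_mod_cast hx)
  have h3 : ∑ x ∈ s, (if f x = x then (0 : ZMod 2) else 1) =
      ((s.filter (fun x => ¬ f x = x)).card : ZMod 2) := by
    rw [Finset.card_filter]
    push_cast
    apply Finset.sum_congr rfl
    intro x _
    by_cases h : f x = x <;> simp [h]
  rw [h3] at h2
  have h4 : Even ((s.filter (fun x => ¬ f x = x)).card) := by
    rw [← ZMod.natCast_eq_zero_iff_even]
    exact h2
  have h5 := Finset.card_filter_add_card_filter_not (s := s) (fun x => f x = x)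
  rw [← h5]
  obtain ⟨c, hc⟩ := h4
  rw [hc]
  exact ⟨(s.filter (fun x => f x = x)).card + c, by ring⟩

/-- Conjugation of the entries. -/
private noncomputable def cj {n : ℕ} (T : Tensor n) : Tensor n :=
  fun i j k => starRingEnd ℂ (T i j k)

private lemma cj_apply {n : ℕ} (T : Tensor n) (i : Fin (n + 1)) (j k : Fin 2) :
    cj T i j k = starRingEnd ℂ (T i j k) := rfl

private lemma cj_cj {n : ℕ} (T : Tensor n) : cj (cj T) = T := by
  funext i j k
  simp [cj_apply]

private lemma cj_of_real {n : ℕ} {T : Tensor n} : cj T = T ↔ IsReal T := by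
  constructor
  · intro h i j k
    rw [← Complex.conj_eq_iff_im]
    exact congrFun (congrFun (congrFun h i) j) k
  · intro h
    funext i j k
    rw [cj_apply, Complex.conj_eq_iff_im.2 (h i j k)]

private lemma total_cj {n : ℕ} (T : Tensor n) : total (cj T) = starRingEnd ℂ (total T) := by
  unfold total
  simp only [map_sum, cj_apply]

private lemma form_cj {n : ℕ} (S T : Tensor n) :
    form (cj S) (cj T) = starRingEnd ℂ (form S T) := by
  unfold form
  simp only [map_sum, map_mul, cj_apply]

private lemma rk1_cj {n : ℕ} (u : Fin (n + 1) → ℂ) (v w : Fin 2 → ℂ) :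
    cj (rk1 u v w) = rk1 (fun i => starRingEnd ℂ (u i)) (fun i => starRingEnd ℂ (v i))
      (fun i => starRingEnd ℂ (w i)) := by
  funext i j k
  simp only [cj_apply, rk1, map_mul]

private lemma cj_add {n : ℕ} (S T : Tensor n) : cj (S + T) = cj S + cj T := by
  funext i j k
  simp only [cj_apply, Pi.add_apply, map_add]

private lemma cj_sub {n : ℕ} (S T : Tensor n) : cj (S - T) = cj S - cj T := by
  funext i j k
  simp only [cj_apply, Pi.sub_apply, map_sub]

private lemma conj_crit {n : ℕ} {T X : Tensor n} (hT : IsReal T) (h : IsCritical T X) :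
    IsCritical T (cj X) := by
  obtain ⟨h1, u, v, w, h2, h3⟩ := h
  refine ⟨by rw [total_cj, h1, map_one], fun i => starRingEnd ℂ (u i),
    fun i => starRingEnd ℂ (v i), fun i => starRingEnd ℂ (w i), ?_, ?_⟩
  · rw [h2, rk1_cj]
  · intro u' v' w' h4
    have h5 : rk1 u' (fun i => starRingEnd ℂ (v i)) (fun i => starRingEnd ℂ (w i)) +
        rk1 (fun i => starRingEnd ℂ (u i)) v' (fun i => starRingEnd ℂ (w i)) +
        rk1 (fun i => starRingEnd ℂ (u i)) (fun i => starRingEnd ℂ (v i)) w' =
        cj (rk1 (fun i => starRingEnd ℂ (u' i)) v w + rk1 u (fun i => starRingEnd ℂ (v' i)) w +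
          rk1 u v (fun i => starRingEnd ℂ (w' i))) := by
      funext i j k
      simp [cj_apply, rk1]
    rw [h5, total_cj] at h4
    have h6 := h3 (fun i => starRingEnd ℂ (u' i)) (fun i => starRingEnd ℂ (v' i))
      (fun i => starRingEnd ℂ (w' i)) (by
        have := congrArg (starRingEnd ℂ) h4
        simpa using this)
    have h7 : T - cj X = cj (T - X) := by
      rw [cj_sub, cj_of_real.2 hT]
    rw [h5, h7, form_cj, h6, map_zero]

/-- Proof. Complex conjugation of the entries maps `crit T` to itself, as `T` is real, and its fixed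
points in `crit T` are the elements of `realCrit T`. So `crit T \ realCrit T` is a finite set with a
fixed point free involution, it has an even number of elements (`Finset.card_involution` type
lemma, e.g. `Finset.even_card_of_involution` or a short induction; see also
`Pool/Agent/Lib/MP_b0e20b_ag/Final.lean` for the same statement for matrices). -/
theorem parity {n : ℕ} (T : Tensor n) (hT : IsReal T) {N k : ℕ} (h1 : (crit T).encard = N)
    (h2 : (realCrit T).encard = k) (hN : Odd N) : Odd k ∧ k ≤ N := by
  have hfin : (crit T).Finite := Set.finite_of_encard_eq_coe h1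
  have hset : realCrit T = {X | X ∈ crit T ∧ cj X = X} := by
    ext X
    constructor
    · rintro ⟨h3, h4⟩
      exact ⟨h3, cj_of_real.2 h4⟩
    · rintro ⟨h3, h4⟩
      exact ⟨h3, cj_of_real.1 h4⟩
  have h3 : (crit T).ncard = N := by
    rw [← hfin.cast_ncard_eq] at h1
    exact_mod_cast h1
  have hsub : realCrit T ⊆ crit T := fun X h => h.1
  have hfin2 : (realCrit T).Finite := hfin.subset hsub
  have h4 : (realCrit T).ncard = k := by
    rw [← hfin2.cast_ncard_eq] at h2
    exact_mod_cast h2
  constructor
  · have h5 := parity_aux hfin cj (fun X hX => conj_crit hT hX) (fun X _ => cj_cj X)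
    rw [← hset, h3, h4] at h5
    rw [← Nat.not_even_iff_odd] at hN ⊢
    intro h6
    exact hN ((Nat.even_add.1 h5).2 h6)
  · rw [← h3, ← h4]
    exact Set.ncard_le_ncard hsub hfin

end Pool.Agent.MPb0eP
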