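import Mathlib
import Pool.Agent.Lib.MP_b0e20b_ag_P.TDefs

/-!
# MP_b0e20b_ag, formats (n,1,1): coordinates of the points of the variety
-/

set_option autoImplicit false

open scoped BigOperators

namespace Pool.Agent.MPb0eP

private theorem tc1_sq_ne (n : ℕ) : (Real.sqrt (n + 1) : ℂ) ≠ 0 := by
  have h : Real.sqrt ((n : ℝ) + 1) ≠ 0 := (Real.sqrt_pos.2 (by positivity)).ne'
  exact_mod_cast h

private theorem tc1_n_ne (n : ℕ) : ((n : ℂ) + 1) ≠ 0 := by
  exact_mod_cast Nat.succ_ne_zero n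

/-- Vectors of sum one are the vectors `vx x`. Proof. `fr_expand`,
`x i = √(n+1) ∑ k, u k * fr n i k`. -/
theorem exists_vx {n : ℕ} (u : Fin (n + 1) → ℂ) (h : ∑ k, u k = 1) : ∃ x, u = vx x := by
  refine ⟨fun i => (Real.sqrt (n + 1) : ℂ) * ∑ k, u k * (fr n i k : ℂ), funext fun j => ?_⟩
  have hs := tc1_sq_ne n
  rw [vx, fr_expand n u j, h, Finset.mul_sum]
  congr 1
  refine Finset.sum_congr rfl fun i _ => ?_
  field_simp

theorem exists_vy (v : Fin 2 → ℂ) (h : ∑ k, v k = 1) : ∃ y, v = vy y := by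
  rw [Fin.sum_univ_two] at h
  refine ⟨v 0 - v 1, funext fun j => ?_⟩
  fin_cases j
  · simp only [vy, ep, Fin.zero_eta, Fin.isValue, zero_ne_one, and_false, if_false]
    linear_combination (1 / 2) * h
  · simp only [vy, ep, Fin.mk_one, Fin.isValue, and_self, if_true]
    linear_combination (1 / 2) * h

theorem sum_vx {n : ℕ} (x : Fin n → ℂ) : ∑ k, vx x k = 1 := by
  have hn := tc1_n_ne n
  unfold vx
  rw [Finset.sum_add_distrib, ← Finset.mul_sum, Finset.sum_comm]
  have h0 : ∑ i : Fin n, ∑ k : Fin (n + 1), x i * (fr n i k : ℂ) = 0 := by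
    refine Finset.sum_eq_zero fun i _ => ?_
    rw [← Finset.mul_sum, fr_sum, mul_zero]
  rw [h0, mul_zero, add_zero, Finset.sum_const, Finset.card_univ, Fintype.card_fin,
    nsmul_eq_mul, Nat.cast_add, Nat.cast_one, mul_one_div, div_self hn]

theorem sum_vy (y : ℂ) : ∑ k, vy y k = 1 := by
  rw [Fin.sum_univ_two]
  simp only [vy, ep, Fin.isValue, zero_ne_one, and_false, if_false, and_self, if_true]
  ring

private theorem tc1_sum_fr {n : ℕ} (x : Fin n → ℂ) (i : Fin n) :
    ∑ k, vx x k * (fr n i k : ℂ) = (1 / (Real.sqrt (n + 1) : ℂ)) * x i := by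
  have h1 : ∀ k, vx x k * (fr n i k : ℂ) = 1 / ((n : ℂ) + 1) * (fr n i k : ℂ) +
      (1 / (Real.sqrt (n + 1) : ℂ)) * ∑ l, x l * ((fr n l k : ℂ) * (fr n i k : ℂ)) := by
    intro k
    rw [vx, add_mul, mul_assoc (1 / (Real.sqrt (n + 1) : ℂ)), Finset.sum_mul]
    congr 2
    exact Finset.sum_congr rfl fun l _ => by ring
  simp only [h1]
  rw [Finset.sum_add_distrib, ← Finset.mul_sum, fr_sum, mul_zero, zero_add, ← Finset.mul_sum,
    Finset.sum_comm]
  congr 1
  have h2 : ∀ l, ∑ k, x l * ((fr n l k : ℂ) * (fr n i k : ℂ)) = if l = i then x l else 0 := by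
    intro l
    rw [← Finset.mul_sum, fr_orth, mul_ite, mul_one, mul_zero]
  simp only [h2]
  rw [Finset.sum_ite_eq' Finset.univ i x, if_pos (Finset.mem_univ _)]

private theorem tc1_vx_inj {n : ℕ} {x x' : Fin n → ℂ} (h : vx x = vx x') : x = x' := by
  funext i
  have h1 := tc1_sum_fr x i
  rw [h, tc1_sum_fr x' i] at h1
  exact (mul_left_cancel₀ (one_div_ne_zero (tc1_sq_ne n)) h1).symm

private theorem tc1_vy_inj {y y' : ℂ} (h : vy y = vy y') : y = y' := by
  have h0 := congrFun h 0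
  simp only [vy, ep, Fin.isValue, zero_ne_one, and_false, if_false] at h0
  linear_combination 2 * h0

private theorem tc1_first {n : ℕ} (u : Fin (n + 1) → ℂ) (v w : Fin 2 → ℂ) (i : Fin (n + 1)) :
    ∑ j, ∑ k, rk1 u v w i j k = u i * ((∑ j, v j) * ∑ k, w k) := by
  unfold rk1
  rw [Finset.sum_mul_sum, Finset.mul_sum]
  refine Finset.sum_congr rfl fun j _ => ?_
  rw [Finset.mul_sum]
  exact Finset.sum_congr rfl fun k _ => by ring

private theorem tc1_second {n : ℕ} (u : Fin (n + 1) → ℂ) (v w : Fin 2 → ℂ) (j : Fin 2) :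
    ∑ i, ∑ k, rk1 u v w i j k = v j * ((∑ i, u i) * ∑ k, w k) := by
  unfold rk1
  rw [Finset.sum_mul_sum, Finset.mul_sum]
  refine Finset.sum_congr rfl fun i _ => ?_
  rw [Finset.mul_sum]
  exact Finset.sum_congr rfl fun k _ => by ring

private theorem tc1_third {n : ℕ} (u : Fin (n + 1) → ℂ) (v w : Fin 2 → ℂ) (k : Fin 2) :
    ∑ i, ∑ j, rk1 u v w i j k = w k * ((∑ i, u i) * ∑ j, v j) := by
  unfold rk1
  rw [Finset.sum_mul_sum, Finset.mul_sum]
  refine Finset.sum_congr rfl fun i _ => ?_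
  rw [Finset.mul_sum]
  exact Finset.sum_congr rfl fun k _ => by ring

private theorem tc1_total {n : ℕ} (u : Fin (n + 1) → ℂ) (v w : Fin 2 → ℂ) :
    total (rk1 u v w) = (∑ i, u i) * ((∑ j, v j) * ∑ k, w k) := by
  unfold total
  simp only [tc1_first]
  rw [← Finset.sum_mul]

/-- Proof. The vector `vx x` is obtained from `X` by summing over the other two indices, and
`x i = √(n+1) ∑ k, (vx x) k * fr n i k` (`fr_sum`, `fr_orth`). -/
theorem pnt_inj {n : ℕ} : Function.Injective (pnt : (Fin n → ℂ) × ℂ × ℂ → Tensor n) := by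
  rintro ⟨x, y, z⟩ ⟨x', y', z'⟩ h
  have hX : rk1 (vx x) (vy y) (vy z) = rk1 (vx x') (vy y') (vy z') := h
  have h1 : vx x = vx x' := by
    funext i
    have e := tc1_first (vx x) (vy y) (vy z) i
    rw [hX, tc1_first] at e
    simpa only [sum_vy, mul_one] using e.symm
  have h2 : vy y = vy y' := by
    funext j
    have e := tc1_second (vx x) (vy y) (vy z) j
    rw [hX, tc1_second] at e
    simpa only [sum_vx, sum_vy, mul_one] using e.symm
  have h3 : vy z = vy z' := by
    funext k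
    have e := tc1_third (vx x) (vy y) (vy z) k
    rw [hX, tc1_third] at e
    simpa only [sum_vx, sum_vy, mul_one] using e.symm
  rw [tc1_vx_inj h1, tc1_vy_inj h2, tc1_vy_inj h3]

/-- Every critical point is of this form. Proof. Scale the vectors to sum one; `exists_vx`,
`exists_vy`. -/
theorem exists_pnt {n : ℕ} (T X : Tensor n) (h : IsCritical T X) : ∃ u, X = pnt u := by
  obtain ⟨ht, u, v, w, hX, -⟩ := h
  rw [hX, tc1_total] at ht
  have ha : ∑ i, u i ≠ 0 := left_ne_zero_of_mul_eq_one ht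
  have hbc := right_ne_zero_of_mul_eq_one ht
  have hb : ∑ j, v j ≠ 0 := left_ne_zero_of_mul hbc
  have hc : ∑ k, w k ≠ 0 := right_ne_zero_of_mul hbc
  obtain ⟨x, hx⟩ := exists_vx (fun i => u i / ∑ i, u i)
    (by rw [← Finset.sum_div, div_self ha])
  obtain ⟨y, hy⟩ := exists_vy (fun i => v i / ∑ i, v i)
    (by rw [← Finset.sum_div, div_self hb])
  obtain ⟨z, hz⟩ := exists_vy (fun i => w i / ∑ i, w i)
    (by rw [← Finset.sum_div, div_self hc])
  refine ⟨(x, y, z), ?_⟩
  rw [hX]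
  funext i j k
  change u i * v j * w k = vx x i * vy y j * vy z k
  rw [← hx, ← hy, ← hz]
  change u i * v j * w k = (u i / ∑ i, u i) * (v j / ∑ i, v i) * (w k / ∑ i, w i)
  rw [div_mul_div_comm, div_mul_div_comm, mul_assoc (∑ i, u i), ht, div_one]

end Pool.Agent.MPb0eP
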