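import Mathlib
import Pool.Agent.Lib.MP_b0e20b_ag_P.TDefs
import Pool.Agent.Lib.MP_b0e20b_ag_P.Tc1

/-!
# MP_b0e20b_ag, formats (n,1,1): the critical equations in coordinates
-/

set_option autoImplicit false

open scoped BigOperators

namespace Pool.Agent.MPb0eP

private theorem tc2_sq_ne (n : ℕ) : (Real.sqrt (n + 1) : ℂ) ≠ 0 := by
  have h : Real.sqrt ((n : ℝ) + 1) ≠ 0 := (Real.sqrt_pos.2 (by positivity)).ne'
  exact_mod_cast h

private theorem tc2_n_ne (n : ℕ) : ((n : ℂ) + 1) ≠ 0 := by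
  exact_mod_cast Nat.succ_ne_zero n

private theorem tc2_sq (n : ℕ) :
    (Real.sqrt (n + 1) : ℂ) * (Real.sqrt (n + 1) : ℂ) = (n : ℂ) + 1 := by
  have h : Real.sqrt ((n : ℝ) + 1) * Real.sqrt ((n : ℝ) + 1) = (n : ℝ) + 1 :=
    Real.mul_self_sqrt (by positivity)
  exact_mod_cast h

private theorem tc2_ep0 (j : Fin 2) : (ep 0 j : ℂ) = 1 := by
  simp [ep]

private theorem tc2_ep10 : (ep 1 0 : ℂ) = 1 := by
  simp [ep]

private theorem tc2_ep11 : (ep 1 1 : ℂ) = -1 := by
  simp [ep]

private theorem tc2_form_sub {n : ℕ} (S T Y : Tensor n) :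
    form (S - T) Y = form S Y - form T Y := by
  unfold form
  simp only [← Finset.sum_sub_distrib]
  refine Finset.sum_congr rfl fun i _ => Finset.sum_congr rfl fun j _ =>
    Finset.sum_congr rfl fun k _ => ?_
  simp only [Pi.sub_apply]
  ring

private theorem tc2_form_add {n : ℕ} (S Y Z : Tensor n) :
    form S (Y + Z) = form S Y + form S Z := by
  unfold form
  simp only [← Finset.sum_add_distrib]
  refine Finset.sum_congr rfl fun i _ => Finset.sum_congr rfl fun j _ =>
    Finset.sum_congr rfl fun k _ => ?_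
  simp only [Pi.add_apply]
  ring

private theorem tc2_form_zero {n : ℕ} (S : Tensor n) : form S 0 = 0 := by
  unfold form
  simp

private theorem tc2_form_smul {n : ℕ} (S Y : Tensor n) (a : ℂ) :
    form S (a • Y) = a * form S Y := by
  unfold form
  simp only [Finset.mul_sum]
  refine Finset.sum_congr rfl fun i _ => Finset.sum_congr rfl fun j _ =>
    Finset.sum_congr rfl fun k _ => ?_
  simp only [Pi.smul_apply, smul_eq_mul]
  ring

private theorem tc2_form_sum {n : ℕ} {ι : Type} (s : Finset ι) (S : Tensor n)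
    (Y : ι → Tensor n) : form S (∑ l ∈ s, Y l) = ∑ l ∈ s, form S (Y l) := by
  classical
  induction s using Finset.induction_on with
  | empty => simp [tc2_form_zero]
  | insert a s ha ih => rw [Finset.sum_insert ha, Finset.sum_insert ha, tc2_form_add, ih]

private theorem tc2_form_rk1 {n : ℕ} (u p : Fin (n + 1) → ℂ) (v w q r : Fin 2 → ℂ) :
    form (rk1 u v w) (rk1 p q r) =
      (∑ i, u i * p i) * ((∑ j, v j * q j) * ∑ k, w k * r k) := by
  unfold form rk1
  rw [Finset.sum_mul]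
  refine Finset.sum_congr rfl fun i _ => ?_
  rw [Finset.sum_mul_sum, Finset.mul_sum]
  refine Finset.sum_congr rfl fun j _ => ?_
  rw [Finset.mul_sum]
  exact Finset.sum_congr rfl fun k _ => by ring

private theorem tc2_first {n : ℕ} (u : Fin (n + 1) → ℂ) (v w : Fin 2 → ℂ) (i : Fin (n + 1)) :
    ∑ j, ∑ k, rk1 u v w i j k = u i * ((∑ j, v j) * ∑ k, w k) := by
  unfold rk1
  rw [Finset.sum_mul_sum, Finset.mul_sum]
  refine Finset.sum_congr rfl fun j _ => ?_
  rw [Finset.mul_sum]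
  exact Finset.sum_congr rfl fun k _ => by ring

private theorem tc2_second {n : ℕ} (u : Fin (n + 1) → ℂ) (v w : Fin 2 → ℂ) (j : Fin 2) :
    ∑ i, ∑ k, rk1 u v w i j k = v j * ((∑ i, u i) * ∑ k, w k) := by
  unfold rk1
  rw [Finset.sum_mul_sum, Finset.mul_sum]
  refine Finset.sum_congr rfl fun i _ => ?_
  rw [Finset.mul_sum]
  exact Finset.sum_congr rfl fun k _ => by ring

private theorem tc2_third {n : ℕ} (u : Fin (n + 1) → ℂ) (v w : Fin 2 → ℂ) (k : Fin 2) :
    ∑ i, ∑ j, rk1 u v w i j k = w k * ((∑ i, u i) * ∑ j, v j) := by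
  unfold rk1
  rw [Finset.sum_mul_sum, Finset.mul_sum]
  refine Finset.sum_congr rfl fun i _ => ?_
  rw [Finset.mul_sum]
  exact Finset.sum_congr rfl fun k _ => by ring

private theorem tc2_total {n : ℕ} (u : Fin (n + 1) → ℂ) (v w : Fin 2 → ℂ) :
    total (rk1 u v w) = (∑ i, u i) * ((∑ j, v j) * ∑ k, w k) := by
  unfold total
  simp only [tc2_first]
  rw [← Finset.sum_mul]

private theorem tc2_total_add {n : ℕ} (Y Z : Tensor n) :
    total (Y + Z) = total Y + total Z := by
  unfold total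
  simp only [← Finset.sum_add_distrib, Pi.add_apply]

/-- The critical points in terms of the three kinds of tangent vectors. -/
private theorem tc2_three {n : ℕ} (T : Tensor n) (x : Fin n → ℂ) (y z : ℂ) :
    IsCritical T (pnt (x, y, z)) ↔
      (∀ p : Fin (n + 1) → ℂ, ∑ i, p i = 0 →
        form (T - pnt (x, y, z)) (rk1 p (vy y) (vy z)) = 0) ∧
      (∀ q : Fin 2 → ℂ, ∑ i, q i = 0 →
        form (T - pnt (x, y, z)) (rk1 (vx x) q (vy z)) = 0) ∧
      (∀ r : Fin 2 → ℂ, ∑ i, r i = 0 →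
        form (T - pnt (x, y, z)) (rk1 (vx x) (vy y) r) = 0) := by
  have hX : (pnt (x, y, z) : Tensor n) = rk1 (vx x) (vy y) (vy z) := rfl
  constructor
  · rintro ⟨-, u, v, w, hX', h⟩
    have hE : rk1 (vx x) (vy y) (vy z) = rk1 u v w := hX.symm.trans hX'
    have h1 : ∀ i, vx x i = u i * ((∑ j, v j) * ∑ k, w k) := by
      intro i
      have e := tc2_first (vx x) (vy y) (vy z) i
      rw [hE, tc2_first] at e
      simpa only [sum_vy, mul_one] using e.symm
    have h2 : ∀ j, vy y j = v j * ((∑ i, u i) * ∑ k, w k) := by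
      intro j
      have e := tc2_second (vx x) (vy y) (vy z) j
      rw [hE, tc2_second] at e
      simpa only [sum_vx, sum_vy, mul_one] using e.symm
    have h3 : ∀ k, vy z k = w k * ((∑ i, u i) * ∑ j, v j) := by
      intro k
      have e := tc2_third (vx x) (vy y) (vy z) k
      rw [hE, tc2_third] at e
      simpa only [sum_vx, sum_vy, mul_one] using e.symm
    have h0 : (∑ i, u i) * ((∑ j, v j) * ∑ k, w k) = 1 := by
      have e := tc2_total (vx x) (vy y) (vy z)
      rw [hE, tc2_total] at e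
      simpa only [sum_vx, sum_vy, mul_one] using e
    set a := ∑ i, u i with ha
    set b := ∑ j, v j with hb
    set c := ∑ k, w k with hc
    refine ⟨fun p hp => ?_, fun q hq => ?_, fun r hr => ?_⟩
    · have e1 : rk1 (fun i => a * p i) v w + rk1 u (fun _ => 0) w + rk1 u v (fun _ => 0) =
          rk1 p (vy y) (vy z) := by
        funext i j k
        simp only [rk1, Pi.add_apply, h2, h3]
        linear_combination (-(a * p i * v j * w k)) * h0
      have e2 := h (fun i => a * p i) (fun _ => 0) (fun _ => 0)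
      rw [e1] at e2
      apply e2
      rw [tc2_total, hp, zero_mul]
    · have e1 : rk1 (fun _ => 0) v w + rk1 u (fun i => b * q i) w + rk1 u v (fun _ => 0) =
          rk1 (vx x) q (vy z) := by
        funext i j k
        simp only [rk1, Pi.add_apply, h1, h3]
        linear_combination (-(b * q j * u i * w k)) * h0
      have e2 := h (fun _ => 0) (fun i => b * q i) (fun _ => 0)
      rw [e1] at e2
      apply e2
      rw [tc2_total, hq, zero_mul, mul_zero]
    · have e1 : rk1 (fun _ => 0) v w + rk1 u (fun _ => 0) w + rk1 u v (fun i => c * r i) =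
          rk1 (vx x) (vy y) r := by
        funext i j k
        simp only [rk1, Pi.add_apply, h1, h2]
        linear_combination (-(c * r k * u i * v j)) * h0
      have e2 := h (fun _ => 0) (fun _ => 0) (fun i => c * r i)
      rw [e1] at e2
      apply e2
      rw [tc2_total, hr, mul_zero, mul_zero]
  · rintro ⟨hp, hq, hr⟩
    refine ⟨?_, vx x, vy y, vy z, hX, ?_⟩
    · rw [hX, tc2_total, sum_vx, sum_vy, sum_vy, mul_one, mul_one]
    · intro u' v' w' ht
      rw [tc2_total_add, tc2_total_add, tc2_total, tc2_total, tc2_total, sum_vx, sum_vy,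
        sum_vy, mul_one, mul_one, mul_one, one_mul, one_mul, one_mul] at ht
      set α := ∑ i, u' i with hα
      set β := ∑ j, v' j with hβ
      set γ := ∑ k, w' k with hγ
      have e1 : rk1 u' (vy y) (vy z) + rk1 (vx x) v' (vy z) + rk1 (vx x) (vy y) w' =
          rk1 (fun i => u' i - α * vx x i) (vy y) (vy z) +
            rk1 (vx x) (fun i => v' i - β * vy y i) (vy z) +
            rk1 (vx x) (vy y) (fun i => w' i - γ * vy z i) := by
        funext i j k
        simp only [rk1, Pi.add_apply]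
        linear_combination (vx x i * vy y j * vy z k) * ht
      rw [e1, tc2_form_add, tc2_form_add, hp, hq, hr, add_zero, add_zero]
      · rw [Finset.sum_sub_distrib, ← Finset.mul_sum, sum_vy, mul_one, ← hγ, sub_self]
      · rw [Finset.sum_sub_distrib, ← Finset.mul_sum, sum_vy, mul_one, ← hβ, sub_self]
      · rw [Finset.sum_sub_distrib, ← Finset.mul_sum, sum_vx, mul_one, ← hα, sub_self]

/-- The same with finitely many tangent vectors. -/
private theorem tc2_fin {n : ℕ} (S : Tensor n) (x : Fin n → ℂ) (y z : ℂ) :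
    ((∀ p : Fin (n + 1) → ℂ, ∑ i, p i = 0 → form S (rk1 p (vy y) (vy z)) = 0) ∧
      (∀ q : Fin 2 → ℂ, ∑ i, q i = 0 → form S (rk1 (vx x) q (vy z)) = 0) ∧
      (∀ r : Fin 2 → ℂ, ∑ i, r i = 0 → form S (rk1 (vx x) (vy y) r) = 0)) ↔
    ((∀ i, form S (rk1 (fun j => (fr n i j : ℂ)) (vy y) (vy z)) = 0) ∧
      form S (rk1 (vx x) (ep 1) (vy z)) = 0 ∧
      form S (rk1 (vx x) (vy y) (ep 1)) = 0) := by
  have hq0 : ∀ q : Fin 2 → ℂ, ∑ i, q i = 0 → q = fun j => q 0 * ep 1 j := by
    intro q hq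
    rw [Fin.sum_univ_two] at hq
    funext j
    fin_cases j
    · simp only [Fin.zero_eta, Fin.isValue, tc2_ep10, mul_one]
    · simp only [Fin.mk_one, Fin.isValue, tc2_ep11]
      linear_combination hq
  constructor
  · rintro ⟨hp, hq, hr⟩
    refine ⟨fun i => hp _ (fr_sum n i), hq _ ?_, hr _ ?_⟩ <;>
    · rw [Fin.sum_univ_two, tc2_ep10, tc2_ep11, add_neg_cancel]
  · rintro ⟨hp, hq, hr⟩
    refine ⟨fun p h => ?_, fun q h => ?_, fun r h => ?_⟩
    · have e : rk1 p (vy y) (vy z) = ∑ i : Fin n, (∑ k, p k * (fr n i k : ℂ)) •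
          rk1 (fun j => (fr n i j : ℂ)) (vy y) (vy z) := by
        funext i j k
        simp only [Finset.sum_apply, Pi.smul_apply, smul_eq_mul, rk1]
        have e1 := fr_expand n p i
        rw [h, zero_div, zero_add] at e1
        rw [e1, Finset.sum_mul, Finset.sum_mul]
        exact Finset.sum_congr rfl fun l _ => by ring
      rw [e, tc2_form_sum]
      refine Finset.sum_eq_zero fun i _ => ?_
      rw [tc2_form_smul, hp, mul_zero]
    · have e : rk1 (vx x) q (vy z) = q 0 • rk1 (vx x) (ep 1) (vy z) := by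
        funext i j k
        simp only [Pi.smul_apply, smul_eq_mul, rk1]
        have e1 := congrFun (hq0 q h) j
        rw [e1]
        ring
      rw [e, tc2_form_smul, hq, mul_zero]
    · have e : rk1 (vx x) (vy y) r = r 0 • rk1 (vx x) (vy y) (ep 1) := by
        funext i j k
        simp only [Pi.smul_apply, smul_eq_mul, rk1]
        have e1 := congrFun (hq0 r h) k
        rw [e1]
        ring
      rw [e, tc2_form_smul, hr, mul_zero]

private theorem tc2_F1 {n : ℕ} (T : Tensor n) (p : Fin (n + 1) → ℂ) (y z : ℂ) :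
    4 * form T (rk1 p (vy y) (vy z)) =
      ctr T p 0 0 + ctr T p 1 0 * y + ctr T p 0 1 * z + ctr T p 1 1 * (y * z) := by
  unfold form ctr
  simp only [Finset.sum_mul, Finset.mul_sum, ← Finset.sum_add_distrib]
  refine Finset.sum_congr rfl fun i _ => Finset.sum_congr rfl fun j _ =>
    Finset.sum_congr rfl fun k _ => ?_
  simp only [rk1, vy, tc2_ep0]
  ring

private theorem tc2_F2 {n : ℕ} (T : Tensor n) (p : Fin (n + 1) → ℂ) (z : ℂ) :
    2 * form T (rk1 p (ep 1) (vy z)) = ctr T p 1 0 + ctr T p 1 1 * z := by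
  unfold form ctr
  simp only [Finset.sum_mul, Finset.mul_sum, ← Finset.sum_add_distrib]
  refine Finset.sum_congr rfl fun i _ => Finset.sum_congr rfl fun j _ =>
    Finset.sum_congr rfl fun k _ => ?_
  simp only [rk1, vy, tc2_ep0]
  ring

private theorem tc2_F3 {n : ℕ} (T : Tensor n) (p : Fin (n + 1) → ℂ) (y : ℂ) :
    2 * form T (rk1 p (vy y) (ep 1)) = ctr T p 0 1 + ctr T p 1 1 * y := by
  unfold form ctr
  simp only [Finset.sum_mul, Finset.mul_sum, ← Finset.sum_add_distrib]
  refine Finset.sum_congr rfl fun i _ => Finset.sum_congr rfl fun j _ =>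
    Finset.sum_congr rfl fun k _ => ?_
  simp only [rk1, vy, tc2_ep0]
  ring

private theorem tc2_ctr {n : ℕ} (T : Tensor n) (u : Fin (n + 1) → ℂ) (s s' : Fin 2) :
    ctr T u s s' = ∑ i, u i * ∑ j, ∑ k, T i j k * ep s j * ep s' k := by
  unfold ctr
  simp only [Finset.mul_sum]
  refine Finset.sum_congr rfl fun i _ => Finset.sum_congr rfl fun j _ =>
    Finset.sum_congr rfl fun k _ => ?_
  ring

private theorem tc2_F4 {n : ℕ} (T : Tensor n) (x : Fin n → ℂ) (s s' : Fin 2) :
    ((n : ℂ) + 1) * ctr T (vx x) s s' = ctr T (fun _ => 1) s s' +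
      ∑ l, ((Real.sqrt (n + 1) : ℂ) * ctr T (fun j => (fr n l j : ℂ)) s s') * x l := by
  have h1 : ∀ i, ((n : ℂ) + 1) * vx x i =
      1 + ∑ l, (Real.sqrt (n + 1) : ℂ) * (x l * (fr n l i : ℂ)) := by
    intro i
    have hn := tc2_n_ne n
    have hs := tc2_sq_ne n
    have hq := tc2_sq n
    rw [vx, mul_add, mul_one_div, div_self hn, ← Finset.mul_sum, ← mul_assoc]
    congr 2
    rw [← hq]
    field_simp
  simp only [tc2_ctr]
  set a : Fin (n + 1) → ℂ := fun i => ∑ j, ∑ k, T i j k * ep s j * ep s' k with ha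
  change ((n : ℂ) + 1) * ∑ i, vx x i * a i = ∑ i, 1 * a i +
    ∑ l, ((Real.sqrt (n + 1) : ℂ) * ∑ i, (fr n l i : ℂ) * a i) * x l
  have e1 : ((n : ℂ) + 1) * ∑ i, vx x i * a i = ∑ i, (1 * a i +
      ∑ l, (Real.sqrt (n + 1) : ℂ) * (x l * (fr n l i : ℂ)) * a i) := by
    rw [Finset.mul_sum]
    refine Finset.sum_congr rfl fun i _ => ?_
    rw [← mul_assoc, h1, add_mul, Finset.sum_mul]
  rw [e1, Finset.sum_add_distrib, Finset.sum_comm]
  congr 1
  refine Finset.sum_congr rfl fun l _ => ?_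
  rw [Finset.mul_sum, Finset.sum_mul]
  exact Finset.sum_congr rfl fun i _ => by ring

private theorem tc2_fr_vx {n : ℕ} (x : Fin n → ℂ) (i : Fin n) :
    (Real.sqrt (n + 1) : ℂ) * ∑ k, vx x k * (fr n i k : ℂ) = x i := by
  have h1 : ∀ k, vx x k * (fr n i k : ℂ) = 1 / ((n : ℂ) + 1) * (fr n i k : ℂ) +
      (1 / (Real.sqrt (n + 1) : ℂ)) * ∑ l, x l * ((fr n l k : ℂ) * (fr n i k : ℂ)) := by
    intro k
    rw [vx, add_mul, mul_assoc (1 / (Real.sqrt (n + 1) : ℂ)), Finset.sum_mul]
    congr 2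
    exact Finset.sum_congr rfl fun l _ => by ring
  simp only [h1]
  rw [Finset.sum_add_distrib, ← Finset.mul_sum, fr_sum, mul_zero, zero_add, ← Finset.mul_sum,
    Finset.sum_comm]
  have h2 : ∀ l, ∑ k, x l * ((fr n l k : ℂ) * (fr n i k : ℂ)) = if l = i then x l else 0 := by
    intro l
    rw [← Finset.mul_sum, fr_orth, mul_ite, mul_one, mul_zero]
  simp only [h2]
  rw [Finset.sum_ite_eq' Finset.univ i x, if_pos (Finset.mem_univ _), ← mul_assoc,
    mul_one_div, div_self (tc2_sq_ne n), one_mul]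

private theorem tc2_vx_sq {n : ℕ} (x : Fin n → ℂ) :
    ((n : ℂ) + 1) * ∑ k, vx x k * vx x k = 1 + dot x x := by
  have hs := tc2_sq_ne n
  have h1 : ∀ k, ((n : ℂ) + 1) * (vx x k * vx x k) =
      vx x k + ∑ l, x l * ((Real.sqrt (n + 1) : ℂ) * (vx x k * (fr n l k : ℂ))) := by
    intro k
    have hn := tc2_n_ne n
    have hq := tc2_sq n
    have e : ((n : ℂ) + 1) * vx x k = 1 + (Real.sqrt (n + 1) : ℂ) *
        ∑ l, x l * (fr n l k : ℂ) := by
      rw [vx, mul_add, mul_one_div, div_self hn, ← mul_assoc]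
      congr 2
      rw [← hq]
      field_simp
    rw [← mul_assoc, e, add_mul, one_mul, mul_assoc, Finset.sum_mul, Finset.mul_sum]
    congr 1
    exact Finset.sum_congr rfl fun l _ => by ring
  rw [Finset.mul_sum]
  simp only [h1]
  rw [Finset.sum_add_distrib, sum_vx, Finset.sum_comm]
  congr 1
  unfold dot
  refine Finset.sum_congr rfl fun l _ => ?_
  rw [← Finset.mul_sum, ← Finset.mul_sum, tc2_fr_vx]

private theorem tc2_vy_sq (y : ℂ) : 2 * ∑ k, vy y k * vy y k = 1 + y ^ 2 := by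
  rw [Fin.sum_univ_two]
  simp only [vy, tc2_ep10, tc2_ep11]
  ring

private theorem tc2_vy_ep (y : ℂ) : ∑ k, vy y k * ep 1 k = y := by
  rw [Fin.sum_univ_two]
  simp only [vy, tc2_ep10, tc2_ep11]
  ring

private theorem tc2_tv {n : ℕ} (T : Tensor n) (s : Fin 4) (i : Fin n) :
    tv (par T) s i = (Real.sqrt (n + 1) : ℂ) *
      ctr T (fun j => (fr n i j : ℂ)) (iy s) (iz s) := rfl

private theorem tc2_ts0 {n : ℕ} (T : Tensor n) :
    ts (par T) 0 = ctr T (fun _ => 1) 1 0 := rfl

private theorem tc2_ts1 {n : ℕ} (T : Tensor n) :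
    ts (par T) 1 = ctr T (fun _ => 1) 0 1 := rfl

private theorem tc2_ts2 {n : ℕ} (T : Tensor n) :
    ts (par T) 2 = ctr T (fun _ => 1) 1 1 := rfl

private theorem tc2_iy : iy 0 = 0 ∧ iy 1 = 1 ∧ iy 2 = 0 ∧ iy 3 = 1 := by
  refine ⟨?_, ?_, ?_, ?_⟩ <;> decide

private theorem tc2_iz : iz 0 = 0 ∧ iz 1 = 0 ∧ iz 2 = 1 ∧ iz 3 = 1 := by
  refine ⟨?_, ?_, ?_, ?_⟩ <;> decide

/-- The critical equations in coordinates.

Proof. `total (rk1 u v w) = (∑ u)(∑ v)(∑ w)`, so `total (pnt (x,y,z)) = 1`. Let `u, v, w` be the three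
vectors of `pnt`. The tangent vectors with total zero: decompose `u' = α u + u₀`, `v' = β v + v₀`,
`w' = γ w + w₀` with `∑ u₀ = 0` etc.; the total is `α + β + γ`, so the tangent vector is
`u₀ ⊗ v ⊗ w + u ⊗ v₀ ⊗ w + u ⊗ v ⊗ w₀`. So `X` is critical iff `T - X` is orthogonal to the tensors
`fr i ⊗ v ⊗ w`, `u ⊗ (1,-1) ⊗ w`, `u ⊗ v ⊗ (1,-1)`. With `∑ u² = (1 + x·x)/(n+1)`,
`∑ v² = (1+y²)/2`, `∑ w² = (1+z²)/2`, `∑ u (fr i) = x i/√(n+1)`, `∑ v (1,-1) = y` and
`form T (u ⊗ v ⊗ w)` expanded in `ctr`, these are the three groups of equations of `Sys (par T)`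
(multiplied by `4 √(n+1)`, `2 (n+1)`, `2 (n+1)`). For the converse direction the decomposition of `X`
as `rk1 u v w` in `IsCritical` may be another one: if `X = rk1 u v w` has total `1` then after scaling
the three vectors have sum one (the tangent space does not change) and they are the vectors of `pnt`
by `pnt_inj`. -/
theorem isCritical_pnt {n : ℕ} (T : Tensor n) (x : Fin n → ℂ) (y z : ℂ) :
    IsCritical T (pnt (x, y, z)) ↔ Sys (par T) x y z := by
  rw [tc2_three, tc2_fin]
  obtain ⟨hy0, hy1, hy2, hy3⟩ := tc2_iy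
  obtain ⟨hz0, hz1, hz2, hz3⟩ := tc2_iz
  have hs := tc2_sq_ne n
  have hn := tc2_n_ne n
  have hX : (pnt (x, y, z) : Tensor n) = rk1 (vx x) (vy y) (vy z) := rfl
  have hxx := tc2_vx_sq x
  have hyy := tc2_vy_sq y
  have hzz := tc2_vy_sq z
  have k1 : ∀ i, 4 * (Real.sqrt (n + 1) : ℂ) *
      form (T - pnt (x, y, z)) (rk1 (fun j => (fr n i j : ℂ)) (vy y) (vy z)) =
      (tv (par T) 0 i + tv (par T) 1 i * y + tv (par T) 2 i * z + tv (par T) 3 i * (y * z)) -
        x i * ((1 + y ^ 2) * (1 + z ^ 2)) := by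
    intro i
    have e1 := tc2_F1 T (fun j => (fr n i j : ℂ)) y z
    have e2 := tc2_fr_vx x i
    rw [tc2_form_sub, hX, tc2_form_rk1, tc2_tv, tc2_tv, tc2_tv, tc2_tv, hy0, hy1, hy2, hy3,
      hz0, hz1, hz2, hz3, ← hyy, ← hzz, ← e2]
    linear_combination (Real.sqrt (n + 1) : ℂ) * e1
  have k2 : 2 * ((n : ℂ) + 1) * form (T - pnt (x, y, z)) (rk1 (vx x) (ep 1) (vy z)) =
      (ts (par T) 0 + dot (tv (par T) 1) x + ts (par T) 2 * z + dot (tv (par T) 3) x * z) -
        y * ((1 + dot x x) * (1 + z ^ 2)) := by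
    have e1 := tc2_F2 T (vx x) z
    have e3 := tc2_F4 T x 1 0
    have e4 := tc2_F4 T x 1 1
    have d1 : dot (tv (par T) 1) x =
        ∑ l, ((Real.sqrt (n + 1) : ℂ) * ctr T (fun j => (fr n l j : ℂ)) 1 0) * x l := by
      unfold dot
      exact Finset.sum_congr rfl fun l _ => by rw [tc2_tv, hy1, hz1]
    have d3 : dot (tv (par T) 3) x =
        ∑ l, ((Real.sqrt (n + 1) : ℂ) * ctr T (fun j => (fr n l j : ℂ)) 1 1) * x l := by
      unfold dot
      exact Finset.sum_congr rfl fun l _ => by rw [tc2_tv, hy3, hz3]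
    rw [← d1, ← tc2_ts0] at e3
    rw [← d3, ← tc2_ts2] at e4
    rw [tc2_form_sub, hX, tc2_form_rk1, tc2_vy_ep, ← hxx, ← hzz]
    linear_combination ((n : ℂ) + 1) * e1 + e3 + z * e4
  have k3 : 2 * ((n : ℂ) + 1) * form (T - pnt (x, y, z)) (rk1 (vx x) (vy y) (ep 1)) =
      (ts (par T) 1 + dot (tv (par T) 2) x + ts (par T) 2 * y + dot (tv (par T) 3) x * y) -
        z * ((1 + dot x x) * (1 + y ^ 2)) := by
    have e1 := tc2_F3 T (vx x) y
    have e3 := tc2_F4 T x 0 1
    have e4 := tc2_F4 T x 1 1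
    have d1 : dot (tv (par T) 2) x =
        ∑ l, ((Real.sqrt (n + 1) : ℂ) * ctr T (fun j => (fr n l j : ℂ)) 0 1) * x l := by
      unfold dot
      exact Finset.sum_congr rfl fun l _ => by rw [tc2_tv, hy2, hz2]
    have d3 : dot (tv (par T) 3) x =
        ∑ l, ((Real.sqrt (n + 1) : ℂ) * ctr T (fun j => (fr n l j : ℂ)) 1 1) * x l := by
      unfold dot
      exact Finset.sum_congr rfl fun l _ => by rw [tc2_tv, hy3, hz3]
    rw [← d1, ← tc2_ts1] at e3
    rw [← d3, ← tc2_ts2] at e4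
    rw [tc2_form_sub, hX, tc2_form_rk1, tc2_vy_ep, ← hxx, ← hyy]
    linear_combination ((n : ℂ) + 1) * e1 + e3 + y * e4
  have c1 : (4 * (Real.sqrt (n + 1) : ℂ)) ≠ 0 := mul_ne_zero (by norm_num) hs
  have c2 : (2 * ((n : ℂ) + 1)) ≠ 0 := mul_ne_zero (by norm_num) hn
  constructor
  · rintro ⟨h1, h2, h3⟩
    refine ⟨fun i => ?_, ?_, ?_⟩
    · have e := k1 i
      rw [h1, mul_zero] at e
      exact (sub_eq_zero.1 e.symm).symm
    · rw [h2, mul_zero] at k2
      exact (sub_eq_zero.1 k2.symm).symm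
    · rw [h3, mul_zero] at k3
      exact (sub_eq_zero.1 k3.symm).symm
  · rintro ⟨h1, h2, h3⟩
    refine ⟨fun i => ?_, ?_, ?_⟩
    · have e := k1 i
      rw [h1, sub_self] at e
      exact (mul_eq_zero.1 e).resolve_left c1
    · rw [h2, sub_self] at k2
      exact (mul_eq_zero.1 k2).resolve_left c2
    · rw [h3, sub_self] at k3
      exact (mul_eq_zero.1 k3).resolve_left c2

end Pool.Agent.MPb0eP
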