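import Mathlib
import Pool.Agent.Lib.MP_b0e20b_ag_P.TDefs
import Pool.Agent.Lib.MP_b0e20b_ag_P.Tc1
import Pool.Agent.Lib.MP_b0e20b_ag_P.Tc2

/-!
# MP_b0e20b_ag, formats (n,1,1): counting critical points
-/

set_option autoImplicit false

open scoped BigOperators

namespace Pool.Agent.MPb0eP

theorem crit_encard {n : ℕ} (T : Tensor n) : (crit T).encard = (Sol (par T)).encard := by
  have h : crit T = pnt '' Sol (par T) := by
    ext X
    constructor
    · intro hX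
      obtain ⟨⟨x, y, z⟩, rfl⟩ := exists_pnt T X hX
      exact ⟨(x, y, z), (isCritical_pnt T x y z).1 hX, rfl⟩
    · rintro ⟨⟨x, y, z⟩, hu, rfl⟩
      exact (isCritical_pnt T x y z).2 hu
  rw [h, pnt_inj.encard_image]

private theorem tc3_sq_ne (n : ℕ) : (Real.sqrt (n + 1) : ℂ) ≠ 0 := by
  have h : Real.sqrt ((n : ℝ) + 1) ≠ 0 := (Real.sqrt_pos.2 (by positivity)).ne'
  exact_mod_cast h

private theorem tc3_n_ne (n : ℕ) : ((n : ℂ) + 1) ≠ 0 := by
  exact_mod_cast Nat.succ_ne_zero n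

/-- The vector part of the coefficients of a tensor. -/
private noncomputable def tc3S {n : ℕ} (t : Tp n ℂ) (s : Fin 4) (i : Fin (n + 1)) : ℂ :=
  ∑ l, (fr n l i : ℂ) * (tv t s l / (Real.sqrt (n + 1) : ℂ))

/-- The scalar part of the coefficients of a tensor. -/
private def tc3A {n : ℕ} (t : Tp n ℂ) : Fin 4 → ℂ := ![1, ts t 0, ts t 1, ts t 2]

private theorem tc3_ten {n : ℕ} (t : Tp n ℂ) (i : Fin (n + 1)) (j k : Fin 2) :
    ten t i j k = (1 / 4) * ((1 + ts t 0 * ep 1 j + ts t 1 * ep 1 k +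
      ts t 2 * (ep 1 j * ep 1 k)) / ((n : ℂ) + 1) +
      (tc3S t 0 i + tc3S t 1 i * ep 1 j + tc3S t 2 i * ep 1 k +
        tc3S t 3 i * (ep 1 j * ep 1 k))) := by
  unfold ten tc3S
  congr 2
  rw [Finset.sum_mul, Finset.sum_mul, Finset.sum_mul, ← Finset.sum_add_distrib,
    ← Finset.sum_add_distrib, ← Finset.sum_add_distrib]
  refine Finset.sum_congr rfl fun l _ => ?_
  ring

private theorem tc3_ep10 : (ep 1 0 : ℂ) = 1 := by simp [ep]

private theorem tc3_ep11 : (ep 1 1 : ℂ) = -1 := by simp [ep]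

private theorem tc3_ep0 (j : Fin 2) : (ep 0 j : ℂ) = 1 := by simp [ep]

private theorem tc3_sum {n : ℕ} (t : Tp n ℂ) (i : Fin (n + 1)) (s : Fin 4) :
    ∑ j, ∑ k, ten t i j k * ep (iy s) j * ep (iz s) k =
      tc3A t s / ((n : ℂ) + 1) + tc3S t s i := by
  have hn := tc3_n_ne n
  simp only [tc3_ten, Fin.sum_univ_two]
  fin_cases s
  · have h1 : iy (⟨0, by omega⟩ : Fin 4) = 0 := by decide
    have h2 : iz (⟨0, by omega⟩ : Fin 4) = 0 := by decide
    rw [h1, h2]
    simp only [tc3_ep0, tc3_ep10, tc3_ep11]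
    change _ = 1 / ((n : ℂ) + 1) + tc3S t 0 i
    ring
  · have h1 : iy (⟨1, by omega⟩ : Fin 4) = 1 := by decide
    have h2 : iz (⟨1, by omega⟩ : Fin 4) = 0 := by decide
    rw [h1, h2]
    simp only [tc3_ep0, tc3_ep10, tc3_ep11]
    change _ = ts t 0 / ((n : ℂ) + 1) + tc3S t 1 i
    ring
  · have h1 : iy (⟨2, by omega⟩ : Fin 4) = 0 := by decide
    have h2 : iz (⟨2, by omega⟩ : Fin 4) = 1 := by decide
    rw [h1, h2]
    simp only [tc3_ep0, tc3_ep10, tc3_ep11]
    change _ = ts t 1 / ((n : ℂ) + 1) + tc3S t 2 i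
    ring
  · have h1 : iy (⟨3, by omega⟩ : Fin 4) = 1 := by decide
    have h2 : iz (⟨3, by omega⟩ : Fin 4) = 1 := by decide
    rw [h1, h2]
    simp only [tc3_ep10, tc3_ep11]
    change _ = ts t 2 / ((n : ℂ) + 1) + tc3S t 3 i
    ring

private theorem tc3_ctr {n : ℕ} (t : Tp n ℂ) (u : Fin (n + 1) → ℂ) (s : Fin 4) :
    ctr (ten t) u (iy s) (iz s) =
      tc3A t s / ((n : ℂ) + 1) * ∑ i, u i + ∑ i, u i * tc3S t s i := by
  unfold ctr
  rw [Finset.mul_sum, ← Finset.sum_add_distrib]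
  refine Finset.sum_congr rfl fun i _ => ?_
  have h : tc3A t s / ((n : ℂ) + 1) * u i + u i * tc3S t s i =
      u i * (tc3A t s / ((n : ℂ) + 1) + tc3S t s i) := by ring
  rw [h, ← tc3_sum, Finset.mul_sum]
  refine Finset.sum_congr rfl fun j _ => ?_
  rw [Finset.mul_sum]
  exact Finset.sum_congr rfl fun k _ => by ring

private theorem tc3_dotS {n : ℕ} (t : Tp n ℂ) (u : Fin (n + 1) → ℂ) (s : Fin 4) :
    ∑ i, u i * tc3S t s i =
      ∑ l, (∑ i, u i * (fr n l i : ℂ)) * (tv t s l / (Real.sqrt (n + 1) : ℂ)) := by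
  unfold tc3S
  simp only [Finset.mul_sum, Finset.sum_mul]
  rw [Finset.sum_comm]
  exact Finset.sum_congr rfl fun l _ => Finset.sum_congr rfl fun i _ => by ring

private theorem tc3_ctr_one {n : ℕ} (t : Tp n ℂ) (s : Fin 4) :
    ctr (ten t) (fun _ => 1) (iy s) (iz s) = tc3A t s := by
  have hn := tc3_n_ne n
  rw [tc3_ctr, tc3_dotS]
  have h0 : ∀ l : Fin n, ∑ i, (1 : ℂ) * (fr n l i : ℂ) = 0 := by
    intro l
    simp only [one_mul]
    exact fr_sum n l
  simp only [h0, zero_mul, Finset.sum_const_zero, add_zero]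
  rw [Finset.sum_const, Finset.card_univ, Fintype.card_fin, nsmul_eq_mul, mul_one,
    Nat.cast_add, Nat.cast_one, div_mul_cancel₀ _ hn]

private theorem tc3_ctr_fr {n : ℕ} (t : Tp n ℂ) (l : Fin n) (s : Fin 4) :
    ctr (ten t) (fun j => (fr n l j : ℂ)) (iy s) (iz s) =
      tv t s l / (Real.sqrt (n + 1) : ℂ) := by
  rw [tc3_ctr, tc3_dotS, fr_sum, mul_zero, zero_add]
  simp only [fr_orth, ite_mul, one_mul, zero_mul]
  rw [Finset.sum_ite_eq Finset.univ l, if_pos (Finset.mem_univ _)]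

/-- Proof. `fr_sum`, `fr_orth`, `∑ j, ep s j * ep s' j = if s = s' then 2 else 0`. -/
theorem par_ten {n : ℕ} (t : Tp n ℂ) : par (ten t) = t := by
  have hs := tc3_sq_ne n
  funext q
  rcases q with ⟨s, l⟩ | s
  · change (Real.sqrt (n + 1) : ℂ) * ctr (ten t) (fun j => (fr n l j : ℂ)) (iy s) (iz s) = _
    rw [tc3_ctr_fr, mul_div_cancel₀ _ hs]
    rfl
  · have h1 := tc3_ctr_one t 1
    have h2 := tc3_ctr_one t 2
    have h3 := tc3_ctr_one t 3
    have e1 : iy 1 = 1 ∧ iz 1 = 0 := by decide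
    have e2 : iy 2 = 0 ∧ iz 2 = 1 := by decide
    have e3 : iy 3 = 1 ∧ iz 3 = 1 := by decide
    rw [e1.1, e1.2] at h1
    rw [e2.1, e2.2] at h2
    rw [e3.1, e3.2] at h3
    fin_cases s
    · exact h1
    · exact h2
    · exact h3

theorem total_ten {n : ℕ} (t : Tp n ℂ) : total (ten t) = 1 := by
  have h := tc3_ctr_one t 0
  have e : iy 0 = 0 ∧ iz 0 = 0 := by decide
  rw [e.1, e.2] at h
  refine Eq.trans ?_ h
  unfold total ctr
  simp only [tc3_ep0, mul_one]

theorem isReal_ten {n : ℕ} (t : Tp n ℝ) : IsReal (ten (toC t)) := by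
  intro i j k
  have he : ∀ a b : Fin 2, (ep a b : ℂ) = ((ep a b : ℝ) : ℂ) := by
    intro a b
    unfold ep
    split_ifs <;> simp
  have h : ten (toC t) i j k = (((1 / 4) * ((1 + ts t 0 * ep 1 j + ts t 1 * ep 1 k +
      ts t 2 * (ep 1 j * ep 1 k)) / ((n : ℝ) + 1) +
    ∑ l, fr n l i * ((tv t 0 l + tv t 1 l * ep 1 j + tv t 2 l * ep 1 k +
      tv t 3 l * (ep 1 j * ep 1 k)) / Real.sqrt (n + 1))) : ℝ) : ℂ) := by
    unfold ten toC ts tv
    push_cast
    simp only [he]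
  rw [h, Complex.ofReal_im]

private theorem tc3_sum_fr {n : ℕ} (x : Fin n → ℂ) (i : Fin n) :
    (Real.sqrt (n + 1) : ℂ) * ∑ k, vx x k * (fr n i k : ℂ) = x i := by
  have h1 : ∀ k, vx x k * (fr n i k : ℂ) = 1 / ((n : ℂ) + 1) * (fr n i k : ℂ) +
      (1 / (Real.sqrt (n + 1) : ℂ)) * ∑ l, x l * ((fr n l k : ℂ) * (fr n i k : ℂ)) := by
    intro k
    rw [vx, add_mul, mul_assoc (1 / (Real.sqrt (n + 1) : ℂ)), Finset.sum_mul]
    congr 2
    exact Finset.sum_congr rfl fun l _ => by ring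
  simp only [h1]
  rw [Finset.sum_add_distrib, ← Finset.mul_sum, fr_sum, mul_zero, zero_add, ← Finset.mul_sum,
    Finset.sum_comm, ← mul_assoc, mul_one_div, div_self (tc3_sq_ne n), one_mul]
  have h2 : ∀ l, ∑ k, x l * ((fr n l k : ℂ) * (fr n i k : ℂ)) = if l = i then x l else 0 := by
    intro l
    rw [← Finset.mul_sum, fr_orth, mul_ite, mul_one, mul_zero]
  simp only [h2]
  rw [Finset.sum_ite_eq' Finset.univ i x, if_pos (Finset.mem_univ _)]

private theorem tc3_first {n : ℕ} (u : (Fin n → ℂ) × ℂ × ℂ) (i : Fin (n + 1)) :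
    ∑ j, ∑ k, pnt u i j k = vx u.1 i := by
  have h : ∀ j k, pnt u i j k = vx u.1 i * (vy u.2.1 j * vy u.2.2 k) :=
    fun j k => mul_assoc _ _ _
  simp only [h]
  simp only [← Finset.mul_sum, ← Finset.sum_mul]
  rw [sum_vy, sum_vy, mul_one, mul_one]

private theorem tc3_second {n : ℕ} (u : (Fin n → ℂ) × ℂ × ℂ) (j : Fin 2) :
    ∑ i, ∑ k, pnt u i j k = vy u.2.1 j := by
  have h : ∀ i k, pnt u i j k = vy u.2.1 j * (vx u.1 i * vy u.2.2 k) := fun i k => by
    change vx u.1 i * vy u.2.1 j * vy u.2.2 k = _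
    ring
  simp only [h]
  simp only [← Finset.mul_sum, ← Finset.sum_mul]
  rw [sum_vx, sum_vy, mul_one, mul_one]

private theorem tc3_third {n : ℕ} (u : (Fin n → ℂ) × ℂ × ℂ) (k : Fin 2) :
    ∑ i, ∑ j, pnt u i j k = vy u.2.2 k := by
  have h : ∀ i j, pnt u i j k = vy u.2.2 k * (vx u.1 i * vy u.2.1 j) := fun i j => by
    change vx u.1 i * vy u.2.1 j * vy u.2.2 k = _
    ring
  simp only [h]
  simp only [← Finset.mul_sum, ← Finset.sum_mul]
  rw [sum_vx, sum_vy, mul_one, mul_one]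

private theorem tc3_vy {y : ℂ} (h : (vy y 0).im = 0) : y.im = 0 := by
  have e : y = 2 * vy y 0 - 1 := by
    simp only [vy, tc3_ep10]
    ring
  rw [e]
  simp [h]

private theorem tc3_re {z : ℂ} (h : z.im = 0) : z = (z.re : ℂ) := by
  apply Complex.ext <;> simp [h]

/-- The coordinates of a real point are real. -/
private theorem tc3_real {n : ℕ} {u : (Fin n → ℂ) × ℂ × ℂ} (h : IsReal (pnt u)) :
    (∀ i, (u.1 i).im = 0) ∧ u.2.1.im = 0 ∧ u.2.2.im = 0 := by
  refine ⟨fun i => ?_, ?_, ?_⟩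
  · have hv : ∀ k, (vx u.1 k).im = 0 := by
      intro k
      rw [← tc3_first]
      simp only [Complex.im_sum]
      exact Finset.sum_eq_zero fun j _ => Finset.sum_eq_zero fun l _ => h k j l
    rw [← tc3_sum_fr u.1 i, Complex.im_ofReal_mul, Complex.im_sum]
    simp [hv]
  · refine tc3_vy ?_
    rw [← tc3_second]
    simp only [Complex.im_sum]
    exact Finset.sum_eq_zero fun j _ => Finset.sum_eq_zero fun l _ => h j 0 l
  · refine tc3_vy ?_
    rw [← tc3_third]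
    simp only [Complex.im_sum]
    exact Finset.sum_eq_zero fun j _ => Finset.sum_eq_zero fun l _ => h j l 0

/-- Complexification of a point. -/
private def tc3C {n : ℕ} (u : (Fin n → ℝ) × ℝ × ℝ) : (Fin n → ℂ) × ℂ × ℂ :=
  (fun i => (u.1 i : ℂ), (u.2.1 : ℂ), (u.2.2 : ℂ))

private theorem tc3C_inj {n : ℕ} :
    Function.Injective (tc3C : (Fin n → ℝ) × ℝ × ℝ → (Fin n → ℂ) × ℂ × ℂ) := by
  rintro ⟨x, y, z⟩ ⟨x', y', z'⟩ h
  simp only [tc3C, Prod.mk.injEq, Complex.ofReal_inj] at h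
  obtain ⟨h1, h2, h3⟩ := h
  subst h2 h3
  have : x = x' := by
    funext i
    exact Complex.ofReal_injective (congrFun h1 i)
  rw [this]

private theorem tc3_dot {n : ℕ} (x y : Fin n → ℝ) :
    dot (fun i => (x i : ℂ)) (fun i => (y i : ℂ)) = ((dot x y : ℝ) : ℂ) := by
  unfold dot
  push_cast
  rfl

private theorem tc3_sys {n : ℕ} (t : Tp n ℝ) (x : Fin n → ℝ) (y z : ℝ) :
    Sys (toC t) (fun i => (x i : ℂ)) (y : ℂ) (z : ℂ) ↔ Sys t x y z := by
  have d1 : dot (fun i => (x i : ℂ)) (fun i => (x i : ℂ)) = ((dot x x : ℝ) : ℂ) := tc3_dot x x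
  have d2 : ∀ s, dot (tv (toC t) s) (fun i => (x i : ℂ)) = ((dot (tv t s) x : ℝ) : ℂ) :=
    fun s => tc3_dot (tv t s) x
  have d3 : ∀ s i, tv (toC t) s i = ((tv t s i : ℝ) : ℂ) := fun s i => rfl
  have d4 : ∀ s, ts (toC t) s = ((ts t s : ℝ) : ℂ) := fun s => rfl
  constructor
  · rintro ⟨h1, h2, h3⟩
    rw [d1, d2, d2, d4, d4] at h2 h3
    refine ⟨fun i => ?_, ?_, ?_⟩
    · have h := h1 i
      simp only [d3] at h
      exact_mod_cast h
    · exact_mod_cast h2
    · exact_mod_cast h3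
  · rintro ⟨h1, h2, h3⟩
    refine ⟨fun i => ?_, ?_, ?_⟩
    · simp only [d3]
      exact_mod_cast h1 i
    · rw [d1, d2, d2, d4, d4]
      exact_mod_cast h2
    · rw [d1, d2, d2, d4, d4]
      exact_mod_cast h3

private theorem tc3_pnt_real {n : ℕ} (u : (Fin n → ℝ) × ℝ × ℝ) : IsReal (pnt (tc3C u)) := by
  have he : ∀ a b : Fin 2, (ep a b : ℂ) = ((ep a b : ℝ) : ℂ) := by
    intro a b
    unfold ep
    split_ifs <;> simp
  intro i j k
  have h1 : vx (tc3C u).1 i = ((1 / ((n : ℝ) + 1) +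
      (1 / Real.sqrt (n + 1)) * ∑ l, u.1 l * fr n l i : ℝ) : ℂ) := by
    unfold vx tc3C
    push_cast
    rfl
  have h2 : ∀ (y : ℝ) (b : Fin 2), vy (y : ℂ) b = (((1 + ep 1 b * y) / 2 : ℝ) : ℂ) := by
    intro y b
    unfold vy
    rw [he]
    push_cast
    rfl
  have h3 : pnt (tc3C u) i j k = vx (tc3C u).1 i * vy (u.2.1 : ℂ) j * vy (u.2.2 : ℂ) k := rfl
  rw [h3, h1, h2, h2, ← Complex.ofReal_mul, ← Complex.ofReal_mul, Complex.ofReal_im]

/-- Proof. `pnt` of real coordinates is real and conversely (coordinates are obtained by summing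
and by contraction with the real vectors `fr`); `Sys (toC t)` for real coordinates is `Sys t`. -/
theorem realCrit_encard {n : ℕ} (T : Tensor n) (t : Tp n ℝ) (h : par T = toC t) :
    (realCrit T).encard = (Sol t).encard := by
  have h0 : realCrit T = (pnt ∘ tc3C) '' Sol t := by
    ext X
    constructor
    · rintro ⟨hX, hr⟩
      obtain ⟨⟨x, y, z⟩, rfl⟩ := exists_pnt T X hX
      obtain ⟨h1, h2, h3⟩ := tc3_real hr
      have hs := (isCritical_pnt T x y z).1 hX
      have e : ((x, y, z) : (Fin n → ℂ) × ℂ × ℂ) = tc3C (fun i => (x i).re, y.re, z.re) := by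
        refine Prod.ext (funext fun i => tc3_re (h1 i)) (Prod.ext (tc3_re h2) (tc3_re h3))
      have ex : x = fun i => (((x i).re : ℝ) : ℂ) := funext fun i => tc3_re (h1 i)
      have ey : y = ((y.re : ℝ) : ℂ) := tc3_re h2
      have ez : z = ((z.re : ℝ) : ℂ) := tc3_re h3
      rw [h, ex, ey, ez, tc3_sys] at hs
      exact ⟨(fun i => (x i).re, y.re, z.re), hs, congrArg pnt e.symm⟩
    · rintro ⟨⟨x, y, z⟩, hu, rfl⟩
      refine ⟨?_, tc3_pnt_real _⟩
      refine (isCritical_pnt T _ _ _).2 ?_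
      rw [h]
      exact (tc3_sys t x y z).2 hu
  rw [h0, (pnt_inj.comp tc3C_inj).encard_image]

/-- The linear form of a contraction. -/
private noncomputable def tc3L {n : ℕ} (u : Fin (n + 1) → ℂ) (s s' : Fin 2) :
    MvPolynomial (Fin (n + 1) × Fin 2 × Fin 2) ℂ :=
  ∑ i, ∑ j, ∑ k, MvPolynomial.X (i, j, k) * MvPolynomial.C (u i * ep s j * ep s' k)

private theorem tc3_evalL {n : ℕ} (T : Tensor n) (u : Fin (n + 1) → ℂ) (s s' : Fin 2) :
    MvPolynomial.eval (fun p => T p.1 p.2.1 p.2.2) (tc3L u s s') = ctr T u s s' := by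
  unfold tc3L ctr
  simp only [map_sum, map_mul, MvPolynomial.eval_X, MvPolynomial.eval_C]
  exact Finset.sum_congr rfl fun i _ => Finset.sum_congr rfl fun j _ =>
    Finset.sum_congr rfl fun k _ => by ring

/-- The linear forms of the parameters. -/
private noncomputable def tc3P (n : ℕ) :
    Idx n → MvPolynomial (Fin (n + 1) × Fin 2 × Fin 2) ℂ :=
  Sum.elim (fun si => MvPolynomial.C (Real.sqrt (n + 1) : ℂ) *
      tc3L (fun j => (fr n si.2 j : ℂ)) (iy si.1) (iz si.1))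
    ![tc3L (fun _ => 1) 1 0, tc3L (fun _ => 1) 0 1, tc3L (fun _ => 1) 1 1]

private theorem tc3_evalP {n : ℕ} (T : Tensor n) (q : Idx n) :
    MvPolynomial.eval (fun p => T p.1 p.2.1 p.2.2) (tc3P n q) = par T q := by
  rcases q with ⟨s, l⟩ | s
  · change MvPolynomial.eval _ (MvPolynomial.C (Real.sqrt (n + 1) : ℂ) *
      tc3L (fun j => (fr n l j : ℂ)) (iy s) (iz s)) =
      (Real.sqrt (n + 1) : ℂ) * ctr T (fun j => (fr n l j : ℂ)) (iy s) (iz s)
    rw [map_mul, MvPolynomial.eval_C, tc3_evalL]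
  · fin_cases s
    · exact tc3_evalL T _ _ _
    · exact tc3_evalL T _ _ _
    · exact tc3_evalL T _ _ _

/-- Proof. `P' = bind₁` of the linear forms `par T` in the entries of `T`. -/
theorem generic_of {n N : ℕ} (h : GenT n N) : IsGenericNumber n N := by
  obtain ⟨P, hP, hN⟩ := h
  have he : ∀ T : Tensor n, MvPolynomial.eval (fun p => T p.1 p.2.1 p.2.2)
      (MvPolynomial.bind₁ (tc3P n) P) = MvPolynomial.eval (par T) P := by
    intro T
    have h1 := MvPolynomial.eval₂Hom_bind₁ (RingHom.id ℂ)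
      (fun p : Fin (n + 1) × Fin 2 × Fin 2 => T p.1 p.2.1 p.2.2) (tc3P n) P
    refine h1.trans ?_
    refine congrArg (fun g : Idx n → ℂ => MvPolynomial.eval₂Hom (RingHom.id ℂ) g P) ?_
    exact funext fun q => tc3_evalP T q
  refine ⟨MvPolynomial.bind₁ (tc3P n) P, ?_, fun T hT hP' => ?_⟩
  · by_contra hcon
    simp only [not_exists, not_and, not_not] at hcon
    refine hP (MvPolynomial.funext fun t => ?_)
    have h2 := hcon (ten t) (total_ten t)
    rw [he, par_ten] at h2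
    rw [h2, map_zero]
  · rw [he] at hP'
    rw [crit_encard, hN _ hP']

end Pool.Agent.MPb0eP
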