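import Mathlib
import Pool.Agent.Lib.MP_b0e20b_ag_P.ElT
import Pool.Agent.Lib.MP_b0e20b_ag_P.LC
import Pool.Agent.Lib.MP_b0e20b_ag_P.Cn
import Pool.Agent.Lib.MP_b0e20b_ag_P.PD
import Pool.Agent.Lib.MP_b0e20b_ag_P.NY

/-!
# MP_b0e20b_ag, formats (n,1,1): no further solutions beside N nondegenerate ones
-/

set_option autoImplicit false

open scoped Topology
open MvPolynomial

namespace Pool.Agent.MPb0eP

/-- If the generic number is `N > 0` and `t` has `N` nondegenerate plane solutions with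
`(1+y²)(1+z²) ≠ 0`, then these are all solutions.

Proof. Suppose `Sys t x y z` and `(y, z) ∉ S`. Choose disjoint neighbourhoods of the points of `S`
and of `(y, z)`, those of the points of `S` inside `(1+y²)(1+z²) ≠ 0`. By `persist` (`Gp`,
`contDiff_Gp`, `bij_plane`) for all `t'` near `t` there is a plane solution in each neighbourhood of a
point of `S`, and this gives a solution of the critical system (`sys_iff`). By `near_generic` there is
such a `t'` with `eval t' P ≠ 0` and a solution whose `(y, z)` is in the last neighbourhood. So `t'` has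
at least `N + 1` solutions, a contradiction. (`hs` of `near_generic`: generic parameters exist by
`dense_ne` and have `N > 0` solutions.) -/
theorem ub {n N : ℕ} (hN : 0 < N) (hG : GenT n N) (t : Tp n ℂ) (S : Finset (ℂ × ℂ))
    (hS : NDS t S) (hc : S.card = N) (x : Fin n → ℂ) (y z : ℂ) (h : Sys t x y z) :
    (y, z) ∈ S := by
  classical
  by_contra hyz
  obtain ⟨P, hP, hPN⟩ := hG
  obtain ⟨U, hU, hdisj⟩ := (S.finite_toSet.insert (y, z)).t2_separation
  have hW : ∀ᶠ p in 𝓝 t, ∀ u ∈ S, ∃ w : ℂ × ℂ,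
      w ∈ U u ∧ (1 + w.1 ^ 2) * (1 + w.2 ^ 2) ≠ 0 ∧ Gp p w = 0 := by
    rw [Filter.eventually_all_finset]
    intro u hu
    obtain ⟨h1, h2, h3⟩ := hS u hu
    have hV : U u ∩ {w : ℂ × ℂ | (1 + w.1 ^ 2) * (1 + w.2 ^ 2) ≠ 0} ∈ 𝓝 u := by
      refine Filter.inter_mem ((hU u).2.mem_nhds (hU u).1) ?_
      exact (isOpen_ne_fun (by fun_prop) (by fun_prop)).mem_nhds h3
    obtain ⟨U', _, hsub, hev⟩ := persist (𝕜 := ℂ) (P := Tp n ℂ) (E := ℂ × ℂ)
      (fun p w => Gp p w) (contDiff_Gp n) t u (Prod.ext h1.1 h1.2) (bij_plane t u h2) _ hV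
    filter_upwards [hev] with p hp
    obtain ⟨w, ⟨hw1, hw2⟩, _⟩ := hp
    exact ⟨w, (hsub hw1).1, (hsub hw1).2, hw2⟩
  obtain ⟨t0, _, ht0⟩ := dense_ne P hP 0 Set.univ Filter.univ_mem
  have hne : (Sol t0).Nonempty := by
    rw [← Set.encard_pos, hPN t0 ht0]
    exact_mod_cast hN
  have hV : (fun v : (Fin n → ℂ) × ℂ × ℂ => v.2) ⁻¹' (U (y, z)) ∈ 𝓝 (x, y, z) :=
    continuous_snd.continuousAt.preimage_mem_nhds ((hU (y, z)).2.mem_nhds (hU (y, z)).1)
  obtain ⟨t', ht'W, ht'P, u', hu'V, hu'S⟩ :=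
    near_generic P ⟨t0, ht0, hne⟩ t x y z h _ hW _ hV
  have hW' : ∀ u ∈ S, ∃ w : ℂ × ℂ,
      w ∈ U u ∧ (1 + w.1 ^ 2) * (1 + w.2 ^ 2) ≠ 0 ∧ Gp t' w = 0 := ht'W
  choose! w hwU hwne hwG using hW'
  have hsol : ∀ u ∈ S, w u ∈ (fun v : (Fin n → ℂ) × ℂ × ℂ => v.2) '' Sol t' := by
    intro u hu
    have h1 := hwG u hu
    refine ⟨(fun i => Vv t' (w u).1 (w u).2 i / ((1 + (w u).1 ^ 2) * (1 + (w u).2 ^ 2)), w u),
      ?_, rfl⟩
    exact (sys_iff two_ne_zero t' _ _ _ (hwne u hu)).2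
      ⟨rfl, congrArg Prod.fst h1, congrArg Prod.snd h1⟩
  have hmem : ∀ u ∈ S, u ∈ insert (y, z) (S : Set (ℂ × ℂ)) := fun u hu =>
    Set.mem_insert_of_mem _ (Finset.mem_coe.2 hu)
  have hinj : Set.InjOn w S := by
    intro u hu v hv huv
    by_contra hne'
    have h1 := hdisj (hmem u hu) (hmem v hv) hne'
    exact Set.disjoint_left.1 h1 (hwU u hu) (huv ▸ hwU v hv)
  have hnot : u'.2 ∉ S.image w := by
    intro hin
    obtain ⟨u, hu, huw⟩ := Finset.mem_image.1 hin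
    have hne' : u ≠ (y, z) := fun he => hyz (he ▸ hu)
    have h1 := hdisj (hmem u hu) (Set.mem_insert _ _) hne'
    exact Set.disjoint_left.1 h1 (hwU u hu) (huw ▸ hu'V)
  have hcard : (insert u'.2 (S.image w)).card = N + 1 := by
    rw [Finset.card_insert_of_notMem hnot, Finset.card_image_of_injOn hinj, hc]
  have hsub : ((insert u'.2 (S.image w) : Finset (ℂ × ℂ)) : Set (ℂ × ℂ)) ⊆
      (fun v : (Fin n → ℂ) × ℂ × ℂ => v.2) '' Sol t' := by
    intro v hv
    rcases Finset.mem_insert.1 (Finset.mem_coe.1 hv) with h1 | h1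
    · rw [h1]
      exact ⟨u', hu'S, rfl⟩
    · obtain ⟨u, hu, huw⟩ := Finset.mem_image.1 h1
      rw [← huw]
      exact hsol u hu
  have hle := (Set.encard_le_encard hsub).trans (Set.encard_image_le _ _)
  rw [hPN t' ht'P, Set.encard_coe_eq_coe_finsetCard, hcard] at hle
  have hle' : N + 1 ≤ N := by exact_mod_cast hle
  omega

private theorem dot_toC {n : ℕ} (t : Tp n ℝ) (s s' : Fin 4) :
    dot (tv (toC t) s) (tv (toC t) s') = ((dot (tv t s) (tv t s') : ℝ) : ℂ) := by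
  simp [dot, tv, toC]

private theorem ts_toC {n : ℕ} (t : Tp n ℝ) (s : Fin 3) :
    ts (toC t) s = ((ts t s : ℝ) : ℂ) := rfl

private theorem E1_toC {n : ℕ} (t : Tp n ℝ) (a b : ℝ) :
    (pl (toC t)).E1 a b = (((pl t).E1 a b : ℝ) : ℂ) := by
  simp only [Pl.E1, pl, dot_toC, ts_toC]
  push_cast
  ring

private theorem E2_toC {n : ℕ} (t : Tp n ℝ) (a b : ℝ) :
    (pl (toC t)).E2 a b = (((pl t).E2 a b : ℝ) : ℂ) := by
  simp only [Pl.E2, Pl.swap, Pl.E1, pl, dot_toC, ts_toC]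
  push_cast
  ring

private theorem dJ_toC {n : ℕ} (t : Tp n ℝ) (a b : ℝ) :
    (pl (toC t)).dJ a b = (((pl t).dJ a b : ℝ) : ℂ) := by
  have h1 : (pl (toC t)).E1y a b = (((pl t).E1y a b : ℝ) : ℂ) := by
    simp only [Pl.E1y, pl, dot_toC, ts_toC]
    push_cast
    ring
  have h2 : (pl (toC t)).E1z a b = (((pl t).E1z a b : ℝ) : ℂ) := by
    simp only [Pl.E1z, pl, dot_toC, ts_toC]
    push_cast
    ring
  have h3 : (pl (toC t)).E2y a b = (((pl t).E2y a b : ℝ) : ℂ) := by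
    simp only [Pl.E2y, Pl.swap, Pl.E1z, pl, dot_toC, ts_toC]
    push_cast
    ring
  have h4 : (pl (toC t)).E2z a b = (((pl t).E2z a b : ℝ) : ℂ) := by
    simp only [Pl.E2z, Pl.swap, Pl.E1y, pl, dot_toC, ts_toC]
    push_cast
    ring
  simp only [Pl.dJ, h1, h2, h3, h4]
  push_cast
  ring

/-- Certified complex solutions give parameters with the right number of real solutions.

Proof. Let `t`, `S` be as in `RC`. Real plane solutions of `t` are complex plane solutions of `toC t`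
with real coordinates, they give solutions of `Sys` (`sys_iff`, `1+y² > 0` for real `y`), so lie in
`S` by `ub`; conversely the real elements of `S` are real plane solutions. Their Jacobian is not
zero. -/
theorem rg_of_rc {n k N : ℕ} (hN : 0 < N) (hG : GenT n N) (h : RC n k N) : RG n k := by
  obtain ⟨t, S, hS, hc, hk⟩ := h
  have hR : ∀ a b : ℝ, (a, b) ∈ (pl t).PSol → ((a : ℂ), (b : ℂ)) ∈ S := by
    intro a b hab
    have hne : (1 + (a : ℂ) ^ 2) * (1 + (b : ℂ) ^ 2) ≠ 0 := by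
      have h1 : (1 + a ^ 2) * (1 + b ^ 2) ≠ 0 := by positivity
      exact_mod_cast h1
    have hps : ((a : ℂ), (b : ℂ)) ∈ (pl (toC t)).PSol := by
      refine ⟨?_, ?_⟩
      · change (pl (toC t)).E1 a b = 0
        rw [E1_toC, show (pl t).E1 a b = 0 from hab.1, Complex.ofReal_zero]
      · change (pl (toC t)).E2 a b = 0
        rw [E2_toC, show (pl t).E2 a b = 0 from hab.2, Complex.ofReal_zero]
    exact ub hN hG (toC t) S hS hc _ a b ((sys_iff two_ne_zero (toC t) _ _ _ hne).2 ⟨rfl, hps⟩)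
  have himg : (fun u : ℝ × ℝ => ((u.1 : ℂ), (u.2 : ℂ))) '' (pl t).PSol =
      {u : ℂ × ℂ | u ∈ S ∧ u.1.im = 0 ∧ u.2.im = 0} := by
    ext u
    constructor
    · rintro ⟨⟨a, b⟩, hab, rfl⟩
      exact ⟨hR a b hab, Complex.ofReal_im a, Complex.ofReal_im b⟩
    · rintro ⟨hu, h1, h2⟩
      have e1 : ((u.1.re : ℝ) : ℂ) = u.1 := Complex.ext rfl (by simp [h1])
      have e2 : ((u.2.re : ℝ) : ℂ) = u.2 := Complex.ext rfl (by simp [h2])
      refine ⟨(u.1.re, u.2.re), ⟨?_, ?_⟩, Prod.ext e1 e2⟩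
      · change (pl t).E1 u.1.re u.2.re = 0
        have h3 := (hS u hu).1.1
        rw [← e1, ← e2, E1_toC] at h3
        exact_mod_cast h3
      · change (pl t).E2 u.1.re u.2.re = 0
        have h3 := (hS u hu).1.2
        rw [← e1, ← e2, E2_toC] at h3
        exact_mod_cast h3
  have hinj : Function.Injective (fun u : ℝ × ℝ => ((u.1 : ℂ), (u.2 : ℂ))) := by
    rintro ⟨a, b⟩ ⟨a', b'⟩ hab
    simp only [Prod.mk.injEq, Complex.ofReal_inj] at hab
    exact Prod.ext hab.1 hab.2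
  refine ⟨t, ?_, ?_⟩
  · rw [← hinj.encard_image, himg, hk]
  · rintro ⟨a, b⟩ hab h0
    have h1 := (hS _ (hR a b hab)).2.1
    apply h1
    change (pl (toC t)).dJ a b = 0
    rw [dJ_toC, show (pl t).dJ a b = 0 from h0, Complex.ofReal_zero]

end Pool.Agent.MPb0eP
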