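import Mathlib
import Pool.Agent.Lib.MP_b0e20b_ag_P.G1
import Pool.Agent.Lib.MP_b0e20b_ag_P.G2
import Pool.Agent.Lib.MP_b0e20b_ag_P.UB
import Pool.Agent.Lib.MP_b0e20b_ag_P.At
import Pool.Agent.Lib.MP_b0e20b_ag_P.Tc3
import Pool.Agent.Lib.MP_b0e20b_ag_P.Par
import Pool.Agent.Lib.MP_b0e20b_ag_P.D1
import Pool.Agent.Lib.MP_b0e20b_ag_P.D3
import Pool.Agent.Lib.MP_b0e20b_ag_P.D5
import Pool.Agent.Lib.MP_b0e20b_ag_P.D7
import Pool.Agent.Lib.MP_b0e20b_ag_P.D9
import Pool.Agent.Lib.MP_b0e20b_ag_P.D11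
import Pool.Agent.Lib.MP_b0e20b_ag_P.D13
import Pool.Agent.Lib.MP_b0e20b_ag_P.D15
import Pool.Agent.Lib.MP_b0e20b_ag_P.D17
import Pool.Agent.Lib.MP_b0e20b_ag_P.D19
import Pool.Agent.Lib.MP_b0e20b_ag_P.D21
import Pool.Agent.Lib.MP_b0e20b_ag_P.D23
import Pool.Agent.Lib.MP_b0e20b_ag_P.D25

/-!
# MP_b0e20b_ag, tensors of format (n + 1) x 2 x 2: assembly
-/

set_option autoImplicit false

namespace Pool.Agent.MPb0eP

/-- The generic number of critical points: `17` for `n = 1`, `25` for `n ≥ 2`. -/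
def gnum (n : ℕ) : ℕ := if n = 1 then 17 else 25

theorem gen_all (n : ℕ) (hn : 1 ≤ n) : GenT n (gnum n) := by
  unfold gnum
  split_ifs with h
  · subst h
    exact gen1
  · exact gen2 n (by omega)

theorem rg_pad_le {n m k : ℕ} (h : RG n k) (hm : n ≤ m) : RG m k := by
  induction hm with
  | refl => exact h
  | step _ ih => exact rg_pad ih

theorem rg1 (k : ℕ) (hk : Odd k) (h17 : k ≤ 17) : RG 1 k := by
  have key : RC 1 k 17 := by
    obtain ⟨m, rfl⟩ := hk
    have hm : m ≤ 8 := by omega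
    interval_cases m
    · exact rc1
    · exact rc3
    · exact rc5
    · exact rc7
    · exact rc9
    · exact rc11
    · exact rc13
    · exact rc15
    · exact rc17
  exact rg_of_rc (by norm_num) gen1 key

theorem rg2 (k : ℕ) (hk : Odd k) (h19 : 19 ≤ k) (h25 : k ≤ 25) : RG 2 k := by
  have key : RC 2 k 25 := by
    obtain ⟨m, rfl⟩ := hk
    have hm : m ≤ 12 := by omega
    have hm' : 9 ≤ m := by omega
    interval_cases m
    · exact rc19
    · exact rc21
    · exact rc23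
    · exact rc25
  exact rg_of_rc (by norm_num) (gen2 2 le_rfl) key

theorem rg_all (n : ℕ) (hn : 1 ≤ n) (k : ℕ) (hk : Odd k) (hkN : k ≤ gnum n) : RG n k := by
  unfold gnum at hkN
  split_ifs at hkN with h
  · subst h
    exact rg1 k hk hkN
  · rcases Nat.lt_or_ge k 19 with h19 | h19
    · exact rg_pad_le (rg1 k hk (by obtain ⟨m, rfl⟩ := hk; omega)) hn
    · exact rg_pad_le (rg2 k hk h19 hkN) (by omega)

/-- The answer for the formats `(n, 1, 1)`. -/
theorem main (n : ℕ) (hn : 1 ≤ n) :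
    IsGenericNumber n (gnum n) ∧ ∀ k : ℕ,
      (∃ T : Tensor n, total T = 1 ∧ IsReal T ∧ (crit T).encard = gnum n ∧
        (realCrit T).encard = k) ↔ Odd k ∧ k ≤ gnum n := by
  have hodd : Odd (gnum n) := by
    unfold gnum
    split_ifs
    · exact ⟨8, rfl⟩
    · exact ⟨12, rfl⟩
  refine ⟨generic_of (gen_all n hn), fun k => ⟨?_, ?_⟩⟩
  · rintro ⟨T, _, hr, h1, h2⟩
    exact parity T hr h1 h2 hodd
  · rintro ⟨hk, hkN⟩
    obtain ⟨t, h1, h2⟩ := att (gen_all n hn) (rg_all n hn k hk hkN)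
    refine ⟨ten (toC t), total_ten _, isReal_ten t, ?_, ?_⟩
    · rw [crit_encard, par_ten]
      exact h1
    · rw [realCrit_encard (ten (toC t)) t (par_ten _)]
      exact h2

end Pool.Agent.MPb0eP
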